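import Pool.Agent.Cover.Edges

/-!
The deterministic part: a set `A` satisfying the counting hypotheses is not a covering tile.
-/

namespace Cover

open Finset
open scoped Classical

set_option linter.unusedSectionVars false

variable {G : Type*} [AddCommGroup G] [Fintype G] {k : ℕ}

/-- The numbers of tuples are as expected. -/
def CntGood (J L : ℕ) (b ε : ℝ) (C' : ℕ) (a : Fin k → G) : Prop :=
  ∀ Tp : Finset G, Tp.card ≤ C' * k → ∀ T : Fin J → Finset G, (∀ l, T l ⊆ Tp) →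
    |((FF a Tp (rich a Tp b) L T).card : ℝ) -
      Fintype.card G * ∏ l, ((T l).card : ℝ) / k| ≤ ε * Fintype.card G

/-- Ordered independent sequences of cells in `S`. -/
noncomputable def ind (a : Fin k → G) (R S : Finset G) (r : ℕ) (x : G) : ℕ :=
  (seqs (adjx a R x) (idx a S x) r).card

lemma sum_clean_est [Nonempty G] (hk : 0 < k) {r₀ : ℕ} {a : Fin k → G} (hd : DiffBd r₀ a)
    (L : ℕ) (b ε e₀ : ℝ) (C' mR Jm : ℕ) (hL : 0 < L)
    (hCnt : ∀ J ≤ Jm, CntGood J L b ε C' a) {Y S Tp : Finset G} (hTp : Tp.card ≤ C' * k)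
    (hYR : Y ⊆ rich a Tp b) (hS : Disjoint S (plus a Y)) (hYT : plus a Y ⊆ Tp) (hST : S ⊆ Tp)
    (hR : (rich a Tp b).card ≤ mR)
    (hreg : ((k : ℝ) * mR + k * (mR ^ 2 * r₀)) * (L : ℝ) ^ Jm ≤ e₀ * Fintype.card G)
    (l r : ℕ) (hlr : l + r ≤ Jm) :
    |∑ x ∈ clean a Tp (rich a Tp b) L, 2 ^ l * ((units a Y x).descFactorial l : ℝ) *
      (ind a (rich a Tp b) S r x : ℝ) -
      (Fintype.card G * (((S.card : ℝ) / k) ^ r)) * (((plus a Y).card : ℝ) / k) ^ l| ≤
      (ε + e₀) * Fintype.card G := by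
  set R := rich a Tp b with hRdef
  have h1 := card_FF_clean hk hd hYR hS hYT hST L l r
  have h2 := hCnt (l + r) hlr Tp hTp (Fin.append (fun _ : Fin l => plus a Y) (fun _ : Fin r => S))
    (by
      intro i
      refine Fin.addCases (fun i => ?_) (fun i => ?_) i
      · rw [Fin.append_left]; exact hYT
      · rw [Fin.append_right]; exact hST)
  rw [Fin.prod_univ_add] at h2
  simp only [Fin.append_left, Fin.append_right, Finset.prod_const, Finset.card_univ,
    Fintype.card_fin] at h2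
  set F := FF a Tp R L (Fin.append (fun _ : Fin l => plus a Y) (fun _ : Fin r => S)) with hF
  have h3 : ∑ x ∈ clean a Tp R L, 2 ^ l * ((units a Y x).descFactorial l : ℝ) *
      (ind a R S r x : ℝ) = ((∑ x ∈ clean a Tp R L, 2 ^ l * (units a Y x).descFactorial l *
      (seqs (adjx a R x) (idx a S x) r).card : ℕ) : ℝ) := by
    push_cast
    rfl
  set Sg := (∑ x ∈ clean a Tp R L, 2 ^ l * (units a Y x).descFactorial l *
      (seqs (adjx a R x) (idx a S x) r).card) with hSg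
  have h4 : (Sg : ℝ) ≤ (F.card : ℝ) := by exact_mod_cast h1.1
  have h5 : (F.card : ℝ) ≤ (Sg : ℝ) + e₀ * Fintype.card G := by
    have h6 : (F.card : ℝ) ≤ (Sg : ℝ) + ((k : ℝ) * R.card + k * (R.card ^ 2 * r₀)) *
        (L : ℝ) ^ (l + r) := by exact_mod_cast h1.2
    refine h6.trans (add_le_add le_rfl (le_trans ?_ hreg))
    have h7 : (R.card : ℝ) ≤ mR := by exact_mod_cast hR
    have h8 : (1 : ℝ) ≤ L := by exact_mod_cast hL
    gcongr
  rw [h3]
  rw [abs_le] at h2 ⊢
  constructor <;> linarith [h2.1, h2.2]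

lemma Wc_sum {a : Fin k → G} {Tp Y R : Finset G} (hYR : Y ⊆ R) (L : ℕ) (f : G → ℝ) :
    ∑ x ∈ Wc a Tp R Y L, f x = ∑ x ∈ clean a Tp R L, (if units a Y x = 0 then f x else 0) := by
  unfold Wc
  rw [Finset.sum_filter]
  refine Finset.sum_congr rfl fun x hx => ?_
  have hreg := ((Finset.mem_filter.mp hx).2).2
  by_cases h : units a Y x = 0
  · rw [if_pos h, if_pos ((units_eq_zero_iff hYR hreg).mp h)]
  · rw [if_neg h, if_neg (fun h' => h ((units_eq_zero_iff hYR hreg).mpr h'))]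

theorem no_cover [Nonempty G] (hk : 0 < k) (hkn : (k : ℝ) ^ 2 ≤ Fintype.card G)
    {a : Fin k → G} (C K J₀ m r₀ mR L r' : ℕ) (b ε' ε e₀ τ g₀ σ η s t : ℝ)
    (hC : 1 ≤ C) (hL : 0 < L) (hJ₀ : Odd J₀)
    (hd : DiffBd r₀ a)
    (hCnt : ∀ J ≤ m + 1 + 2 * J₀, CntGood J L b ε (C + K) a)
    (hDB : DBgood K r' η s t a)
    (hε' : 0 < ε') (hb : b ≤ ε' * k) (hε0 : 0 ≤ ε) (he₀ : 0 ≤ e₀)
    (hK : (C : ℝ) * k + (K : ℝ) ^ 2 * r₀ < K * (ε' * k))
    (hR : ((C : ℝ) + K) * k + (mR : ℝ) ^ 2 * r₀ < mR * b)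
    (hreg : ((k : ℝ) * mR + k * (mR ^ 2 * r₀)) * (L : ℝ) ^ (m + 1 + 2 * J₀) ≤
      e₀ * Fintype.card G)
    (hτ : (C : ℝ) ^ (2 * J₀) * (((K : ℝ) / 2) ^ (m + 1) / ((m + 1).factorial : ℝ)) ≤ τ)
    (hg₀ : 0 < g₀) (hg : ∀ κ : ℝ, 0 ≤ κ → κ ≤ K → g₀ ≤ te m (-κ / 2))
    (hσ0 : 0 < σ) (hσ : ∀ c : ℝ, 0 ≤ c → c ≤ C → 2 * σ ≤ te J₀ (-c))
    (ht : 0 ≤ t) (hη : 0 < η) (hs : 0 ≤ s)
    (hsmall1 : 2 * (3 * (ε + e₀) + τ) + 2 * (ε + e₀) + 3 * (t / Fintype.card G) + √η ≤ 2 * g₀)
    (hsmall2 : 3 * (3 * (ε + e₀) + τ) ≤ σ * g₀ / 2)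
    (hr' : r' ≤ k) (hmR : (mR : ℝ) ^ 2 * r₀ ≤ k)
    (he₃ : mR * ((r' : ℝ) ^ 2 * √((k : ℝ) ^ 3 * (1 + 2 * s +
        k * (2 * t ^ 2 / (η ^ 2 * (Fintype.card G : ℝ) ^ 2))))) ≤ g₀ * √ε' * Fintype.card G)
    (hβ : ((J₀ : ℝ) + 1) * √(2 * (9 * (C + 1) * √ε') *
      ((8 * J₀) ^ (2 * J₀) + 4 ^ J₀ * C ^ (2 * J₀))) ≤ σ / 2)
    (T : Finset G) (hT : T.card ≤ C * k) : ∃ x, ∀ i, x - a i ∉ T := by
  have hn : (0 : ℝ) < (Fintype.card G : ℝ) := by exact_mod_cast Fintype.card_pos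
  have hk0 : (0 : ℝ) < k := by exact_mod_cast hk
  have hC1 : (1 : ℝ) ≤ C := by exact_mod_cast hC
  set n : ℝ := (Fintype.card G : ℝ) with hn_def
  have hT' : (T.card : ℝ) ≤ C * k := by exact_mod_cast hT
  -- the rich translates
  set Y := rich a T (ε' * k) with hY
  have hYc : Y.card < K := by
    apply card_rich_lt hd
    linarith
  have hYc' : (Y.card : ℝ) ≤ K := by exact_mod_cast hYc.le
  set S := T \ plus a Y with hS
  set Tp := T ∪ plus a Y with hTp
  have hplus : (plus a Y).card ≤ K * k := by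
    refine (card_plus_le a Y).trans ?_
    rw [mul_comm]
    exact Nat.mul_le_mul_right _ hYc.le
  have hplus' : ((plus a Y).card : ℝ) ≤ K * k := by exact_mod_cast hplus
  have hTpc : Tp.card ≤ (C + K) * k := by
    refine (Finset.card_union_le _ _).trans ?_
    rw [add_mul]
    exact add_le_add hT hplus
  have hTpc' : (Tp.card : ℝ) ≤ (C + K) * k := by exact_mod_cast hTpc
  set R := rich a Tp b with hRdef
  have hRc : R.card < mR := by
    apply card_rich_lt hd
    linarith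
  have hRc' : (R.card : ℝ) ≤ mR := by exact_mod_cast hRc.le
  have hYR : Y ⊆ R := by
    intro y hy
    have h1 := (Finset.mem_filter.mp hy).2
    rw [hRdef]
    unfold rich
    rw [Finset.mem_filter]
    refine ⟨Finset.mem_univ _, ?_⟩
    have h2 : tau a T y ≤ tau a Tp y := by
      unfold tau
      apply Finset.card_le_card
      intro i hi
      rw [Finset.mem_filter] at hi ⊢
      exact ⟨hi.1, Finset.mem_union_left _ hi.2⟩
    have h3 : (tau a T y : ℝ) ≤ tau a Tp y := by exact_mod_cast h2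
    linarith
  have hdis : Disjoint S (plus a Y) := Finset.sdiff_disjoint
  have hYT : plus a Y ⊆ Tp := Finset.subset_union_right
  have hST : S ⊆ T := Finset.sdiff_subset
  have hSTp : S ⊆ Tp := hST.trans Finset.subset_union_left
  have hSc : (S.card : ℝ) ≤ C * k := by
    have : S.card ≤ T.card := Finset.card_le_card hST
    have : (S.card : ℝ) ≤ T.card := by exact_mod_cast this
    linarith
  set κ : ℝ := ((plus a Y).card : ℝ) / k with hκ
  set c₀ : ℝ := (S.card : ℝ) / k with hc₀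
  have hκ0 : 0 ≤ κ := by positivity
  have hκK : κ ≤ K := by rw [hκ, div_le_iff₀ hk0]; exact hplus'
  have hc₀0 : 0 ≤ c₀ := by positivity
  have hc₀C : c₀ ≤ C := by rw [hc₀, div_le_iff₀ hk0]; exact hSc
  set e : ℝ := ε + e₀ with he
  have he0 : 0 ≤ e := by positivity
  set e₁ : ℝ := 3 * e + τ with he₁
  have hτ0 : 0 ≤ τ := le_trans (by positivity) hτ
  have he₁0 : 0 ≤ e₁ := by positivity
  set g : ℝ := te m (-κ / 2) with hgdef
  have hgg : g₀ ≤ g := hg κ hκ0 hκK
  have hg0 : 0 < g := by linarith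
  -- moments
  have hmom : ∀ l r : ℕ, l ≤ m + 1 → r ≤ 2 * J₀ →
      |∑ x ∈ clean a Tp R L, 2 ^ l * ((units a Y x).descFactorial l : ℝ) *
      (ind a R S r x : ℝ) - (n * c₀ ^ r) * κ ^ l| ≤ e * n := by
    intro l r hl hr
    exact sum_clean_est hk hd L b ε e₀ (C + K) mR (m + 1 + 2 * J₀) hL hCnt hTpc hYR hdis hYT hSTp
      hRc.le hreg l r (by omega)
  set Gr : ℕ → ℝ := fun r => ∑ x ∈ Wc a Tp R Y L, (ind a R S r x : ℝ) with hGr
  have hcr : ∀ r ≤ 2 * J₀, c₀ ^ r ≤ (C : ℝ) ^ (2 * J₀) := by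
    intro r hr
    calc c₀ ^ r ≤ (C : ℝ) ^ r := by gcongr
      _ ≤ _ := pow_le_pow_right₀ hC1 hr
  have hGr_est : ∀ r ≤ 2 * J₀, |Gr r - n * c₀ ^ r * g| ≤ e₁ * n := by
    intro r hr
    have h1 := sieve_units (clean a Tp R L) (units a Y) (fun x => (ind a R S r x : ℝ))
      (fun x => by positivity) m κ (n * c₀ ^ r) (e * n) (by positivity) hκ0 (by positivity)
      (fun l hl => hmom l r hl hr)
    simp only [hGr]
    rw [Wc_sum hYR]
    refine h1.trans ?_
    have h2 : n * c₀ ^ r * ((κ / 2) ^ (m + 1) / ((m + 1).factorial : ℝ)) ≤ n * τ := by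
      rw [mul_assoc]
      gcongr
      refine le_trans ?_ hτ
      have := hcr r hr
      gcongr
    rw [he₁]
    linarith
  -- size of `Wc`
  have hWc : Gr 0 = ((Wc a Tp R Y L).card : ℝ) := by
    simp only [hGr, ind, card_seqs_zero]
    simp
  have hW0 := hGr_est 0 (by omega)
  rw [hWc, pow_zero, mul_one] at hW0
  have hWle : ((Wc a Tp R Y L).card : ℝ) ≤ 2 * g * n := by
    have := (abs_le.mp hW0).2
    have h3 : e₁ ≤ g := by
      have : 0 ≤ √η := Real.sqrt_nonneg _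
      have : 0 ≤ t / n := by positivity
      linarith
    have h4 : e₁ * n ≤ g * n := mul_le_mul_of_nonneg_right h3 hn.le
    linarith
  -- number of points which are not clean
  have hclean : n - e * n ≤ ((clean a Tp R L).card : ℝ) := by
    have h1 := hmom 0 0 (by omega) (by omega)
    simp only [pow_zero, Nat.descFactorial_zero, Nat.cast_one, mul_one, ind, card_seqs_zero] at h1
    rw [Finset.sum_const, nsmul_eq_mul, mul_one] at h1
    linarith [(abs_le.mp h1).1]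
  have hWset : ((Wset a Y).card : ℝ) ≤ ((Wc a Tp R Y L).card : ℝ) + e * n := by
    have h1 : Wset a Y ⊆ Wc a Tp R Y L ∪ (clean a Tp R L)ᶜ := by
      intro x hx
      rw [Finset.mem_union, Finset.mem_compl]
      by_cases h : x ∈ clean a Tp R L
      · left
        unfold Wc
        rw [Finset.mem_filter]
        exact ⟨h, hx⟩
      · right; exact h
    have h2 := (Finset.card_le_card h1).trans (Finset.card_union_le _ _)
    have h3 : ((clean a Tp R L)ᶜ.card : ℝ) = n - (clean a Tp R L).card := by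
      rw [Finset.card_compl, Nat.cast_sub (Finset.card_le_univ _)]
    have h4 : ((Wset a Y).card : ℝ) ≤ (Wc a Tp R Y L).card + ((clean a Tp R L)ᶜ.card : ℝ) := by
      exact_mod_cast h2
    linarith
  obtain ⟨hDB1, hDB2⟩ := hDB Y hYc.le
  rw [← hn_def] at hDB1 hDB2
  set w := wS k Y with hw
  have hw0 : 0 ≤ w := wS_nonneg _ _
  have hwle : w ≤ g + e₁ + e + t / n := by
    have h1 := (abs_le.mp hDB1).1
    have h2 := (abs_le.mp hW0).2
    have h3 : w * n ≤ (g + e₁ + e + t / n) * n := by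
      have : (g + e₁ + e + t / n) * n = g * n + e₁ * n + e * n + t := by
        field_simp
      rw [this]
      linarith
    exact le_of_mul_le_mul_right h3 hn
  set ϖ := (2 * w + t / n + √η) * √(2 * k + 2 * r') with hϖ
  have hϖle : ϖ ≤ 4 * g * (2 * √k) := by
    rw [hϖ]
    have h1 : √(2 * (k : ℝ) + 2 * r') ≤ 2 * √k := by
      have h2 : (r' : ℝ) ≤ k := by exact_mod_cast hr'
      have h3 : √(2 * (k : ℝ) + 2 * r') ≤ √(2 ^ 2 * k) := by
        apply Real.sqrt_le_sqrt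
        linarith
      rwa [Real.sqrt_mul (by positivity), Real.sqrt_sq (by norm_num)] at h3
    have h2 : 2 * w + t / n + √η ≤ 4 * g := by
      linarith
    have h3 : 0 ≤ t / n := by positivity
    have h4 : 0 ≤ √η := Real.sqrt_nonneg _
    gcongr
  have hϖ0 : 0 ≤ ϖ := by positivity
  set e₃ := (r' : ℝ) ^ 2 * √((k : ℝ) ^ 3 * (1 + 2 * s + k * (2 * t ^ 2 / (η ^ 2 * n ^ 2))))
    with he₃def
  have hE := card_edg_le hd (R := R) (Tp := Tp) hST L ϖ e₃ (ε' * k) hϖ0 (by positivity)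
    (fun y B => hDB2 y B) (by
      intro y hy
      rw [hY] at hy
      unfold rich at hy
      rw [Finset.mem_filter, not_and] at hy
      exact not_lt.mp (hy (Finset.mem_univ _)))
  set E := edg a Tp R Y S L with hEdef
  have hEle : (E.card : ℝ) ≤ 9 * (C + 1) * √ε' * g * n := by
    refine hE.trans ?_
    have h1 : ϖ * √(ε' * k) * ((T.card : ℝ) + (R.card : ℝ) ^ 2 * r₀) ≤
        8 * (C + 1) * √ε' * g * n := by
      have h2 : (T.card : ℝ) + (R.card : ℝ) ^ 2 * r₀ ≤ (C + 1) * k := by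
        have h3 : (R.card : ℝ) ^ 2 * r₀ ≤ (mR : ℝ) ^ 2 * r₀ := by gcongr
        linarith
      calc ϖ * √(ε' * k) * ((T.card : ℝ) + (R.card : ℝ) ^ 2 * r₀)
          ≤ (4 * g * (2 * √k)) * √(ε' * k) * ((C + 1) * k) := by gcongr
        _ = 8 * (C + 1) * √ε' * g * ((√k * √k) * k) := by
            rw [Real.sqrt_mul hε'.le]
            ring
        _ = 8 * (C + 1) * √ε' * g * (k ^ 2) := by
            rw [Real.mul_self_sqrt hk0.le]
            ring
        _ ≤ 8 * (C + 1) * √ε' * g * n := by gcongr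
    have h2 : (R.card : ℝ) * e₃ ≤ (C + 1) * √ε' * g * n := by
      have h3 : (R.card : ℝ) * e₃ ≤ mR * e₃ := by gcongr
      refine (h3.trans he₃).trans ?_
      have h4 : g₀ * √ε' * n ≤ g * √ε' * n := by gcongr
      refine h4.trans ?_
      have h5 : 0 ≤ g * √ε' * n := by positivity
      calc g * √ε' * n = 1 * (g * √ε' * n) := (one_mul _).symm
        _ ≤ ((C : ℝ) + 1) * (g * √ε' * n) := by
            apply mul_le_mul_of_nonneg_right _ h5
            linarith
        _ = _ := by ring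
    linarith
  -- the second sieve
  have hWreg : ∀ x ∈ Wc a Tp R Y L, Reg a R x := by
    intro x hx
    exact ((Finset.mem_filter.mp (Finset.mem_filter.mp hx).1).2).2
  have hsv := sieve_cells (Wc a Tp R Y L) (fun x => (idx a S x).card) (fun r x => ind a R S r x) E
    (Finset.filter_subset _ _) (fun r x => card_seqs_le _ _ _) (by
      intro r x hx hxE
      unfold ind
      apply card_seqs_free
      · intro i hi j hj hij
        apply hxE
        rw [hEdef]
        unfold edg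
        rw [Finset.mem_filter]
        exact ⟨hx, i, hi, j, hj, hij⟩
      · exact adjx_symm a R x) (by
      intro r x hx
      exact desc_sq_le (adjx_symm a R x) ((hWreg x hx).mat _) r) J₀ hJ₀
  set M : ℝ := (8 * J₀) ^ (2 * J₀) + 4 ^ J₀ * C ^ (2 * J₀) with hM
  have hterm : ∀ r ∈ range (J₀ + 1), √((E.card : ℝ) * ((8 * r) ^ (2 * r) *
      (Wc a Tp R Y L).card + 4 ^ r * Gr (2 * r))) ≤
      √(2 * (9 * (C + 1) * √ε') * M) * (g * n) := by
    intro r hr
    have hr' : r ≤ J₀ := by have := Finset.mem_range.mp hr; omega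
    have hrR : (r : ℝ) ≤ J₀ := by exact_mod_cast hr'
    have hJ1 : 1 ≤ J₀ := hJ₀.pos
    have hJ1' : (1 : ℝ) ≤ 8 * J₀ := by
      have : (1 : ℝ) ≤ J₀ := by exact_mod_cast hJ1
      linarith
    have h1 : Gr (2 * r) ≤ 2 * C ^ (2 * J₀) * g * n := by
      have h2 := (abs_le.mp (hGr_est (2 * r) (by omega))).2
      have h3 := hcr (2 * r) (by omega)
      have h4 : e₁ ≤ g := by
        have : 0 ≤ √η := Real.sqrt_nonneg _
        have : 0 ≤ t / n := by positivity
        linarith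
      have h5 : (1 : ℝ) ≤ C ^ (2 * J₀) := one_le_pow₀ hC1
      have h6 : n * c₀ ^ (2 * r) * g ≤ n * C ^ (2 * J₀) * g := by gcongr
      have h7 : e₁ * n ≤ C ^ (2 * J₀) * g * n := by
        have : e₁ ≤ C ^ (2 * J₀) * g := by
          calc e₁ ≤ g := h4
            _ = 1 * g := (one_mul _).symm
            _ ≤ _ := by gcongr
        gcongr
      linarith
    have h2 : (8 * (r : ℝ)) ^ (2 * r) ≤ (8 * J₀) ^ (2 * J₀) := by
      calc (8 * (r : ℝ)) ^ (2 * r) ≤ (8 * J₀) ^ (2 * r) := by gcongr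
        _ ≤ _ := pow_le_pow_right₀ hJ1' (by omega)
    have h3 : (4 : ℝ) ^ r ≤ 4 ^ J₀ := pow_le_pow_right₀ (by norm_num) hr'
    have hGr0 : 0 ≤ Gr (2 * r) := Finset.sum_nonneg fun x _ => Nat.cast_nonneg _
    have h4 : (E.card : ℝ) * ((8 * r) ^ (2 * r) * (Wc a Tp R Y L).card + 4 ^ r * Gr (2 * r)) ≤
        (2 * (9 * (C + 1) * √ε') * M) * (g * n) ^ 2 := by
      calc (E.card : ℝ) * ((8 * r) ^ (2 * r) * (Wc a Tp R Y L).card + 4 ^ r * Gr (2 * r))
          ≤ (9 * (C + 1) * √ε' * g * n) * ((8 * J₀) ^ (2 * J₀) * (2 * g * n) +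
            4 ^ J₀ * (2 * C ^ (2 * J₀) * g * n)) := by gcongr
        _ = _ := by rw [hM]; ring
    calc _ ≤ √((2 * (9 * (C + 1) * √ε') * M) * (g * n) ^ 2) := Real.sqrt_le_sqrt h4
      _ = _ := by
          rw [Real.sqrt_mul (by positivity), Real.sqrt_sq (by positivity)]
  have hmain : n * (g * te J₀ (-c₀) - 3 * e₁) ≤
      ∑ r ∈ range (J₀ + 1), (-1 : ℝ) ^ r * (Gr r / (r.factorial : ℝ)) := by
    have h1 : ∑ r ∈ range (J₀ + 1), (-1 : ℝ) ^ r * (Gr r / (r.factorial : ℝ)) -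
        n * (g * te J₀ (-c₀)) = ∑ r ∈ range (J₀ + 1), (-1 : ℝ) ^ r *
          ((Gr r - n * c₀ ^ r * g) * (1 / (r.factorial : ℝ))) := by
      unfold te
      rw [Finset.mul_sum, Finset.mul_sum, ← Finset.sum_sub_distrib]
      refine Finset.sum_congr rfl fun r _ => ?_
      rw [neg_pow c₀ r]
      ring
    have h2 : |∑ r ∈ range (J₀ + 1), (-1 : ℝ) ^ r *
          ((Gr r - n * c₀ ^ r * g) * (1 / (r.factorial : ℝ)))| ≤ e₁ * n * 3 := by
      refine (Finset.abs_sum_le_sum_abs _ _).trans ?_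
      calc ∑ r ∈ range (J₀ + 1), |(-1 : ℝ) ^ r *
          ((Gr r - n * c₀ ^ r * g) * (1 / (r.factorial : ℝ)))|
          ≤ ∑ r ∈ range (J₀ + 1), (e₁ * n) * (1 / (r.factorial : ℝ)) := by
            refine Finset.sum_le_sum fun r hr => ?_
            have hr' := Finset.mem_range.mp hr
            rw [abs_mul, abs_pow, abs_neg, abs_one, one_pow, one_mul, abs_mul]
            have h3 : (0 : ℝ) ≤ 1 / (r.factorial : ℝ) := by positivity
            rw [abs_of_nonneg h3]
            exact mul_le_mul_of_nonneg_right (hGr_est r (by omega)) h3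
        _ = (e₁ * n) * ∑ r ∈ range (J₀ + 1), (1 / (r.factorial : ℝ)) := by
            rw [Finset.mul_sum]
        _ ≤ _ := by
            gcongr
            exact sum_inv_fact_le J₀
    have h3 := (abs_le.mp h2).1
    linarith
  have hpos : 0 < (((Wc a Tp R Y L).filter fun x => (idx a S x).card = 0).card : ℝ) := by
    refine lt_of_lt_of_le ?_ hsv
    have h1 : ∑ r ∈ range (J₀ + 1), √((E.card : ℝ) * ((8 * r) ^ (2 * r) *
      (Wc a Tp R Y L).card + 4 ^ r * Gr (2 * r))) ≤ σ / 2 * (g * n) := by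
      calc _ ≤ ∑ _r ∈ range (J₀ + 1), √(2 * (9 * (C + 1) * √ε') * M) * (g * n) :=
            Finset.sum_le_sum hterm
        _ = ((J₀ : ℝ) + 1) * √(2 * (9 * (C + 1) * √ε') * M) * (g * n) := by
            rw [Finset.sum_const, Finset.card_range, nsmul_eq_mul]
            push_cast
            ring
        _ ≤ _ := by gcongr
    have h2 := hσ c₀ hc₀0 hc₀C
    have h3 : σ * g₀ / 2 ≤ σ * g / 2 := by gcongr
    have h4 : n * (g * te J₀ (-c₀) - 3 * e₁) - σ / 2 * (g * n) ≥ σ * (g * n) := by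
      have h5 : g * (2 * σ) ≤ g * te J₀ (-c₀) := by gcongr
      have h6 : g * te J₀ (-c₀) - 3 * e₁ ≥ 3 / 2 * (σ * g) := by linarith
      have h7 : n * (g * te J₀ (-c₀) - 3 * e₁) ≥ n * (3 / 2 * (σ * g)) := by gcongr
      linarith
    have h5 : 0 < σ * (g * n) := by positivity
    linarith
  have hne : ((Wc a Tp R Y L).filter fun x => (idx a S x).card = 0).Nonempty := by
    rw [← Finset.card_pos]
    exact_mod_cast hpos
  obtain ⟨x, hx⟩ := hne
  obtain ⟨hx1, hx2⟩ := Finset.mem_filter.mp hx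
  refine ⟨x, fun i hi => ?_⟩
  by_cases h : x - a i ∈ plus a Y
  · -- contradiction with `x ∈ Wset a Y`
    have h1 := (Finset.mem_filter.mp hx1).2
    rw [mem_plus] at h
    obtain ⟨j, y, hy, hxy⟩ := h
    apply mem_Wset.mp h1 i j
    rw [← hxy]
    simpa using hy
  · have h1 : i ∈ idx a S x := by
      rw [mem_idx, hS, Finset.mem_sdiff]
      exact ⟨hi, h⟩
    rw [Finset.card_eq_zero] at hx2
    rw [hx2] at h1
    exact absurd h1 (Finset.notMem_empty _)

end Cover
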