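import Mathlib

/-!
Sequences of pairwise non-adjacent elements in a graph which is a matching, and alternating sums.
-/

namespace Cover

open Finset
open scoped Classical

set_option linter.unusedSectionVars false

section sequences

variable {α : Type*} [Fintype α]

/-- Sequences of distinct pairwise non-adjacent elements of `S`. -/
noncomputable def seqs (adj : α → α → Prop) (S : Finset α) (l : ℕ) : Finset (Fin l → α) :=
  univ.filter fun φ => (∀ i, φ i ∈ S) ∧ ∀ i j, i ≠ j → φ i ≠ φ j ∧ ¬ adj (φ i) (φ j)

lemma mem_seqs {adj : α → α → Prop} {S : Finset α} {l : ℕ} {φ : Fin l → α} :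
    φ ∈ seqs adj S l ↔ (∀ i, φ i ∈ S) ∧ ∀ i j, i ≠ j → φ i ≠ φ j ∧ ¬ adj (φ i) (φ j) := by
  simp [seqs]

/-- What remains of `S` after choosing `s`. -/
noncomputable def rest (adj : α → α → Prop) (S : Finset α) (s : α) : Finset α :=
  S.filter fun t => t ≠ s ∧ ¬ adj s t

lemma mem_rest {adj : α → α → Prop} {S : Finset α} {s t : α} :
    t ∈ rest adj S s ↔ t ∈ S ∧ t ≠ s ∧ ¬ adj s t := by
  simp [rest]

lemma card_seqs_zero (adj : α → α → Prop) (S : Finset α) : (seqs adj S 0).card = 1 := by
  rw [Finset.card_eq_one]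
  refine ⟨fun i => i.elim0, ?_⟩
  ext φ
  rw [mem_seqs, Finset.mem_singleton]
  constructor
  · intro _
    funext i
    exact i.elim0
  · intro _
    exact ⟨fun i => i.elim0, fun i => i.elim0⟩

lemma card_seqs_succ (adj : α → α → Prop) (hsym : ∀ s t, adj s t → adj t s) (S : Finset α)
    (l : ℕ) : (seqs adj S (l + 1)).card = ∑ s ∈ S, (seqs adj (rest adj S s) l).card := by
  rw [Finset.card_eq_sum_card_fiberwise (f := fun φ : Fin (l + 1) → α => φ 0) (t := S)
    (by intro φ hφ; exact (mem_seqs.mp hφ).1 0)]
  refine Finset.sum_congr rfl fun s hs => ?_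
  refine Finset.card_bij (fun φ _ => Fin.tail φ) ?_ ?_ ?_
  · intro φ hφ
    obtain ⟨h1, h2⟩ := Finset.mem_filter.mp hφ
    obtain ⟨h3, h4⟩ := mem_seqs.mp h1
    rw [mem_seqs]
    refine ⟨fun i => ?_, fun i j hij => ?_⟩
    · rw [mem_rest]
      have h5 := h4 0 i.succ (Fin.succ_ne_zero i).symm
      rw [h2] at h5
      exact ⟨h3 _, h5.1.symm, h5.2⟩
    · exact h4 i.succ j.succ (fun h => hij (Fin.succ_injective _ h))
  · intro φ hφ φ' hφ' h
    have h1 := (Finset.mem_filter.mp hφ).2
    have h2 := (Finset.mem_filter.mp hφ').2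
    rw [← Fin.cons_self_tail φ, ← Fin.cons_self_tail φ', h1, h2, h]
  · intro ψ hψ
    obtain ⟨h3, h4⟩ := mem_seqs.mp hψ
    refine ⟨Fin.cons s ψ, ?_, ?_⟩
    · rw [Finset.mem_filter, mem_seqs]
      refine ⟨⟨fun i => ?_, fun i j => ?_⟩, by simp⟩
      · refine Fin.cases ?_ (fun i => ?_) i
        · simpa using hs
        · simpa using (mem_rest.mp (h3 i)).1
      · refine Fin.cases ?_ (fun i => ?_) i
        · refine Fin.cases ?_ (fun j => ?_) j
          · intro h; exact absurd rfl h
          · intro _
            have := mem_rest.mp (h3 j)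
            simp only [Fin.cons_zero, Fin.cons_succ]
            exact ⟨this.2.1.symm, this.2.2⟩
        · refine Fin.cases ?_ (fun j => ?_) j
          · intro _
            have := mem_rest.mp (h3 i)
            simp only [Fin.cons_zero, Fin.cons_succ]
            exact ⟨this.2.1, fun h => this.2.2 (hsym _ _ h)⟩
          · intro hij
            simp only [Fin.cons_succ]
            exact h4 i j (fun h => hij (by rw [h]))
    · rfl

/-- Every element of `S` has exactly one neighbour in `S`. -/
def Perf (adj : α → α → Prop) (S : Finset α) : Prop :=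
  ∀ s ∈ S, (S.filter fun t => adj s t).card = 1

/-- Every element of `S` has at most one neighbour in `S`. -/
def Mat (adj : α → α → Prop) (S : Finset α) : Prop :=
  ∀ s ∈ S, (S.filter fun t => adj s t).card ≤ 1

lemma Perf.rest {adj : α → α → Prop} (hsym : ∀ s t, adj s t → adj t s)
    (hirr : ∀ s, ¬ adj s s) {S : Finset α} (hS : Perf adj S) {s : α} (hs : s ∈ S) :
    (Cover.rest adj S s).card + 2 = S.card ∧ Perf adj (Cover.rest adj S s) := by
  obtain ⟨s', hs'⟩ := Finset.card_eq_one.mp (hS s hs)
  have hmem : ∀ t, t ∈ S ∧ adj s t ↔ t = s' := by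
    intro t
    rw [← Finset.mem_singleton, ← hs', Finset.mem_filter]
  have h1 := (hmem s').mpr rfl
  have hne : s' ≠ s := by
    rintro rfl
    exact hirr _ h1.2
  constructor
  · have e : S = insert s (insert s' (Cover.rest adj S s)) := by
      ext t
      rw [Finset.mem_insert, Finset.mem_insert, mem_rest]
      constructor
      · intro ht
        by_cases h2 : t = s
        · left; exact h2
        · by_cases h3 : adj s t
          · right; left; exact (hmem t).mp ⟨ht, h3⟩
          · right; right; exact ⟨ht, h2, h3⟩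
      · rintro (rfl | rfl | h)
        · exact hs
        · exact h1.1
        · exact h.1
    have h2 : s' ∉ Cover.rest adj S s := by
      rw [mem_rest]
      rintro ⟨_, _, h⟩
      exact h h1.2
    have h3 : s ∉ insert s' (Cover.rest adj S s) := by
      rw [Finset.mem_insert, mem_rest]
      rintro (h | h)
      · exact hne h.symm
      · exact h.2.1 rfl
    conv_rhs => rw [e]
    rw [Finset.card_insert_of_notMem h3, Finset.card_insert_of_notMem h2]
  · intro t ht
    obtain ⟨ht1, ht2, ht3⟩ := mem_rest.mp ht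
    obtain ⟨t', ht'⟩ := Finset.card_eq_one.mp (hS t ht1)
    have hmem' : ∀ u, u ∈ S ∧ adj t u ↔ u = t' := by
      intro u
      rw [← Finset.mem_singleton, ← ht', Finset.mem_filter]
    have h2 := (hmem' t').mpr rfl
    rw [Finset.card_eq_one]
    refine ⟨t', ?_⟩
    ext u
    rw [Finset.mem_filter, mem_rest, Finset.mem_singleton, ← hmem' u]
    constructor
    · rintro ⟨⟨h3, _, _⟩, h4⟩
      exact ⟨h3, h4⟩
    · rintro ⟨h3, h4⟩
      refine ⟨⟨h3, ?_, ?_⟩, h4⟩
      · rintro rfl
        exact ht3 (hsym _ _ h4)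
      · intro h5
        have h6 := (hmem u).mp ⟨h3, h5⟩
        -- `u = s'` is adjacent to `s` and `t`
        obtain ⟨u', hu'⟩ := Finset.card_eq_one.mp (hS u h3)
        have hmem'' : ∀ v, v ∈ S ∧ adj u v ↔ v = u' := by
          intro v
          rw [← Finset.mem_singleton, ← hu', Finset.mem_filter]
        have h7 := (hmem'' s).mp ⟨hs, hsym _ _ h5⟩
        have h8 := (hmem'' t).mp ⟨ht1, hsym _ _ h4⟩
        exact ht2 (h8.trans h7.symm)

lemma Perf.even {adj : α → α → Prop} (hsym : ∀ s t, adj s t → adj t s)
    (hirr : ∀ s, ¬ adj s s) : ∀ (S : Finset α), Perf adj S → Even S.card := by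
  intro S
  induction S using Finset.strongInduction with
  | H S ih =>
    intro hS
    rcases S.eq_empty_or_nonempty with h | ⟨s, hs⟩
    · rw [h]; simp
    · obtain ⟨h1, h2⟩ := hS.rest hsym hirr hs
      have h3 : Cover.rest adj S s ⊂ S := by
        refine (Finset.ssubset_iff_of_subset ?_).mpr ⟨s, hs, fun h => (mem_rest.mp h).2.1 rfl⟩
        intro t ht
        exact (mem_rest.mp ht).1
      have h4 := ih _ h3 h2
      rw [← h1]
      exact h4.add (by decide)

lemma Perf.card_seqs {adj : α → α → Prop} (hsym : ∀ s t, adj s t → adj t s)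
    (hirr : ∀ s, ¬ adj s s) : ∀ (l u : ℕ) (S : Finset α), Perf adj S → S.card = 2 * u →
      (seqs adj S l).card = 2 ^ l * u.descFactorial l := by
  intro l
  induction l with
  | zero => intro u S _ _; rw [card_seqs_zero]; simp
  | succ l ih =>
    intro u S hS hc
    rw [card_seqs_succ adj hsym]
    rcases u with _ | u
    · have : S = ∅ := by rw [← Finset.card_eq_zero]; omega
      rw [this]
      simp
    · calc ∑ s ∈ S, (seqs adj (Cover.rest adj S s) l).card
          = ∑ _s ∈ S, 2 ^ l * u.descFactorial l := by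
            refine Finset.sum_congr rfl fun s hs => ?_
            obtain ⟨h1, h2⟩ := hS.rest hsym hirr hs
            exact ih u _ h2 (by omega)
        _ = _ := by
            rw [Finset.sum_const, hc, smul_eq_mul, Nat.succ_descFactorial_succ]
            ring

lemma Mat.rest {adj : α → α → Prop} {S : Finset α} (hS : Mat adj S) {s : α} (hs : s ∈ S) :
    S.card ≤ (Cover.rest adj S s).card + 2 ∧ Mat adj (Cover.rest adj S s) := by
  constructor
  · have e : S ⊆ (Cover.rest adj S s) ∪ ({s} ∪ (S.filter fun t => adj s t)) := by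
      intro t ht
      rw [Finset.mem_union, Finset.mem_union, Finset.mem_singleton, mem_rest, Finset.mem_filter]
      by_cases h2 : t = s
      · right; left; exact h2
      · by_cases h3 : adj s t
        · right; right; exact ⟨ht, h3⟩
        · left; exact ⟨ht, h2, h3⟩
    have h1 := (Finset.card_le_card e).trans (Finset.card_union_le _ _)
    have h2 := Finset.card_union_le ({s} : Finset α) (S.filter fun t => adj s t)
    have h3 := hS s hs
    rw [Finset.card_singleton] at h2
    omega
  · intro t ht
    refine le_trans (Finset.card_le_card ?_) (hS t (mem_rest.mp ht).1)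
    exact Finset.filter_subset_filter _ (Finset.filter_subset _ _)

lemma Mat.card_seqs_ge {adj : α → α → Prop} (hsym : ∀ s t, adj s t → adj t s) :
    ∀ (l : ℕ) (S : Finset α), Mat adj S → (S.card - 2 * l) ^ l ≤ (seqs adj S l).card := by
  intro l
  induction l with
  | zero => intro S _; rw [card_seqs_zero]; simp
  | succ l ih =>
    intro S hS
    rw [card_seqs_succ adj hsym]
    calc (S.card - 2 * (l + 1)) ^ (l + 1) = (S.card - 2 * (l + 1)) * (S.card - 2 * (l + 1)) ^ l := by
          rw [pow_succ]; ring
      _ ≤ S.card * (S.card - 2 * (l + 1)) ^ l := by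
          gcongr
          omega
      _ = ∑ _s ∈ S, (S.card - 2 * (l + 1)) ^ l := by
          rw [Finset.sum_const, smul_eq_mul]
      _ ≤ _ := by
          refine Finset.sum_le_sum fun s hs => ?_
          obtain ⟨h1, h2⟩ := hS.rest hs
          exact (Nat.pow_le_pow_left (by omega) _).trans (ih _ h2)

/-- All sequences of distinct elements. -/
lemma card_seqs_free (adj : α → α → Prop) (S : Finset α) (hS : ∀ s ∈ S, ∀ t ∈ S, ¬ adj s t)
    (hsym : ∀ s t, adj s t → adj t s) :
    ∀ l : ℕ, (seqs adj S l).card = S.card.descFactorial l := by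
  intro l
  induction l generalizing S with
  | zero => rw [card_seqs_zero]; simp
  | succ l ih =>
    rw [card_seqs_succ adj hsym]
    rcases h : S.card with _ | c
    · have : S = ∅ := Finset.card_eq_zero.mp h
      rw [this]
      simp
    · calc ∑ s ∈ S, (seqs adj (Cover.rest adj S s) l).card
          = ∑ _s ∈ S, c.descFactorial l := by
            refine Finset.sum_congr rfl fun s hs => ?_
            have e : Cover.rest adj S s = S.erase s := by
              ext t
              rw [mem_rest, Finset.mem_erase]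
              constructor
              · rintro ⟨h1, h2, _⟩; exact ⟨h2, h1⟩
              · rintro ⟨h1, h2⟩; exact ⟨h2, h1, hS s hs t h2⟩
            rw [e, ih]
            · rw [Finset.card_erase_of_mem hs, h]
              rfl
            · intro t ht t' ht'
              exact hS t (Finset.mem_of_mem_erase ht) t' (Finset.mem_of_mem_erase ht')
        _ = _ := by
            rw [Finset.sum_const, h, smul_eq_mul, Nat.succ_descFactorial_succ]

lemma card_seqs_le (adj : α → α → Prop) (S : Finset α) (l : ℕ) :
    (seqs adj S l).card ≤ S.card.descFactorial l := by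
  rw [← card_seqs_free (fun _ _ => False) S (fun _ _ _ _ => id) (fun _ _ => id) l]
  apply Finset.card_le_card
  intro φ hφ
  rw [mem_seqs] at hφ ⊢
  exact ⟨hφ.1, fun i j hij => ⟨(hφ.2 i j hij).1, id⟩⟩

lemma desc_sq_le {adj : α → α → Prop} (hsym : ∀ s t, adj s t → adj t s) {S : Finset α}
    (hS : Mat adj S) (r : ℕ) :
    (S.card.descFactorial r) ^ 2 ≤ (8 * r) ^ (2 * r) + 4 ^ r * (seqs adj S (2 * r)).card := by
  have h1 : (S.card.descFactorial r) ^ 2 ≤ S.card ^ (2 * r) := by
    calc (S.card.descFactorial r) ^ 2 ≤ (S.card ^ r) ^ 2 := by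
          gcongr
          exact Nat.descFactorial_le_pow _ _
      _ = _ := by rw [← pow_mul, mul_comm]
  refine h1.trans ?_
  by_cases h : S.card ≤ 8 * r
  · exact (Nat.pow_le_pow_left h _).trans (Nat.le_add_right _ _)
  · push Not at h
    have h2 := Mat.card_seqs_ge hsym (2 * r) S hS
    calc S.card ^ (2 * r) ≤ (2 * (S.card - 2 * (2 * r))) ^ (2 * r) := by
          gcongr
          omega
      _ = 4 ^ r * (S.card - 2 * (2 * r)) ^ (2 * r) := by
          rw [mul_pow, pow_mul 2 2 r]
          norm_num
      _ ≤ 4 ^ r * (seqs adj S (2 * r)).card := by gcongr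
      _ ≤ _ := Nat.le_add_left _ _

/-- Injective sequences of non-adjacent elements, first in `U`, then in `D`. -/
noncomputable def splitSet (adj : α → α → Prop) (U D : Finset α) (l r : ℕ) :
    Finset (Fin (l + r) ↪ α) :=
  univ.filter fun φ : Fin (l + r) ↪ α => (∀ i, φ i ∈ (Fin.append (fun _ : Fin l => U)
      (fun _ : Fin r => D) i)) ∧ ∀ i j, i ≠ j → ¬ adj (φ i) (φ j)

lemma mem_splitSet {adj : α → α → Prop} {U D : Finset α} {l r : ℕ} {φ : Fin (l + r) ↪ α} :
    φ ∈ splitSet adj U D l r ↔ (∀ i, φ i ∈ (Fin.append (fun _ : Fin l => U)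
      (fun _ : Fin r => D) i)) ∧ ∀ i j, i ≠ j → ¬ adj (φ i) (φ j) := by
  simp [splitSet]

/-- Splitting a sequence which takes values in two unrelated sets. -/
lemma card_split (adj : α → α → Prop) (hsym : ∀ s t, adj s t → adj t s) (U D : Finset α)
    (hdis : Disjoint U D)
    (hno : ∀ s ∈ U, ∀ t ∈ D, ¬ adj s t) (l r : ℕ) :
    (splitSet adj U D l r).card =
      (seqs adj U l).card * (seqs adj D r).card := by
  rw [← Finset.card_product]
  refine Finset.card_bij (fun φ _ => (fun i => φ (Fin.castAdd r i), fun i => φ (Fin.natAdd l i)))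
    ?_ ?_ ?_
  · intro φ hφ
    obtain ⟨h1, h2⟩ := mem_splitSet.mp hφ
    rw [Finset.mem_product, mem_seqs, mem_seqs]
    refine ⟨⟨fun i => ?_, fun i j hij => ?_⟩, ⟨fun i => ?_, fun i j hij => ?_⟩⟩
    · have := h1 (Fin.castAdd r i)
      rwa [Fin.append_left] at this
    · have h3 : Fin.castAdd r i ≠ Fin.castAdd r j := fun h => hij (Fin.castAdd_injective _ _ h)
      exact ⟨fun h => h3 (φ.injective h), h2 _ _ h3⟩
    · have := h1 (Fin.natAdd l i)
      rwa [Fin.append_right] at this
    · have h3 : Fin.natAdd l i ≠ Fin.natAdd l j := fun h => hij (Fin.natAdd_injective _ _ h)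
      exact ⟨fun h => h3 (φ.injective h), h2 _ _ h3⟩
  · intro φ _ φ' _ h
    ext i
    have h1 := congrArg Prod.fst h
    have h2 := congrArg Prod.snd h
    simp only at h1 h2
    refine Fin.addCases (fun i => ?_) (fun i => ?_) i
    · exact congrFun h1 i
    · exact congrFun h2 i
  · rintro ⟨f, g⟩ hfg
    rw [Finset.mem_product, mem_seqs, mem_seqs] at hfg
    obtain ⟨⟨h1, h2⟩, ⟨h3, h4⟩⟩ := hfg
    simp only at h1 h2 h3 h4
    have hinj : ∀ i j : Fin (l + r), i ≠ j → Fin.append f g i ≠ Fin.append f g j ∧
        ¬ adj (Fin.append f g i) (Fin.append f g j) := by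
      intro i j
      refine Fin.addCases (fun i => ?_) (fun i => ?_) i
      · refine Fin.addCases (fun j => ?_) (fun j => ?_) j
        · intro hij
          rw [Fin.append_left, Fin.append_left]
          exact h2 i j (fun h => hij (by rw [h]))
        · intro _
          rw [Fin.append_left, Fin.append_right]
          refine ⟨fun h => ?_, hno _ (h1 i) _ (h3 j)⟩
          exact Finset.disjoint_left.mp hdis (h1 i) (h ▸ h3 j)
      · refine Fin.addCases (fun j => ?_) (fun j => ?_) j
        · intro _
          rw [Fin.append_left, Fin.append_right]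
          refine ⟨fun h => ?_, fun h => hno _ (h1 j) _ (h3 i) (hsym _ _ h)⟩
          exact Finset.disjoint_left.mp hdis (h1 j) (h ▸ h3 i)
        · intro hij
          rw [Fin.append_right, Fin.append_right]
          exact h4 i j (fun h => hij (by rw [h]))
    have hfi : Function.Injective (Fin.append f g) := by
      intro i j h
      by_contra hij
      exact (hinj i j hij).1 h
    refine ⟨⟨Fin.append f g, hfi⟩, ?_, ?_⟩
    · rw [mem_splitSet]
      refine ⟨fun i => ?_, fun i j hij => (hinj i j hij).2⟩
      show Fin.append f g i ∈ _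
      refine Fin.addCases (fun i => ?_) (fun i => ?_) i
      · rw [Fin.append_left, Fin.append_left]; exact h1 i
      · rw [Fin.append_right, Fin.append_right]; exact h3 i
    · show (fun i => Fin.append f g (Fin.castAdd r i), fun i => Fin.append f g (Fin.natAdd l i)) =
        (f, g)
      simp

end sequences

/-! ### Alternating sums -/

lemma alt_real (u m : ℕ) : ∑ l ∈ range (m + 1), (-1 : ℝ) ^ l * (u.choose l : ℝ) =
    if u = 0 then 1 else (-1) ^ m * ((u - 1).choose m : ℝ) := by
  rcases u with _ | u
  · rw [if_pos rfl, Finset.sum_range_succ']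
    simp
  · rw [if_neg (Nat.succ_ne_zero u)]
    have h := Int.alternating_sum_range_choose_eq_choose (n := u) (m := m)
    have h' : ((∑ k ∈ range (m + 1), ((-1) ^ k * (u + 1).choose k : ℤ) : ℤ) : ℝ) =
        (((-1) ^ m * u.choose m : ℤ) : ℝ) := by exact_mod_cast h
    push_cast at h'
    simpa using h'

lemma alt_abs (u m : ℕ) :
    |(if u = 0 then (1 : ℝ) else 0) - ∑ l ∈ range (m + 1), (-1 : ℝ) ^ l * (u.choose l : ℝ)| ≤
      (u.choose (m + 1) : ℝ) := by
  rw [alt_real]
  rcases u with _ | u
  · simp
  · simp only [Nat.succ_ne_zero, if_false, zero_sub, abs_neg, abs_mul, abs_pow, abs_one, one_pow,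
      one_mul, Nat.add_sub_cancel, Nat.abs_cast]
    have h : u.choose m ≤ (u + 1).choose (m + 1) := by
      rw [Nat.choose_succ_succ]
      exact Nat.le_add_right _ _
    exact_mod_cast h

lemma alt_odd (d m : ℕ) (hm : Odd m) :
    ∑ r ∈ range (m + 1), (-1 : ℝ) ^ r * (d.choose r : ℝ) ≤ if d = 0 then 1 else 0 := by
  rw [alt_real]
  rcases d with _ | d
  · simp
  · simp only [Nat.succ_ne_zero, if_false, hm.neg_one_pow]
    have : (0 : ℝ) ≤ ((d + 1 - 1).choose m : ℝ) := by positivity
    linarith

/-- Truncated exponential series. -/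
noncomputable def te (m : ℕ) (x : ℝ) : ℝ := ∑ l ∈ range (m + 1), x ^ l / (l.factorial : ℝ)

lemma te_bound (m : ℕ) (x : ℝ) (hx : |x| / (m + 2) ≤ 1 / 2) :
    |Real.exp x - te m x| ≤ |x| ^ (m + 1) / ((m + 1).factorial : ℝ) * 2 := by
  have h := Complex.exp_bound' (x := (x : ℂ)) (n := m + 1) (by
    rw [Complex.norm_real, Real.norm_eq_abs]
    push_cast
    have e : (m : ℝ) + 1 + 1 = m + 2 := by ring
    simpa [e] using hx)
  rw [Complex.norm_real, Real.norm_eq_abs] at h
  refine le_trans (le_of_eq ?_) h
  have e : Complex.exp (x : ℂ) - ∑ i ∈ range (m + 1), (x : ℂ) ^ i / (i.factorial : ℂ) =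
      ((Real.exp x - te m x : ℝ) : ℂ) := by
    unfold te
    push_cast
    rfl
  rw [e, Complex.norm_real, Real.norm_eq_abs]

end Cover
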