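import Pool.Agent.Cover.DoublesC

/-!
Structural facts about random sets.
-/

namespace Cover

open Finset
open scoped Classical

set_option linter.unusedSectionVars false

variable {G : Type*} [AddCommGroup G] [Fintype G] {k : ℕ}

/-- Difference multiplicities are at most `r₀`. -/
def DiffBd (r₀ : ℕ) (a : Fin k → G) : Prop :=
  Function.Injective a ∧ ∀ z : G, z ≠ 0 →
    (univ.filter fun q : Fin k × Fin k => a q.1 - a q.2 = z).card ≤ r₀

lemma diffBd_of_UTgood [Nonempty G] (r : ℕ) (a : Fin k → G) (ha : Function.Injective a)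
    (hkn : (k : ℝ) ^ 2 ≤ Fintype.card G) (hUT : UTgood 2 1 r 1 a) : DiffBd (4 * r + 1) a := by
  refine ⟨ha, fun z hz => ?_⟩
  have hn : (0 : ℝ) < (Fintype.card G : ℝ) := by exact_mod_cast Fintype.card_pos
  obtain ⟨D, hD, hc⟩ := hUT ![{0}, {z}] (by
    intro l
    fin_cases l <;> simp)
  have hmu : mu k ![({0} : Finset G), {z}] ≤ 1 := by
    unfold mu
    rw [Fin.prod_univ_two]
    have h1 : ((k.descFactorial 2 : ℕ) : ℝ) ≤ (k : ℝ) ^ 2 := by
      exact_mod_cast Nat.descFactorial_le_pow k 2
    simp only [Matrix.cons_val_zero, Matrix.cons_val_one, Finset.card_singleton, Nat.cast_one]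
    calc (Fintype.card G : ℝ) * (k.descFactorial 2 : ℕ) * (1 / (Fintype.card G : ℝ) *
          (1 / (Fintype.card G : ℝ))) = (k.descFactorial 2 : ℕ) / (Fintype.card G : ℝ) := by
          field_simp
      _ ≤ 1 := by
          rw [div_le_one hn]
          exact h1.trans hkn
  set Q := (univ.filter fun t : G × (Fin 2 ↪ Fin k) => Disjoint (tsupp t) D ∧
    occ ![({0} : Finset G), {z}] a t) with hQ
  have hQ1 : Q.card ≤ 1 := by
    have : (Q.card : ℝ) < 2 := by
      calc (Q.card : ℝ) < _ := hc
        _ ≤ 2 := by linarith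
    have : Q.card < 2 := by exact_mod_cast this
    omega
  set P := univ.filter fun q : Fin k × Fin k => a q.1 - a q.2 = z with hP
  have hcover : P ⊆ (P.filter fun q => q.1 ∉ D ∧ q.2 ∉ D) ∪
      ((P.filter fun q => q.1 ∈ D) ∪ (P.filter fun q => q.2 ∈ D)) := by
    intro q hq
    simp only [Finset.mem_union, Finset.mem_filter]
    by_cases h1 : q.1 ∈ D
    · right; left; exact ⟨hq, h1⟩
    · by_cases h2 : q.2 ∈ D
      · right; right; exact ⟨hq, h2⟩
      · left; exact ⟨hq, h1, h2⟩
  have h1 : (P.filter fun q => q.1 ∉ D ∧ q.2 ∉ D).card ≤ Q.card := by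
    have hne : ∀ q ∈ P, q.1 ≠ q.2 := by
      intro q hq h
      have h2 := (Finset.mem_filter.mp hq).2
      rw [h, sub_self] at h2
      exact hz h2.symm
    refine Finset.card_le_card_of_surjOn (fun t : G × (Fin 2 ↪ Fin k) => (t.2 0, t.2 1)) ?_
    rintro ⟨i, j⟩ hq
    have hq' := Finset.mem_filter.mp hq
    have hij := hne _ hq'.1
    have hz' := (Finset.mem_filter.mp hq'.1).2
    simp only at hij hz' hq'
    refine ⟨(a i, ⟨![i, j], ?_⟩), ?_, ?_⟩
    · intro l l' h
      fin_cases l <;> fin_cases l' <;> simp_all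
    · rw [hQ]
      simp only [Finset.coe_filter, Finset.mem_univ, true_and, Set.mem_ofPred_eq]
      constructor
      · rw [Finset.disjoint_left]
        intro e he
        rw [mem_tsupp] at he
        obtain ⟨l, hl⟩ := he
        fin_cases l
        · have : e = i := by rw [← hl]; rfl
          rw [this]; exact hq'.2.1
        · have : e = j := by rw [← hl]; rfl
          rw [this]; exact hq'.2.2
      · intro l
        fin_cases l
        · show a i - a i ∈ ({0} : Finset G)
          simp
        · show a i - a j ∈ ({z} : Finset G)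
          simpa using hz'
    · rfl
  have h2 : (P.filter fun q => q.1 ∈ D).card ≤ D.card := by
    refine Finset.card_le_card_of_injOn (fun q => q.1) ?_ ?_
    · intro q hq
      exact (Finset.mem_filter.mp hq).2
    · intro q hq q' hq' h
      have e1 := (Finset.mem_filter.mp (Finset.mem_filter.mp hq).1).2
      have e2 := (Finset.mem_filter.mp (Finset.mem_filter.mp hq').1).2
      simp only at h
      have : a q.2 = a q'.2 := by
        have e3 : a q.2 = a q.1 - z := by rw [← e1]; abel
        have e4 : a q'.2 = a q'.1 - z := by rw [← e2]; abel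
        rw [e3, e4, h]
      exact Prod.ext h (ha this)
  have h3 : (P.filter fun q => q.2 ∈ D).card ≤ D.card := by
    refine Finset.card_le_card_of_injOn (fun q => q.2) ?_ ?_
    · intro q hq
      exact (Finset.mem_filter.mp hq).2
    · intro q hq q' hq' h
      have e1 := (Finset.mem_filter.mp (Finset.mem_filter.mp hq).1).2
      have e2 := (Finset.mem_filter.mp (Finset.mem_filter.mp hq').1).2
      simp only at h
      have : a q.1 = a q'.1 := by
        have e3 : a q.1 = a q.2 + z := by rw [← e1]; abel
        have e4 : a q'.1 = a q'.2 + z := by rw [← e2]; abel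
        rw [e3, e4, h]
      exact Prod.ext (ha this) h
  calc P.card ≤ _ := Finset.card_le_card hcover
    _ ≤ (P.filter fun q => q.1 ∉ D ∧ q.2 ∉ D).card + ((P.filter fun q => q.1 ∈ D).card +
        (P.filter fun q => q.2 ∈ D).card) := (Finset.card_union_le _ _).trans
          (add_le_add le_rfl (Finset.card_union_le _ _))
    _ ≤ 4 * r + 1 := by omega

lemma sum_tau_le {r₀ : ℕ} {a : Fin k → G} (hd : DiffBd r₀ a) (T R : Finset G) :
    ∑ y ∈ R, tau a T y ≤ T.card + R.card ^ 2 * r₀ := by
  set m : G → ℕ := fun t => ((R ×ˢ (univ : Finset (Fin k))).filter fun q => a q.2 + q.1 = t).card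
    with hm
  have h1 : ∑ y ∈ R, tau a T y = ∑ t ∈ T, m t := by
    have e1 : ∑ y ∈ R, tau a T y =
        ((R ×ˢ (univ : Finset (Fin k))).filter fun q => a q.2 + q.1 ∈ T).card := by
      rw [Finset.card_filter, Finset.sum_product]
      refine Finset.sum_congr rfl fun y _ => ?_
      unfold tau
      rw [Finset.card_filter]
    rw [e1]
    have := Finset.card_eq_sum_card_fiberwise (f := fun q : G × Fin k => a q.2 + q.1)
      (s := (R ×ˢ (univ : Finset (Fin k))).filter fun q => a q.2 + q.1 ∈ T) (t := T) (by
        intro q hq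
        exact (Finset.mem_filter.mp hq).2)
    rw [this]
    refine Finset.sum_congr rfl fun t ht => ?_
    rw [hm]
    simp only
    congr 1
    ext q
    simp only [Finset.mem_filter]
    constructor
    · rintro ⟨⟨h1, _⟩, h3⟩; exact ⟨h1, h3⟩
    · rintro ⟨h1, h3⟩; exact ⟨⟨h1, by rw [h3]; exact ht⟩, h3⟩
  have h2 : ∀ t, m t ≤ 1 + ((((R ×ˢ (univ : Finset (Fin k))) ×ˢ
      (R ×ˢ (univ : Finset (Fin k)))).filter fun q => q.1 ≠ q.2 ∧ a q.1.2 + q.1.1 = t ∧
        a q.2.2 + q.2.1 = t).card) := by
    intro t
    by_cases h0 : m t ≤ 1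
    · omega
    · set M := ((R ×ˢ (univ : Finset (Fin k))).filter fun q => a q.2 + q.1 = t) with hM
      have h3 : M.offDiag ⊆ (((R ×ˢ (univ : Finset (Fin k))) ×ˢ
          (R ×ˢ (univ : Finset (Fin k)))).filter fun q => q.1 ≠ q.2 ∧ a q.1.2 + q.1.1 = t ∧
          a q.2.2 + q.2.1 = t) := by
        intro q hq
        rw [Finset.mem_offDiag] at hq
        obtain ⟨g1, g2, g3⟩ := hq
        rw [hM, Finset.mem_filter] at g1 g2
        rw [Finset.mem_filter, Finset.mem_product]
        exact ⟨⟨g1.1, g2.1⟩, g3, g1.2, g2.2⟩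
      have h4 := Finset.card_le_card h3
      rw [Finset.offDiag_card] at h4
      have h5 : m t = M.card := rfl
      rw [h5]
      have h6 : M.card * M.card - M.card = M.card * (M.card - 1) := by
        rw [Nat.mul_sub]; simp
      rw [h6] at h4
      have h7 : M.card - 1 ≤ M.card * (M.card - 1) := by
        apply Nat.le_mul_of_pos_left
        omega
      omega
  rw [h1]
  calc ∑ t ∈ T, m t ≤ ∑ t ∈ T, (1 + ((((R ×ˢ (univ : Finset (Fin k))) ×ˢ
      (R ×ˢ (univ : Finset (Fin k)))).filter fun q => q.1 ≠ q.2 ∧ a q.1.2 + q.1.1 = t ∧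
        a q.2.2 + q.2.1 = t).card)) := Finset.sum_le_sum fun t _ => h2 t
    _ = T.card + ∑ t ∈ T, ((((R ×ˢ (univ : Finset (Fin k))) ×ˢ
      (R ×ˢ (univ : Finset (Fin k)))).filter fun q => q.1 ≠ q.2 ∧ a q.1.2 + q.1.1 = t ∧
        a q.2.2 + q.2.1 = t).card) := by
        rw [Finset.sum_add_distrib]
        simp
    _ ≤ T.card + (((R ×ˢ (univ : Finset (Fin k))) ×ˢ
      (R ×ˢ (univ : Finset (Fin k)))).filter fun q => q.1 ≠ q.2 ∧ a q.1.2 + q.1.1 =
        a q.2.2 + q.2.1).card := by
        apply Nat.add_le_add_left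
        rw [← Finset.card_biUnion]
        · apply Finset.card_le_card
          intro q hq
          rw [Finset.mem_biUnion] at hq
          obtain ⟨t, _, hq⟩ := hq
          rw [Finset.mem_filter] at hq ⊢
          exact ⟨hq.1, hq.2.1, by rw [hq.2.2.1, hq.2.2.2]⟩
        · intro t _ t' _ htt
          rw [Function.onFun, Finset.disjoint_left]
          intro q hq hq'
          rw [Finset.mem_filter] at hq hq'
          exact htt (hq.2.2.1.symm.trans hq'.2.2.1)
    _ ≤ T.card + R.card ^ 2 * r₀ := by
        apply Nat.add_le_add_left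
        set Q := (((R ×ˢ (univ : Finset (Fin k))) ×ˢ
      (R ×ˢ (univ : Finset (Fin k)))).filter fun q => q.1 ≠ q.2 ∧ a q.1.2 + q.1.1 =
        a q.2.2 + q.2.1) with hQ
        have h3 := Finset.card_eq_sum_card_fiberwise
          (f := fun q : (G × Fin k) × (G × Fin k) => (q.1.1, q.2.1)) (s := Q)
          (t := R ×ˢ R) (by
            intro q hq
            have := (Finset.mem_filter.mp hq).1
            rw [Finset.mem_product, Finset.mem_product, Finset.mem_product] at this
            simp only [Finset.coe_product, Set.mem_prod, Finset.mem_coe]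
            exact ⟨this.1.1, this.2.1⟩)
        rw [h3]
        calc ∑ b ∈ R ×ˢ R, (Q.filter fun q => (q.1.1, q.2.1) = b).card
            ≤ ∑ _b ∈ R ×ˢ R, r₀ := by
              refine Finset.sum_le_sum fun b hb => ?_
              by_cases hbb : b.1 = b.2
              · have : (Q.filter fun q => (q.1.1, q.2.1) = b) = ∅ := by
                  rw [Finset.eq_empty_iff_forall_notMem]
                  intro q hq
                  rw [Finset.mem_filter, hQ, Finset.mem_filter] at hq
                  obtain ⟨⟨_, g1, g2⟩, g3⟩ := hq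
                  have e1 : q.1.1 = q.2.1 := by
                    have e2 := congrArg Prod.fst g3
                    have e3 := congrArg Prod.snd g3
                    simp only at e2 e3
                    rw [e2, e3, hbb]
                  rw [e1] at g2
                  have e4 : q.1.2 = q.2.2 := hd.1 (add_right_cancel g2)
                  exact g1 (Prod.ext e1 e4)
                rw [this]; simp
              · refine le_trans ?_ (hd.2 (b.2 - b.1) (sub_ne_zero.mpr (Ne.symm hbb)))
                refine Finset.card_le_card_of_injOn (fun q => (q.1.2, q.2.2)) ?_ ?_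
                · intro q hq
                  have hq' := Finset.mem_filter.mp hq
                  have g2 := (Finset.mem_filter.mp hq'.1).2.2
                  have e2 := congrArg Prod.fst hq'.2
                  have e3 := congrArg Prod.snd hq'.2
                  simp only at e2 e3
                  simp only [Finset.coe_filter, Finset.mem_univ, true_and, Set.mem_ofPred_eq]
                  rw [← e2, ← e3]
                  have e5 : a q.1.2 = a q.2.2 + q.2.1 - q.1.1 := by rw [← g2]; abel
                  rw [e5]; abel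
                · intro q hq q' hq' h
                  have g1 := (Finset.mem_filter.mp hq).2
                  have g2 := (Finset.mem_filter.mp hq').2
                  have e1 := congrArg Prod.fst (g1.trans g2.symm)
                  have e2 := congrArg Prod.snd (g1.trans g2.symm)
                  have e3 := congrArg Prod.fst h
                  have e4 := congrArg Prod.snd h
                  simp only at e1 e2 e3 e4
                  exact Prod.ext (Prod.ext e1 e3) (Prod.ext e2 e4)
          _ = _ := by
              rw [Finset.sum_const, Finset.card_product, smul_eq_mul, sq]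

/-- The set of rich differences. -/
noncomputable def rich (a : Fin k → G) (T : Finset G) (b : ℝ) : Finset G :=
  univ.filter fun y => b < (tau a T y : ℝ)

lemma card_rich_lt {r₀ : ℕ} {a : Fin k → G} (hd : DiffBd r₀ a) (T : Finset G) (b : ℝ)
    (m : ℕ) (hm : (T.card : ℝ) + (m : ℝ) ^ 2 * r₀ < m * b) : (rich a T b).card < m := by
  by_contra hcon
  push Not at hcon
  obtain ⟨R', hR', hc⟩ := Finset.exists_subset_card_eq hcon
  have h1 := sum_tau_le hd T R'
  have h2 : (m : ℝ) * b ≤ ∑ y ∈ R', (tau a T y : ℝ) := by
    calc (m : ℝ) * b = ∑ _y ∈ R', b := by rw [Finset.sum_const, hc, nsmul_eq_mul]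
      _ ≤ _ := Finset.sum_le_sum fun y hy => (Finset.mem_filter.mp (hR' hy)).2.le
  have h3 : ((∑ y ∈ R', tau a T y : ℕ) : ℝ) ≤ ((T.card + R'.card ^ 2 * r₀ : ℕ) : ℝ) := by
    exact_mod_cast h1
  push_cast at h3
  rw [hc] at h3
  linarith

/-- All nontrivial character sums of `a` are small. -/
def CharBd (M : ℝ) (a : Fin k → G) : Prop :=
  ∀ ψ : AddChar G ℂ, ψ ≠ 0 → ‖∑ i, ψ (a i)‖ ^ 2 ≤ M

lemma pr_not_CharBd [Nonempty G] (hk : 0 < k) (t : ℝ) (ht : 0 ≤ t) :
    pr (fun a : Fin k → G => ¬ CharBd (2 * t ^ 2) a) ≤
      Fintype.card G * (4 * Real.exp (-(t ^ 2) / (2 * (4 * k)))) := by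
  have hk0 : (0 : ℝ) < k := by exact_mod_cast hk
  have h1 : pr (fun a : Fin k → G => ¬ CharBd (2 * t ^ 2) a) ≤
      pr (fun a : Fin k → G => ∃ ψ ∈ ((univ : Finset (AddChar G ℂ)).filter fun ψ => ψ ≠ 0),
        2 * t ^ 2 < ‖∑ i, ψ (a i)‖ ^ 2) := by
    refine pr_mono fun a ha => ?_
    unfold CharBd at ha
    push Not at ha
    obtain ⟨ψ, h1, h2⟩ := ha
    exact ⟨ψ, by simp [h1], h2⟩
  refine h1.trans ((pr_exists_le_card _ _ (4 * Real.exp (-(t ^ 2) / (2 * (4 * k)))) ?_).trans ?_)
  · intro ψ hψ
    have hψ0 : ψ ≠ 0 := (Finset.mem_filter.mp hψ).2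
    have hs0 : ∑ x, ψ x = 0 := AddChar.sum_eq_zero_iff_ne_zero.mpr hψ0
    have hmean : ∀ (L : ℂ → ℝ) (_ : ∀ f : G → ℂ, L (∑ x, f x) = ∑ x, L (f x))
        (_ : ∀ f : Fin k → ℂ, L (∑ i, f i) = ∑ i, L (f i)), L (∑ x, ψ x) = 0 →
        av (fun a : Fin k → G => L (∑ i, ψ (a i))) = 0 := by
      intro L hLG hLk h0
      simp_rw [hLk]
      rw [av_sum]
      refine Finset.sum_eq_zero fun i _ => ?_
      have h3 : ∀ a : Fin k → G, L (ψ (a i)) =
          ∑ x : G, L (ψ x) * (if a i ∈ ({x} : Finset G) then (1 : ℝ) else 0) := by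
        intro a
        simp
      simp_rw [h3]
      rw [av_sum]
      have h4 : ∀ x : G, av (fun a : Fin k → G => L (ψ x) *
          (if a i ∈ ({x} : Finset G) then (1 : ℝ) else 0)) = L (ψ x) * (1 / Fintype.card G) := by
        intro x
        rw [av_mul_left]
        congr 1
        have h5 := pr_pi (α := G) (fun j : Fin k => if j = i then ({x} : Finset G) else univ)
        rw [Finset.prod_eq_single i] at h5
        · simp only [if_true, Finset.card_singleton, Nat.cast_one] at h5
          rw [← h5, pr_eq_ite]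
          congr 1
          funext a
          have e : (∀ j, a j ∈ (if j = i then ({x} : Finset G) else univ)) ↔
              a i ∈ ({x} : Finset G) := by
            constructor
            · intro h; simpa using h i
            · intro h j
              by_cases hj : j = i
              · subst hj; simpa using h
              · simp [hj]
          by_cases h : a i ∈ ({x} : Finset G)
          · rw [if_pos h, if_pos (e.mpr h)]
          · rw [if_neg h, if_neg (fun h' => h (e.mp h'))]
        · intro j _ hj
          have : (Fintype.card G : ℝ) ≠ 0 := by exact_mod_cast Fintype.card_ne_zero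
          simp [hj, this]
        · simp
      calc _ = ∑ x : G, L (ψ x) * (1 / Fintype.card G) :=
            Finset.sum_congr rfl fun x _ => h4 x
        _ = 0 := by
            rw [← Finset.sum_mul, ← hLG, h0, zero_mul]
    refine complex_tail (fun a : Fin k → G => ∑ i, ψ (a i)) (fun _ => 2) ?_ ?_ ?_ (4 * k)
      (by positivity) (by simp; linarith) t ht
    · intro i a x
      have e : ∑ j, ψ (Function.update a i x j) - ∑ j, ψ (a j) = ψ x - ψ (a i) := by
        rw [← Finset.sum_sub_distrib, Finset.sum_eq_single i]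
        · simp
        · intro j _ hj
          rw [Function.update_of_ne hj]
          simp
        · simp
      rw [e]
      calc ‖ψ x - ψ (a i)‖ ≤ ‖ψ x‖ + ‖ψ (a i)‖ := norm_sub_le _ _
        _ ≤ 2 := by
          rw [AddChar.norm_apply, AddChar.norm_apply]
          norm_num
    · exact hmean Complex.re (fun f => by simp) (fun f => by simp) (by rw [hs0]; simp)
    · exact hmean Complex.im (fun f => by simp) (fun f => by simp) (by rw [hs0]; simp)
  · gcongr
    calc ((univ : Finset (AddChar G ℂ)).filter fun ψ => ψ ≠ 0).card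
        ≤ Fintype.card (AddChar G ℂ) := Finset.card_le_univ _
      _ = Fintype.card G := AddChar.card_eq

/-- Few points have high degree. -/
lemma card_high_le [Nonempty G] (a : Fin k → G) (T : Finset G) (M : ℝ) (hM0 : 0 ≤ M)
    (hM : CharBd M a) (L : ℕ) (hL : 0 < L) :
    ((univ.filter fun x => L < dd a T x).card : ℝ) ≤
      ((k : ℝ) ^ 2 * (T.card : ℝ) ^ 2 / Fintype.card G + M * T.card) / (L : ℝ) ^ 2 := by
  have hn : (0 : ℝ) < (Fintype.card G : ℝ) := by exact_mod_cast Fintype.card_pos
  have hL0 : (0 : ℝ) < L := by exact_mod_cast hL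
  have h1 := sum_dd_sq_le a T M hM0 hM
  rw [le_div_iff₀ (by positivity)]
  have h2 : ((univ.filter fun x => L < dd a T x).card : ℝ) * (L : ℝ) ^ 2 ≤
      ∑ x, (dd a T x : ℝ) ^ 2 := by
    calc _ = ∑ _x ∈ univ.filter (fun x => L < dd a T x), (L : ℝ) ^ 2 := by simp
      _ ≤ ∑ x ∈ univ.filter (fun x => L < dd a T x), (dd a T x : ℝ) ^ 2 := by
          refine Finset.sum_le_sum fun x hx => ?_
          have : L < dd a T x := (Finset.mem_filter.mp hx).2
          have : (L : ℝ) ≤ dd a T x := by exact_mod_cast this.le
          gcongr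
      _ ≤ _ := Finset.sum_le_sum_of_subset_of_nonneg (Finset.subset_univ _)
          fun _ _ _ => sq_nonneg _
  refine h2.trans ?_
  have h3 : ∑ x, (dd a T x : ℝ) ^ 2 ≤ ((k : ℝ) ^ 2 * (T.card : ℝ) ^ 2 +
      M * ((Fintype.card G : ℝ) * T.card)) / Fintype.card G := by
    rw [le_div_iff₀ hn]
    linarith
  refine h3.trans (le_of_eq ?_)
  field_simp

end Cover
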