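import Pool.Agent.Cover.SampleLB
import Pool.Agent.Cover.Struct

/-!
The counting hypotheses follow from the union bounds.
-/

namespace Cover

open Finset
open scoped Classical

set_option linter.unusedSectionVars false

variable {G : Type*} [AddCommGroup G] [Fintype G] {J k N : ℕ}

lemma mu_est [Nonempty G] (hk : 0 < k) (hkn : (k : ℝ) ^ 2 ≤ Fintype.card G)
    (hnk : (Fintype.card G : ℝ) ≤ (k + 1) ^ 2) (hJk : J ≤ k) (C' : ℕ) (T : Fin J → Finset G)
    (hT : ∀ l, (T l).card ≤ C' * k) :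
    |mu k T - Fintype.card G * ∏ l, ((T l).card : ℝ) / k| ≤
      (C' : ℝ) ^ J * (J * (J + 2)) / k * Fintype.card G := by
  have hn : (0 : ℝ) < (Fintype.card G : ℝ) := by exact_mod_cast Fintype.card_pos
  have hk0 : (0 : ℝ) < k := by exact_mod_cast hk
  set n : ℝ := (Fintype.card G : ℝ) with hn_def
  set ratio : ℝ := (k.descFactorial J : ℝ) * k ^ J / n ^ J with hratio
  have hmu : mu k T = n * (∏ l, ((T l).card : ℝ) / k) * ratio := by
    unfold mu
    rw [← hn_def, hratio, Finset.prod_div_distrib, Finset.prod_div_distrib]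
    simp only [Finset.prod_const, Finset.card_univ, Fintype.card_fin]
    have hx : (k : ℝ) ^ J ≠ 0 := pow_ne_zero _ hk0.ne'
    generalize ∏ l, ((T l).card : ℝ) = P
    generalize (k.descFactorial J : ℝ) = D
    generalize (k : ℝ) ^ J = x at hx ⊢
    generalize n ^ J = y
    calc n * D * (P / y) = n * P * (x / x) * (D / y) := by rw [div_self hx]; ring
      _ = _ := by ring
  have hprod0 : 0 ≤ ∏ l, ((T l).card : ℝ) / k := Finset.prod_nonneg fun l _ => by positivity
  have hprod : ∏ l, ((T l).card : ℝ) / k ≤ (C' : ℝ) ^ J := by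
    calc ∏ l, ((T l).card : ℝ) / k ≤ ∏ _l : Fin J, (C' : ℝ) := by
          refine Finset.prod_le_prod (fun l _ => by positivity) (fun l _ => ?_)
          rw [div_le_iff₀ hk0]
          exact_mod_cast hT l
      _ = _ := by simp
  have hr1 : ratio ≤ 1 := by
    rw [hratio, div_le_one (by positivity)]
    have h1 : ((k.descFactorial J : ℕ) : ℝ) ≤ (k : ℝ) ^ J := by
      exact_mod_cast Nat.descFactorial_le_pow k J
    calc (k.descFactorial J : ℝ) * k ^ J ≤ k ^ J * k ^ J := by gcongr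
      _ = (k ^ 2) ^ J := by rw [← mul_pow, sq]
      _ ≤ n ^ J := by gcongr
  have hr2 : 1 - J * (J + 2) / k ≤ ratio := by
    have h1 : ((k - J : ℕ) : ℝ) ^ J ≤ (k.descFactorial J : ℝ) := by
      have := Nat.pow_sub_le_descFactorial k J
      have h2 : (k - J) ^ J ≤ (k + 1 - J) ^ J := Nat.pow_le_pow_left (by omega) _
      exact_mod_cast h2.trans this
    have hkJ : ((k - J : ℕ) : ℝ) = (k : ℝ) - J := by
      rw [Nat.cast_sub hJk]
    rw [hkJ] at h1
    have hJk' : (J : ℝ) ≤ k := by exact_mod_cast hJk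
    have h3 : ((k - J) * k / n) ^ J ≤ ratio := by
      rw [hratio, div_pow, mul_pow]
      gcongr
    refine le_trans ?_ h3
    set y : ℝ := 1 - (k - J) * k / n with hy
    have hy1 : y ≤ (J + 2) / k := by
      have h4 : (k - J) * k / (k + 1 : ℝ) ^ 2 ≤ (k - J) * k / n := by
        have : 0 ≤ ((k : ℝ) - J) * k := mul_nonneg (by linarith) hk0.le
        gcongr
      have h5 : 1 - (J + 2) / k ≤ (k - J) * k / (k + 1 : ℝ) ^ 2 := by
        rw [sub_le_iff_le_add, div_add_div _ _ (by positivity) (by positivity),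
          le_div_iff₀ (by positivity)]
        nlinarith [mul_nonneg (show (0 : ℝ) ≤ J by positivity) hk0.le]
      rw [hy]
      linarith
    have hy0 : y ≤ 1 := by
      rw [hy]
      have : 0 ≤ ((k : ℝ) - J) * k / n := div_nonneg (mul_nonneg (by linarith) hk0.le) hn.le
      linarith
    have h6 : 1 + (J : ℝ) * (-y) ≤ (1 + (-y)) ^ J := one_add_mul_le_pow (by linarith) J
    have h7 : 1 + -y = (k - J) * k / n := by rw [hy]; ring
    rw [h7] at h6
    refine le_trans ?_ h6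
    have h8 : (J : ℝ) * y ≤ J * ((J + 2) / k) := by gcongr
    rw [mul_div_assoc]
    linarith
  rw [hmu]
  have h9 : 1 - ratio ≤ J * (J + 2) / k := by linarith
  have h10 : 0 ≤ 1 - ratio := by linarith
  clear_value ratio
  generalize ∏ l, ((T l).card : ℝ) / k = P at hprod0 hprod ⊢
  have e : n * P * ratio - n * P = -(n * P * (1 - ratio)) := by ring
  have h11 : 0 ≤ n * P * (1 - ratio) := by positivity
  rw [e, abs_neg, abs_of_nonneg h11]
  calc n * P * (1 - ratio) ≤ n * (C' : ℝ) ^ J * (J * (J + 2) / k) := by gcongr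
    _ = _ := by ring

/-- Numerical conditions for the upper bound. -/
structure NumU (J L r C' : ℕ) (n k b δ θ ε : ℝ) : Prop where
  main : δ / θ ^ J + r * J * (2 * (J * ((C' * k) * (L : ℝ) ^ (J - 1)))) +
    k * (J * ((L : ℝ) ^ (J - 1) + J * (b * (L : ℝ) ^ (J - 2)))) / θ ^ J +
    (n * (L : ℝ) ^ J) * (J * Real.exp (-((θ * (C' * k)) ^ 2) / (2 * (C' * k)))) / θ ^ J ≤ ε * n

/-- Numerical conditions for the lower bound. -/
structure NumL (J C' : ℕ) (n k h h' B θ Hi ε : ℝ) : Prop where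
  main : B / θ ^ J + h' * Hi / θ ^ J + h * (J * (θ * ((C' + 1) * k))) / θ ^ J +
    (n * (C' : ℝ) ^ J) * (J * Real.exp (-((θ * (C' * k)) ^ 2) / (2 * (C' * k))) +
        J ^ 2 * n ^ 2 * Real.exp (-((θ ^ 2 * (C' * k)) ^ 2) / (2 * (4 * J * (C' * k))))) / θ ^ J ≤
    ε * n

/-- Few points have high degree. -/
def HighBd (L : ℕ) (C' : ℕ) (Hi : ℝ) (a : Fin k → G) : Prop :=
  ∀ Tp : Finset G, Tp.card ≤ C' * k → ((univ.filter fun x => L < dd a Tp x).card : ℝ) ≤ Hi

lemma cnt_upper [Nonempty G] (hk : 0 < k) (hJ : 0 < J) (L : ℕ) (hL : 0 < L) (C' : ℕ)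
    (hC' : 0 < C') (b : ℝ) (hb0 : 0 ≤ b) (a : Fin k → G) (m r : ℕ) (δ ε : ℝ) (hδ : 0 ≤ δ)
    (hUT : UTgood J m r δ a) (hm : 2 * (th N * (C' * k)) ≤ m)
    (hnum : NumU J L r C' (Fintype.card G) k b δ (th N) ε)
    (Tp : Finset G) (hTp : Tp.card ≤ C' * k) (T : Fin J → Finset G) (hT : ∀ l, T l ⊆ Tp) :
    ((FF a Tp (rich a Tp b) L T).card : ℝ) ≤ mu k T + ε * Fintype.card G := by
  have hk0 : (0 : ℝ) < k := by exact_mod_cast hk
  have hC0 : (0 : ℝ) < C' := by exact_mod_cast hC'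
  have hθ : 0 < th N := th_pos N
  have h1 := transfer_upper (N := N) a Tp (rich a Tp b) L T hT hk hJ hL b hb0 (by
    intro y hy
    unfold rich at hy
    rw [Finset.mem_filter, not_and] at hy
    exact not_lt.mp (hy (Finset.mem_univ _))) m r δ (th N * (C' * k)) (C' * k) hδ hUT
    (by positivity) (by exact_mod_cast hTp) (by positivity) (by linarith)
  set θ := th N with hθdef
  have hθJ : 0 < θ ^ J := pow_pos hθ J
  have h2 := hnum.main
  have h3 : ((FF a Tp (rich a Tp b) L T).card : ℝ) ≤ (θ ^ J * mu k T + δ +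
      r * J * (2 * θ ^ J * (J * ((C' * k) * (L : ℝ) ^ (J - 1)))) +
      k * (J * ((L : ℝ) ^ (J - 1) + J * (b * (L : ℝ) ^ (J - 2)))) +
      (Fintype.card G * (L : ℝ) ^ J) *
        (J * Real.exp (-((θ * (C' * k)) ^ 2) / (2 * (C' * k))))) / θ ^ J := by
    rw [le_div_iff₀ hθJ]
    linarith
  refine h3.trans (le_trans (le_of_eq ?_) (add_le_add (le_refl (mu k T)) h2))
  field_simp
  ring

lemma cnt_lower [Nonempty G] (hk : 0 < k) (hkn : (k : ℝ) ^ 2 ≤ Fintype.card G) (L : ℕ)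
    (C' : ℕ) (hC' : 0 < C') (b : ℝ) (a : Fin k → G) (m : ℕ)
    (κ h h' B Hi ε : ℝ) (hh : 0 ≤ h) (hh' : 0 ≤ h') (hLT : LTgood J m κ h h' B a) (hB : 0 ≤ B)
    (hm : 2 * (th N * (C' * k)) ≤ m) (hκ : 2 * (th N ^ 2 * (C' * k)) ≤ κ)
    (hHi : HighBd L C' Hi a) (r₀ mR : ℕ) (hd : DiffBd r₀ a)
    (hR : (C' : ℝ) * k + (mR : ℝ) ^ 2 * r₀ < mR * b) (hmR : (mR : ℝ) ^ 2 * r₀ ≤ k)
    (hnum : NumL J C' (Fintype.card G) k h h' B (th N) Hi ε)
    (Tp : Finset G) (hTp : Tp.card ≤ C' * k) (T : Fin J → Finset G) (hT : ∀ l, T l ⊆ Tp) :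
    mu k T ≤ ((FF a Tp (rich a Tp b) L T).card : ℝ) + ε * Fintype.card G := by
  have hk0 : (0 : ℝ) < k := by exact_mod_cast hk
  have hC0 : (0 : ℝ) < C' := by exact_mod_cast hC'
  have hn : (0 : ℝ) < (Fintype.card G : ℝ) := by exact_mod_cast Fintype.card_pos
  have hθ : 0 < th N := th_pos N
  have hTp' : (Tp.card : ℝ) ≤ C' * k := by exact_mod_cast hTp
  have h1 := transfer_lower (N := N) a Tp (rich a Tp b) L T hT m κ h h' B (th N * (C' * k))
    (th N ^ 2 * (C' * k)) (C' * k) hh hh' hLT hB (by positivity) hTp' (by positivity)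
    (by positivity) (by linarith) (by linarith)
  set θ := th N with hθdef
  set R := rich a Tp b with hRdef
  have hθJ : 0 < θ ^ J := pow_pos hθ J
  have hRc : R.card < mR := by
    apply card_rich_lt hd
    linarith
  have hRc' : (R.card : ℝ) ≤ mR := by exact_mod_cast hRc.le
  have htau : ∑ y ∈ R, (tau a Tp y : ℝ) ≤ (C' + 1) * k := by
    have h2 := sum_tau_le hd Tp R
    have h3 : ((∑ y ∈ R, tau a Tp y : ℕ) : ℝ) ≤ (Tp.card + (R.card : ℝ) ^ 2 * r₀) := by
      exact_mod_cast h2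
    push_cast at h3
    have h4 : (R.card : ℝ) ^ 2 * r₀ ≤ (mR : ℝ) ^ 2 * r₀ := by gcongr
    linarith
  have hmu : mu k T ≤ Fintype.card G * (C' : ℝ) ^ J := by
    have h2 := mu_le (k := k) T (C' * k) (fun l => by
      have : (T l).card ≤ Tp.card := Finset.card_le_card (hT l)
      have : ((T l).card : ℝ) ≤ Tp.card := by exact_mod_cast this
      linarith)
    refine h2.trans ?_
    have h3 : (k : ℝ) * (C' * k) / Fintype.card G ≤ C' := by
      rw [div_le_iff₀ hn]
      calc (k : ℝ) * (C' * k) = C' * k ^ 2 := by ring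
        _ ≤ C' * Fintype.card G := by gcongr
    gcongr
  have hmu0 := mu_nonneg (k := k) T
  have h2 := hnum.main
  have hHi' := hHi Tp hTp
  have h3 : mu k T ≤ (θ ^ J * ((FF a Tp R L T).card : ℝ) + B + h' * Hi +
      h * (J * (θ * ((C' + 1) * k))) + (Fintype.card G * (C' : ℝ) ^ J) *
      (J * Real.exp (-((θ * (C' * k)) ^ 2) / (2 * (C' * k))) +
        J ^ 2 * (Fintype.card G : ℝ) ^ 2 *
          Real.exp (-((θ ^ 2 * (C' * k)) ^ 2) / (2 * (4 * J * (C' * k)))))) / θ ^ J := by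
    rw [le_div_iff₀ hθJ]
    have g1 : h' * ((univ.filter fun x => L < dd a Tp x).card : ℝ) ≤ h' * Hi := by gcongr
    have g2 : h * (J * (θ * ∑ y ∈ R, (tau a Tp y : ℝ))) ≤ h * (J * (θ * ((C' + 1) * k))) := by
      gcongr
    have g3 : mu k T * (J * Real.exp (-((θ * (C' * k)) ^ 2) / (2 * (C' * k))) +
        J ^ 2 * (Fintype.card G : ℝ) ^ 2 *
          Real.exp (-((θ ^ 2 * (C' * k)) ^ 2) / (2 * (4 * J * (C' * k))))) ≤
        (Fintype.card G * (C' : ℝ) ^ J) *
      (J * Real.exp (-((θ * (C' * k)) ^ 2) / (2 * (C' * k))) +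
        J ^ 2 * (Fintype.card G : ℝ) ^ 2 *
          Real.exp (-((θ ^ 2 * (C' * k)) ^ 2) / (2 * (4 * J * (C' * k))))) := by
      gcongr
    linarith
  refine h3.trans (le_trans (le_of_eq ?_) (add_le_add (le_refl ((FF a Tp R L T).card : ℝ)) h2))
  field_simp
  ring

lemma cnt_zero [Nonempty G] (L C' : ℕ) (b Hi ε : ℝ) (a : Fin k → G) (hHi : HighBd L C' Hi a)
    (hε : Hi ≤ ε * Fintype.card G) (Tp : Finset G) (hTp : Tp.card ≤ C' * k)
    (T : Fin 0 → Finset G) :
    |((FF a Tp (rich a Tp b) L T).card : ℝ) - Fintype.card G| ≤ ε * Fintype.card G := by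
  have h1 : (FF a Tp (rich a Tp b) L T).card = (univ.filter fun x => dd a Tp x ≤ L).card := by
    refine Finset.card_bij (fun t _ => t.1) ?_ ?_ ?_
    · intro t ht
      rw [Finset.mem_filter]
      exact ⟨Finset.mem_univ _, (mem_FF.mp ht).2.1⟩
    · intro t _ t' _ h
      refine Prod.ext h ?_
      ext i
      exact i.elim0
    · intro x hx
      refine ⟨(x, ⟨fun i => i.elim0, fun i => i.elim0⟩), ?_, rfl⟩
      rw [mem_FF]
      exact ⟨fun i => i.elim0, (Finset.mem_filter.mp hx).2, fun i => i.elim0⟩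
  have h2 : (univ.filter fun x => dd a Tp x ≤ L).card +
      (univ.filter fun x => L < dd a Tp x).card = Fintype.card G := by
    have h3 := Finset.card_filter_add_card_filter_not (s := (univ : Finset G))
      (fun x => dd a Tp x ≤ L)
    rw [Finset.card_univ] at h3
    rw [← h3]
    congr 2
    ext x
    simp
  have h3 := hHi Tp hTp
  rw [h1]
  have h4 : ((univ.filter fun x => dd a Tp x ≤ L).card : ℝ) +
      ((univ.filter fun x => L < dd a Tp x).card : ℝ) = (Fintype.card G : ℝ) := by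
    exact_mod_cast h2
  rw [abs_le]
  constructor
  · linarith
  · have : (0 : ℝ) ≤ ((univ.filter fun x => L < dd a Tp x).card : ℝ) := by positivity
    linarith

end Cover
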