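import Pool.Agent.Cover.Prob

/-!
The deletion method for upper tails.
-/

namespace Cover

open Finset
open scoped Classical

set_option linter.unusedSectionVars false

variable {ι α τ : Type*} [Fintype ι] [DecidableEq ι] [Fintype α] [Nonempty α] [Fintype τ]

lemma pr_inter_indep (B B' : Finset ι) (hd : Disjoint B B') (C C' : ι → Finset α)
    (hC : ∀ i ∉ B, C i = univ) (hC' : ∀ i ∉ B', C' i = univ) :
    pr (fun a : ι → α => (∀ i, a i ∈ C i) ∧ ∀ i, a i ∈ C' i) =
      pr (fun a : ι → α => ∀ i, a i ∈ C i) * pr (fun a : ι → α => ∀ i, a i ∈ C' i) := by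
  have h1 : (fun a : ι → α => (∀ i, a i ∈ C i) ∧ ∀ i, a i ∈ C' i) =
      fun a => ∀ i, a i ∈ C i ∩ C' i := by
    funext a
    simp [Finset.mem_inter, forall_and]
  rw [h1, pr_pi, pr_pi, pr_pi, ← Finset.prod_mul_distrib]
  refine Finset.prod_congr rfl fun i _ => ?_
  have hn : (Fintype.card α : ℝ) ≠ 0 := by
    exact_mod_cast Fintype.card_ne_zero
  by_cases hi : i ∈ B
  · have hi' : i ∉ B' := Finset.disjoint_left.mp hd hi
    rw [hC' i hi']
    simp [hn]
  · rw [hC i hi]
    simp [hn]

/-- Weighted count of sequences of pairwise disjoint occurring events. -/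
noncomputable def Zseq (supp : τ → Finset ι) (C : τ → ι → Finset α) :
    ℕ → Finset ι → (ι → α) → ℝ
  | 0, _, _ => 1
  | r + 1, D, a => ∑ t : τ, if (Disjoint (supp t) D ∧ ∀ i, a i ∈ C t i) then
      Zseq supp C r (D ∪ supp t) a else 0

lemma Zseq_nonneg (supp : τ → Finset ι) (C : τ → ι → Finset α) :
    ∀ r D a, 0 ≤ Zseq supp C r D a := by
  intro r
  induction r with
  | zero => intro D a; simp [Zseq]
  | succ r ih =>
    intro D a
    simp only [Zseq]
    exact Finset.sum_nonneg fun t _ => by
      split_ifs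
      · exact ih _ _
      · exact le_refl _

lemma Zseq_lower (supp : τ → Finset ι) (C : τ → ι → Finset α) (ℓ : ℕ)
    (hℓ : ∀ t, (supp t).card ≤ ℓ) (x : ℝ) (hx : 0 ≤ x) :
    ∀ r D a, (∀ D' : Finset ι, D'.card ≤ D.card + r * ℓ →
      x ≤ ((univ.filter fun t => Disjoint (supp t) D' ∧ ∀ i, a i ∈ C t i).card : ℝ)) →
      x ^ r ≤ Zseq supp C r D a := by
  intro r
  induction r with
  | zero => intro D a _; simp [Zseq]
  | succ r ih =>
    intro D a h
    simp only [Zseq]
    rw [← Finset.sum_filter]
    have h1 : x ≤ ((univ.filter fun t => Disjoint (supp t) D ∧ ∀ i, a i ∈ C t i).card : ℝ) :=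
      h D (by omega)
    calc x ^ (r + 1) = x * x ^ r := by ring
      _ ≤ ((univ.filter fun t => Disjoint (supp t) D ∧ ∀ i, a i ∈ C t i).card : ℝ) * x ^ r :=
          mul_le_mul_of_nonneg_right h1 (pow_nonneg hx r)
      _ = ∑ t ∈ (univ.filter fun t => Disjoint (supp t) D ∧ ∀ i, a i ∈ C t i), x ^ r := by
          simp
      _ ≤ _ := by
          refine Finset.sum_le_sum fun t _ => ?_
          refine ih _ _ fun D' hD' => h D' ?_
          have := Finset.card_union_le D (supp t)
          have := hℓ t
          have : (r + 1) * ℓ = r * ℓ + ℓ := by ring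
          omega

lemma Zseq_upper (supp : τ → Finset ι) (C : τ → ι → Finset α)
    (hC : ∀ t, ∀ i ∉ supp t, C t i = univ) (μ : ℝ)
    (hμ : ∑ t, pr (fun a : ι → α => ∀ i, a i ∈ C t i) ≤ μ) :
    ∀ r (D : Finset ι) (P : ι → Finset α), (∀ i ∉ D, P i = univ) →
      av (fun a : ι → α => if (∀ i, a i ∈ P i) then Zseq supp C r D a else 0) ≤
        pr (fun a : ι → α => ∀ i, a i ∈ P i) * μ ^ r := by
  intro r
  induction r with
  | zero =>
    intro D P _
    rw [pr_eq_ite]
    simp [Zseq]
  | succ r ih =>
    intro D P hP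
    have hμ0 : 0 ≤ μ := le_trans (Finset.sum_nonneg fun t _ => pr_nonneg _) hμ
    have e1 : (fun a : ι → α => if (∀ i, a i ∈ P i) then Zseq supp C (r + 1) D a else 0) =
        fun a => ∑ t : τ, if Disjoint (supp t) D then
          (if (∀ i, a i ∈ P i ∩ C t i) then Zseq supp C r (D ∪ supp t) a else 0) else 0 := by
      funext a
      simp only [Zseq, Finset.mem_inter, forall_and]
      by_cases hPa : ∀ i, a i ∈ P i
      · rw [if_pos hPa]
        refine Finset.sum_congr rfl fun t _ => ?_
        by_cases h1 : Disjoint (supp t) D <;> by_cases h2 : ∀ i, a i ∈ C t i <;>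
          simp [h1, h2, hPa]
      · rw [if_neg hPa]
        simp [hPa]
    rw [e1, av_sum]
    calc ∑ t : τ, av (fun a : ι → α => if Disjoint (supp t) D then
          (if (∀ i, a i ∈ P i ∩ C t i) then Zseq supp C r (D ∪ supp t) a else 0) else 0)
        ≤ ∑ t : τ, pr (fun a : ι → α => ∀ i, a i ∈ P i) *
            pr (fun a : ι → α => ∀ i, a i ∈ C t i) * μ ^ r := by
          refine Finset.sum_le_sum fun t _ => ?_
          by_cases h1 : Disjoint (supp t) D
          · simp only [h1, if_true]
            refine (ih (D ∪ supp t) (fun i => P i ∩ C t i) ?_).trans ?_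
            · intro i hi
              rw [Finset.mem_union, not_or] at hi
              rw [hP i hi.1, hC t i hi.2, Finset.univ_inter]
            · have := pr_inter_indep D (supp t) h1.symm P (C t) hP (hC t)
              rw [← this]
              refine le_of_eq ?_
              congr 2
              funext a
              simp [Finset.mem_inter, forall_and]
          · simp only [h1, if_false]
            have : av (fun _ : ι → α => (0 : ℝ)) = 0 := av_const 0
            rw [this]
            exact mul_nonneg (mul_nonneg (pr_nonneg _) (pr_nonneg _)) (pow_nonneg hμ0 r)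
      _ = pr (fun a : ι → α => ∀ i, a i ∈ P i) *
            (∑ t, pr (fun a : ι → α => ∀ i, a i ∈ C t i)) * μ ^ r := by
          rw [Finset.mul_sum, Finset.sum_mul]
      _ ≤ pr (fun a : ι → α => ∀ i, a i ∈ P i) * μ * μ ^ r := by
          gcongr
          exact pr_nonneg _
      _ = _ := by ring

/-- Deletion lemma: it is very unlikely that after every deletion of at most `r * ℓ`
coordinates at least `x` of the events remain. -/
theorem deletion (supp : τ → Finset ι) (C : τ → ι → Finset α) (ℓ r : ℕ)
    (hℓ : ∀ t, (supp t).card ≤ ℓ) (hC : ∀ t, ∀ i ∉ supp t, C t i = univ) (μ x : ℝ) (hx : 0 < x)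
    (hμ : ∑ t, pr (fun a : ι → α => ∀ i, a i ∈ C t i) ≤ μ) :
    pr (fun a : ι → α => ∀ D : Finset ι, D.card ≤ r * ℓ →
      x ≤ ((univ.filter fun t => Disjoint (supp t) D ∧ ∀ i, a i ∈ C t i).card : ℝ)) ≤
      (μ / x) ^ r := by
  calc pr (fun a : ι → α => ∀ D : Finset ι, D.card ≤ r * ℓ →
      x ≤ ((univ.filter fun t => Disjoint (supp t) D ∧ ∀ i, a i ∈ C t i).card : ℝ))
      ≤ pr (fun a : ι → α => x ^ r ≤ Zseq supp C r ∅ a) := by
        refine pr_mono fun a ha => ?_
        refine Zseq_lower supp C ℓ hℓ x hx.le r ∅ a fun D' hD' => ha D' ?_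
        simpa using hD'
    _ ≤ av (fun a : ι → α => Zseq supp C r ∅ a) / x ^ r :=
        pr_le_av_div (fun a => Zseq_nonneg _ _ _ _ _) (pow_pos hx r)
    _ ≤ μ ^ r / x ^ r := by
        have h := Zseq_upper supp C hC μ hμ r ∅ (fun _ => univ) (fun _ _ => rfl)
        simp only [Finset.mem_univ, implies_true, if_true] at h
        have h1 : pr (fun _ : ι → α => True) = 1 := by
          unfold pr
          simp [av_const]
        rw [h1, one_mul] at h
        gcongr
    _ = (μ / x) ^ r := by rw [div_pow]

end Cover
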