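import Pool.Agent.Cover.Fourier

/-!
Sums `b i + b j + y` in a fixed pseudorandom set, for random `b`.
-/

namespace Cover

open Finset
open scoped Classical

set_option linter.unusedSectionVars false

variable {G : Type*} [AddCommGroup G] [Fintype G]

/-- Number of coordinates falling in a fixed set. -/
lemma pr_count_ge {V : Type*} [Fintype V] [DecidableEq V] [Nonempty G] (hV : 0 < Fintype.card V)
    (C : Finset G) (s : ℝ) (hs : 0 ≤ s) :
    pr (fun b : V → G => (Fintype.card V : ℝ) * (C.card / Fintype.card G) + s ≤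
      ((univ.filter fun i => b i ∈ C).card : ℝ)) ≤
      Real.exp (-(s ^ 2) / (2 * (Fintype.card V : ℝ))) := by
  have hn : (0 : ℝ) < (Fintype.card G : ℝ) := by exact_mod_cast Fintype.card_pos
  have hV0 : (0 : ℝ) < (Fintype.card V : ℝ) := by exact_mod_cast hV
  have hav : av (fun b : V → G => ((univ.filter fun i => b i ∈ C).card : ℝ)) =
      (Fintype.card V : ℝ) * (C.card / Fintype.card G) := by
    have h1 : ∀ b : V → G, ((univ.filter fun i => b i ∈ C).card : ℝ) =
        ∑ i, (if ∀ j, b j ∈ (if j = i then C else univ) then (1 : ℝ) else 0) := by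
      intro b
      rw [Finset.card_filter]
      push_cast
      refine Finset.sum_congr rfl fun i _ => ?_
      have e : (∀ j, b j ∈ (if j = i then C else univ)) ↔ b i ∈ C := by
        constructor
        · intro h
          simpa using h i
        · intro h j
          by_cases hj : j = i
          · subst hj; simpa using h
          · simp [hj]
      by_cases h : b i ∈ C
      · rw [if_pos h, if_pos (e.mpr h)]
      · rw [if_neg h, if_neg (fun h' => h (e.mp h'))]
    simp_rw [h1]
    rw [av_sum]
    calc _ = ∑ _i : V, (C.card : ℝ) / Fintype.card G := by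
          refine Finset.sum_congr rfl fun i _ => ?_
          rw [← pr_eq_ite (fun b : V → G => ∀ j, b j ∈ (if j = i then C else univ)), pr_pi,
            Finset.prod_eq_single i]
          · simp
          · intro j _ hj
            simp [hj, hn.ne']
          · simp
      _ = _ := by simp
  have hmc := mcdiarmid_upper (fun b : V → G => ((univ.filter fun i => b i ∈ C).card : ℝ))
    (fun _ => 1) ?_ (Fintype.card V : ℝ) hV0 (by simp) s hs
  · rw [hav] at hmc
    exact hmc
  · intro i b g
    have h1 : ∀ b' b'' : V → G, (∀ j, j ≠ i → b' j = b'' j) →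
        ((univ.filter fun i => b' i ∈ C).card : ℝ) ≤
          ((univ.filter fun i => b'' i ∈ C).card : ℝ) + 1 := by
      intro b' b'' h
      have : (univ.filter fun i => b' i ∈ C) ⊆ insert i (univ.filter fun i => b'' i ∈ C) := by
        intro j hj
        rw [Finset.mem_insert]
        by_cases hji : j = i
        · left; exact hji
        · right
          simp only [Finset.mem_filter, Finset.mem_univ, true_and] at hj ⊢
          rwa [← h j hji]
      have := (Finset.card_le_card this).trans (Finset.card_insert_le _ _)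
      exact_mod_cast this
    have h2 := h1 (Function.update b i g) b fun j hj => Function.update_of_ne hj _ _
    have h3 := h1 b (Function.update b i g) fun j hj => (Function.update_of_ne hj _ _).symm
    rw [abs_le]
    constructor <;> linarith

/-- Ordered pairs of distinct indices in `B₁ × B₂` whose sum, shifted by `y`, lies in `W`. -/
noncomputable def EE {V : Type*} (b : V → G) (y : G) (W : Finset G) (B₁ B₂ : Finset V) : ℕ :=
  ((B₁ ×ˢ B₂).filter fun q => q.1 ≠ q.2 ∧ b q.1 + b q.2 + y ∈ W).card

lemma ite_mul_ite_one (p q : Prop) [Decidable p] [Decidable q] [Decidable (p ∧ q)] :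
    (if p then (1 : ℝ) else 0) * (if q then 1 else 0) = if p ∧ q then 1 else 0 := by
  by_cases hp : p <;> by_cases hq : q <;> simp [hp, hq]

lemma EE_sq_le {V : Type*} [Fintype V] [DecidableEq V] (b : V → G) (y : G) (W Z : Finset G) (cd P : ℝ)
    (hcd0 : 0 ≤ cd)
    (hcd : ∀ j j', j ≠ j' → b j' - b j ∉ Z →
      ((univ.filter fun i => i ≠ j ∧ i ≠ j' ∧ b i + b j + y ∈ W ∧ b i + b j' + y ∈ W).card : ℝ)
        ≤ cd)
    (hP : ((univ.filter fun q : V × V => b q.2 - b q.1 ∈ Z).card : ℝ) ≤ P)
    (B₁ B₂ : Finset V) :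
    (EE b y W B₁ B₂ : ℝ) ^ 2 ≤ B₁.card * (B₂.card * Fintype.card V + B₂.card ^ 2 * cd +
      P * Fintype.card V) := by
  set f : V → ℝ := fun i => ((B₂.filter fun j => i ≠ j ∧ b i + b j + y ∈ W).card : ℝ) with hf
  have hE : (EE b y W B₁ B₂ : ℝ) = ∑ i ∈ B₁, f i := by
    unfold EE
    rw [Finset.card_filter, Finset.sum_product]
    push_cast
    refine Finset.sum_congr rfl fun i _ => ?_
    simp only [hf]
    rw [Finset.card_filter]
    push_cast
    refine Finset.sum_congr rfl fun j _ => ?_
    congr
  have h1 : (EE b y W B₁ B₂ : ℝ) ^ 2 ≤ B₁.card * ∑ i ∈ B₁, f i ^ 2 := by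
    rw [hE]
    exact sq_sum_le_card_mul_sum_sq
  have h2 : ∑ i ∈ B₁, f i ^ 2 ≤ ∑ i, f i ^ 2 :=
    Finset.sum_le_sum_of_subset_of_nonneg (Finset.subset_univ _) (fun i _ _ => sq_nonneg _)
  have h3 : ∀ i, f i ^ 2 = ∑ j ∈ B₂, ∑ j' ∈ B₂,
      (if i ≠ j ∧ i ≠ j' ∧ b i + b j + y ∈ W ∧ b i + b j' + y ∈ W then (1 : ℝ) else 0) := by
    intro i
    have h4 : f i = ∑ j ∈ B₂, (if i ≠ j ∧ b i + b j + y ∈ W then (1 : ℝ) else 0) := by
      simp only [hf]
      rw [Finset.card_filter]
      push_cast
      rfl
    rw [sq, h4, Finset.sum_mul]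
    refine Finset.sum_congr rfl fun j _ => ?_
    rw [Finset.mul_sum]
    refine Finset.sum_congr rfl fun j' _ => ?_
    have e : (i ≠ j ∧ i ≠ j' ∧ b i + b j + y ∈ W ∧ b i + b j' + y ∈ W) ↔
        (i ≠ j ∧ b i + b j + y ∈ W) ∧ (i ≠ j' ∧ b i + b j' + y ∈ W) := by tauto
    rw [if_congr e rfl rfl]
    exact ite_mul_ite_one _ _
  have h4 : ∑ i, f i ^ 2 ≤ ∑ j ∈ B₂, ∑ j' ∈ B₂, ((if j = j' then (Fintype.card V : ℝ) else 0) +
      cd + (if b j' - b j ∈ Z then (Fintype.card V : ℝ) else 0)) := by
    simp_rw [h3]
    rw [Finset.sum_comm]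
    refine Finset.sum_le_sum fun j _ => ?_
    rw [Finset.sum_comm]
    refine Finset.sum_le_sum fun j' _ => ?_
    have h5 : ∑ i : V, (if i ≠ j ∧ i ≠ j' ∧ b i + b j + y ∈ W ∧ b i + b j' + y ∈ W
        then (1 : ℝ) else 0) = ((univ.filter fun i => i ≠ j ∧ i ≠ j' ∧ b i + b j + y ∈ W ∧
          b i + b j' + y ∈ W).card : ℝ) := by
      rw [Finset.card_filter]
      push_cast
      rfl
    rw [h5]
    have h6 : ((univ.filter fun i => i ≠ j ∧ i ≠ j' ∧ b i + b j + y ∈ W ∧
          b i + b j' + y ∈ W).card : ℝ) ≤ Fintype.card V := by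
      exact_mod_cast Finset.card_le_univ _
    have hv0 : (0 : ℝ) ≤ (Fintype.card V : ℝ) := by positivity
    by_cases h7 : j = j'
    · rw [if_pos h7]
      have : (0 : ℝ) ≤ (if b j' - b j ∈ Z then (Fintype.card V : ℝ) else 0) := by
        split_ifs <;> simp
      linarith
    · by_cases h8 : b j' - b j ∈ Z
      · rw [if_neg h7, if_pos h8]
        linarith
      · rw [if_neg h7, if_neg h8]
        have := hcd j j' h7 h8
        linarith
  have h5 : ∑ j ∈ B₂, ∑ j' ∈ B₂, ((if j = j' then (Fintype.card V : ℝ) else 0) +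
      cd + (if b j' - b j ∈ Z then (Fintype.card V : ℝ) else 0)) ≤
      B₂.card * Fintype.card V + B₂.card ^ 2 * cd + P * Fintype.card V := by
    have h6 : ∑ j ∈ B₂, ∑ j' ∈ B₂, (if j = j' then (Fintype.card V : ℝ) else 0) =
        B₂.card * Fintype.card V := by
      calc _ = ∑ _j ∈ B₂, (Fintype.card V : ℝ) := by
            refine Finset.sum_congr rfl fun j hj => ?_
            simp [hj]
        _ = _ := by rw [Finset.sum_const, nsmul_eq_mul]
    have h7 : ∑ j ∈ B₂, ∑ j' ∈ B₂, (if b j' - b j ∈ Z then (Fintype.card V : ℝ) else 0) ≤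
        P * Fintype.card V := by
      calc ∑ j ∈ B₂, ∑ j' ∈ B₂, (if b j' - b j ∈ Z then (Fintype.card V : ℝ) else 0)
          ≤ ∑ j : V, ∑ j' : V, (if b j' - b j ∈ Z then (Fintype.card V : ℝ) else 0) := by
            refine (Finset.sum_le_sum fun j _ => Finset.sum_le_sum_of_subset_of_nonneg
              (Finset.subset_univ _) (fun j' _ _ => by split_ifs <;> simp)).trans
              (Finset.sum_le_sum_of_subset_of_nonneg (Finset.subset_univ _)
                (fun j _ _ => Finset.sum_nonneg fun j' _ => by split_ifs <;> simp))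
        _ = ((univ.filter fun q : V × V => b q.2 - b q.1 ∈ Z).card : ℝ) * Fintype.card V := by
            rw [Finset.card_filter]
            push_cast
            rw [Finset.sum_mul, ← Finset.univ_product_univ, Finset.sum_product]
            refine Finset.sum_congr rfl fun j _ => Finset.sum_congr rfl fun j' _ => ?_
            split_ifs <;> simp
        _ ≤ _ := by gcongr
    simp_rw [Finset.sum_add_distrib]
    rw [h6]
    have h8 : ∑ j ∈ B₂, ∑ _j' ∈ B₂, cd = B₂.card ^ 2 * cd := by
      simp
      ring
    rw [h8]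
    linarith
  calc (EE b y W B₁ B₂ : ℝ) ^ 2 ≤ _ := h1
    _ ≤ _ := by
      refine mul_le_mul_of_nonneg_left (h2.trans (h4.trans h5)) (by positivity)

/-- For random `b : V → G` and a pseudorandom `W`, few sums `b i + b j + y` lie in `W`,
simultaneously for all index sets. -/
lemma pr_EE_bad {V : Type*} [Fintype V] [DecidableEq V] [Nonempty G]
    (hV : 0 < Fintype.card V) (W Z : Finset G) (γ s : ℝ) (hγ0 : 0 ≤ γ) (hs : 0 ≤ s)
    (hγ : ∀ z ∉ Z, (cor W z : ℝ) ≤ γ * Fintype.card G) (y : G) :
    pr (fun b : V → G => ¬ ∀ B₁ B₂ : Finset V, (EE b y W B₁ B₂ : ℝ) ^ 2 ≤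
      B₁.card * (B₂.card * Fintype.card V + B₂.card ^ 2 * (Fintype.card V * γ + s) +
        (Fintype.card V * (Fintype.card V * (Z.card / Fintype.card G) + s)) * Fintype.card V)) ≤
      ((Fintype.card G : ℝ) ^ 2 + Fintype.card G) *
        Real.exp (-(s ^ 2) / (2 * (Fintype.card V : ℝ))) := by
  have hn : (0 : ℝ) < (Fintype.card G : ℝ) := by exact_mod_cast Fintype.card_pos
  have hV0 : (0 : ℝ) < (Fintype.card V : ℝ) := by exact_mod_cast hV
  set C2 : G × G → Finset G := fun u => univ.filter fun g => g + u.1 + y ∈ W ∧ g + u.2 + y ∈ W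
    with hC2
  set C1 : G → Finset G := fun u => univ.filter fun g => g - u ∈ Z with hC1
  have hC1c : ∀ u, (C1 u).card = Z.card := by
    intro u
    simp only [hC1]
    refine Finset.card_bij (fun g _ => g - u) ?_ ?_ ?_
    · intro g hg; simpa using hg
    · intro g _ g' _ h; simpa using h
    · intro z hz; exact ⟨z + u, by simpa using hz, by simp⟩
  have hC2c : ∀ u : G × G, (C2 u).card = cor W (u.2 - u.1) := by
    intro u
    simp only [hC2, cor]
    refine Finset.card_bij (fun g _ => g + u.1 + y) ?_ ?_ ?_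
    · intro g hg
      simp only [Finset.mem_filter, Finset.mem_univ, true_and] at hg ⊢
      refine ⟨hg.1, ?_⟩
      have : g + u.1 + y + (u.2 - u.1) = g + u.2 + y := by abel
      rw [this]
      exact hg.2
    · intro g _ g' _ h
      simpa using h
    · intro x hx
      simp only [Finset.mem_filter, Finset.mem_univ, true_and] at hx
      refine ⟨x - u.1 - y, ?_, by abel⟩
      simp only [Finset.mem_filter, Finset.mem_univ, true_and]
      have e1 : x - u.1 - y + u.1 + y = x := by abel
      have e2 : x - u.1 - y + u.2 + y = x + (u.2 - u.1) := by abel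
      rw [e1, e2]
      exact hx
  have h1 := pr_exists_le_card (univ : Finset (G × G))
    (fun u (b : V → G) => (Fintype.card V : ℝ) * ((C2 u).card / Fintype.card G) + s ≤
      ((univ.filter fun i => b i ∈ C2 u).card : ℝ)) _ (fun u _ => pr_count_ge hV (C2 u) s hs)
  have h2 := pr_exists_le_card (univ : Finset G)
    (fun u (b : V → G) => (Fintype.card V : ℝ) * ((C1 u).card / Fintype.card G) + s ≤
      ((univ.filter fun i => b i ∈ C1 u).card : ℝ)) _ (fun u _ => pr_count_ge hV (C1 u) s hs)
  refine le_trans (pr_mono fun b hb => ?_) ((pr_or_le _ _).trans ((add_le_add h1 h2).trans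
    (le_of_eq ?_)))
  · by_contra hcon
    push Not at hcon
    obtain ⟨hc2, hc1⟩ := hcon
    apply hb
    intro B₁ B₂
    refine EE_sq_le b y W Z _ _ (by positivity) ?_ ?_ B₁ B₂
    · intro j j' _ hz
      have h3 := hc2 (b j, b j') (Finset.mem_univ _)
      rw [hC2c] at h3
      calc ((univ.filter fun i => i ≠ j ∧ i ≠ j' ∧ b i + b j + y ∈ W ∧
            b i + b j' + y ∈ W).card : ℝ)
          ≤ ((univ.filter fun i => b i ∈ C2 (b j, b j')).card : ℝ) := by
            have : (univ.filter fun i => i ≠ j ∧ i ≠ j' ∧ b i + b j + y ∈ W ∧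
                b i + b j' + y ∈ W) ⊆ univ.filter fun i => b i ∈ C2 (b j, b j') := by
              intro i hi
              simp only [Finset.mem_filter, Finset.mem_univ, true_and, hC2] at hi ⊢
              exact ⟨hi.2.2.1, hi.2.2.2⟩
            exact_mod_cast Finset.card_le_card this
        _ ≤ (Fintype.card V : ℝ) * ((cor W (b j' - b j) : ℝ) / Fintype.card G) + s := h3.le
        _ ≤ _ := by
            gcongr
            rw [div_le_iff₀ hn]
            exact hγ _ hz
    · calc ((univ.filter fun q : V × V => b q.2 - b q.1 ∈ Z).card : ℝ)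
          = ∑ j : V, ((univ.filter fun j' => b j' ∈ C1 (b j)).card : ℝ) := by
            rw [Finset.card_filter]
            push_cast
            rw [← Finset.univ_product_univ, Finset.sum_product]
            refine Finset.sum_congr rfl fun j _ => ?_
            rw [Finset.card_filter]
            push_cast
            refine Finset.sum_congr rfl fun j' _ => ?_
            simp [hC1]
        _ ≤ ∑ _j : V, ((Fintype.card V : ℝ) * ((Z.card : ℝ) / Fintype.card G) + s) := by
            refine Finset.sum_le_sum fun j _ => ?_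
            have := hc1 (b j) (Finset.mem_univ _)
            rw [hC1c] at this
            exact this.le
        _ = _ := by simp; ring
  · simp only [Finset.card_univ, Fintype.card_prod]
    push_cast
    ring

end Cover
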