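import Pool.Agent.Cover.DoublesA

/-!
The complement of `A + A + Y` is pseudorandom.
-/

namespace Cover

open Finset
open scoped Classical

set_option linter.unusedSectionVars false

variable {G : Type*} [AddCommGroup G] [Fintype G]

/-- The complement of `A + A + Y`. -/
noncomputable def Wset {ι : Type*} (a : ι → G) (Y : Finset G) : Finset G :=
  univ.filter fun x => ∀ i j, x - a i - a j ∉ Y

lemma mem_Wset {ι : Type*} {a : ι → G} {Y : Finset G} {x : G} :
    x ∈ Wset a Y ↔ ∀ i j, x - a i - a j ∉ Y := by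
  simp [Wset]

lemma card_new {ι : Type*} [Fintype ι] (a : ι → G) (Y : Finset G) (i : ι) :
    (univ.filter fun x => ∃ j, x - a i - a j ∈ Y).card ≤ Fintype.card ι * Y.card := by
  calc (univ.filter fun x => ∃ j, x - a i - a j ∈ Y).card
      ≤ (((univ : Finset ι) ×ˢ Y).image fun q => q.2 + a q.1 + a i).card := by
        apply Finset.card_le_card
        intro x hx
        simp only [Finset.mem_filter, Finset.mem_univ, true_and] at hx
        obtain ⟨j, hj⟩ := hx
        rw [Finset.mem_image]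
        exact ⟨(j, x - a i - a j), by simp [hj], by simp⟩
    _ ≤ _ := Finset.card_image_le
    _ = _ := by rw [Finset.card_product, Finset.card_univ]

lemma Wset_sdiff {ι : Type*} [Fintype ι] (a a' : ι → G) (Y : Finset G) (i : ι)
    (h : ∀ j, j ≠ i → a j = a' j) :
    Wset a Y \ Wset a' Y ⊆ univ.filter fun x => ∃ j, x - a' i - a' j ∈ Y := by
  intro x hx
  rw [Finset.mem_sdiff, mem_Wset, mem_Wset] at hx
  obtain ⟨h1, h2⟩ := hx
  push Not at h2
  obtain ⟨i1, j1, h3⟩ := h2
  simp only [Finset.mem_filter, Finset.mem_univ, true_and]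
  by_cases hi : i1 = i
  · subst hi
    exact ⟨j1, h3⟩
  · by_cases hj : j1 = i
    · subst hj
      refine ⟨i1, ?_⟩
      have e : x - a' j1 - a' i1 = x - a' i1 - a' j1 := by abel
      rw [e]; exact h3
    · exfalso
      apply h1 i1 j1
      rw [h i1 hi, h j1 hj]
      exact h3

lemma Wset_sum_diff {ι : Type*} [Fintype ι] (a a' : ι → G) (Y : Finset G) (i : ι)
    (h : ∀ j, j ≠ i → a j = a' j) (f : G → ℂ) (hf : ∀ x, ‖f x‖ ≤ 1) :
    ‖∑ x ∈ Wset a Y, f x - ∑ x ∈ Wset a' Y, f x‖ ≤ 2 * (Fintype.card ι * Y.card) := by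
  have h1 : ∑ x ∈ Wset a Y, f x - ∑ x ∈ Wset a' Y, f x =
      ∑ x ∈ Wset a Y \ Wset a' Y, f x - ∑ x ∈ Wset a' Y \ Wset a Y, f x := by
    have e1 := Finset.sum_sdiff_sub_sum_sdiff (s₁ := Wset a' Y) (s₂ := Wset a Y) (f := f)
    exact e1.symm
  rw [h1]
  have h2 : ∀ s : Finset G, ‖∑ x ∈ s, f x‖ ≤ s.card := by
    intro s
    calc ‖∑ x ∈ s, f x‖ ≤ ∑ x ∈ s, ‖f x‖ := norm_sum_le _ _
      _ ≤ ∑ _x ∈ s, (1 : ℝ) := Finset.sum_le_sum fun x _ => hf x
      _ = s.card := by simp
  have h3 : ((Wset a Y \ Wset a' Y).card : ℝ) ≤ Fintype.card ι * Y.card := by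
    exact_mod_cast (Finset.card_le_card (Wset_sdiff a a' Y i h)).trans (card_new a' Y i)
  have h4 : ((Wset a' Y \ Wset a Y).card : ℝ) ≤ Fintype.card ι * Y.card := by
    exact_mod_cast (Finset.card_le_card (Wset_sdiff a' a Y i fun j hj => (h j hj).symm)).trans
      (card_new a Y i)
  calc _ ≤ ‖∑ x ∈ Wset a Y \ Wset a' Y, f x‖ + ‖∑ x ∈ Wset a' Y \ Wset a Y, f x‖ :=
        norm_sub_le _ _
    _ ≤ _ := by linarith [h2 (Wset a Y \ Wset a' Y), h2 (Wset a' Y \ Wset a Y)]

lemma pr_mem_Wset {ι : Type*} [Fintype ι] [DecidableEq ι]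
    (h2 : Function.Surjective fun g : G => g + g) (Y : Finset G) (x : G) :
    pr (fun a : ι → G => x ∈ Wset a Y) = pr (fun a : ι → G => (0 : G) ∈ Wset a Y) := by
  obtain ⟨c, hc⟩ := h2 x
  simp only at hc
  rw [pr_eq_ite, pr_eq_ite,
    ← av_comp_equiv (Equiv.piCongrRight fun _ : ι => Equiv.subRight c)
    (fun a : ι → G => if (0 : G) ∈ Wset a Y then (1 : ℝ) else 0)]
  congr 1
  funext a
  have e : (x ∈ Wset a Y) ↔
      ((0 : G) ∈ Wset ((Equiv.piCongrRight fun _ : ι => Equiv.subRight c) a) Y) := by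
    rw [mem_Wset, mem_Wset]
    refine forall_congr' fun i => forall_congr' fun j => ?_
    have : (0 : G) - ((Equiv.piCongrRight fun _ : ι => Equiv.subRight c) a) i -
        ((Equiv.piCongrRight fun _ : ι => Equiv.subRight c) a) j = x - a i - a j := by
      simp only [Equiv.piCongrRight_apply, Pi.map_apply, Equiv.subRight_apply]
      rw [← hc]
      abel
    rw [this]
  by_cases h : x ∈ Wset a Y
  · rw [if_pos h, if_pos (e.mp h)]
  · rw [if_neg h, if_neg (fun h' => h (e.mpr h'))]

/-- Fourier coefficients of `Wset` are small. -/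
lemma pr_ft_Wset {ι : Type*} [Fintype ι] [DecidableEq ι] [Nonempty G]
    (h2 : Function.Surjective fun g : G => g + g) (Y : Finset G) (ψ : AddChar G ℂ) (hψ : ψ ≠ 0)
    (V : ℝ) (hV : 0 < V)
    (hcV : (Fintype.card ι : ℝ) * (2 * (Fintype.card ι * Y.card)) ^ 2 ≤ V) (t : ℝ) (ht : 0 ≤ t) :
    pr (fun a : ι → G => 2 * t ^ 2 <
      ‖ft (fun x => if x ∈ Wset a Y then (1 : ℝ) else 0) ψ‖ ^ 2) ≤
      4 * Real.exp (-(t ^ 2) / (2 * V)) := by
  have hft : ∀ a : ι → G, ft (fun x => if x ∈ Wset a Y then (1 : ℝ) else 0) ψ =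
      ∑ x ∈ Wset a Y, ψ x := by
    intro a
    unfold ft
    rw [← Finset.sum_filter_add_sum_filter_not univ (fun x => x ∈ Wset a Y)]
    have e1 : ∑ x ∈ univ.filter (fun x => x ∈ Wset a Y),
        (((if x ∈ Wset a Y then (1 : ℝ) else 0 : ℝ)) : ℂ) * ψ x = ∑ x ∈ Wset a Y, ψ x := by
      rw [Finset.filter_univ_mem]
      refine Finset.sum_congr rfl fun x hx => ?_
      simp [hx]
    have e2 : ∑ x ∈ univ.filter (fun x => ¬ x ∈ Wset a Y),
        (((if x ∈ Wset a Y then (1 : ℝ) else 0 : ℝ)) : ℂ) * ψ x = 0 := by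
      refine Finset.sum_eq_zero fun x hx => ?_
      have := (Finset.mem_filter.mp hx).2
      simp [this]
    rw [e1, e2, add_zero]
  simp_rw [hft]
  have hmean : ∀ (L : ℂ → ℝ) (_hL : ∀ s : Finset G, ∀ f : G → ℂ, L (∑ x ∈ s, f x) =
      ∑ x ∈ s, L (f x)), L (∑ x, ψ x) = 0 →
      av (fun a : ι → G => L (∑ x ∈ Wset a Y, ψ x)) = 0 := by
    intro L hL h0
    have e1 : ∀ a : ι → G, L (∑ x ∈ Wset a Y, ψ x) =
        ∑ x, (if x ∈ Wset a Y then (1 : ℝ) else 0) * L (ψ x) := by
      intro a
      rw [hL]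
      simp
    simp_rw [e1]
    rw [av_sum]
    calc _ = ∑ x : G, pr (fun a : ι → G => (0 : G) ∈ Wset a Y) * L (ψ x) := by
          refine Finset.sum_congr rfl fun x _ => ?_
          rw [av_mul_right, ← pr_mem_Wset h2 Y x, pr_eq_ite]
      _ = 0 := by
          rw [← Finset.mul_sum, ← hL, h0, mul_zero]
  have hs0 : ∑ x, ψ x = 0 := AddChar.sum_eq_zero_iff_ne_zero.mpr hψ
  refine complex_tail (fun a : ι → G => ∑ x ∈ Wset a Y, ψ x)
    (fun _ => 2 * (Fintype.card ι * Y.card)) ?_ ?_ ?_ V hV (by simpa using hcV) t ht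
  · intro i a x
    exact Wset_sum_diff _ _ Y i (fun j hj => Function.update_of_ne hj _ _) (fun x => ψ x)
      (fun x => (AddChar.norm_apply ψ x).le)
  · exact hmean Complex.re (fun s f => by simp) (by rw [hs0]; simp)
  · exact hmean Complex.im (fun s f => by simp) (by rw [hs0]; simp)

lemma av_card_Wset {ι : Type*} [Fintype ι] [DecidableEq ι]
    (h2 : Function.Surjective fun g : G => g + g) (Y : Finset G) :
    av (fun a : ι → G => ((Wset a Y).card : ℝ)) =
      pr (fun a : ι → G => (0 : G) ∈ Wset a Y) * Fintype.card G := by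
  have e1 : ∀ a : ι → G, ((Wset a Y).card : ℝ) =
      ∑ x : G, (if x ∈ Wset a Y then (1 : ℝ) else 0) := by
    intro a
    simp
  simp_rw [e1]
  rw [av_sum]
  calc _ = ∑ _x : G, pr (fun a : ι → G => (0 : G) ∈ Wset a Y) := by
        refine Finset.sum_congr rfl fun x _ => ?_
        rw [← pr_mem_Wset h2 Y x, pr_eq_ite]
    _ = _ := by
        simp
        ring

lemma card_Wset_lip {ι : Type*} [Fintype ι] [DecidableEq ι] (Y : Finset G) (i : ι) (a : ι → G)
    (x : G) : |((Wset (Function.update a i x) Y).card : ℝ) - ((Wset a Y).card : ℝ)| ≤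
      2 * (Fintype.card ι * Y.card) := by
  have h := Wset_sum_diff (Function.update a i x) a Y i
    (fun j hj => Function.update_of_ne hj _ _) (fun _ => 1) (fun _ => by simp)
  have e : ∑ x ∈ Wset (Function.update a i x) Y, (1 : ℂ) - ∑ x ∈ Wset a Y, (1 : ℂ) =
      ((((Wset (Function.update a i x) Y).card : ℝ) - ((Wset a Y).card : ℝ) : ℝ) : ℂ) := by
    simp
  rw [e, Complex.norm_real] at h
  exact h

lemma pr_card_Wset_upper {ι : Type*} [Fintype ι] [DecidableEq ι] [Nonempty G]
    (h2 : Function.Surjective fun g : G => g + g) (Y : Finset G)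
    (V : ℝ) (hV : 0 < V)
    (hcV : (Fintype.card ι : ℝ) * (2 * (Fintype.card ι * Y.card)) ^ 2 ≤ V) (t : ℝ) (ht : 0 ≤ t) :
    pr (fun a : ι → G => pr (fun a : ι → G => (0 : G) ∈ Wset a Y) * Fintype.card G + t ≤
      ((Wset a Y).card : ℝ)) ≤ Real.exp (-(t ^ 2) / (2 * V)) := by
  have := mcdiarmid_upper (fun a : ι → G => ((Wset a Y).card : ℝ))
    (fun _ => 2 * (Fintype.card ι * Y.card)) (fun i a x => card_Wset_lip Y i a x) V hV
    (by simpa using hcV) t ht
  rwa [av_card_Wset h2] at this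

lemma pr_card_Wset_lower {ι : Type*} [Fintype ι] [DecidableEq ι] [Nonempty G]
    (h2 : Function.Surjective fun g : G => g + g) (Y : Finset G)
    (V : ℝ) (hV : 0 < V)
    (hcV : (Fintype.card ι : ℝ) * (2 * (Fintype.card ι * Y.card)) ^ 2 ≤ V) (t : ℝ) (ht : 0 ≤ t) :
    pr (fun a : ι → G => ((Wset a Y).card : ℝ) ≤
      pr (fun a : ι → G => (0 : G) ∈ Wset a Y) * Fintype.card G - t) ≤
      Real.exp (-(t ^ 2) / (2 * V)) := by
  have := mcdiarmid_lower (fun a : ι → G => ((Wset a Y).card : ℝ))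
    (fun _ => 2 * (Fintype.card ι * Y.card)) (fun i a x => card_Wset_lip Y i a x) V hV
    (by simpa using hcV) t ht
  rwa [av_card_Wset h2] at this

/-! ### Comparison of the densities for different numbers of summands -/

/-- Probability that `0 ∉ A + A + Y` for `A` given by `s` random elements. -/
noncomputable def wS (s : ℕ) (Y : Finset G) : ℝ :=
  pr (fun a : Fin s → G => (0 : G) ∈ Wset a Y)

lemma pr_eq_wS {ι : Type*} [Fintype ι] [DecidableEq ι] (Y : Finset G) :
    pr (fun a : ι → G => (0 : G) ∈ Wset a Y) = wS (Fintype.card ι) Y := by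
  let e : ι ≃ Fin (Fintype.card ι) := Fintype.equivFin ι
  let E : (Fin (Fintype.card ι) → G) ≃ (ι → G) := Equiv.arrowCongr e.symm (Equiv.refl G)
  have hE : ∀ a i, E a i = a (e i) := by
    intro a i
    simp [E, Equiv.arrowCongr]
  unfold wS
  rw [pr_eq_ite, pr_eq_ite,
    ← av_comp_equiv E (fun a : ι → G => if (0 : G) ∈ Wset a Y then (1 : ℝ) else 0)]
  congr 1
  funext a
  have h : ((0 : G) ∈ Wset (E a) Y) ↔ (0 : G) ∈ Wset a Y := by
    rw [mem_Wset, mem_Wset]
    simp only [hE]
    constructor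
    · intro h i j
      have := h (e.symm i) (e.symm j)
      simpa using this
    · intro h i j
      exact h _ _
  by_cases h0 : (0 : G) ∈ Wset a Y
  · rw [if_pos h0, if_pos (h.mpr h0)]
  · rw [if_neg h0, if_neg (fun h' => h0 (h.mp h'))]

lemma wS_nonneg (s : ℕ) (Y : Finset G) : 0 ≤ wS s Y := pr_nonneg _

lemma wS_le_one [Nonempty G] (s : ℕ) (Y : Finset G) : wS s Y ≤ 1 := pr_le_one _

lemma wS_succ [Nonempty G] (hinj : Function.Injective fun g : G => g + g) (s : ℕ)
    (Y : Finset G) :
    wS s Y * (1 - ((s : ℝ) + 1) * Y.card / Fintype.card G) ≤ wS (s + 1) Y := by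
  have hn : (0 : ℝ) < (Fintype.card G : ℝ) := by exact_mod_cast Fintype.card_pos
  unfold wS
  have h1 : pr (fun a : Fin (s + 1) → G => (0 : G) ∈ Wset a Y) =
      av (fun a : Fin s → G => av (fun g : G =>
        if (0 : G) ∈ Wset (Fin.cons g a : Fin (s + 1) → G) Y then (1 : ℝ) else 0)) := by
    rw [pr_eq_ite, ← av_comp_equiv (Fin.consEquiv (fun _ : Fin (s + 1) => G))
      (fun a : Fin (s + 1) → G => if (0 : G) ∈ Wset a Y then (1 : ℝ) else 0),
      ← av_comp_equiv (Equiv.prodComm (Fin s → G) G), av_prod]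
    rfl
  rw [h1, pr_eq_ite, ← av_mul_right]
  refine av_mono fun a => ?_
  by_cases h0 : (0 : G) ∈ Wset a Y
  · rw [if_pos h0, one_mul]
    -- bad `g`
    set bad : Finset G := (((univ : Finset (Fin s)) ×ˢ Y).image fun q => - a q.1 - q.2) ∪
      (univ.filter fun g => 0 - g - g ∈ Y) with hbad
    have hgood : ∀ g ∉ bad, (0 : G) ∈ Wset (Fin.cons g a : Fin (s + 1) → G) Y := by
      intro g hg
      rw [hbad, Finset.mem_union, not_or] at hg
      obtain ⟨hg1, hg2⟩ := hg
      have hg1' : ∀ i, 0 - g - a i ∉ Y := by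
        intro i hi
        apply hg1
        rw [Finset.mem_image]
        exact ⟨(i, 0 - g - a i), Finset.mem_product.mpr ⟨Finset.mem_univ _, hi⟩, by
          simp only
          abel⟩
      have hg2' : 0 - g - g ∉ Y := by simpa using hg2
      rw [mem_Wset] at h0 ⊢
      intro i j
      refine Fin.cases ?_ (fun i' => ?_) i
      · refine Fin.cases ?_ (fun j' => ?_) j
        · simpa using hg2'
        · simpa using hg1' j'
      · refine Fin.cases ?_ (fun j' => ?_) j
        · have := hg1' i'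
          simp only [Fin.cons_succ, Fin.cons_zero]
          have e : (0 : G) - a i' - g = 0 - g - a i' := by abel
          rw [e]; exact this
        · simpa using h0 i' j'
    have hbadc : (bad.card : ℝ) ≤ ((s : ℝ) + 1) * Y.card := by
      have h3 : bad.card ≤ s * Y.card + Y.card := by
        refine (Finset.card_union_le _ _).trans (add_le_add ?_ ?_)
        · refine Finset.card_image_le.trans (le_of_eq ?_)
          rw [Finset.card_product]
          simp
        · refine Finset.card_le_card_of_injOn (fun g => 0 - g - g) ?_ ?_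
          · intro g hg
            simpa using hg
          · intro g _ g' _ h
            simp only [zero_sub] at h
            apply hinj
            simp only
            have e : ∀ g : G, g + g = -(-g - g) := fun g => by abel
            rw [e g, e g', h]
      calc (bad.card : ℝ) ≤ ((s * Y.card + Y.card : ℕ) : ℝ) := by exact_mod_cast h3
        _ = _ := by push_cast; ring
    have h4 : 1 - ((s : ℝ) + 1) * Y.card / Fintype.card G ≤
        1 - (bad.card : ℝ) / Fintype.card G := by
      gcongr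
    refine h4.trans ?_
    have h5 : av (fun g : G => if g ∈ bad then (1 : ℝ) else 0) = (bad.card : ℝ) / Fintype.card G
        := by
      unfold av
      simp
    rw [← h5, ← av_const (Ω := G) (1 : ℝ), ← av_sub]
    refine av_mono fun g => ?_
    by_cases hg : g ∈ bad
    · simp only [hg, if_true, av_const, sub_self]
      split_ifs <;> norm_num
    · simp [hg, hgood g hg, av_const]
  · rw [if_neg h0, zero_mul]
    exact av_nonneg fun g => by split_ifs <;> norm_num

lemma wS_add [Nonempty G] (hinj : Function.Injective fun g : G => g + g) (s k : ℕ)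
    (Y : Finset G) (hk : (k : ℝ) * Y.card ≤ Fintype.card G) :
    ∀ j : ℕ, s + j ≤ k →
      wS s Y * (1 - j * (k * Y.card / Fintype.card G)) ≤ wS (s + j) Y := by
  have hn : (0 : ℝ) < (Fintype.card G : ℝ) := by exact_mod_cast Fintype.card_pos
  set x : ℝ := k * Y.card / Fintype.card G with hx
  have hx0 : 0 ≤ x := by positivity
  have hx1 : x ≤ 1 := by rw [hx, div_le_one hn]; exact hk
  intro j
  induction j with
  | zero => intro _; simp
  | succ j ih =>
    intro hj
    have h1 := ih (by omega)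
    have h2 := wS_succ hinj (s + j) Y
    have h3 : (((s + j : ℕ) : ℝ) + 1) * Y.card / Fintype.card G ≤ x := by
      rw [hx]
      gcongr
      exact_mod_cast hj
    have h4 : wS (s + j) Y * (1 - x) ≤ wS (s + j + 1) Y := by
      refine le_trans ?_ h2
      have := wS_nonneg (G := G) (s + j) Y
      gcongr
    have h5 : wS s Y * (1 - j * x) * (1 - x) ≤ wS (s + j) Y * (1 - x) := by
      have : 0 ≤ 1 - x := by linarith
      gcongr
    have hw := wS_nonneg (G := G) s Y
    have h6 : wS s Y * (1 - ((j + 1 : ℕ) : ℝ) * x) ≤ wS s Y * (1 - j * x) * (1 - x) := by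
      rw [mul_assoc]
      gcongr
      push_cast
      have : 0 ≤ (j : ℝ) * x * x := by positivity
      nlinarith
    have e : s + (j + 1) = s + j + 1 := by ring
    rw [e]
    linarith

end Cover
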