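import Pool.Agent.Cover.DoublesB

/-!
Uniform bounds for the number of sums `a i + a j + y` in the complement of `A + A + Y`.
-/

namespace Cover

open Finset
open scoped Classical

set_option linter.unusedSectionVars false

variable {G : Type*} [AddCommGroup G] [Fintype G] {k : ℕ}

/-- The bound for the square of the number of pairs. -/
noncomputable def Fb (v γ s ζ b₁ b₂ : ℝ) : ℝ :=
  b₁ * (b₂ * v + b₂ ^ 2 * (v * γ + s) + (v * (v * ζ + s)) * v)

/-- Number of indices with a given property. -/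
noncomputable def cardP {ι : Type*} [Fintype ι] (P : ι → Prop) : ℕ := Fintype.card {i // P i}

lemma cardP_eq {ι : Type*} [Fintype ι] (P : ι → Prop) : cardP P = (univ.filter P).card := by
  unfold cardP
  rw [Fintype.card_subtype]

lemma cardP_le {ι : Type*} [Fintype ι] (P : ι → Prop) : cardP P ≤ Fintype.card ι := by
  rw [cardP_eq]
  exact Finset.card_le_univ _

lemma cardP_add {ι : Type*} [Fintype ι] (P : ι → Prop) :
    cardP P + cardP (fun i => ¬ P i) = Fintype.card ι := by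
  rw [cardP_eq, cardP_eq, ← Finset.card_univ]
  have := Finset.card_filter_add_card_filter_not (s := (univ : Finset ι)) (fun i => P i)
  refine Eq.trans ?_ this
  congr

lemma card_Z_le [Nonempty G] (W : Finset G) (w t η : ℝ) (hη : 0 < η)
    (hw : (W.card : ℝ) ≤ w * Fintype.card G)
    (hM : ∀ ψ : AddChar G ℂ, ψ ≠ 0 →
      ‖ft (fun x => if x ∈ W then (1 : ℝ) else 0) ψ‖ ^ 2 ≤ 2 * t ^ 2) :
    ((univ.filter fun z => (w ^ 2 + η) * Fintype.card G < (cor W z : ℝ)).card : ℝ) /
      Fintype.card G ≤ 2 * t ^ 2 / (η ^ 2 * (Fintype.card G : ℝ) ^ 2) := by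
  have hn : (0 : ℝ) < (Fintype.card G : ℝ) := by exact_mod_cast Fintype.card_pos
  set n : ℝ := (Fintype.card G : ℝ) with hn_def
  have h1 := sum_cor_sq_le W (2 * t ^ 2) (by positivity) hM
  rw [← hn_def] at h1
  set Z := univ.filter fun z => (w ^ 2 + η) * n < (cor W z : ℝ) with hZ
  have hWn : (W.card : ℝ) ≤ n := by rw [hn_def]; exact_mod_cast Finset.card_le_univ _
  have h2 : (Z.card : ℝ) * (η * n) ^ 2 ≤ 2 * t ^ 2 * n := by
    calc (Z.card : ℝ) * (η * n) ^ 2 = ∑ _z ∈ Z, (η * n) ^ 2 := by simp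
      _ ≤ ∑ z ∈ Z, ((cor W z : ℝ) - (W.card : ℝ) ^ 2 / n) ^ 2 := by
          refine Finset.sum_le_sum fun z hz => ?_
          have hz' := (Finset.mem_filter.mp hz).2
          have h3 : (W.card : ℝ) ^ 2 / n ≤ w ^ 2 * n := by
            rw [div_le_iff₀ hn]
            have h0 : (0 : ℝ) ≤ (W.card : ℝ) := by positivity
            calc (W.card : ℝ) ^ 2 ≤ (w * n) ^ 2 := by gcongr
              _ = _ := by ring
          have h4 : η * n ≤ (cor W z : ℝ) - (W.card : ℝ) ^ 2 / n := by nlinarith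
          have h5 : 0 ≤ η * n := by positivity
          gcongr
      _ ≤ ∑ z, ((cor W z : ℝ) - (W.card : ℝ) ^ 2 / n) ^ 2 :=
          Finset.sum_le_sum_of_subset_of_nonneg (Finset.subset_univ _) fun _ _ _ => sq_nonneg _
      _ ≤ 2 * t ^ 2 * W.card := h1
      _ ≤ _ := by gcongr
  rw [div_le_div_iff₀ hn (by positivity)]
  calc (Z.card : ℝ) * (η ^ 2 * n ^ 2) = (Z.card : ℝ) * (η * n) ^ 2 := by ring
    _ ≤ _ := h2

lemma pr_prod_le {Ω Ω' : Type*} [Fintype Ω] [Fintype Ω'] [Nonempty Ω] [Nonempty Ω']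
    (E : Ω × Ω' → Prop) (B : Ω' → Prop) (δ : ℝ) (hδ : 0 ≤ δ)
    (h : ∀ ω', ¬ B ω' → pr (fun ω => E (ω, ω')) ≤ δ) : pr E ≤ pr B + δ := by
  have h1 : pr E = av (fun ω' : Ω' => pr (fun ω : Ω => E (ω, ω'))) := by
    rw [pr_eq_ite, ← av_comp_equiv (Equiv.prodComm Ω' Ω), av_prod]
    congr 1
  rw [h1]
  calc av (fun ω' : Ω' => pr (fun ω : Ω => E (ω, ω')))
      ≤ av (fun ω' : Ω' => (if B ω' then (1 : ℝ) else 0) + δ) := by
        refine av_mono fun ω' => ?_
        by_cases hB : B ω'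
        · rw [if_pos hB]
          have := pr_le_one (fun ω : Ω => E (ω, ω'))
          linarith
        · rw [if_neg hB]
          have := h ω' hB
          linarith
    _ = pr B + δ := by
        rw [av_add, av_const, pr_eq_ite]

lemma EE_le_subtype {ι : Type*} [Fintype ι] [DecidableEq ι] (P : ι → Prop) (a : ι → G) (y : G)
    (W W' : Finset G) (hW : W ⊆ W') (B₁ B₂ : Finset ι) (h1 : ∀ i ∈ B₁, P i)
    (h2 : ∀ i ∈ B₂, P i) :
    EE a y W B₁ B₂ ≤ EE (fun i : {i // P i} => a i) y W' (B₁.subtype P) (B₂.subtype P) := by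
  unfold EE
  refine Finset.card_le_card_of_surjOn (fun q : {i // P i} × {i // P i} => (q.1.1, q.2.1)) ?_
  rintro ⟨i, j⟩ hq
  simp only [Finset.coe_filter, Finset.mem_product, Set.mem_ofPred_eq] at hq
  obtain ⟨⟨hi, hj⟩, hij, hw⟩ := hq
  refine ⟨(⟨i, h1 i hi⟩, ⟨j, h2 j hj⟩), ?_, rfl⟩
  simp only [Finset.coe_filter, Finset.mem_product, Set.mem_ofPred_eq, Finset.mem_subtype]
  refine ⟨⟨hi, hj⟩, ?_, hW hw⟩
  intro h
  exact hij (congrArg Subtype.val h)

lemma pr_block {ι : Type*} [Fintype ι] [DecidableEq ι] [Nonempty G]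
    (h2 : Function.Surjective fun g : G => g + g) (P : ι → Prop) (Y : Finset G) (y : G)
    (t η s V w vm : ℝ) (ht : 0 ≤ t) (hη : 0 < η) (hs : 0 ≤ s) (hV : 0 < V)
    (hcV' : (cardP (fun i => ¬ P i) : ℝ) * (2 * (cardP (fun i => ¬ P i) * Y.card)) ^ 2 ≤ V)
    (hw' : wS (cardP (fun i => ¬ P i)) Y * Fintype.card G + t ≤ w * Fintype.card G)
    (hvm0 : 0 < vm) (hvm : (cardP P : ℝ) ≤ vm) :
    pr (fun a : ι → G => ¬ ∀ B₁ B₂ : Finset ι, (∀ i ∈ B₁, P i) → (∀ i ∈ B₂, P i) →
      (EE a y (Wset a Y) B₁ B₂ : ℝ) ^ 2 ≤ Fb (cardP P) (w ^ 2 + η) s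
        (2 * t ^ 2 / (η ^ 2 * (Fintype.card G : ℝ) ^ 2)) B₁.card B₂.card) ≤
      (Fintype.card G * (4 * Real.exp (-(t ^ 2) / (2 * V))) + Real.exp (-(t ^ 2) / (2 * V))) +
        ((Fintype.card G : ℝ) ^ 2 + Fintype.card G) *
        Real.exp (-(s ^ 2) / (2 * vm)) := by
  have hn : (0 : ℝ) < (Fintype.card G : ℝ) := by exact_mod_cast Fintype.card_pos
  have hcc : cardP (fun i => ¬ P i) = Fintype.card {i // ¬ P i} := by
    unfold cardP
    congr
    funext i
    exact Subsingleton.elim _ _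
  have hcV : (Fintype.card {i // ¬ P i} : ℝ) * (2 * (Fintype.card {i // ¬ P i} * Y.card)) ^ 2 ≤ V := by
    rw [← hcc]; exact hcV'
  have hw : wS (Fintype.card {i // ¬ P i}) Y * Fintype.card G + t ≤ w * Fintype.card G := by
    rw [← hcc]; exact hw'
  set E : (ι → G) → Prop := fun a => ¬ ∀ B₁ B₂ : Finset ι, (∀ i ∈ B₁, P i) → (∀ i ∈ B₂, P i) →
      (EE a y (Wset a Y) B₁ B₂ : ℝ) ^ 2 ≤ Fb (cardP P) (w ^ 2 + η) s
        (2 * t ^ 2 / (η ^ 2 * (Fintype.card G : ℝ) ^ 2)) B₁.card B₂.card with hE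
  set e := (Equiv.piEquivPiSubtypeProd P (fun _ => G)).symm with he
  have h3 : pr E = pr (fun q => E (e q)) := by
    rw [pr_eq_ite, pr_eq_ite, ← av_comp_equiv e]
  set bad : ({i // ¬ P i} → G) → Prop := fun c =>
    (∃ ψ ∈ ((univ : Finset (AddChar G ℂ)).filter fun ψ => ψ ≠ 0), 2 * t ^ 2 <
      ‖ft (fun x => if x ∈ Wset c Y then (1 : ℝ) else 0) ψ‖ ^ 2) ∨
    (wS (Fintype.card {i // ¬ P i}) Y * Fintype.card G + t ≤ ((Wset c Y).card : ℝ)) with hbad
  have hbadp : pr bad ≤ Fintype.card G * (4 * Real.exp (-(t ^ 2) / (2 * V))) +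
      Real.exp (-(t ^ 2) / (2 * V)) := by
    refine (pr_or_le _ _).trans (add_le_add ?_ ?_)
    · refine (pr_exists_le_card _ _ (4 * Real.exp (-(t ^ 2) / (2 * V))) ?_).trans ?_
      · intro ψ hψ
        exact pr_ft_Wset h2 Y ψ (Finset.mem_filter.mp hψ).2 V hV hcV t ht
      · gcongr
        calc ((univ : Finset (AddChar G ℂ)).filter fun ψ => ψ ≠ 0).card
            ≤ Fintype.card (AddChar G ℂ) := Finset.card_le_univ _
          _ = Fintype.card G := AddChar.card_eq
    · have := pr_card_Wset_upper (ι := {i // ¬ P i}) h2 Y V hV hcV t ht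
      rwa [pr_eq_wS] at this
  rw [h3]
  refine (pr_prod_le (fun q => E (e q)) bad _ (by positivity) ?_).trans
    (add_le_add hbadp le_rfl)
  intro c hc
  rw [hbad] at hc
  simp only [not_or] at hc
  obtain ⟨hc1, hc2⟩ := hc
  push Not at hc1 hc2
  by_cases hv : 0 < Fintype.card {i // P i}
  · set W := Wset c Y with hW
    have hWw : (W.card : ℝ) ≤ w * Fintype.card G := by linarith
    set Z := univ.filter fun z => (w ^ 2 + η) * Fintype.card G < (cor W z : ℝ) with hZ
    have hZc := card_Z_le W w t η hη hWw (fun ψ hψ => hc1 ψ (by simp [hψ]))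
    rw [← hZ] at hZc
    have h4 := pr_EE_bad (V := {i // P i}) hv W Z (w ^ 2 + η) s (by positivity) hs (by
      intro z hz
      by_contra hcon
      apply hz
      rw [hZ]
      simp only [Finset.mem_filter, Finset.mem_univ, true_and]
      exact lt_of_not_ge hcon) y
    have h4' : pr (fun b : {i // P i} → G => ¬ ∀ B₁ B₂ : Finset {i // P i},
        (EE b y W B₁ B₂ : ℝ) ^ 2 ≤ B₁.card * (B₂.card * Fintype.card {i // P i} +
          B₂.card ^ 2 * (Fintype.card {i // P i} * (w ^ 2 + η) + s) +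
        (Fintype.card {i // P i} * (Fintype.card {i // P i} * (Z.card / Fintype.card G) + s)) *
          Fintype.card {i // P i})) ≤
      ((Fintype.card G : ℝ) ^ 2 + Fintype.card G) *
        Real.exp (-(s ^ 2) / (2 * vm)) := by
      refine h4.trans ?_
      have hv0 : (0 : ℝ) < (Fintype.card {i // P i} : ℝ) := by exact_mod_cast hv
      have hvm' : (Fintype.card {i // P i} : ℝ) ≤ vm := hvm
      refine mul_le_mul_of_nonneg_left (Real.exp_le_exp.mpr ?_) (by positivity)
      rw [neg_div, neg_div]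
      apply neg_le_neg
      gcongr
    refine le_trans (pr_mono fun b hb => ?_) h4'
    intro hall
    apply hb
    intro B₁ B₂ hB₁ hB₂
    have hsub : Wset (e (b, c)) Y ⊆ W := by
      intro x hx
      rw [hW, mem_Wset]
      rw [mem_Wset] at hx
      intro i j
      have := hx i.1 j.1
      have e1 : ∀ i : {i // ¬ P i}, e (b, c) i.1 = c i := by
        intro i
        simp [he, Equiv.piEquivPiSubtypeProd, i.2]
      rw [e1, e1] at this
      exact this
    have h5 := EE_le_subtype P (e (b, c)) y (Wset (e (b, c)) Y) W hsub B₁ B₂ hB₁ hB₂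
    have e2 : (fun i : {i // P i} => e (b, c) i.1) = b := by
      funext i
      simp [he, Equiv.piEquivPiSubtypeProd, i.2]
    rw [e2] at h5
    have h6 := hall (B₁.subtype P) (B₂.subtype P)
    have hc₁ : (B₁.subtype P).card = B₁.card := by
      rw [Finset.card_subtype]
      congr 1
      exact Finset.filter_true_of_mem hB₁
    have hc₂ : (B₂.subtype P).card = B₂.card := by
      rw [Finset.card_subtype]
      congr 1
      exact Finset.filter_true_of_mem hB₂
    rw [hc₁, hc₂] at h6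
    calc (EE (e (b, c)) y (Wset (e (b, c)) Y) B₁ B₂ : ℝ) ^ 2
        ≤ (EE b y W (B₁.subtype P) (B₂.subtype P) : ℝ) ^ 2 := by
          have : (EE (e (b, c)) y (Wset (e (b, c)) Y) B₁ B₂ : ℝ) ≤
            (EE b y W (B₁.subtype P) (B₂.subtype P) : ℝ) := by exact_mod_cast h5
          gcongr
      _ ≤ _ := h6
      _ ≤ Fb (Fintype.card {i // P i}) (w ^ 2 + η) s
        (2 * t ^ 2 / (η ^ 2 * (Fintype.card G : ℝ) ^ 2)) B₁.card B₂.card := by
          unfold Fb
          gcongr
  · have hv0 : Fintype.card {i // P i} = 0 := by omega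
    have hno : ∀ i, ¬ P i := by
      intro i hi
      have := Fintype.card_eq_zero_iff.mp hv0
      exact this.false ⟨i, hi⟩
    have : pr (fun b => E (e (b, c))) = 0 := by
      rw [pr_eq_ite]
      have h7 : ∀ b, ¬ E (e (b, c)) := by
        intro b hb
        apply hb
        intro B₁ B₂ hB₁ _
        have hB : B₁ = ∅ := by
          rw [Finset.eq_empty_iff_forall_notMem]
          intro i hi
          exact hno i (hB₁ i hi)
        rw [hB]
        simp [EE, Fb]
      simp only [h7, if_false]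
      exact av_const 0
    rw [this]
    positivity

/-! ### Summing over pairs of blocks -/

/-- The block of an index. -/
def blk (r : ℕ) (i : Fin k) : ℕ := (i : ℕ) % r

lemma card_blk_le (r : ℕ) (hr : 0 < r) (p : ℕ) :
    (univ.filter fun i : Fin k => blk r i = p).card ≤ k / r + 1 := by
  have h1 : (univ.filter fun i : Fin k => blk r i = p).card ≤
      ((Finset.range k).filter fun i => i ≡ p [MOD r]).card := by
    refine Finset.card_le_card_of_injOn (fun i => (i : ℕ)) ?_ ?_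
    · intro i hi
      have hi' := (Finset.mem_filter.mp hi).2
      unfold blk at hi'
      simp only [Finset.coe_filter, Set.mem_ofPred_eq, Finset.mem_range]
      refine ⟨i.2, ?_⟩
      unfold Nat.ModEq
      rw [← hi', Nat.mod_mod]
    · intro i _ j _ h
      exact Fin.ext h
  have h2 := Nat.count_modEq_card (v := p) k hr
  rw [Nat.count_eq_card_filter_range] at h2
  rw [h2] at h1
  refine h1.trans ?_
  split_ifs <;> omega

lemma cardP_blk_le (r : ℕ) (hr : 0 < r) (p q : ℕ) :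
    (cardP (fun i : Fin k => blk r i = p ∨ blk r i = q) : ℝ) ≤ 2 * ((k : ℝ) / r + 1) := by
  have h1 : cardP (fun i : Fin k => blk r i = p ∨ blk r i = q) ≤
      (k / r + 1) + (k / r + 1) := by
    rw [cardP_eq]
    calc _ ≤ ((univ.filter fun i : Fin k => blk r i = p) ∪
          (univ.filter fun i : Fin k => blk r i = q)).card := by
          apply Finset.card_le_card
          intro i hi
          simpa using hi
      _ ≤ _ := (Finset.card_union_le _ _).trans
          (add_le_add (card_blk_le r hr p) (card_blk_le r hr q))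
  have h2 : ((k / r : ℕ) : ℝ) ≤ (k : ℝ) / r := Nat.cast_div_le
  calc (cardP (fun i : Fin k => blk r i = p ∨ blk r i = q) : ℝ)
      ≤ (((k / r + 1) + (k / r + 1) : ℕ) : ℝ) := by exact_mod_cast h1
    _ ≤ _ := by push_cast; linarith

lemma EE_blocks {r : ℕ} (hr : 0 < r) (a : Fin k → G) (y : G) (W : Finset G) (B : Finset (Fin k)) :
    EE a y W B B = ∑ p ∈ range r, ∑ q ∈ range r,
      EE a y W (B.filter fun i => blk r i = p) (B.filter fun i => blk r i = q) := by
  have h1 : ∀ (B₁ B₂ : Finset (Fin k)), EE a y W B₁ B₂ = ∑ i ∈ B₁, ∑ j ∈ B₂,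
      (if i ≠ j ∧ a i + a j + y ∈ W then 1 else 0) := by
    intro B₁ B₂
    unfold EE
    rw [Finset.card_filter, Finset.sum_product]
    refine Finset.sum_congr rfl fun i _ => Finset.sum_congr rfl fun j _ => ?_
    congr
  simp_rw [h1]
  have h2 : ∀ f : Fin k → ℕ, ∑ i ∈ B, f i =
      ∑ p ∈ range r, ∑ i ∈ B.filter fun i => blk r i = p, f i := by
    intro f
    rw [Finset.sum_fiberwise_of_maps_to]
    intro i _
    rw [Finset.mem_range]
    exact Nat.mod_lt _ hr
  rw [h2]
  refine Finset.sum_congr rfl fun p _ => ?_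
  rw [Finset.sum_comm, h2]
  refine Finset.sum_congr rfl fun q _ => ?_
  rw [Finset.sum_comm]

lemma sqrt_add_le' {x y : ℝ} (hx : 0 ≤ x) (hy : 0 ≤ y) : √(x + y) ≤ √x + √y := by
  rw [Real.sqrt_le_left (by positivity)]
  have h1 := Real.sq_sqrt hx
  have h2 := Real.sq_sqrt hy
  have h3 := Real.sqrt_nonneg x
  have h4 := Real.sqrt_nonneg y
  nlinarith [mul_nonneg h3 h4]

lemma sum_sqrt_le (s : Finset ℕ) (f : ℕ → ℝ) (hf : ∀ i ∈ s, 0 ≤ f i) :
    ∑ i ∈ s, √(f i) ≤ √(s.card * ∑ i ∈ s, f i) := by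
  apply Real.le_sqrt_of_sq_le
  calc (∑ i ∈ s, √(f i)) ^ 2 ≤ s.card * ∑ i ∈ s, √(f i) ^ 2 := sq_sum_le_card_mul_sum_sq
    _ = _ := by
      congr 1
      refine Finset.sum_congr rfl fun i hi => ?_
      rw [Real.sq_sqrt (hf i hi)]

lemma EE_total {r : ℕ} (hr : 0 < r) (a : Fin k → G) (y : G) (W : Finset G)
    (γ s ζ : ℝ) (hγ : 0 ≤ γ) (hs : 0 ≤ s) (hζ : 0 ≤ ζ)
    (h : ∀ p < r, ∀ q < r, ∀ B₁ B₂ : Finset (Fin k), (∀ i ∈ B₁, blk r i = p ∨ blk r i = q) →
      (∀ i ∈ B₂, blk r i = p ∨ blk r i = q) →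
      (EE a y W B₁ B₂ : ℝ) ^ 2 ≤ Fb (cardP fun i : Fin k => blk r i = p ∨ blk r i = q) γ s ζ
        B₁.card B₂.card) (B : Finset (Fin k)) :
    (EE a y W B B : ℝ) ≤ √γ * √(2 * k + 2 * r) * √B.card * B.card +
      (r : ℝ) ^ 2 * √((k : ℝ) ^ 3 * (1 + 2 * s + k * ζ)) := by
  have hr0 : (0 : ℝ) < r := by exact_mod_cast hr
  set vb : ℝ := 2 * ((k : ℝ) / r + 1) with hvb
  have hvb0 : 0 ≤ vb := by positivity
  set e0 := √((k : ℝ) ^ 3 * (1 + 2 * s + k * ζ)) with he0
  have hv : ∀ p q, (cardP (fun i : Fin k => blk r i = p ∨ blk r i = q) : ℝ) ≤ vb := by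
    intro p q
    exact cardP_blk_le r hr p q
  have hvk : ∀ p q, (cardP (fun i : Fin k => blk r i = p ∨ blk r i = q) : ℝ) ≤ k := by
    intro p q
    have := cardP_le (fun i : Fin k => blk r i = p ∨ blk r i = q)
    rw [Fintype.card_fin] at this
    exact_mod_cast this
  set Bp : ℕ → Finset (Fin k) := fun p => B.filter fun i => blk r i = p with hBp
  have hBk : ∀ p, ((Bp p).card : ℝ) ≤ k := by
    intro p
    have := Finset.card_le_univ (Bp p)
    rw [Fintype.card_fin] at this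
    exact_mod_cast this
  have hone : ∀ p < r, ∀ q < r, (EE a y W (Bp p) (Bp q) : ℝ) ≤
      √(Bp p).card * (Bp q).card * √(vb * γ) + e0 := by
    intro p hp q hq
    have h1 := h p hp q hq (Bp p) (Bp q) (fun i hi => Or.inl (Finset.mem_filter.mp hi).2)
      (fun i hi => Or.inr (Finset.mem_filter.mp hi).2)
    set v := (cardP (fun i : Fin k => blk r i = p ∨ blk r i = q) : ℝ) with hvdef
    have hv0 : 0 ≤ v := by positivity
    have hv1 := hv p q
    have hv2 := hvk p q
    rw [← hvdef] at hv1 hv2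
    set b₁ := ((Bp p).card : ℝ) with hb₁
    set b₂ := ((Bp q).card : ℝ) with hb₂
    have hb₁0 : 0 ≤ b₁ := by positivity
    have hb₂0 : 0 ≤ b₂ := by positivity
    have hb₁k : b₁ ≤ k := hBk p
    have hb₂k : b₂ ≤ k := hBk q
    have hk0 : (0 : ℝ) ≤ k := by positivity
    have h2 : Fb v γ s ζ b₁ b₂ ≤ b₁ * b₂ ^ 2 * (vb * γ) + (k : ℝ) ^ 3 * (1 + 2 * s + k * ζ) := by
      unfold Fb
      have e1 : b₁ * (b₂ * v + b₂ ^ 2 * (v * γ + s) + (v * (v * ζ + s)) * v) =
        b₁ * b₂ ^ 2 * (v * γ) + (b₁ * b₂ * v + b₁ * b₂ ^ 2 * s + b₁ * v * v * s +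
          b₁ * v * v * v * ζ) := by ring
      rw [e1]
      have e2 : (k : ℝ) ^ 3 * (1 + 2 * s + k * ζ) = k * k * k + k * k ^ 2 * s + k * k * k * s +
        k * k * k * k * ζ := by ring
      rw [e2]
      gcongr
    have h3 : (EE a y W (Bp p) (Bp q) : ℝ) ≤ √(b₁ * b₂ ^ 2 * (vb * γ) +
        (k : ℝ) ^ 3 * (1 + 2 * s + k * ζ)) := Real.le_sqrt_of_sq_le (h1.trans h2)
    refine h3.trans ?_
    have h4 : √(b₁ * b₂ ^ 2 * (vb * γ) + (k : ℝ) ^ 3 * (1 + 2 * s + k * ζ)) ≤
        √(b₁ * b₂ ^ 2 * (vb * γ)) + e0 := sqrt_add_le' (by positivity) (by positivity)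
    have h5 : √(b₁ * b₂ ^ 2 * (vb * γ)) = √b₁ * b₂ * √(vb * γ) := by
      rw [Real.sqrt_mul (by positivity), Real.sqrt_mul hb₁0, Real.sqrt_sq hb₂0]
    rw [h5] at h4
    exact h4
  rw [EE_blocks hr a y W B]
  push_cast
  have hsumB : ∑ p ∈ range r, ((Bp p).card : ℝ) = B.card := by
    have h1 : B.card = ∑ p ∈ range r, (Bp p).card := by
      apply Finset.card_eq_sum_card_fiberwise
      intro i _
      simp only [Finset.coe_range, Set.mem_Iio]
      exact Nat.mod_lt _ hr
    rw [h1]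
    push_cast
    rfl
  have hsq : ∑ p ∈ range r, √((Bp p).card : ℝ) ≤ √(r * B.card) := by
    have := sum_sqrt_le (range r) (fun p => ((Bp p).card : ℝ)) (fun _ _ => by positivity)
    rwa [hsumB, Finset.card_range] at this
  calc ∑ p ∈ range r, ∑ q ∈ range r, (EE a y W (Bp p) (Bp q) : ℝ)
      ≤ ∑ p ∈ range r, ∑ q ∈ range r, (√(Bp p).card * (Bp q).card * √(vb * γ) + e0) :=
        Finset.sum_le_sum fun p hp => Finset.sum_le_sum fun q hq =>
          hone p (Finset.mem_range.mp hp) q (Finset.mem_range.mp hq)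
    _ = (∑ p ∈ range r, √((Bp p).card : ℝ)) * (∑ q ∈ range r, ((Bp q).card : ℝ)) *
          √(vb * γ) + r ^ 2 * e0 := by
        simp_rw [Finset.sum_add_distrib]
        rw [Finset.sum_mul_sum, Finset.sum_mul]
        congr 1
        · refine Finset.sum_congr rfl fun p _ => ?_
          rw [Finset.sum_mul]
        · simp
          ring
    _ ≤ √(r * B.card) * B.card * √(vb * γ) + r ^ 2 * e0 := by
        rw [hsumB]
        gcongr
    _ = _ := by
        have e1 : √(2 * (k : ℝ) + 2 * r) = √r * √vb := by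
          rw [← Real.sqrt_mul hr0.le]
          congr 1
          rw [hvb]
          field_simp
        rw [e1, Real.sqrt_mul hr0.le, Real.sqrt_mul hvb0]
        ring

/-- Uniform bounds for the complements of `A + A + Y`. -/
def DBgood (K r : ℕ) (η s t : ℝ) (a : Fin k → G) : Prop :=
  ∀ Y : Finset G, Y.card ≤ K →
    (|((Wset a Y).card : ℝ) - wS k Y * Fintype.card G| ≤ t) ∧
    ∀ (y : G) (B : Finset (Fin k)), (EE a y (Wset a Y) B B : ℝ) ≤
      (2 * wS k Y + t / Fintype.card G + √η) * √(2 * k + 2 * r) * √B.card * B.card +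
      (r : ℝ) ^ 2 * √((k : ℝ) ^ 3 * (1 + 2 * s +
        k * (2 * t ^ 2 / (η ^ 2 * (Fintype.card G : ℝ) ^ 2))))

theorem pr_not_DBgood [Nonempty G] (h2 : Function.Surjective fun g : G => g + g)
    (hinj : Function.Injective fun g : G => g + g) (hk : 0 < k) (K r : ℕ) (hK : 0 < K)
    (hr : 0 < r) (η s t : ℝ) (hη : 0 < η) (hs : 0 ≤ s) (ht : 0 ≤ t)
    (hkn : (k : ℝ) * K ≤ Fintype.card G)
    (hrn : 2 * ((k : ℝ) / r + 1) * (k * K) ≤ Fintype.card G / 2) :
    pr (fun a : Fin k → G => ¬ DBgood K r η s t a) ≤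
      (Fintype.card G + 1 : ℝ) ^ K * (2 * Real.exp (-(t ^ 2) / (2 * (4 * K ^ 2 * k ^ 3))) +
        Fintype.card G * r ^ 2 * ((4 * Fintype.card G + 1) *
          Real.exp (-(t ^ 2) / (2 * (4 * K ^ 2 * k ^ 3))) +
          ((Fintype.card G : ℝ) ^ 2 + Fintype.card G) * Real.exp (-(s ^ 2) / (2 * k)))) := by
  have hn : (0 : ℝ) < (Fintype.card G : ℝ) := by exact_mod_cast Fintype.card_pos
  have hk0 : (0 : ℝ) < k := by exact_mod_cast hk
  have hK0 : (0 : ℝ) < K := by exact_mod_cast hK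
  have hr0 : (0 : ℝ) < r := by exact_mod_cast hr
  set n : ℝ := (Fintype.card G : ℝ) with hn_def
  set V : ℝ := 4 * K ^ 2 * k ^ 3 with hV
  have hV0 : 0 < V := by positivity
  set ζ : ℝ := 2 * t ^ 2 / (η ^ 2 * n ^ 2) with hζ
  have hζ0 : 0 ≤ ζ := by positivity
  -- block weight
  set w : Finset G → ℝ := fun Y => 2 * wS k Y + t / n with hw
  set bad1 : Finset G → (Fin k → G) → Prop := fun Y a =>
    wS k Y * n + t ≤ ((Wset a Y).card : ℝ) with hbad1
  set bad2 : Finset G → (Fin k → G) → Prop := fun Y a =>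
    ((Wset a Y).card : ℝ) ≤ wS k Y * n - t with hbad2
  set bad3 : Finset G → G × (ℕ × ℕ) → (Fin k → G) → Prop := fun Y u a =>
    ¬ ∀ B₁ B₂ : Finset (Fin k), (∀ i ∈ B₁, blk r i = u.2.1 ∨ blk r i = u.2.2) →
      (∀ i ∈ B₂, blk r i = u.2.1 ∨ blk r i = u.2.2) →
      (EE a u.1 (Wset a Y) B₁ B₂ : ℝ) ^ 2 ≤
        Fb (cardP fun i : Fin k => blk r i = u.2.1 ∨ blk r i = u.2.2) ((w Y) ^ 2 + η) s ζ
        B₁.card B₂.card with hbad3
  set X1 := Real.exp (-(t ^ 2) / (2 * V)) with hX1
  set X2 := Real.exp (-(s ^ 2) / (2 * k)) with hX2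
  have hone : ∀ Y ∈ (univ : Finset (Finset G)).filter (fun Y => Y.card ≤ K),
      pr (fun a : Fin k → G => bad1 Y a ∨ bad2 Y a ∨
        ∃ u ∈ (univ : Finset G) ×ˢ (range r ×ˢ range r), bad3 Y u a) ≤
      2 * X1 + n * r ^ 2 * ((4 * n + 1) * X1 + (n ^ 2 + n) * X2) := by
    intro Y hY
    have hYK : Y.card ≤ K := (Finset.mem_filter.mp hY).2
    have hYK' : (Y.card : ℝ) ≤ K := by exact_mod_cast hYK
    have hcV : ∀ j : ℝ, 0 ≤ j → j ≤ k → j * (2 * (j * Y.card)) ^ 2 ≤ V := by
      intro j hj0 hj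
      calc j * (2 * (j * Y.card)) ^ 2 ≤ k * (2 * (k * K)) ^ 2 := by gcongr
        _ = V := by rw [hV]; ring
    have h1 : pr (bad1 Y) ≤ X1 := by
      have := pr_card_Wset_upper (ι := Fin k) h2 Y V hV0 (by
        rw [Fintype.card_fin]; exact hcV k hk0.le le_rfl) t ht
      rw [pr_eq_wS, Fintype.card_fin] at this
      exact this
    have h1' : pr (bad2 Y) ≤ X1 := by
      have := pr_card_Wset_lower (ι := Fin k) h2 Y V hV0 (by
        rw [Fintype.card_fin]; exact hcV k hk0.le le_rfl) t ht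
      rw [pr_eq_wS, Fintype.card_fin] at this
      exact this
    have h3 : pr (fun a : Fin k → G =>
        ∃ u ∈ (univ : Finset G) ×ˢ (range r ×ˢ range r), bad3 Y u a) ≤
        n * r ^ 2 * ((4 * n + 1) * X1 + (n ^ 2 + n) * X2) := by
      refine (pr_exists_le_card _ _ ((4 * n + 1) * X1 + (n ^ 2 + n) * X2) ?_).trans
        (le_of_eq ?_)
      · intro u _
        obtain ⟨P, hP⟩ : ∃ P : Fin k → Prop,
          P = fun i => blk r i = u.2.1 ∨ blk r i = u.2.2 := ⟨_, rfl⟩
        have hsum : cardP P + cardP (fun i => ¬ P i) = k := by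
          have := cardP_add P
          rwa [Fintype.card_fin] at this
        have hvle : (cardP P : ℝ) ≤ 2 * ((k : ℝ) / r + 1) := by
          rw [hP]
          exact cardP_blk_le r hr _ _
        have hvk : (cardP P : ℝ) ≤ k := by
          have : cardP P ≤ k := by omega
          exact_mod_cast this
        have hI : (cardP (fun i => ¬ P i) : ℝ) ≤ k := by
          have : cardP (fun i => ¬ P i) ≤ k := by omega
          exact_mod_cast this
        have hwS : wS (cardP (fun i => ¬ P i)) Y ≤ 2 * wS k Y := by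
          have h4 := wS_add hinj (cardP (fun i => ¬ P i)) k Y (by
            rw [← hn_def]
            calc (k : ℝ) * Y.card ≤ k * K := by gcongr
              _ ≤ n := hkn) (cardP P) (by omega)
          rw [show cardP (fun i => ¬ P i) + cardP P = k by omega,
            ← hn_def] at h4
          have h5 : (cardP P : ℝ) * (k * Y.card / n) ≤ 1 / 2 := by
            have : (cardP P : ℝ) * (k * Y.card / n) ≤
                2 * ((k : ℝ) / r + 1) * (k * K / n) := by gcongr
            refine this.trans ?_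
            rw [← mul_div_assoc, div_le_iff₀ hn]
            linarith
          have h6 := wS_nonneg (cardP (fun i => ¬ P i)) Y
          nlinarith
        have hwn : wS (cardP (fun i => ¬ P i)) Y * n + t ≤ w Y * n := by
          have h5 : w Y = 2 * wS k Y + t / n := rfl
          have h6 : (t / n) * n = t := by field_simp
          rw [h5]
          nlinarith
        have h4 := pr_block (ι := Fin k) h2 P Y u.1 t η s V (w Y) k ht hη hs hV0
          (hcV _ (by positivity) hI) hwn hk0 hvk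
        rw [← hn_def, ← hX1, ← hX2] at h4
        have h5 : pr (bad3 Y u) = pr (fun a : Fin k → G => ¬ ∀ B₁ B₂ : Finset (Fin k),
          (∀ i ∈ B₁, P i) → (∀ i ∈ B₂, P i) →
          (EE a u.1 (Wset a Y) B₁ B₂ : ℝ) ^ 2 ≤ Fb (cardP P) (w Y ^ 2 + η) s
            (2 * t ^ 2 / (η ^ 2 * n ^ 2)) B₁.card B₂.card) := by
          rw [hP]
        rw [h5]
        linarith
      · rw [Finset.card_product, Finset.card_product, Finset.card_univ, Finset.card_range]
        push_cast
        rw [← hn_def]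
        ring
    calc _ ≤ pr (bad1 Y) + (pr (bad2 Y) + pr (fun a : Fin k → G =>
        ∃ u ∈ (univ : Finset G) ×ˢ (range r ×ˢ range r), bad3 Y u a)) :=
          (pr_or_le _ _).trans (add_le_add le_rfl (pr_or_le _ _))
      _ ≤ _ := by linarith
  have hall : pr (fun a : Fin k → G => ¬ DBgood K r η s t a) ≤
      pr (fun a : Fin k → G => ∃ Y ∈ (univ : Finset (Finset G)).filter (fun Y => Y.card ≤ K),
        (bad1 Y a ∨ bad2 Y a ∨
        ∃ u ∈ (univ : Finset G) ×ˢ (range r ×ˢ range r), bad3 Y u a)) := by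
    refine pr_mono fun a ha => ?_
    by_contra hcon
    apply ha
    push Not at hcon
    intro Y hY
    obtain ⟨g1, g2, g3⟩ := hcon Y (by simp [hY])
    rw [← hn_def]
    refine ⟨?_, ?_⟩
    · rw [abs_le]
      simp only [hbad1, hbad2, not_le] at g1 g2
      constructor <;> linarith
    · intro y B
      have hwY0 : 0 ≤ w Y := by
        rw [hw]
        have := wS_nonneg k Y
        positivity
      have h4 := EE_total hr a y (Wset a Y) ((w Y) ^ 2 + η) s ζ (by positivity) hs hζ0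
        (by
          intro p hp q hq B₁ B₂ hB₁ hB₂
          exact g3 (y, (p, q)) (by simp [hp, hq]) B₁ B₂ hB₁ hB₂) B
      have h5 : √((w Y) ^ 2 + η) ≤ 2 * wS k Y + t / n + √η := by
        refine (sqrt_add_le' (by positivity) hη.le).trans ?_
        rw [Real.sqrt_sq hwY0]
      refine h4.trans ?_
      gcongr
  refine hall.trans ((pr_exists_le_card _ _ _ hone).trans ?_)
  have hc := card_small_sets (G := G) K
  gcongr
  calc (((univ : Finset (Finset G)).filter fun T => T.card ≤ K).card : ℝ)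
      ≤ (((Fintype.card G + 1) ^ K : ℕ) : ℝ) := by exact_mod_cast hc
    _ = _ := by push_cast; rfl

end Cover
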