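import Pool.Agent.Cover.Combi

/-!
Two abstract sieve estimates.
-/

namespace Cover

open Finset
open scoped Classical

variable {β : Type*}

lemma sum_half_le (m : ℕ) : ∑ l ∈ range (m + 1), (1 : ℝ) / (2 ^ l * (l.factorial : ℝ)) ≤ 2 := by
  calc ∑ l ∈ range (m + 1), (1 : ℝ) / (2 ^ l * (l.factorial : ℝ))
      ≤ ∑ l ∈ range (m + 1), ((1 : ℝ) / 2) ^ l := by
        refine Finset.sum_le_sum fun l _ => ?_
        rw [div_pow, one_pow]
        have : (1 : ℝ) ≤ (l.factorial : ℝ) := by exact_mod_cast Nat.one_le_iff_ne_zero.mpr l.factorial_ne_zero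
        have h2 : (0 : ℝ) < 2 ^ l := by positivity
        apply one_div_le_one_div_of_le h2
        nlinarith
    _ ≤ 2 := by
        rw [geom_sum_eq (by norm_num)]
        have : (0 : ℝ) < (1 / 2) ^ (m + 1) := by positivity
        rw [div_le_iff_of_neg (by norm_num)]
        linarith

/-- The number of points with no unit, from the factorial moments. -/
lemma sieve_units (X : Finset β) (u : β → ℕ) (f : β → ℝ) (hf : ∀ x, 0 ≤ f x) (m : ℕ)
    (κ A e : ℝ) (hA : 0 ≤ A) (hκ : 0 ≤ κ) (he : 0 ≤ e)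
    (h : ∀ l ≤ m + 1, |∑ x ∈ X, 2 ^ l * ((u x).descFactorial l : ℝ) * f x - A * κ ^ l| ≤ e) :
    |(∑ x ∈ X, (if u x = 0 then f x else 0)) - A * te m (-κ / 2)| ≤
      3 * e + A * ((κ / 2) ^ (m + 1) / ((m + 1).factorial : ℝ)) := by
  set X' : ℕ → ℝ := fun l => ∑ x ∈ X, 2 ^ l * ((u x).descFactorial l : ℝ) * f x with hX'
  have hch : ∀ l x, ((u x).choose l : ℝ) = ((u x).descFactorial l : ℝ) / (l.factorial : ℝ) := by
    intro l x
    have h1 := Nat.descFactorial_eq_factorial_mul_choose (u x) l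
    have h2 : (l.factorial : ℝ) ≠ 0 := by exact_mod_cast l.factorial_ne_zero
    rw [eq_div_iff h2, h1]
    push_cast
    ring
  have hsumch : ∀ l, ∑ x ∈ X, ((u x).choose l : ℝ) * f x =
      X' l * (1 / (2 ^ l * (l.factorial : ℝ))) := by
    intro l
    rw [hX', Finset.sum_mul]
    refine Finset.sum_congr rfl fun x _ => ?_
    rw [hch]
    have h2 : (l.factorial : ℝ) ≠ 0 := by exact_mod_cast l.factorial_ne_zero
    field_simp
  have h1 : |(∑ x ∈ X, (if u x = 0 then f x else 0)) -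
      ∑ l ∈ range (m + 1), (-1 : ℝ) ^ l * (X' l * (1 / (2 ^ l * (l.factorial : ℝ))))| ≤
      X' (m + 1) * (1 / (2 ^ (m + 1) * ((m + 1).factorial : ℝ))) := by
    have e1 : (∑ x ∈ X, (if u x = 0 then f x else 0)) -
      ∑ l ∈ range (m + 1), (-1 : ℝ) ^ l * (X' l * (1 / (2 ^ l * (l.factorial : ℝ)))) =
      ∑ x ∈ X, ((if u x = 0 then (1 : ℝ) else 0) -
        ∑ l ∈ range (m + 1), (-1 : ℝ) ^ l * ((u x).choose l : ℝ)) * f x := by
      simp_rw [← hsumch, sub_mul, Finset.sum_sub_distrib]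
      congr 1
      · refine Finset.sum_congr rfl fun x _ => ?_
        split_ifs <;> simp
      · simp_rw [Finset.mul_sum, Finset.sum_mul]
        rw [Finset.sum_comm]
        refine Finset.sum_congr rfl fun x _ => Finset.sum_congr rfl fun l _ => ?_
        ring
    rw [e1, ← hsumch]
    refine (Finset.abs_sum_le_sum_abs _ _).trans (Finset.sum_le_sum fun x _ => ?_)
    rw [abs_mul, abs_of_nonneg (hf x)]
    exact mul_le_mul_of_nonneg_right (alt_abs (u x) m) (hf x)
  have h2 : |∑ l ∈ range (m + 1), (-1 : ℝ) ^ l * (X' l * (1 / (2 ^ l * (l.factorial : ℝ)))) -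
      A * te m (-κ / 2)| ≤ 2 * e := by
    have e1 : ∑ l ∈ range (m + 1), (-1 : ℝ) ^ l * (X' l * (1 / (2 ^ l * (l.factorial : ℝ)))) -
      A * te m (-κ / 2) = ∑ l ∈ range (m + 1), (-1 : ℝ) ^ l * ((X' l - A * κ ^ l) *
        (1 / (2 ^ l * (l.factorial : ℝ)))) := by
      unfold te
      rw [Finset.mul_sum, ← Finset.sum_sub_distrib]
      refine Finset.sum_congr rfl fun l _ => ?_
      have h2 : (l.factorial : ℝ) ≠ 0 := by exact_mod_cast l.factorial_ne_zero
      have h3 : (-κ / 2) ^ l = (-1) ^ l * κ ^ l / 2 ^ l := by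
        rw [div_pow, neg_pow]
      rw [h3]
      field_simp
    rw [e1]
    refine (Finset.abs_sum_le_sum_abs _ _).trans ?_
    calc ∑ l ∈ range (m + 1), |(-1 : ℝ) ^ l * ((X' l - A * κ ^ l) *
        (1 / (2 ^ l * (l.factorial : ℝ))))|
        ≤ ∑ l ∈ range (m + 1), e * (1 / (2 ^ l * (l.factorial : ℝ))) := by
          refine Finset.sum_le_sum fun l hl => ?_
          rw [abs_mul, abs_pow, abs_neg, abs_one, one_pow, one_mul, abs_mul]
          have h3 : (0 : ℝ) ≤ 1 / (2 ^ l * (l.factorial : ℝ)) := by positivity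
          rw [abs_of_nonneg h3]
          exact mul_le_mul_of_nonneg_right (h l (by have := Finset.mem_range.mp hl; omega)) h3
      _ = e * ∑ l ∈ range (m + 1), (1 / (2 ^ l * (l.factorial : ℝ))) := by
          rw [Finset.mul_sum]
      _ ≤ e * 2 := by
          gcongr
          exact sum_half_le m
      _ = 2 * e := by ring
  have h3 : X' (m + 1) * (1 / (2 ^ (m + 1) * ((m + 1).factorial : ℝ))) ≤
      e + A * ((κ / 2) ^ (m + 1) / ((m + 1).factorial : ℝ)) := by
    have h4 := (abs_le.mp (h (m + 1) le_rfl)).2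
    have h5 : X' (m + 1) ≤ A * κ ^ (m + 1) + e := by
      simp only [hX']
      linarith
    have h6 : (0 : ℝ) ≤ 1 / (2 ^ (m + 1) * ((m + 1).factorial : ℝ)) := by positivity
    have h7 : 1 / (2 ^ (m + 1) * ((m + 1).factorial : ℝ)) ≤ 1 := by
      rw [div_le_one (by positivity)]
      have g1 : (1 : ℝ) ≤ 2 ^ (m + 1) := one_le_pow₀ (by norm_num)
      have g2 : (1 : ℝ) ≤ ((m + 1).factorial : ℝ) := by
        exact_mod_cast Nat.one_le_iff_ne_zero.mpr (m + 1).factorial_ne_zero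
      nlinarith
    calc X' (m + 1) * (1 / (2 ^ (m + 1) * ((m + 1).factorial : ℝ)))
        ≤ (A * κ ^ (m + 1) + e) * (1 / (2 ^ (m + 1) * ((m + 1).factorial : ℝ))) := by gcongr
      _ = A * ((κ / 2) ^ (m + 1) / ((m + 1).factorial : ℝ)) +
          e * (1 / (2 ^ (m + 1) * ((m + 1).factorial : ℝ))) := by
          rw [div_pow]
          have g2 : ((m + 1).factorial : ℝ) ≠ 0 := by
            exact_mod_cast (m + 1).factorial_ne_zero
          field_simp
      _ ≤ A * ((κ / 2) ^ (m + 1) / ((m + 1).factorial : ℝ)) + e * 1 := by gcongr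
      _ = _ := by ring
  calc |(∑ x ∈ X, (if u x = 0 then f x else 0)) - A * te m (-κ / 2)|
      ≤ _ := abs_sub_le _ (∑ l ∈ range (m + 1), (-1 : ℝ) ^ l *
        (X' l * (1 / (2 ^ l * (l.factorial : ℝ))))) _
    _ ≤ _ := by linarith

lemma sum_inv_fact_le (m : ℕ) : ∑ l ∈ range (m + 1), (1 : ℝ) / (l.factorial : ℝ) ≤ 3 := by
  have h : ∑ l ∈ range (m + 1), (1 : ℝ) / (l.factorial : ℝ) ≤ Real.exp 1 := by
    have := Real.sum_le_exp_of_nonneg (x := 1) (by norm_num) (m + 1)
    refine le_trans (le_of_eq ?_) this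
    refine Finset.sum_congr rfl fun l _ => ?_
    simp
  have h2 := Real.exp_one_lt_d9
  linarith

/-- Lower bound for the number of points with no cell. -/
lemma sieve_cells (X : Finset β) (d : β → ℕ) (I : ℕ → β → ℕ) (E : Finset β) (hE : E ⊆ X)
    (hI : ∀ r x, I r x ≤ (d x).descFactorial r)
    (hIe : ∀ r, ∀ x ∈ X, x ∉ E → I r x = (d x).descFactorial r)
    (hI2 : ∀ r, ∀ x ∈ X, ((d x).descFactorial r) ^ 2 ≤ (8 * r) ^ (2 * r) + 4 ^ r * I (2 * r) x)
    (m : ℕ) (hm : Odd m) :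
    ∑ r ∈ range (m + 1), (-1 : ℝ) ^ r * ((∑ x ∈ X, (I r x : ℝ)) / (r.factorial : ℝ)) -
      ∑ r ∈ range (m + 1), √((E.card : ℝ) * ((8 * r) ^ (2 * r) * X.card +
        4 ^ r * ∑ x ∈ X, (I (2 * r) x : ℝ))) ≤
      ((X.filter fun x => d x = 0).card : ℝ) := by
  have h1 : ∑ r ∈ range (m + 1), (-1 : ℝ) ^ r * ((∑ x ∈ X, ((d x).descFactorial r : ℝ)) /
      (r.factorial : ℝ)) ≤ ((X.filter fun x => d x = 0).card : ℝ) := by
    have e1 : ∑ r ∈ range (m + 1), (-1 : ℝ) ^ r * ((∑ x ∈ X, ((d x).descFactorial r : ℝ)) /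
      (r.factorial : ℝ)) = ∑ x ∈ X, ∑ r ∈ range (m + 1), (-1 : ℝ) ^ r *
        ((d x).choose r : ℝ) := by
      rw [Finset.sum_comm]
      refine Finset.sum_congr rfl fun r _ => ?_
      rw [← Finset.mul_sum, Finset.sum_div]
      congr 1
      refine Finset.sum_congr rfl fun x _ => ?_
      have h1 := Nat.descFactorial_eq_factorial_mul_choose (d x) r
      have h2 : (r.factorial : ℝ) ≠ 0 := by exact_mod_cast r.factorial_ne_zero
      rw [div_eq_iff h2, h1]
      push_cast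
      ring
    rw [e1, Finset.card_filter]
    push_cast
    exact Finset.sum_le_sum fun x _ => alt_odd (d x) m hm
  have h2 : ∀ r, |(∑ x ∈ X, ((d x).descFactorial r : ℝ)) - ∑ x ∈ X, (I r x : ℝ)| ≤
      √((E.card : ℝ) * ((8 * r) ^ (2 * r) * X.card + 4 ^ r * ∑ x ∈ X, (I (2 * r) x : ℝ))) := by
    intro r
    rw [← Finset.sum_sub_distrib]
    have h3 : ∑ x ∈ X, (((d x).descFactorial r : ℝ) - (I r x : ℝ)) =
        ∑ x ∈ E, (((d x).descFactorial r : ℝ) - (I r x : ℝ)) := by
      symm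
      apply Finset.sum_subset hE
      intro x hx hxE
      rw [hIe r x hx hxE, sub_self]
    rw [h3]
    have h4 : ∀ x, 0 ≤ ((d x).descFactorial r : ℝ) - (I r x : ℝ) := by
      intro x
      have : (I r x : ℝ) ≤ ((d x).descFactorial r : ℝ) := by exact_mod_cast hI r x
      linarith
    rw [abs_of_nonneg (Finset.sum_nonneg fun x _ => h4 x)]
    apply Real.le_sqrt_of_sq_le
    calc (∑ x ∈ E, (((d x).descFactorial r : ℝ) - (I r x : ℝ))) ^ 2
        ≤ E.card * ∑ x ∈ E, (((d x).descFactorial r : ℝ) - (I r x : ℝ)) ^ 2 :=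
          sq_sum_le_card_mul_sum_sq
      _ ≤ E.card * ∑ x ∈ X, ((8 * r) ^ (2 * r) + 4 ^ r * (I (2 * r) x : ℝ)) := by
          gcongr
          calc ∑ x ∈ E, (((d x).descFactorial r : ℝ) - (I r x : ℝ)) ^ 2
              ≤ ∑ x ∈ E, ((8 * r) ^ (2 * r) + 4 ^ r * (I (2 * r) x : ℝ)) := by
                refine Finset.sum_le_sum fun x hx => ?_
                have h5 := hI2 r x (hE hx)
                have h6 : (((d x).descFactorial r : ℕ) : ℝ) ^ 2 ≤
                    (8 * r) ^ (2 * r) + 4 ^ r * (I (2 * r) x : ℝ) := by exact_mod_cast h5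
                refine le_trans ?_ h6
                have h7 := h4 x
                have h8 : (0 : ℝ) ≤ (I r x : ℝ) := by positivity
                gcongr
                linarith
            _ ≤ _ := Finset.sum_le_sum_of_subset_of_nonneg hE fun _ _ _ => by positivity
      _ = _ := by
          rw [Finset.sum_add_distrib, Finset.sum_const, nsmul_eq_mul, ← Finset.mul_sum]
          ring
  refine le_trans ?_ h1
  rw [← Finset.sum_sub_distrib]
  refine Finset.sum_le_sum fun r _ => ?_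
  have h3 := h2 r
  set s := √((E.card : ℝ) * ((8 * r) ^ (2 * r) * X.card + 4 ^ r * ∑ x ∈ X, (I (2 * r) x : ℝ)))
  have hs : 0 ≤ s := Real.sqrt_nonneg _
  have hf : (1 : ℝ) ≤ (r.factorial : ℝ) := by
    exact_mod_cast Nat.one_le_iff_ne_zero.mpr r.factorial_ne_zero
  have hf0 : (0 : ℝ) < (r.factorial : ℝ) := by linarith
  have h4 : |(∑ x ∈ X, ((d x).descFactorial r : ℝ)) / (r.factorial : ℝ) -
      (∑ x ∈ X, (I r x : ℝ)) / (r.factorial : ℝ)| ≤ s := by
    rw [← sub_div, abs_div, abs_of_pos hf0, div_le_iff₀ hf0]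
    nlinarith
  obtain ⟨h5, h6⟩ := abs_le.mp h4
  rcases Nat.even_or_odd r with hr | hr
  · rw [hr.neg_one_pow]; linarith
  · rw [hr.neg_one_pow]; linarith

end Cover
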