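import Pool.Agent.Cover.Point
import Pool.Agent.Cover.Sieve

/-!
Few typical points outside `A + A + Y` have two linked cells.
-/

namespace Cover

open Finset
open scoped Classical

set_option linter.unusedSectionVars false

variable {G : Type*} [AddCommGroup G] [Fintype G] {k : ℕ}

/-- Typical points outside `A + A + Y`. -/
noncomputable def Wc (a : Fin k → G) (Tp R Y : Finset G) (L : ℕ) : Finset G :=
  (clean a Tp R L).filter fun x => x ∈ Wset a Y

/-- Those with two linked cells in `S`. -/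
noncomputable def edg (a : Fin k → G) (Tp R Y S : Finset G) (L : ℕ) : Finset G :=
  (Wc a Tp R Y L).filter fun x => ∃ i ∈ idx a S x, ∃ j ∈ idx a S x, adjx a R x i j

lemma card_edg_le {r₀ : ℕ} {a : Fin k → G} (hd : DiffBd r₀ a) {T Y R Tp S : Finset G}
    (hST : S ⊆ T) (L : ℕ) (ϖ e₃ b' : ℝ) (hϖ : 0 ≤ ϖ) (he₃ : 0 ≤ e₃)
    (hEE : ∀ (y : G) (B : Finset (Fin k)),
      (EE a y (Wset a Y) B B : ℝ) ≤ ϖ * √B.card * B.card + e₃)
    (hY : ∀ y ∉ Y, (tau a T y : ℝ) ≤ b') :
    ((edg a Tp R Y S L).card : ℝ) ≤ ϖ * √b' * (T.card + (R.card : ℝ) ^ 2 * r₀) + R.card * e₃ := by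
  set B : G → Finset (Fin k) := fun y => univ.filter fun i => a i + y ∈ T with hB
  have hBc : ∀ y, (B y).card = tau a T y := fun y => rfl
  have hsub : edg a Tp R Y S L ⊆ (R \ Y).biUnion fun y =>
      (((B y) ×ˢ (B y)).filter fun q => q.1 ≠ q.2 ∧ a q.1 + a q.2 + y ∈ Wset a Y).image
        fun q => a q.1 + a q.2 + y := by
    intro x hx
    obtain ⟨h1, i, hi, j, hj, hij⟩ := Finset.mem_filter.mp hx
    obtain ⟨h2, h3⟩ := Finset.mem_filter.mp h1
    obtain ⟨_, hreg⟩ := (Finset.mem_filter.mp h2).2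
    have hne : i ≠ j := by
      rintro rfl
      exact hreg.irr i hij
    rw [Finset.mem_biUnion]
    refine ⟨x - a i - a j, ?_, ?_⟩
    · rw [Finset.mem_sdiff]
      exact ⟨hij, mem_Wset.mp h3 i j⟩
    · rw [Finset.mem_image]
      have e : a i + a j + (x - a i - a j) = x := by abel
      refine ⟨(i, j), ?_, e⟩
      rw [Finset.mem_filter, Finset.mem_product]
      refine ⟨⟨?_, ?_⟩, hne, by rw [e]; exact h3⟩
      · simp only [hB, Finset.mem_filter, Finset.mem_univ, true_and]
        have e2 : a i + (x - a i - a j) = x - a j := by abel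
        rw [e2]
        exact hST (mem_idx.mp hj)
      · simp only [hB, Finset.mem_filter, Finset.mem_univ, true_and]
        have e2 : a j + (x - a i - a j) = x - a i := by abel
        rw [e2]
        exact hST (mem_idx.mp hi)
  have h1 : (edg a Tp R Y S L).card ≤ ∑ y ∈ R \ Y, EE a y (Wset a Y) (B y) (B y) := by
    refine (Finset.card_le_card hsub).trans (Finset.card_biUnion_le.trans ?_)
    refine Finset.sum_le_sum fun y _ => ?_
    refine le_trans (Finset.card_image_le (f := fun q : Fin k × Fin k => a q.1 + a q.2 + y))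
      (le_of_eq ?_)
    unfold EE
    congr 1
    ext q
    simp
  calc ((edg a Tp R Y S L).card : ℝ) ≤ ((∑ y ∈ R \ Y, EE a y (Wset a Y) (B y) (B y) : ℕ) : ℝ) := by
        exact_mod_cast h1
    _ = ∑ y ∈ R \ Y, (EE a y (Wset a Y) (B y) (B y) : ℝ) := by push_cast; rfl
    _ ≤ ∑ y ∈ R \ Y, (ϖ * √b' * (tau a T y : ℝ) + e₃) := by
        refine Finset.sum_le_sum fun y hy => ?_
        refine (hEE y (B y)).trans ?_
        rw [hBc]
        have h2 := hY y (Finset.mem_sdiff.mp hy).2
        gcongr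
    _ ≤ ∑ y ∈ R, (ϖ * √b' * (tau a T y : ℝ) + e₃) :=
        Finset.sum_le_sum_of_subset_of_nonneg Finset.sdiff_subset fun _ _ _ => by positivity
    _ = ϖ * √b' * (∑ y ∈ R, tau a T y : ℕ) + R.card * e₃ := by
        rw [Finset.sum_add_distrib, ← Finset.mul_sum, Finset.sum_const, nsmul_eq_mul]
        push_cast
        rfl
    _ ≤ _ := by
        have h2 := sum_tau_le hd T R
        have h3 : ((∑ y ∈ R, tau a T y : ℕ) : ℝ) ≤ (T.card + (R.card : ℝ) ^ 2 * r₀) := by
          exact_mod_cast h2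
        gcongr

end Cover
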