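import Mathlib

/-!
Asymptotic environment: `q` grows faster than `log n` and slower than every small power of `k`.
-/

namespace Cover

open Filter

variable {ι : Type*}

/-- `q` is much larger than `log n`, and `q ^ E ≤ k` with `k ^ 2 ≤ n ≤ (k + 1) ^ 2`. -/
structure Env (F : Filter ι) (n k q : ι → ℕ) (E : ℕ) : Prop where
  log_le : ∀ B : ℝ, ∀ᶠ i in F, B * (Real.log (n i + 1) + 1) ≤ q i
  pow_le : ∀ᶠ i in F, (q i) ^ E ≤ k i
  sq_le : ∀ᶠ i in F, (k i) ^ 2 ≤ n i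
  le_sq : ∀ᶠ i in F, n i ≤ (k i + 1) ^ 2

variable {F : Filter ι} {n k q : ι → ℕ} {E : ℕ}

lemma Env.q_ge (h : Env F n k q E) (B : ℝ) : ∀ᶠ i in F, B ≤ q i := by
  filter_upwards [h.log_le (max B 0)] with i hi
  refine le_trans ?_ hi
  have h1 : 0 ≤ Real.log (n i + 1) := Real.log_nonneg (by
    have : (0 : ℝ) ≤ n i := by positivity
    linarith)
  have h2 : B ≤ max B 0 := le_max_left _ _
  have h3 : 0 ≤ max B 0 := le_max_right _ _
  nlinarith [mul_nonneg h3 h1]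

lemma Env.mul_pow_le (h : Env F n k q E) (A : ℝ) (a : ℕ) (ha : a < E) :
    ∀ᶠ i in F, A * (q i : ℝ) ^ a ≤ k i := by
  filter_upwards [h.q_ge (max A 1), h.pow_le] with i h1 h2
  have h3 : A ≤ q i := (le_max_left _ _).trans h1
  have h4 : (1 : ℝ) ≤ q i := (le_max_right _ _).trans h1
  have h5 : ((q i : ℝ)) ^ E ≤ k i := by exact_mod_cast h2
  calc A * (q i : ℝ) ^ a ≤ q i * (q i : ℝ) ^ a := by gcongr
    _ = (q i : ℝ) ^ (a + 1) := by ring
    _ ≤ (q i : ℝ) ^ E := pow_le_pow_right₀ h4 ha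
    _ ≤ _ := h5

lemma Env.k_ge (h : Env F n k q E) (hE : 0 < E) (A : ℝ) : ∀ᶠ i in F, A ≤ k i := by
  filter_upwards [h.mul_pow_le A 0 hE] with i hi
  simpa using hi

lemma Env.n_ge (h : Env F n k q E) (hE : 0 < E) (A : ℝ) : ∀ᶠ i in F, A ≤ n i := by
  filter_upwards [h.k_ge hE (max A 1), h.sq_le] with i h1 h2
  have h3 : A ≤ k i := (le_max_left _ _).trans h1
  have h4 : (1 : ℝ) ≤ k i := (le_max_right _ _).trans h1
  have h5 : ((k i : ℝ)) ^ 2 ≤ n i := by exact_mod_cast h2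
  nlinarith

/-- Exponentials in `q` beat powers of `n`. -/
lemma Env.exp_small (h : Env F n k q E) (hE : 0 < E) (A c δ : ℝ) (a : ℕ) (hc : 0 < c)
    (hδ : 0 < δ) : ∀ᶠ i in F, A * ((n i : ℝ) + 1) ^ a * Real.exp (-(c * q i)) ≤ δ := by
  filter_upwards [h.log_le ((a + 1) / c), h.n_ge hE (|A| / δ)] with i h1 h2
  have hn0 : (0 : ℝ) < (n i : ℝ) + 1 := by positivity
  have h3 : ((a : ℝ) + 1) * Real.log (n i + 1) ≤ c * q i := by
    have h4 : ((a : ℝ) + 1) / c * (Real.log (n i + 1) + 1) * c ≤ q i * c := by gcongr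
    have h5 : ((a : ℝ) + 1) / c * (Real.log (n i + 1) + 1) * c =
        (a + 1) * (Real.log (n i + 1) + 1) := by field_simp
    rw [h5] at h4
    have : (0 : ℝ) ≤ a + 1 := by positivity
    nlinarith
  have h4 : Real.exp (-(c * q i)) ≤ 1 / ((n i : ℝ) + 1) ^ (a + 1) := by
    rw [Real.exp_neg, one_div]
    apply inv_anti₀ (by positivity)
    have h5 : ((n i : ℝ) + 1) ^ (a + 1) = Real.exp (((a : ℝ) + 1) * Real.log (n i + 1)) := by
      have h6 := Real.exp_nat_mul (Real.log ((n i : ℝ) + 1)) (a + 1)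
      rw [Real.exp_log hn0] at h6
      rw [← h6]
      push_cast
      rfl
    rw [h5]
    exact Real.exp_le_exp.mpr h3
  have h5 : |A| ≤ δ * ((n i : ℝ) + 1) := by
    rw [div_le_iff₀ hδ] at h2
    linarith
  calc A * ((n i : ℝ) + 1) ^ a * Real.exp (-(c * q i))
      ≤ |A| * ((n i : ℝ) + 1) ^ a * (1 / ((n i : ℝ) + 1) ^ (a + 1)) := by
        gcongr
        exact le_abs_self A
    _ = |A| / ((n i : ℝ) + 1) := by
        rw [pow_succ]
        field_simp
    _ ≤ δ := by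
        rw [div_le_iff₀ hn0]
        exact h5

lemma Env.n_le (h : Env F n k q E) (hE : 0 < E) : ∀ᶠ i in F, (n i : ℝ) ≤ 2 * (k i : ℝ) ^ 2 := by
  filter_upwards [h.le_sq, h.k_ge hE 3] with i h1 h2
  have h3 : (n i : ℝ) ≤ ((k i : ℝ) + 1) ^ 2 := by exact_mod_cast h1
  nlinarith

end Cover
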