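import Pool.Agent.Cover.Robust

/-!
The family of all `J`-tuples of cells meeting at a point, and its first two moments.
-/

namespace Cover

open Finset
open scoped Classical

set_option linter.unusedSectionVars false

variable {G : Type*} [AddCommGroup G] [Fintype G] {J k : ℕ}

/-- Support of a tuple. -/
def tsupp (t : G × (Fin J ↪ Fin k)) : Finset (Fin k) := univ.map t.2

/-- Coordinate constraints of a tuple. -/
noncomputable def tC (S : Fin J → Finset G) (t : G × (Fin J ↪ Fin k)) (i : Fin k) : Finset G :=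
  univ.filter fun g => ∀ l, t.2 l = i → t.1 - g ∈ S l

/-- The tuple `t = (x, φ)` occurs: `x - a (φ l) ∈ S l` for all `l`. -/
def occ (S : Fin J → Finset G) (a : Fin k → G) (t : G × (Fin J ↪ Fin k)) : Prop :=
  ∀ l, t.1 - a (t.2 l) ∈ S l

lemma mem_tsupp {t : G × (Fin J ↪ Fin k)} {i : Fin k} : i ∈ tsupp t ↔ ∃ l, t.2 l = i := by
  simp [tsupp]

lemma card_tsupp (t : G × (Fin J ↪ Fin k)) : (tsupp t).card = J := by
  simp [tsupp]

lemma occ_iff (S : Fin J → Finset G) (a : Fin k → G) (t : G × (Fin J ↪ Fin k)) :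
    (∀ i, a i ∈ tC S t i) ↔ occ S a t := by
  simp only [tC, occ, Finset.mem_filter, Finset.mem_univ, true_and]
  constructor
  · intro h l
    exact h (t.2 l) l rfl
  · rintro h i l rfl
    exact h l

lemma tC_of_notMem (S : Fin J → Finset G) (t : G × (Fin J ↪ Fin k)) (i : Fin k)
    (hi : i ∉ tsupp t) : tC S t i = univ := by
  ext g
  simp only [tC, Finset.mem_filter, Finset.mem_univ, true_and, iff_true]
  intro l hl
  exact absurd (mem_tsupp.mpr ⟨l, hl⟩) hi

lemma mem_tC_apply (S : Fin J → Finset G) (t : G × (Fin J ↪ Fin k)) (l : Fin J) (g : G) :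
    g ∈ tC S t (t.2 l) ↔ t.1 - g ∈ S l := by
  simp only [tC, Finset.mem_filter, Finset.mem_univ, true_and]
  constructor
  · intro h
    exact h l rfl
  · intro h l' hl'
    have : l' = l := t.2.injective hl'
    rwa [this]

lemma card_reflect (T : Finset G) (x : G) : (univ.filter fun g => x - g ∈ T).card = T.card := by
  refine Finset.card_bij (fun g _ => x - g) ?_ ?_ ?_
  · intro g hg; simpa using hg
  · intro g _ g' _ h; simpa using h
  · intro b hb; exact ⟨x - b, by simpa using hb, by simp⟩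

lemma card_tC_apply (S : Fin J → Finset G) (t : G × (Fin J ↪ Fin k)) (l : Fin J) :
    (tC S t (t.2 l)).card = (S l).card := by
  rw [← card_reflect (S l) t.1]
  congr 1
  ext g
  simp [mem_tC_apply]

lemma prod_eq_prod_emb (φ : Fin J ↪ Fin k) (f : Fin k → ℝ)
    (hf : ∀ i, i ∉ (univ.map φ : Finset (Fin k)) → f i = 1) :
    ∏ i, f i = ∏ l, f (φ l) := by
  rw [← Finset.prod_subset (Finset.subset_univ (univ.map φ)) (fun i _ hi => hf i hi),
    Finset.prod_map]

/-- Expected number of occurring tuples. -/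
noncomputable def mu (k : ℕ) (S : Fin J → Finset G) : ℝ :=
  (Fintype.card G : ℝ) * (k.descFactorial J : ℝ) *
    ∏ l, ((S l).card : ℝ) / (Fintype.card G : ℝ)

lemma pr_occ [Nonempty G] (S : Fin J → Finset G) (t : G × (Fin J ↪ Fin k)) :
    pr (fun a : Fin k → G => ∀ i, a i ∈ tC S t i) =
      ∏ l, ((S l).card : ℝ) / (Fintype.card G : ℝ) := by
  have hn : (Fintype.card G : ℝ) ≠ 0 := by exact_mod_cast Fintype.card_ne_zero
  rw [pr_pi (fun i => tC S t i), prod_eq_prod_emb t.2]
  · refine Finset.prod_congr rfl fun l _ => ?_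
    rw [card_tC_apply]
  · intro i hi
    rw [tC_of_notMem S t i hi]
    simp [hn]

lemma sum_pr_occ [Nonempty G] (S : Fin J → Finset G) :
    ∑ t : G × (Fin J ↪ Fin k), pr (fun a : Fin k → G => ∀ i, a i ∈ tC S t i) = mu k S := by
  simp_rw [pr_occ]
  rw [Finset.sum_const, nsmul_eq_mul, Finset.card_univ, Fintype.card_prod,
    Fintype.card_embedding_eq]
  simp [mu]

/-! ### Sums over embeddings -/

lemma sum_emb_le_sum_fun (F : (Fin J → Fin k) → ℝ) (hF : ∀ ψ, 0 ≤ F ψ) :
    ∑ φ : Fin J ↪ Fin k, F φ ≤ ∑ ψ : Fin J → Fin k, F ψ := by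
  have h1 : ∑ φ : Fin J ↪ Fin k, F φ =
      ∑ ψ ∈ Finset.image (fun (φ : Fin J ↪ Fin k) (l : Fin J) => φ l) univ, F ψ := by
    rw [Finset.sum_image]
    intro φ _ φ' _ h
    exact DFunLike.coe_injective h
  rw [h1]
  exact Finset.sum_le_sum_of_subset_of_nonneg (Finset.subset_univ _) (fun ψ _ _ => hF ψ)

lemma sum_emb_prod_le (g : Fin J → Fin k → ℝ) (hg : ∀ l j, 0 ≤ g l j) :
    ∑ φ : Fin J ↪ Fin k, ∏ l, g l (φ l) ≤ ∏ l, ∑ j, g l j := by
  refine (sum_emb_le_sum_fun (fun ψ => ∏ l, g l (ψ l))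
    (fun ψ => Finset.prod_nonneg fun l _ => hg _ _)).trans (le_of_eq ?_)
  rw [Finset.prod_univ_sum]
  simp

lemma sum_emb_pow_le (w : Fin k → ℝ) (hw : ∀ j, 0 ≤ w j) :
    ∑ φ : Fin J ↪ Fin k, ∏ l, w (φ l) ≤ (∑ j, w j) ^ J := by
  refine (sum_emb_prod_le (fun _ => w) (fun _ j => hw j)).trans (le_of_eq ?_)
  simp

lemma sum_emb_fixed_le (w : Fin k → ℝ) (hw : ∀ j, 0 ≤ w j) (l0 : Fin J) (i0 : Fin k) :
    ∑ φ : Fin J ↪ Fin k, (if φ l0 = i0 then ∏ l ∈ univ.erase l0, w (φ l) else 0) ≤
      (∑ j, w j) ^ (J - 1) := by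
  have h1 := sum_emb_prod_le (fun l j => if l = l0 then (if j = i0 then (1 : ℝ) else 0) else w j)
    (fun l j => by split_ifs <;> first | exact hw j | norm_num)
  calc ∑ φ : Fin J ↪ Fin k, (if φ l0 = i0 then ∏ l ∈ univ.erase l0, w (φ l) else 0)
      = ∑ φ : Fin J ↪ Fin k, ∏ l, (if l = l0 then (if φ l = i0 then (1 : ℝ) else 0)
          else w (φ l)) := by
        refine Finset.sum_congr rfl fun φ _ => ?_
        rw [← Finset.mul_prod_erase univ _ (Finset.mem_univ l0)]
        simp only [if_true]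
        have h2 : ∏ x ∈ univ.erase l0, (if x = l0 then (if φ x = i0 then (1 : ℝ) else 0)
            else w (φ x)) = ∏ l ∈ univ.erase l0, w (φ l) := by
          refine Finset.prod_congr rfl fun l hl => ?_
          rw [if_neg (Finset.ne_of_mem_erase hl)]
        rw [h2]
        split_ifs <;> simp
    _ ≤ _ := h1
    _ = _ := by
        rw [← Finset.mul_prod_erase univ _ (Finset.mem_univ l0)]
        simp only [if_true]
        have h2 : ∏ x ∈ univ.erase l0, ∑ j, (if x = l0 then (if j = i0 then (1 : ℝ) else 0)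
            else w j) = ∏ _l ∈ univ.erase l0, ∑ j, w j := by
          refine Finset.prod_congr rfl fun l hl => ?_
          simp [Finset.ne_of_mem_erase hl]
        rw [h2]
        simp

/-! ### Pair probabilities -/

/-- Number of `g` with `x - g ∈ S l` and `x' - g ∈ S l'`. -/
noncomputable def rho (S : Fin J → Finset G) (l l' : Fin J) (x x' : G) : ℕ :=
  (univ.filter fun g => x - g ∈ S l ∧ x' - g ∈ S l').card

lemma sum_rho (S : Fin J → Finset G) (l l' : Fin J) :
    ∑ x, ∑ x', rho S l l' x x' = Fintype.card G * ((S l).card * (S l').card) := by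
  have h1 : ∀ x x', rho S l l' x x' =
      ∑ g : G, (if x - g ∈ S l then 1 else 0) * (if x' - g ∈ S l' then 1 else 0) := by
    intro x x'
    rw [rho, Finset.card_filter]
    refine Finset.sum_congr rfl fun g _ => ?_
    by_cases h1 : x - g ∈ S l <;> by_cases h2 : x' - g ∈ S l' <;> simp [h1, h2]
  have h2 : ∀ (T : Finset G) (g : G), ∑ x : G, (if x - g ∈ T then 1 else 0) = T.card := by
    intro T g
    rw [← Finset.card_filter]
    refine Finset.card_bij (fun x _ => x - g) ?_ ?_ ?_
    · intro x hx; simpa using hx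
    · intro x _ x' _ h; simpa using h
    · intro b hb; exact ⟨b + g, by simpa using hb, by simp⟩
  calc ∑ x, ∑ x', rho S l l' x x'
      = ∑ x, ∑ x', ∑ g : G, (if x - g ∈ S l then 1 else 0) * (if x' - g ∈ S l' then 1 else 0) := by
        simp_rw [h1]
    _ = ∑ g : G, ∑ x, ∑ x', (if x - g ∈ S l then 1 else 0) * (if x' - g ∈ S l' then 1 else 0) := by
        rw [Finset.sum_comm]
        have e : ∀ x' : G, ∑ x : G, ∑ g : G,
            (if x - g ∈ S l then 1 else 0) * (if x' - g ∈ S l' then 1 else 0) =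
            ∑ g : G, ∑ x : G,
            (if x - g ∈ S l then 1 else 0) * (if x' - g ∈ S l' then 1 else 0) :=
          fun x' => Finset.sum_comm
        simp_rw [e]
        rw [Finset.sum_comm]
        refine Finset.sum_congr rfl fun g _ => ?_
        rw [Finset.sum_comm]
    _ = _ := by
        simp_rw [← Finset.mul_sum, ← Finset.sum_mul, h2]
        simp

end Cover
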