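import Pool.Agent.Cover.Whp

/-!
The counting hypotheses from the random events.
-/

namespace Cover

open Filter Finset
open scoped Classical

variable {ι : Type*} {F : Filter ι} {n k q : ι → ℕ}

/-- Bound for the number of rich differences. -/
def mR (j C' q : ℕ) : ℕ := 2 * C' * rhoP j q

lemma rich_num {j : ℕ} (h : Env F n k q (EE0 j)) (C' : ℕ) (hC : 1 ≤ C') :
    ∀ᶠ i in F, (C' : ℝ) * k i + (mR j C' (q i) : ℝ) ^ 2 * ((4 * q i + 1 : ℕ) : ℝ) <
      mR j C' (q i) * ((k i : ℝ) / rhoP j (q i)) ∧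
      (mR j C' (q i) : ℝ) ^ 2 * ((4 * q i + 1 : ℕ) : ℝ) ≤ k i := by
  have hE : 0 < EE0 j := by unfold EE0; omega
  filter_upwards [h.q_ge 1, h.k_ge hE 1,
    h.mul_pow_le (40 * C' ^ 2) (2 * (j ^ 3 + j ^ 2 + 2 * j + 1) + 1) (by unfold EE0; omega)]
    with i g1 g2 g3
  have hq0 : (0 : ℝ) < q i := by linarith
  have hk0 : (0 : ℝ) < k i := by linarith
  have hC1 : (1 : ℝ) ≤ C' := by exact_mod_cast hC
  have hρ : ((rhoP j (q i) : ℕ) : ℝ) = (q i : ℝ) ^ (j ^ 3 + j ^ 2 + 2 * j + 1) := by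
    unfold rhoP; push_cast; rfl
  have hmR : (mR j C' (q i) : ℝ) = 2 * C' * (q i : ℝ) ^ (j ^ 3 + j ^ 2 + 2 * j + 1) := by
    unfold mR; push_cast; rw [hρ]
  set y : ℝ := (q i : ℝ) ^ (j ^ 3 + j ^ 2 + 2 * j + 1) with hy
  have hy0 : 0 < y := by positivity
  have e1 : (q i : ℝ) ^ (2 * (j ^ 3 + j ^ 2 + 2 * j + 1) + 1) = y ^ 2 * q i := by
    rw [pow_succ, hy, ← pow_mul]
    congr 2
    ring
  rw [e1] at g3
  have e2 : (mR j C' (q i) : ℝ) ^ 2 * ((4 * q i + 1 : ℕ) : ℝ) ≤ k i / 2 := by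
    rw [hmR]
    push_cast
    have : (4 * (q i : ℝ) + 1) ≤ 5 * q i := by linarith
    calc (2 * (C' : ℝ) * y) ^ 2 * (4 * (q i : ℝ) + 1) ≤ (2 * (C' : ℝ) * y) ^ 2 * (5 * q i) := by
          gcongr
      _ = (40 * C' ^ 2 * (y ^ 2 * q i)) / 2 := by ring
      _ ≤ _ := by gcongr
  have e3 : (mR j C' (q i) : ℝ) * ((k i : ℝ) / rhoP j (q i)) = 2 * C' * k i := by
    rw [hmR, hρ]
    field_simp
  rw [e3]
  refine ⟨?_, by linarith⟩
  have : (k i : ℝ) ≤ C' * k i := by nlinarith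
  linarith

theorem cnt_of_Good {G : ι → Type*} [∀ i, AddCommGroup (G i)] [∀ i, Fintype (G i)]
    [∀ i, Nonempty (G i)] {j : ℕ} (h : Env F n k q (EE0 j)) (hj : 1 ≤ j)
    (hG : ∀ᶠ i in F, Fintype.card (G i) = n i)
    (C' K r' : ℕ) (hC : 1 ≤ C') (ε η : ℝ) (hε : 0 < ε) :
    ∀ᶠ i in F, ∀ a : Fin (k i) → G i, Function.Injective a → Good j C' K r' (q i) ε η a →
      DiffBd (4 * q i + 1) a ∧
      ∀ J ≤ j, CntGood J (LL j (q i)) ((k i : ℝ) / rhoP j (q i)) (8 * ε) C' a := by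
  have hE : 0 < EE0 j := by unfold EE0; omega
  have hDA : 0 < DA j C' := by
    have hC1 : (1 : ℝ) ≤ C' := by exact_mod_cast hC
    unfold DA; positivity
  filter_upwards [hG, h.q_ge 1, h.k_ge hE 1, h.sq_le, h.le_sq, numU_ev h C' hC ε hε,
    numL_ev h C' hC ε (j ^ 2 * DA j C' / ε) hε (by positivity), rich_num h C' hC,
    h.q_ge (17 * (C' : ℝ) ^ 2 * 2 ^ j / ε), h.k_ge hE ((C' : ℝ) ^ j * (j * (j + 2)) / ε),
    h.k_ge hE j] with i hGi g1 g2 g3 g4 g5 g6 g7 g8 g9 g10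
  intro a ha hgood
  obtain ⟨hU, hL, hU2, hCh, -⟩ := hgood
  have hq0 : (0 : ℝ) < q i := by linarith
  have hk0 : (0 : ℝ) < k i := by linarith
  have hkpos : 0 < k i := by exact_mod_cast hk0
  have hqpos : 0 < q i := by exact_mod_cast hq0
  have hkn : (k i : ℝ) ^ 2 ≤ n i := by exact_mod_cast g3
  have hnk : (n i : ℝ) ≤ ((k i : ℝ) + 1) ^ 2 := by exact_mod_cast g4
  have hn0 : (0 : ℝ) < n i := lt_of_lt_of_le (by positivity) hkn
  have hGi' : (Fintype.card (G i) : ℝ) = n i := by exact_mod_cast hGi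
  have hC1 : (1 : ℝ) ≤ C' := by exact_mod_cast hC
  have hkn' : (k i : ℝ) ^ 2 ≤ Fintype.card (G i) := by rw [hGi']; exact hkn
  have hd : DiffBd (4 * q i + 1) a := diffBd_of_UTgood (q i) a ha hkn' hU2
  refine ⟨hd, ?_⟩
  have hLpos : 0 < LL j (q i) := by unfold LL; positivity
  have hHi : HighBd (LL j (q i)) C' (HiB j C' (n i) (k i) (q i)) a := by
    intro Tp hTp
    have h1 := card_high_le a Tp (2 * √(8 * k i * q i) ^ 2) (by positivity) hCh (LL j (q i)) hLpos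
    refine h1.trans ?_
    rw [hGi', Real.sq_sqrt (by positivity)]
    have hTp' : (Tp.card : ℝ) ≤ C' * k i := by exact_mod_cast hTp
    have hLL : ((LL j (q i) : ℕ) : ℝ) = (q i : ℝ) ^ (j + 1) := by unfold LL; push_cast; rfl
    unfold HiB
    rw [hLL]
    have e1 : 2 * (8 * (k i : ℝ) * q i) * Tp.card ≤ 16 * k i * q i * (C' * k i) := by
      calc 2 * (8 * (k i : ℝ) * q i) * Tp.card ≤ 2 * (8 * (k i : ℝ) * q i) * (C' * k i) := by
            gcongr
        _ = _ := by ring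
    have e2 : (k i : ℝ) ^ 2 * (Tp.card : ℝ) ^ 2 / n i ≤ (k i : ℝ) ^ 2 * (C' * k i) ^ 2 / n i := by
      gcongr
    gcongr
  have hHiε : HiB j C' (n i) (k i) (q i) ≤ ε * n i := by
    have h1 := HiB_le j C' hj (n i) (k i) (q i) hC1 g1 hk0 hkn
    have h2 : 0 ≤ HiB j C' (n i) (k i) (q i) := by unfold HiB; positivity
    have h3 : (1 : ℝ) ≤ (2 * q i) ^ j := one_le_pow₀ (by linarith)
    rw [div_le_iff₀ hε] at g8
    have h4 : HiB j C' (n i) (k i) (q i) * q i ≤ ε * n i * q i := by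
      calc HiB j C' (n i) (k i) (q i) * q i
          ≤ (q i : ℝ) * (q i) * (HiB j C' (n i) (k i) (q i) * (2 * q i) ^ j) := by
            have a1 : HiB j C' (n i) (k i) (q i) ≤
              HiB j C' (n i) (k i) (q i) * (2 * q i) ^ j := by nlinarith
            have a2 : HiB j C' (n i) (k i) (q i) * q i ≤
              HiB j C' (n i) (k i) (q i) * (2 * q i) ^ j * q i := by gcongr
            have a3 : 0 ≤ HiB j C' (n i) (k i) (q i) * (2 * q i) ^ j * q i := by positivity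
            nlinarith
        _ = (q i : ℝ) ^ 2 * (HiB j C' (n i) (k i) (q i) * (2 * q i) ^ j) := by ring
        _ ≤ 17 * (C' : ℝ) ^ 2 * 2 ^ j * (k i) ^ 2 := h1
        _ ≤ (q i * ε) * n i := by gcongr
        _ = _ := by ring
    exact le_of_mul_le_mul_right h4 hq0
  intro J hJj
  rcases Nat.eq_zero_or_pos J with hJ0 | hJ0
  · subst hJ0
    intro Tp hTp T _
    have h1 := cnt_zero (LL j (q i)) C' ((k i : ℝ) / rhoP j (q i)) _ ε a hHi
      (by rw [hGi']; exact hHiε) Tp hTp T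
    simp only [Finset.univ_eq_empty, Finset.prod_empty, mul_one]
    refine h1.trans ?_
    rw [hGi']
    nlinarith
  · intro Tp hTp T hT
    have hTl : ∀ l, (T l).card ≤ C' * k i := fun l => (Finset.card_le_card (hT l)).trans hTp
    have hJk : J ≤ k i := by
      have : (J : ℝ) ≤ k i := by
        have : (J : ℝ) ≤ j := by exact_mod_cast hJj
        linarith
      exact_mod_cast this
    have h1 := mu_est (G := G i) hkpos hkn' (by rw [hGi']; exact hnk) hJk C' T hTl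
    have h1' : (C' : ℝ) ^ J * (J * (J + 2)) / k i * Fintype.card (G i) ≤ ε * n i := by
      rw [hGi']
      have : (C' : ℝ) ^ J * (J * (J + 2)) / k i ≤ ε := by
        rw [div_le_iff₀ hk0]
        rw [div_le_iff₀ hε] at g9
        have hJj' : (J : ℝ) ≤ j := by exact_mod_cast hJj
        calc (C' : ℝ) ^ J * (J * (J + 2)) ≤ (C' : ℝ) ^ j * (j * (j + 2)) := by
              have : (C' : ℝ) ^ J ≤ (C' : ℝ) ^ j := pow_le_pow_right₀ hC1 hJj
              gcongr
          _ ≤ _ := g9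
          _ = _ := by ring
      gcongr
    have hθU := th_pos (NU j (q i))
    have hθL := th_pos (q i)
    have h2 := cnt_upper (N := NU j (q i)) hkpos hJ0 (LL j (q i)) hLpos C' hC
      ((k i : ℝ) / rhoP j (q i)) (by positivity) a (mm C' (k i) (NU j (q i)))
      (rU j (q i) (k i)) (ε * th (NU j (q i)) ^ J * Fintype.card (G i)) (5 * ε) (by positivity)
      (hU J hJ0 hJj) (le_mm _ _ _) (by rw [hGi']; exact g5 J hJ0 hJj) Tp hTp T hT
    have h3 := cnt_lower (N := q i) hkpos hkn' (LL j (q i)) C' hC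
      ((k i : ℝ) / rhoP j (q i)) a (mm C' (k i) (q i))
      (2 * (th (q i) ^ 2 * (C' * k i))) ((j ^ 2 * DA j C' / ε) * th (q i) ^ J * k i) (q i)
      (4 * ε * th (q i) ^ J * Fintype.card (G i)) (HiB j C' (n i) (k i) (q i)) (7 * ε)
      (by positivity) (by positivity) (hL J hJ0 hJj) (by positivity) (le_mm _ _ _) le_rfl
      hHi (4 * q i + 1) (mR j C' (q i)) hd g7.1 g7.2 (by rw [hGi']; exact g6 J hJ0 hJj)
      Tp hTp T hT
    rw [hGi'] at h2 h3 h1 h1' ⊢
    have h4 := (abs_le.mp h1)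
    rw [abs_le]
    constructor
    · linarith [h4.2]
    · have : 5 * ε * (n i : ℝ) ≤ 7 * ε * n i := by nlinarith
      linarith [h4.1]

end Cover
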