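import Pool.Agent.Cover.Final1

/-!
Choice of the constants.
-/

namespace Cover

open Filter Finset
open scoped Classical

/-- The truncated exponential is close to the exponential. -/
lemma te_lower (c δ : ℝ) (hc : 0 ≤ c) (hδ : 0 < δ) :
    ∃ m₀ : ℕ, ∀ m ≥ m₀, (∀ x : ℝ, 0 ≤ x → x ≤ c → Real.exp (-x) - δ ≤ te m (-x)) ∧
      c ^ (m + 1) / ((m + 1).factorial : ℝ) ≤ δ := by
  have h1 := FloorSemiring.tendsto_pow_div_factorial_atTop c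
  have h2 : ∀ᶠ m : ℕ in atTop, c ^ m / (m.factorial : ℝ) < δ / 2 :=
    h1.eventually (gt_mem_nhds (by positivity))
  obtain ⟨m₁, hm₁⟩ := eventually_atTop.mp h2
  refine ⟨max m₁ ⌈2 * c⌉₊, fun m hm => ?_⟩
  have hm1 : m₁ ≤ m + 1 := (le_max_left _ _).trans (hm.trans (Nat.le_succ m))
  have hm2 : 2 * c ≤ m := (Nat.le_ceil _).trans (by exact_mod_cast (le_max_right _ _).trans hm)
  have h3 := hm₁ (m + 1) hm1
  refine ⟨fun x hx0 hxc => ?_, by linarith⟩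
  have h4 := te_bound m (-x) (by
    rw [abs_neg, abs_of_nonneg hx0, div_le_div_iff₀ (by positivity) (by norm_num)]
    linarith)
  rw [abs_neg, abs_of_nonneg hx0] at h4
  have h5 : x ^ (m + 1) / ((m + 1).factorial : ℝ) ≤ c ^ (m + 1) / ((m + 1).factorial : ℝ) := by
    gcongr
  have h6 := (abs_le.mp h4).2
  linarith

lemma he3_real (k n q mR r' K η g u A₁ : ℝ) (hk : 1 ≤ k) (hkn : k ^ 2 ≤ n) (hq : 1 ≤ q)
    (hmR : 0 < mR) (hr' : 0 < r') (hη : 0 < η) (hg : 0 < g) (hu : 0 < u)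
    (hA₁ : A₁ = 4 + 16 * K ^ 2 / η ^ 2)
    (h : (A₁ * q * (mR * r' ^ 2) ^ 2 / (g * u) ^ 2) ^ 2 ≤ k) :
    mR * (r' ^ 2 * √(k ^ 3 * (1 + 2 * √(2 * k * q) +
        k * (2 * √(8 * K ^ 2 * k ^ 3 * q) ^ 2 / (η ^ 2 * n ^ 2))))) ≤ g * u * n := by
  have hk0 : 0 < k := by linarith
  have hq0 : 0 < q := by linarith
  have hn : 0 < n := lt_of_lt_of_le (by positivity) hkn
  have hA0 : 0 < A₁ := by rw [hA₁]; positivity
  rw [Real.sq_sqrt (by positivity)]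
  have hsk : 1 ≤ √k := Real.one_le_sqrt.mpr hk
  have e1 : 2 * √(2 * k * q) ≤ 3 * √k * q := by
    have h1 : √(2 * k * q) ≤ √((3 / 2 * q) ^ 2 * k) := by
      apply Real.sqrt_le_sqrt
      have : 2 * q ≤ (3 / 2 * q) ^ 2 := by nlinarith
      nlinarith
    have h2 : √((3 / 2 * q) ^ 2 * k) = 3 / 2 * q * √k := by
      rw [Real.sqrt_mul (by positivity), Real.sqrt_sq (by positivity)]
    rw [h2] at h1
    linarith
  have e2 : k * (2 * (8 * K ^ 2 * k ^ 3 * q) / (η ^ 2 * n ^ 2)) ≤ 16 * K ^ 2 / η ^ 2 * q := by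
    have h1 : k * (2 * (8 * K ^ 2 * k ^ 3 * q) / (η ^ 2 * n ^ 2)) =
        16 * K ^ 2 / η ^ 2 * q * (k ^ 4 / n ^ 2) := by
      field_simp
      ring
    rw [h1]
    have h2 : k ^ 4 / n ^ 2 ≤ 1 := by
      rw [div_le_one (by positivity)]
      calc k ^ 4 = (k ^ 2) ^ 2 := by ring
        _ ≤ n ^ 2 := by gcongr
    calc 16 * K ^ 2 / η ^ 2 * q * (k ^ 4 / n ^ 2) ≤ 16 * K ^ 2 / η ^ 2 * q * 1 := by gcongr
      _ = _ := mul_one _
  have e3 : 1 + 2 * √(2 * k * q) + k * (2 * (8 * K ^ 2 * k ^ 3 * q) / (η ^ 2 * n ^ 2)) ≤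
      A₁ * (√k * q) := by
    have h1 : 1 ≤ √k * q := by nlinarith
    have h2 : 16 * K ^ 2 / η ^ 2 * q ≤ 16 * K ^ 2 / η ^ 2 * (√k * q) := by
      have : q ≤ √k * q := by nlinarith
      gcongr
    rw [hA₁]
    nlinarith
  have hX : k ^ 3 * (1 + 2 * √(2 * k * q) +
      k * (2 * (8 * K ^ 2 * k ^ 3 * q) / (η ^ 2 * n ^ 2))) ≤ (g * u * n / (mR * r' ^ 2)) ^ 2 := by
    rw [div_pow, le_div_iff₀ (by positivity)]
    have h1 : A₁ * q * (mR * r' ^ 2) ^ 2 / (g * u) ^ 2 ≤ √k := Real.le_sqrt_of_sq_le h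
    rw [div_le_iff₀ (by positivity)] at h1
    calc k ^ 3 * (1 + 2 * √(2 * k * q) +
        k * (2 * (8 * K ^ 2 * k ^ 3 * q) / (η ^ 2 * n ^ 2))) * (mR * r' ^ 2) ^ 2
        ≤ k ^ 3 * (A₁ * (√k * q)) * (mR * r' ^ 2) ^ 2 := by gcongr
      _ = k ^ 3 * √k * (A₁ * q * (mR * r' ^ 2) ^ 2) := by ring
      _ ≤ k ^ 3 * √k * (√k * (g * u) ^ 2) := by gcongr
      _ = k ^ 3 * (√k * √k) * (g * u) ^ 2 := by ring
      _ = (g * u) ^ 2 * (k ^ 2) ^ 2 := by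
          rw [Real.mul_self_sqrt hk0.le]
          ring
      _ ≤ (g * u) ^ 2 * n ^ 2 := by gcongr
      _ = _ := by ring
  have h1 : √(k ^ 3 * (1 + 2 * √(2 * k * q) +
      k * (2 * (8 * K ^ 2 * k ^ 3 * q) / (η ^ 2 * n ^ 2)))) ≤ g * u * n / (mR * r' ^ 2) := by
    apply Real.sqrt_le_iff.mpr
    exact ⟨by positivity, hX⟩
  rw [le_div_iff₀ (by positivity)] at h1
  calc _ = √(k ^ 3 * (1 + 2 * √(2 * k * q) +
      k * (2 * (8 * K ^ 2 * k ^ 3 * q) / (η ^ 2 * n ^ 2)))) * (mR * r' ^ 2) := by ring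
    _ ≤ _ := h1

/-- Sets satisfying all the random events are not covering, eventually. -/
theorem exists_no_cover (C : ℕ) (hC : 1 ≤ C) : ∃ (j C' K r' : ℕ) (ε η : ℝ), 1 ≤ j ∧ 1 ≤ C' ∧
    1 ≤ K ∧ 8 * K ≤ r' ∧ 0 < ε ∧ 0 < η ∧
    ∀ {ι : Type} {F : Filter ι} {n k q : ι → ℕ} {G : ι → Type}
      [∀ i, AddCommGroup (G i)] [∀ i, Fintype (G i)] [∀ i, Nonempty (G i)],
      Env F n k q (EE0 j) → (∀ᶠ i in F, Fintype.card (G i) = n i) →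
      ∀ᶠ i in F, ∀ a : Fin (k i) → G i, Function.Injective a → Good j C' K r' (q i) ε η a →
        ∀ T : Finset (G i), T.card ≤ C * k i → ∃ x, ∀ e, x - a e ∉ T := by
  have hC1 : (1 : ℝ) ≤ C := by exact_mod_cast hC
  set σ : ℝ := Real.exp (-C) / 4 with hσ
  have hσ0 : 0 < σ := by positivity
  have hσ1 : σ ≤ 1 := by
    have : Real.exp (-(C : ℝ)) ≤ 1 := Real.exp_le_one_iff.mpr (by linarith)
    rw [hσ]; linarith
  -- `J₀`
  obtain ⟨j₀, hj₀⟩ := te_lower C (Real.exp (-C) / 2) (by linarith) (by positivity)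
  set J₀ : ℕ := 2 * j₀ + 1 with hJ₀def
  have hJ₀odd : Odd J₀ := ⟨j₀, rfl⟩
  have hJ₀ : ∀ c : ℝ, 0 ≤ c → c ≤ C → 2 * σ ≤ te J₀ (-c) := by
    intro c hc0 hcC
    have h1 := (hj₀ J₀ (by omega)).1 c hc0 hcC
    have h2 : Real.exp (-(C : ℝ)) ≤ Real.exp (-c) := Real.exp_le_exp.mpr (by linarith)
    rw [hσ]; linarith
  set M : ℝ := (8 * J₀) ^ (2 * J₀) + 4 ^ J₀ * C ^ (2 * J₀) with hM
  have hM0 : 0 < M := by positivity
  -- `ε'`
  set u : ℝ := σ ^ 2 / (4 * ((J₀ : ℝ) + 1) ^ 2 * (18 * (C + 1) * M)) with hu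
  have hu0 : 0 < u := by positivity
  have hsq : √(u ^ 2) = u := Real.sqrt_sq hu0.le
  have hβ : ((J₀ : ℝ) + 1) * √(2 * (9 * (C + 1) * √(u ^ 2)) * M) ≤ σ / 2 := by
    rw [hsq]
    have h1 : 2 * (9 * ((C : ℝ) + 1) * u) * M = (σ / (2 * ((J₀ : ℝ) + 1))) ^ 2 := by
      rw [hu]
      field_simp
      ring
    rw [h1, Real.sqrt_sq (by positivity)]
    apply le_of_eq
    field_simp
  -- `K`
  set K : ℕ := ⌈2 * C / u ^ 2⌉₊ + 1 with hKdef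
  have hK1 : 1 ≤ K := by omega
  have hKle : 2 * (C : ℝ) + u ^ 2 ≤ K * u ^ 2 := by
    have h1 : 2 * (C : ℝ) / u ^ 2 ≤ ⌈2 * C / u ^ 2⌉₊ := Nat.le_ceil _
    rw [div_le_iff₀ (by positivity)] at h1
    rw [hKdef]
    push_cast
    linarith
  -- `g₀`
  set g₀ : ℝ := Real.exp (-(K / 2)) / 2 with hg₀
  have hg₀0 : 0 < g₀ := by positivity
  set w : ℝ := σ * g₀ / 100 with hw
  have hw0 : 0 < w := by positivity
  have hw1 : 100 * w ≤ g₀ := by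
    rw [hw]
    nlinarith
  -- `m`
  obtain ⟨m₀, hm₀⟩ := te_lower (K / 2) (min g₀ (w / C ^ (2 * J₀))) (by positivity) (by positivity)
  obtain ⟨hm1, hm2⟩ := hm₀ m₀ le_rfl
  set m := m₀
  have hg : ∀ κ : ℝ, 0 ≤ κ → κ ≤ K → g₀ ≤ te m (-κ / 2) := by
    intro κ h0 hK
    have h1 := hm1 (κ / 2) (by linarith) (by linarith)
    have h2 : min g₀ (w / (C : ℝ) ^ (2 * J₀)) ≤ g₀ := min_le_left _ _
    have h3 : Real.exp (-(K / 2 : ℝ)) ≤ Real.exp (-(κ / 2)) := Real.exp_le_exp.mpr (by linarith)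
    have h4 : -κ / 2 = -(κ / 2) := by ring
    rw [h4]
    have h5 : 2 * g₀ = Real.exp (-(K / 2 : ℝ)) := by rw [hg₀]; ring
    linarith
  have hτ : (C : ℝ) ^ (2 * J₀) * (((K : ℝ) / 2) ^ (m + 1) / ((m + 1).factorial : ℝ)) ≤ w := by
    have h2 : ((K : ℝ) / 2) ^ (m + 1) / ((m + 1).factorial : ℝ) ≤ w / C ^ (2 * J₀) :=
      hm2.trans (min_le_right _ _)
    rw [le_div_iff₀ (by positivity)] at h2
    linarith
  set j : ℕ := m + 1 + 2 * J₀ with hj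
  refine ⟨j, C + K, K, 8 * K, w / 8, w ^ 2, by omega, by omega, hK1, le_rfl, by positivity,
    by positivity, ?_⟩
  intro ι F n k q G _ _ _ hEnv hG
  have hE : 0 < EE0 j := by unfold EE0; omega
  set A₁ : ℝ := 4 + 16 * (K : ℝ) ^ 2 / (w ^ 2) ^ 2 with hA₁
  filter_upwards [hG, hEnv.q_ge 1, hEnv.k_ge hE 1, hEnv.sq_le,
    cnt_of_Good hEnv (by omega) hG (C + K) K (8 * K) (by omega) (w / 8) (w ^ 2) (by positivity),
    rich_num hEnv (C + K) (by omega), hEnv.q_ge (1 / u ^ 2), hEnv.mul_pow_le (5 * K ^ 2) 1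
      (by unfold EE0; omega),
    hEnv.mul_pow_le (24 * ((C + K : ℕ) : ℝ) ^ 2 / w)
      (2 * (j ^ 3 + j ^ 2 + 2 * j + 1) + 1 + (j ^ 2 + j)) (by unfold EE0; omega),
    hEnv.k_ge hE (8 * K),
    hEnv.mul_pow_le ((A₁ * 4 * ((C + K : ℕ) : ℝ) ^ 2 * ((8 * K : ℕ) : ℝ) ^ 4 / (g₀ * u) ^ 2) ^ 2)
      (2 + 4 * (j ^ 3 + j ^ 2 + 2 * j + 1)) (by unfold EE0; omega),
    hEnv.mul_pow_le (8 * K ^ 2 / w ^ 2) 1 (by unfold EE0; omega)]
    with i hGi g1 g2 g3 g4 g5 g6 g7 g8 g9 g10 g11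
  intro a ha hgood T hT
  obtain ⟨hd, hCnt⟩ := g4 a ha hgood
  obtain ⟨-, -, -, -, hDB⟩ := hgood
  have hq0 : (0 : ℝ) < q i := by linarith
  have hk0 : (0 : ℝ) < k i := by linarith
  have hkpos : 0 < k i := by exact_mod_cast hk0
  have hqpos : 0 < q i := by exact_mod_cast hq0
  have hkn : (k i : ℝ) ^ 2 ≤ n i := by exact_mod_cast g3
  have hn0 : (0 : ℝ) < n i := lt_of_lt_of_le (by positivity) hkn
  have hGi' : (Fintype.card (G i) : ℝ) = n i := by exact_mod_cast hGi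
  have hCK1 : (1 : ℝ) ≤ ((C + K : ℕ) : ℝ) := by
    have : 1 ≤ C + K := by omega
    exact_mod_cast this
  have hρ : ((rhoP j (q i) : ℕ) : ℝ) = (q i : ℝ) ^ (j ^ 3 + j ^ 2 + 2 * j + 1) := by
    unfold rhoP; push_cast; rfl
  have hmRe : (mR j (C + K) (q i) : ℝ) = 2 * ((C + K : ℕ) : ℝ) *
      (q i : ℝ) ^ (j ^ 3 + j ^ 2 + 2 * j + 1) := by
    unfold mR
    rw [Nat.cast_mul, Nat.cast_mul, hρ]
    norm_num
  have hρ0 : (0 : ℝ) < (q i : ℝ) ^ (j ^ 3 + j ^ 2 + 2 * j + 1) := by positivity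
  have hmR0 : (0 : ℝ) < mR j (C + K) (q i) := by rw [hmRe]; positivity
  have hL : ((LL j (q i) : ℕ) : ℝ) = (q i : ℝ) ^ (j + 1) := by unfold LL; push_cast; rfl
  have hLpos : 0 < LL j (q i) := by unfold LL; positivity
  refine no_cover (G := G i) hkpos (by rw [hGi']; exact hkn) C K J₀ m (4 * q i + 1)
    (mR j (C + K) (q i)) (LL j (q i)) (8 * K) ((k i : ℝ) / rhoP j (q i)) (u ^ 2) w w w g₀ σ
    (w ^ 2) √(2 * k i * q i) √(8 * K ^ 2 * k i ^ 3 * q i) hC hLpos hJ₀odd hd ?_ hDB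
    (by positivity) ?_ hw0.le hw0.le ?_ ?_ ?_ hτ hg₀0 hg hσ0 hJ₀ (Real.sqrt_nonneg _)
    (by positivity) (Real.sqrt_nonneg _) ?_ ?_ ?_ g5.2 ?_ ?_ T hT
  · -- counting
    intro J hJ
    have := hCnt J hJ
    have e : 8 * (w / 8) = w := by ring
    rwa [e] at this
  · -- b ≤ ε' k
    rw [hρ, div_le_iff₀ hρ0]
    rw [div_le_iff₀ (by positivity)] at g6
    have h1 : (q i : ℝ) ≤ (q i : ℝ) ^ (j ^ 3 + j ^ 2 + 2 * j + 1) := by
      calc (q i : ℝ) = (q i : ℝ) ^ 1 := (pow_one _).symm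
        _ ≤ _ := pow_le_pow_right₀ g1 (by omega)
    have h2 : 1 ≤ (q i : ℝ) ^ (j ^ 3 + j ^ 2 + 2 * j + 1) * u ^ 2 := by
      refine g6.trans ?_
      gcongr
    calc (k i : ℝ) = k i * 1 := (mul_one _).symm
      _ ≤ k i * ((q i : ℝ) ^ (j ^ 3 + j ^ 2 + 2 * j + 1) * u ^ 2) := by gcongr
      _ = _ := by ring
  · -- hK
    rw [pow_one] at g7
    have h1 : (K : ℝ) ^ 2 * ((4 * q i + 1 : ℕ) : ℝ) ≤ k i := by
      push_cast
      have : 4 * (q i : ℝ) + 1 ≤ 5 * q i := by linarith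
      calc (K : ℝ) ^ 2 * (4 * (q i : ℝ) + 1) ≤ (K : ℝ) ^ 2 * (5 * q i) := by gcongr
        _ = 5 * (K : ℝ) ^ 2 * q i := by ring
        _ ≤ _ := g7
    have h2 : (K : ℝ) * (u ^ 2 * k i) = (K * u ^ 2) * k i := by ring
    rw [h2]
    have h3 : (2 * (C : ℝ) + u ^ 2) * k i ≤ (K * u ^ 2) * k i :=
      mul_le_mul_of_nonneg_right hKle hk0.le
    have h4 : 0 < u ^ 2 * k i := mul_pos (pow_pos hu0 2) hk0
    have h5 : 1 * (k i : ℝ) ≤ C * k i := mul_le_mul_of_nonneg_right hC1 hk0.le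
    have h6 : (2 * (C : ℝ) + u ^ 2) * k i = 2 * (C * k i) + u ^ 2 * k i := by ring
    linarith only [h1, h3, h4, h5, h6]
  · -- hR
    have := g5.1
    push_cast at this ⊢
    exact this
  · -- hreg
    rw [hGi', hL]
    rw [div_mul_eq_mul_div, div_le_iff₀ hw0] at g8
    set y : ℝ := (q i : ℝ) ^ (j ^ 3 + j ^ 2 + 2 * j + 1) with hy
    have hy1 : 1 ≤ y := one_le_pow₀ g1
    have e1 : (q i : ℝ) ^ (2 * (j ^ 3 + j ^ 2 + 2 * j + 1) + 1 + (j ^ 2 + j)) =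
        y ^ 2 * q i * ((q i : ℝ) ^ (j + 1)) ^ j := by
      rw [hy, ← pow_mul, ← pow_mul, ← pow_succ, ← pow_add]
      congr 1
      ring
    rw [e1] at g8
    rw [hmRe]
    set c := ((C + K : ℕ) : ℝ)
    have e2 : (2 * c * y) + (2 * c * y) ^ 2 * ((4 * q i + 1 : ℕ) : ℝ) ≤
        24 * c ^ 2 * (y ^ 2 * q i) := by
      push_cast
      have a1 : 4 * (q i : ℝ) + 1 ≤ 5 * q i := by linarith
      have a2 : (2 * c * y) ^ 2 * (4 * (q i : ℝ) + 1) ≤ (2 * c * y) ^ 2 * (5 * q i) := by gcongr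
      have a3 : c ≤ c ^ 2 := le_self_pow₀ hCK1 (by norm_num)
      have a4 : y ≤ y ^ 2 * q i := by
        calc y ≤ y ^ 2 := le_self_pow₀ hy1 (by norm_num)
          _ = y ^ 2 * 1 := (mul_one _).symm
          _ ≤ y ^ 2 * q i := by gcongr
      have a5 : c * y ≤ c ^ 2 * (y ^ 2 * q i) := by gcongr
      have a6 : (2 * c * y) ^ 2 * (5 * (q i : ℝ)) = 20 * (c ^ 2 * (y ^ 2 * q i)) := by ring
      have a7 : 0 ≤ c ^ 2 * (y ^ 2 * q i) := by positivity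
      have a8 : 24 * c ^ 2 * (y ^ 2 * (q i : ℝ)) = 24 * (c ^ 2 * (y ^ 2 * q i)) := by ring
      have a9 : 2 * c * y = 2 * (c * y) := by ring
      rw [a8]
      linarith only [a2, a5, a6, a7, a9]
    calc ((k i : ℝ) * (2 * c * y) + k i * ((2 * c * y) ^ 2 * ((4 * q i + 1 : ℕ) : ℝ))) *
        ((q i : ℝ) ^ (j + 1)) ^ j
        = k i * ((2 * c * y) + (2 * c * y) ^ 2 * ((4 * q i + 1 : ℕ) : ℝ)) *
          ((q i : ℝ) ^ (j + 1)) ^ j := by ring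
      _ ≤ k i * (24 * c ^ 2 * (y ^ 2 * q i)) * ((q i : ℝ) ^ (j + 1)) ^ j := by gcongr
      _ = k i * (24 * c ^ 2 * (y ^ 2 * q i * ((q i : ℝ) ^ (j + 1)) ^ j)) := by ring
      _ ≤ k i * (k i * w) := by gcongr
      _ = w * (k i) ^ 2 := by ring
      _ ≤ w * n i := by gcongr
  · -- hsmall1
    rw [hGi']
    have h1 : √(8 * (K : ℝ) ^ 2 * (k i : ℝ) ^ 3 * q i) ≤ w * n i := by
      apply Real.sqrt_le_iff.mpr
      refine ⟨by positivity, ?_⟩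
      rw [pow_one, div_mul_eq_mul_div, div_le_iff₀ (by positivity)] at g11
      calc 8 * (K : ℝ) ^ 2 * (k i : ℝ) ^ 3 * q i = (8 * (K : ℝ) ^ 2 * q i) * (k i : ℝ) ^ 3 := by
            ring
        _ ≤ (k i * w ^ 2) * (k i : ℝ) ^ 3 := by gcongr
        _ = w ^ 2 * ((k i : ℝ) ^ 2) ^ 2 := by ring
        _ ≤ w ^ 2 * (n i) ^ 2 := by gcongr
        _ = _ := by ring
    have h2 : √(8 * (K : ℝ) ^ 2 * (k i : ℝ) ^ 3 * q i) / n i ≤ w := by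
      rw [div_le_iff₀ hn0]; exact h1
    rw [Real.sqrt_sq hw0.le]
    linarith
  · -- hsmall2
    have : σ * g₀ = 100 * w := by rw [hw]; ring
    rw [this]
    linarith
  · -- r' ≤ k
    have h1 : ((8 * K : ℕ) : ℝ) ≤ k i := by push_cast; exact g9
    exact_mod_cast h1
  · -- he₃
    rw [hGi', hsq]
    refine he3_real (k i) (n i) (q i) _ _ K (w ^ 2) g₀ u A₁ g2 hkn g1 hmR0 (by positivity)
      (by positivity) hg₀0 hu0 hA₁ ?_
    refine le_trans (le_of_eq ?_) g10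
    rw [hmRe]
    have e1 : (q i : ℝ) ^ (2 + 4 * (j ^ 3 + j ^ 2 + 2 * j + 1)) =
        ((q i : ℝ) * ((q i : ℝ) ^ (j ^ 3 + j ^ 2 + 2 * j + 1)) ^ 2) ^ 2 := by
      rw [mul_pow, ← pow_mul, ← pow_mul, ← pow_add]
      congr 1
      ring
    rw [e1, ← mul_pow]
    congr 1
    ring
  · exact hβ

end Cover
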