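import Pool.Agent.Cover.SampleLB

/-!
Fourier analysis: second moments of coverage degrees and autocorrelations.
-/

namespace Cover

open Finset
open scoped Classical ComplexConjugate

set_option linter.unusedSectionVars false

variable {G : Type*} [AddCommGroup G] [Fintype G] {J k N : ℕ}

/-- Fourier transform. -/
noncomputable def ft (f : G → ℝ) (ψ : AddChar G ℂ) : ℂ := ∑ x, (f x : ℂ) * ψ x

lemma ofReal_norm_sq (z : ℂ) : ((‖z‖ ^ 2 : ℝ) : ℂ) = z * conj z := by
  rw [Complex.mul_conj, Complex.normSq_eq_norm_sq]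

lemma char_mul_conj (ψ : AddChar G ℂ) (x y : G) : ψ x * conj (ψ y) = ψ (x - y) := by
  rw [← AddChar.map_neg_eq_conj, sub_eq_add_neg, AddChar.map_add_eq_mul]

lemma parseval (f : G → ℝ) :
    ∑ ψ : AddChar G ℂ, ‖ft f ψ‖ ^ 2 = (Fintype.card G : ℝ) * ∑ x, f x ^ 2 := by
  have h1 : ((∑ ψ : AddChar G ℂ, ‖ft f ψ‖ ^ 2 : ℝ) : ℂ) =
      ((((Fintype.card G : ℝ) * ∑ x, f x ^ 2 : ℝ)) : ℂ) := by
    rw [Complex.ofReal_sum]
    calc ∑ ψ : AddChar G ℂ, ((‖ft f ψ‖ ^ 2 : ℝ) : ℂ)
        = ∑ ψ : AddChar G ℂ, ∑ x, ∑ y, ((f x : ℂ) * (f y : ℂ)) * ψ (x - y) := by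
          refine Finset.sum_congr rfl fun ψ _ => ?_
          rw [ofReal_norm_sq]
          unfold ft
          rw [map_sum, Finset.sum_mul]
          refine Finset.sum_congr rfl fun x _ => ?_
          rw [Finset.mul_sum]
          refine Finset.sum_congr rfl fun y _ => ?_
          rw [map_mul, Complex.conj_ofReal, ← char_mul_conj]
          ring
      _ = ∑ x, ∑ y, ((f x : ℂ) * (f y : ℂ)) * ∑ ψ : AddChar G ℂ, ψ (x - y) := by
          rw [Finset.sum_comm]
          refine Finset.sum_congr rfl fun x _ => ?_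
          rw [Finset.sum_comm]
          refine Finset.sum_congr rfl fun y _ => ?_
          rw [Finset.mul_sum]
      _ = ∑ x, ∑ y, ((f x : ℂ) * (f y : ℂ)) * (if x = y then (Fintype.card G : ℂ) else 0) := by
          refine Finset.sum_congr rfl fun x _ => Finset.sum_congr rfl fun y _ => ?_
          rw [AddChar.sum_apply_eq_ite]
          simp only [sub_eq_zero]
      _ = _ := by
          push_cast
          simp only [mul_ite, mul_zero, Finset.sum_ite_eq, Finset.mem_univ, if_true]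
          rw [Finset.mul_sum]
          refine Finset.sum_congr rfl fun x _ => ?_
          ring
  exact_mod_cast h1

/-- Second moment of the number of cells. -/
lemma sum_dd_sq_le (a : Fin k → G) (T : Finset G) (M : ℝ) (hM0 : 0 ≤ M)
    (hM : ∀ ψ : AddChar G ℂ, ψ ≠ 0 → ‖∑ i, ψ (a i)‖ ^ 2 ≤ M) :
    (Fintype.card G : ℝ) * ∑ x, (dd a T x : ℝ) ^ 2 ≤
      (k : ℝ) ^ 2 * (T.card : ℝ) ^ 2 + M * ((Fintype.card G : ℝ) * T.card) := by
  rw [← parseval (fun x => (dd a T x : ℝ))]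
  have hdd : ∀ x, ((dd a T x : ℝ) : ℂ) = ∑ i, (if x - a i ∈ T then (1 : ℂ) else 0) := by
    intro x
    unfold dd
    rw [Finset.card_filter]
    push_cast
    refine Finset.sum_congr rfl fun i _ => ?_
    split_ifs <;> simp
  set g : G → ℝ := fun x => if x ∈ T then (1 : ℝ) else 0 with hg
  have hgc : ∀ x, ((g x : ℝ) : ℂ) = if x ∈ T then (1 : ℂ) else 0 := by
    intro x
    simp only [hg]
    split_ifs <;> simp
  have hft : ∀ ψ : AddChar G ℂ, ft (fun x => (dd a T x : ℝ)) ψ =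
      (∑ i, ψ (a i)) * ft g ψ := by
    intro ψ
    unfold ft
    calc ∑ x, ((dd a T x : ℝ) : ℂ) * ψ x
        = ∑ x, ∑ i, (if x - a i ∈ T then (1 : ℂ) else 0) * ψ x := by
          refine Finset.sum_congr rfl fun x _ => ?_
          rw [hdd, Finset.sum_mul]
      _ = ∑ i, ∑ x, (if x - a i ∈ T then (1 : ℂ) else 0) * ψ x := Finset.sum_comm
      _ = ∑ i, ∑ x, (if x ∈ T then (1 : ℂ) else 0) * (ψ (a i) * ψ x) := by
          refine Finset.sum_congr rfl fun i _ => ?_
          rw [← Equiv.sum_comp (Equiv.addRight (a i))]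
          refine Finset.sum_congr rfl fun x _ => ?_
          simp only [Equiv.coe_addRight, add_sub_cancel_right]
          rw [AddChar.map_add_eq_mul, mul_comm (ψ x)]
      _ = _ := by
          rw [Finset.sum_mul]
          refine Finset.sum_congr rfl fun i _ => ?_
          rw [Finset.mul_sum]
          refine Finset.sum_congr rfl fun x _ => ?_
          rw [hgc]
          ring
  have hg0 : ft g 0 = (T.card : ℂ) := by
    unfold ft
    simp_rw [hgc]
    simp
  have hgsum : ∑ x, g x ^ 2 = T.card := by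
    simp [hg]
  have hpar := parseval g
  rw [hgsum] at hpar
  have hterm : ∀ ψ : AddChar G ℂ, ‖ft (fun x => (dd a T x : ℝ)) ψ‖ ^ 2 ≤
      (if ψ = 0 then (k : ℝ) ^ 2 * (T.card : ℝ) ^ 2 else 0) + M * ‖ft g ψ‖ ^ 2 := by
    intro ψ
    rw [hft, norm_mul, mul_pow]
    by_cases hψ : ψ = 0
    · subst hψ
      rw [if_pos rfl, hg0]
      have h1 : ‖∑ i, (0 : AddChar G ℂ) (a i)‖ = k := by simp
      rw [h1]
      have h2 : ‖(T.card : ℂ)‖ = (T.card : ℝ) := by simp
      rw [h2]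
      have : 0 ≤ M * (T.card : ℝ) ^ 2 := by positivity
      linarith
    · rw [if_neg hψ, zero_add]
      gcongr
      exact hM ψ hψ
  calc ∑ ψ : AddChar G ℂ, ‖ft (fun x => (dd a T x : ℝ)) ψ‖ ^ 2
      ≤ ∑ ψ : AddChar G ℂ, ((if ψ = 0 then (k : ℝ) ^ 2 * (T.card : ℝ) ^ 2 else 0) +
        M * ‖ft g ψ‖ ^ 2) := Finset.sum_le_sum fun ψ _ => hterm ψ
    _ = _ := by
        rw [Finset.sum_add_distrib, ← Finset.mul_sum, hpar]
        simp

/-- Autocorrelation. -/
noncomputable def cor (W : Finset G) (z : G) : ℕ := (univ.filter fun x => x ∈ W ∧ x + z ∈ W).card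

lemma sum_cor (W : Finset G) : ∑ z, cor W z = W.card * W.card := by
  have h1 : ∀ z, cor W z = ∑ x : G, (if x ∈ W then 1 else 0) * (if x + z ∈ W then 1 else 0) := by
    intro z
    unfold cor
    rw [Finset.card_filter]
    refine Finset.sum_congr rfl fun x _ => ?_
    by_cases h1 : x ∈ W <;> by_cases h2 : x + z ∈ W <;> simp [h1, h2]
  simp_rw [h1]
  rw [Finset.sum_comm]
  calc ∑ x : G, ∑ z : G, (if x ∈ W then 1 else 0) * (if x + z ∈ W then 1 else 0)
      = ∑ x : G, (if x ∈ W then 1 else 0) * W.card := by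
        refine Finset.sum_congr rfl fun x _ => ?_
        rw [← Finset.mul_sum]
        congr 1
        have := Equiv.sum_comp (Equiv.addLeft x) (fun z => if z ∈ W then (1 : ℕ) else 0)
        simp only [Equiv.coe_addLeft] at this
        refine Eq.trans ?_ (this.trans ?_)
        · refine Finset.sum_congr rfl fun z _ => ?_
          by_cases h : x + z ∈ W <;> simp [h]
        · simp
    _ = _ := by
        rw [← Finset.sum_mul]
        simp

lemma ft_cor (W : Finset G) (ψ : AddChar G ℂ) :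
    ft (fun z => (cor W z : ℝ)) ψ =
      ((‖ft (fun x => if x ∈ W then (1 : ℝ) else 0) ψ‖ ^ 2 : ℝ) : ℂ) := by
  rw [ofReal_norm_sq]
  have hgc : ∀ x : G, (((if x ∈ W then (1 : ℝ) else 0 : ℝ)) : ℂ) = if x ∈ W then (1 : ℂ) else 0 := by
    intro x
    split_ifs <;> simp
  have hcor : ∀ z, ((cor W z : ℝ) : ℂ) =
      ∑ x : G, (if x ∈ W then (1 : ℂ) else 0) * (if x + z ∈ W then 1 else 0) := by
    intro z
    unfold cor
    rw [Finset.card_filter]
    push_cast
    refine Finset.sum_congr rfl fun x _ => ?_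
    by_cases h1 : x ∈ W <;> by_cases h2 : x + z ∈ W <;> simp [h1, h2]
  unfold ft
  simp_rw [hgc, hcor]
  rw [map_sum, mul_comm, Finset.sum_mul]
  calc ∑ z : G, (∑ x : G, (if x ∈ W then (1 : ℂ) else 0) * (if x + z ∈ W then 1 else 0)) * ψ z
      = ∑ x : G, ∑ z : G, (if x ∈ W then (1 : ℂ) else 0) * (if x + z ∈ W then 1 else 0) * ψ z := by
        rw [Finset.sum_comm]
        refine Finset.sum_congr rfl fun z _ => ?_
        rw [Finset.sum_mul]
    _ = ∑ x : G, ∑ y : G, (if x ∈ W then (1 : ℂ) else 0) * (if y ∈ W then 1 else 0) *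
          ψ (y - x) := by
        refine Finset.sum_congr rfl fun x _ => ?_
        rw [← Equiv.sum_comp (Equiv.addLeft x) (fun y => (if x ∈ W then (1 : ℂ) else 0) *
          (if y ∈ W then 1 else 0) * ψ (y - x))]
        refine Finset.sum_congr rfl fun z _ => ?_
        by_cases h1 : x ∈ W <;> by_cases h2 : x + z ∈ W <;> simp [h1, h2]
    _ = _ := by
        refine Finset.sum_congr rfl fun x _ => ?_
        rw [Finset.mul_sum]
        refine Finset.sum_congr rfl fun y _ => ?_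
        rw [← char_mul_conj]
        by_cases h1 : x ∈ W <;> by_cases h2 : y ∈ W <;> simp [h1, h2, mul_comm]

/-- Variance of the autocorrelation. -/
lemma sum_cor_sq_le (W : Finset G) (M : ℝ) (hM0 : 0 ≤ M)
    (hM : ∀ ψ : AddChar G ℂ, ψ ≠ 0 → ‖ft (fun x => if x ∈ W then (1 : ℝ) else 0) ψ‖ ^ 2 ≤ M) :
    ∑ z, ((cor W z : ℝ) - (W.card : ℝ) ^ 2 / Fintype.card G) ^ 2 ≤ M * W.card := by
  have hn : (0 : ℝ) < (Fintype.card G : ℝ) := by exact_mod_cast Fintype.card_pos
  set n : ℝ := (Fintype.card G : ℝ) with hn_def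
  set w : ℝ := (W.card : ℝ) with hw
  set g : G → ℝ := fun x => if x ∈ W then (1 : ℝ) else 0 with hg
  have hgsum : ∑ x, g x ^ 2 = w := by simp [hg, hw]
  have hpar := parseval g
  rw [hgsum] at hpar
  have hg0 : ft g 0 = (w : ℂ) := by
    unfold ft
    have : ∀ x, ((g x : ℝ) : ℂ) = if x ∈ W then (1 : ℂ) else 0 := by
      intro x
      simp only [hg]
      split_ifs <;> simp
    simp_rw [this]
    simp [hw]
  have hg0' : ‖ft g 0‖ = w := by
    rw [hg0, Complex.norm_real, Real.norm_of_nonneg (by positivity)]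
  have hcor := parseval (fun z => (cor W z : ℝ))
  have h1 : ∑ ψ : AddChar G ℂ, ‖ft (fun z => (cor W z : ℝ)) ψ‖ ^ 2 ≤
      w ^ 4 + M * (n * w) := by
    calc ∑ ψ : AddChar G ℂ, ‖ft (fun z => (cor W z : ℝ)) ψ‖ ^ 2
        = ∑ ψ : AddChar G ℂ, (‖ft g ψ‖ ^ 2) ^ 2 := by
          refine Finset.sum_congr rfl fun ψ _ => ?_
          rw [ft_cor, Complex.norm_real, Real.norm_of_nonneg (by positivity)]
      _ = (‖ft g 0‖ ^ 2) ^ 2 + ∑ ψ ∈ univ.erase (0 : AddChar G ℂ), (‖ft g ψ‖ ^ 2) ^ 2 := by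
          exact (Finset.add_sum_erase univ (fun ψ : AddChar G ℂ => (‖ft g ψ‖ ^ 2) ^ 2)
            (Finset.mem_univ 0)).symm
      _ ≤ w ^ 4 + ∑ ψ ∈ univ.erase (0 : AddChar G ℂ), M * ‖ft g ψ‖ ^ 2 := by
          rw [hg0']
          refine add_le_add (le_of_eq (by ring)) (Finset.sum_le_sum fun ψ hψ => ?_)
          rw [sq (‖ft g ψ‖ ^ 2)]
          exact mul_le_mul_of_nonneg_right (hM ψ (Finset.ne_of_mem_erase hψ)) (by positivity)
      _ ≤ w ^ 4 + M * (n * w) := by
          rw [← Finset.mul_sum, ← hpar]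
          have h7 : ∑ ψ ∈ univ.erase (0 : AddChar G ℂ), ‖ft g ψ‖ ^ 2 ≤
              ∑ ψ : AddChar G ℂ, ‖ft g ψ‖ ^ 2 :=
            Finset.sum_le_sum_of_subset_of_nonneg (Finset.erase_subset _ _)
              (fun ψ _ _ => by positivity)
          have := mul_le_mul_of_nonneg_left h7 hM0
          linarith
  have h2 : ∑ z, ((cor W z : ℝ) - w ^ 2 / n) ^ 2 =
      ∑ z, (cor W z : ℝ) ^ 2 - w ^ 4 / n := by
    have h3 : ∑ z, (cor W z : ℝ) = w * w := by
      have := sum_cor W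
      rw [hw]
      exact_mod_cast this
    calc ∑ z, ((cor W z : ℝ) - w ^ 2 / n) ^ 2
        = ∑ z, ((cor W z : ℝ) ^ 2 - 2 * (w ^ 2 / n) * (cor W z : ℝ) + (w ^ 2 / n) ^ 2) := by
          refine Finset.sum_congr rfl fun z _ => ?_
          ring
      _ = ∑ z, (cor W z : ℝ) ^ 2 - 2 * (w ^ 2 / n) * (w * w) + n * (w ^ 2 / n) ^ 2 := by
          rw [Finset.sum_add_distrib, Finset.sum_sub_distrib, ← Finset.mul_sum, h3]
          simp [hn_def]
      _ = _ := by
          field_simp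
          ring
  rw [h2]
  have h4 : n * ∑ z, (cor W z : ℝ) ^ 2 ≤ w ^ 4 + M * (n * w) := by
    rw [← hcor]; exact h1
  have h5 : ∑ z, (cor W z : ℝ) ^ 2 ≤ (w ^ 4 + M * (n * w)) / n := by
    rw [le_div_iff₀ hn]; linarith
  have h6 : (w ^ 4 + M * (n * w)) / n = w ^ 4 / n + M * w := by
    field_simp
  linarith

/-- Tail bound for complex-valued functions with bounded differences and mean zero. -/
lemma complex_tail {ι α : Type*} [Fintype ι] [DecidableEq ι] [Fintype α] [Nonempty α]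
    (Φ : (ι → α) → ℂ) (c : ι → ℝ) (hc : ∀ i a x, ‖Φ (Function.update a i x) - Φ a‖ ≤ c i)
    (h1 : av (fun a => (Φ a).re) = 0) (h2 : av (fun a => (Φ a).im) = 0)
    (V : ℝ) (hV : 0 < V) (hcV : ∑ i, c i ^ 2 ≤ V) (t : ℝ) (ht : 0 ≤ t) :
    pr (fun a => 2 * t ^ 2 < ‖Φ a‖ ^ 2) ≤ 4 * Real.exp (-(t ^ 2) / (2 * V)) := by
  have hre : ∀ i a x, |(Φ (Function.update a i x)).re - (Φ a).re| ≤ c i := by
    intro i a x
    rw [← Complex.sub_re]
    exact (Complex.abs_re_le_norm _).trans (hc i a x)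
  have him : ∀ i a x, |(Φ (Function.update a i x)).im - (Φ a).im| ≤ c i := by
    intro i a x
    rw [← Complex.sub_im]
    exact (Complex.abs_im_le_norm _).trans (hc i a x)
  have e1 := mcdiarmid_upper (fun a => (Φ a).re) c hre V hV hcV t ht
  have e2 := mcdiarmid_lower (fun a => (Φ a).re) c hre V hV hcV t ht
  have e3 := mcdiarmid_upper (fun a => (Φ a).im) c him V hV hcV t ht
  have e4 := mcdiarmid_lower (fun a => (Φ a).im) c him V hV hcV t ht
  rw [h1] at e1 e2
  rw [h2] at e3 e4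
  calc pr (fun a => 2 * t ^ 2 < ‖Φ a‖ ^ 2)
      ≤ pr (fun a => ((0 + t ≤ (Φ a).re) ∨ ((Φ a).re ≤ 0 - t)) ∨
          ((0 + t ≤ (Φ a).im) ∨ ((Φ a).im ≤ 0 - t))) := by
        refine pr_mono fun a ha => ?_
        by_contra hcon
        push Not at hcon
        obtain ⟨⟨h3, h4⟩, h5, h6⟩ := hcon
        rw [← Complex.normSq_eq_norm_sq, Complex.normSq_apply] at ha
        nlinarith
    _ ≤ _ := pr_or_le _ _
    _ ≤ _ := add_le_add (pr_or_le _ _) (pr_or_le _ _)
    _ ≤ _ := by linarith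

end Cover
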