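import Pool.Agent.Cover.Family

/-!
Second moments of degrees in the family of tuples.
-/

namespace Cover

open Finset
open scoped Classical

set_option linter.unusedSectionVars false

variable {G : Type*} [AddCommGroup G] [Fintype G] {J k : ℕ}

lemma map_erase_emb (φ : Fin J ↪ Fin k) (l0 : Fin J) :
    (univ.map φ).erase (φ l0) = (univ.erase l0).map φ := by
  ext i
  simp only [Finset.mem_erase, Finset.mem_map, Finset.mem_univ, true_and, and_true]
  constructor
  · rintro ⟨h, l, rfl⟩
    exact ⟨l, fun hl => h (by rw [hl]), rfl⟩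
  · rintro ⟨l, hl, rfl⟩
    exact ⟨fun h => hl (φ.injective h), l, rfl⟩

lemma pr_pair [Nonempty G] (S : Fin J → Finset G) (t t' : G × (Fin J ↪ Fin k)) :
    pr (fun a : Fin k → G => (∀ i, a i ∈ tC S t i) ∧ ∀ i, a i ∈ tC S t' i) =
      ∏ i, ((tC S t i ∩ tC S t' i).card : ℝ) / (Fintype.card G : ℝ) := by
  rw [← pr_pi (fun i => tC S t i ∩ tC S t' i)]
  congr 1
  funext a
  simp [Finset.mem_inter, forall_and]

lemma card_tC_le_of_mem (S : Fin J → Finset G) (m : ℝ) (hm : ∀ l, ((S l).card : ℝ) ≤ m)
    (t : G × (Fin J ↪ Fin k)) (i : Fin k) (hi : i ∈ univ.map t.2) :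
    ((tC S t i).card : ℝ) ≤ m := by
  rw [Finset.mem_map] at hi
  obtain ⟨l, _, rfl⟩ := hi
  rw [card_tC_apply]
  exact hm l

lemma card_tC_inter_of_mem (S : Fin J → Finset G) (x x' : G) (φ φ' : Fin J ↪ Fin k)
    (l l' : Fin J) (h : φ l = φ' l') :
    (tC S (x, φ) (φ l) ∩ tC S (x', φ') (φ l)).card = rho S l l' x x' := by
  unfold rho
  congr 1
  ext g
  rw [Finset.mem_inter]
  have h1 := mem_tC_apply S (x, φ) l g
  have h2 := mem_tC_apply S (x', φ') l' g
  simp only at h1 h2
  rw [h1, h, h2]
  simp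

lemma pair_ne [Nonempty G] (S : Fin J → Finset G) (m κ : ℝ) (hm0 : 0 < m)
    (hm : ∀ l, ((S l).card : ℝ) ≤ m)
    (hκ : ∀ l l' x x', x ≠ x' → (rho S l l' x x' : ℝ) ≤ κ) (x x' : G) (hx : x ≠ x')
    (φ φ' : Fin J ↪ Fin k) (l0 l0' : Fin J) (h0 : φ l0 = φ' l0') :
    pr (fun a : Fin k → G => (∀ i, a i ∈ tC S (x, φ) i) ∧ ∀ i, a i ∈ tC S (x', φ') i) ≤
      ((rho S l0 l0' x x' : ℝ) / (Fintype.card G : ℝ)) * (m / Fintype.card G) ^ (J - 1) *
        ∏ l' ∈ univ.erase l0', (if φ' l' ∈ univ.map φ then κ / m else m / Fintype.card G) := by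
  have hn : (0 : ℝ) < (Fintype.card G : ℝ) := by exact_mod_cast Fintype.card_pos
  have hκ0 : 0 ≤ κ := le_trans (by positivity) (hκ l0 l0 x x' hx)
  set n : ℝ := (Fintype.card G : ℝ) with hn_def
  set R : Finset (Fin k) := univ.map φ with hR
  set R' : Finset (Fin k) := univ.map φ' with hR'
  set i0 := φ l0 with hi0
  have hp : 0 ≤ m / n := by positivity
  set w : Fin k → ℝ := fun j => if j ∈ R then κ / m else m / n with hw
  rw [pr_pair]
  have hb : ∀ i, ((tC S (x, φ) i ∩ tC S (x', φ') i).card : ℝ) / n ≤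
      ((if i = i0 then (rho S l0 l0' x x' : ℝ) / n else 1) *
        (if i ∈ R.erase i0 then m / n else 1)) * (if i ∈ R'.erase i0 then w i else 1) := by
    intro i
    by_cases hi : i = i0
    · subst hi
      have h1 := card_tC_inter_of_mem S x x' φ φ' l0 l0' h0
      rw [h1]
      simp
    · have hle1 : ((tC S (x, φ) i ∩ tC S (x', φ') i).card : ℝ) ≤ ((tC S (x, φ) i).card : ℝ) := by
        exact_mod_cast Finset.card_le_card Finset.inter_subset_left
      have hle2 : ((tC S (x, φ) i ∩ tC S (x', φ') i).card : ℝ) ≤ ((tC S (x', φ') i).card : ℝ) := by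
        exact_mod_cast Finset.card_le_card Finset.inter_subset_right
      by_cases hiR : i ∈ R
      · by_cases hiR' : i ∈ R'
        · obtain ⟨l, _, hl⟩ := Finset.mem_map.mp hiR
          obtain ⟨l', _, hl'⟩ := Finset.mem_map.mp hiR'
          have h2 := card_tC_inter_of_mem S x x' φ φ' l l' (by rw [hl, hl'])
          rw [hl] at h2
          rw [h2]
          simp only [hi, if_false, Finset.mem_erase, ne_eq, not_false_eq_true, hiR, and_self,
            if_true, hiR', one_mul, hw]
          calc (rho S l l' x x' : ℝ) / n ≤ κ / n := by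
                gcongr
                exact hκ l l' x x' hx
            _ = m / n * (κ / m) := by field_simp
        · have h3 := card_tC_le_of_mem S m hm (x, φ) i hiR
          simp only [hi, if_false, Finset.mem_erase, ne_eq, not_false_eq_true, hiR, and_self,
            if_true, hiR', and_false, one_mul, mul_one]
          gcongr
          exact hle1.trans h3
      · by_cases hiR' : i ∈ R'
        · have h3 := card_tC_le_of_mem S m hm (x', φ') i hiR'
          simp only [hi, if_false, Finset.mem_erase, ne_eq, not_false_eq_true, hiR, and_false,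
            if_true, hiR', and_self, one_mul, hw]
          gcongr
          exact hle2.trans h3
        · simp only [hi, if_false, Finset.mem_erase, ne_eq, not_false_eq_true, hiR, and_false,
            hiR', mul_one]
          rw [div_le_one hn, hn_def]
          exact_mod_cast Finset.card_le_univ _
  calc ∏ i, ((tC S (x, φ) i ∩ tC S (x', φ') i).card : ℝ) / n
      ≤ ∏ i, (((if i = i0 then (rho S l0 l0' x x' : ℝ) / n else 1) *
        (if i ∈ R.erase i0 then m / n else 1)) * (if i ∈ R'.erase i0 then w i else 1)) :=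
        Finset.prod_le_prod (fun i _ => by positivity) (fun i _ => hb i)
    _ = (rho S l0 l0' x x' : ℝ) / n * (m / n) ^ (J - 1) *
          ∏ l' ∈ univ.erase l0', w (φ' l') := by
        rw [Finset.prod_mul_distrib, Finset.prod_mul_distrib]
        congr 1
        · congr 1
          · simp
          · rw [Finset.prod_ite_mem, Finset.univ_inter, Finset.prod_const]
            congr 1
            rw [hi0, hR, map_erase_emb, Finset.card_map, Finset.card_erase_of_mem
              (Finset.mem_univ _)]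
            simp
        · rw [Finset.prod_ite_mem, Finset.univ_inter]
          have : R'.erase i0 = (univ.erase l0').map φ' := by
            rw [h0, hR', map_erase_emb]
          rw [this, Finset.prod_map]

lemma pair_eq [Nonempty G] (S : Fin J → Finset G) (m : ℝ) (hm0 : 0 < m)
    (hm : ∀ l, ((S l).card : ℝ) ≤ m) (x : G) (φ φ' : Fin J ↪ Fin k) :
    pr (fun a : Fin k → G => (∀ i, a i ∈ tC S (x, φ) i) ∧ ∀ i, a i ∈ tC S (x, φ') i) ≤
      (m / Fintype.card G) ^ J *
        ∏ l', (if φ' l' ∈ univ.map φ then 1 else m / Fintype.card G) := by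
  have hn : (0 : ℝ) < (Fintype.card G : ℝ) := by exact_mod_cast Fintype.card_pos
  set n : ℝ := (Fintype.card G : ℝ) with hn_def
  set R : Finset (Fin k) := univ.map φ with hR
  set R' : Finset (Fin k) := univ.map φ' with hR'
  have hp : 0 ≤ m / n := by positivity
  set w : Fin k → ℝ := fun j => if j ∈ R then 1 else m / n with hw
  rw [pr_pair]
  have hb : ∀ i, ((tC S (x, φ) i ∩ tC S (x, φ') i).card : ℝ) / n ≤
      (if i ∈ R then m / n else 1) * (if i ∈ R' then w i else 1) := by
    intro i
    have hle1 : ((tC S (x, φ) i ∩ tC S (x, φ') i).card : ℝ) ≤ ((tC S (x, φ) i).card : ℝ) := by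
      exact_mod_cast Finset.card_le_card Finset.inter_subset_left
    have hle2 : ((tC S (x, φ) i ∩ tC S (x, φ') i).card : ℝ) ≤ ((tC S (x, φ') i).card : ℝ) := by
      exact_mod_cast Finset.card_le_card Finset.inter_subset_right
    by_cases hiR : i ∈ R
    · have h3 := card_tC_le_of_mem S m hm (x, φ) i hiR
      have h4 : ((tC S (x, φ) i ∩ tC S (x, φ') i).card : ℝ) / n ≤ m / n := by
        gcongr
        exact hle1.trans h3
      by_cases hiR' : i ∈ R'
      · simpa [hiR, hiR', hw] using h4
      · simpa [hiR, hiR', hw] using h4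
    · by_cases hiR' : i ∈ R'
      · have h3 := card_tC_le_of_mem S m hm (x, φ') i hiR'
        have h4 : ((tC S (x, φ) i ∩ tC S (x, φ') i).card : ℝ) / n ≤ m / n := by
          gcongr
          exact hle2.trans h3
        simpa [hiR, hiR', hw] using h4
      · simp only [hiR, if_false, hiR', mul_one]
        rw [div_le_one hn, hn_def]
        exact_mod_cast Finset.card_le_univ _
  calc ∏ i, ((tC S (x, φ) i ∩ tC S (x, φ') i).card : ℝ) / n
      ≤ ∏ i, ((if i ∈ R then m / n else 1) * (if i ∈ R' then w i else 1)) :=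
        Finset.prod_le_prod (fun i _ => by positivity) (fun i _ => hb i)
    _ = (m / n) ^ J * ∏ l', w (φ' l') := by
        rw [Finset.prod_mul_distrib]
        congr 1
        · rw [Finset.prod_ite_mem, Finset.univ_inter, Finset.prod_const]
          congr 1
          rw [hR, Finset.card_map]
          simp
        · rw [Finset.prod_ite_mem, Finset.univ_inter, hR', Finset.prod_map]

lemma sum_w_le (φ : Fin J ↪ Fin k) (u p : ℝ) (hp : 0 ≤ p) :
    ∑ j : Fin k, (if j ∈ univ.map φ then u else p) ≤ k * p + J * u := by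
  have h1 : ∀ j : Fin k, (if j ∈ univ.map φ then u else p) ≤
      (if j ∈ univ.map φ then u else 0) + p := by
    intro j
    split_ifs
    · linarith
    · linarith
  calc ∑ j : Fin k, (if j ∈ univ.map φ then u else p)
      ≤ ∑ j : Fin k, ((if j ∈ univ.map φ then u else 0) + p) := Finset.sum_le_sum fun j _ => h1 j
    _ = k * p + J * u := by
        rw [Finset.sum_add_distrib, Finset.sum_ite_mem, Finset.univ_inter]
        simp
        ring

lemma card_emb_le : ((Fintype.card (Fin J ↪ Fin k) : ℕ) : ℝ) ≤ (k : ℝ) ^ J := by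
  rw [Fintype.card_embedding_eq]
  simp only [Fintype.card_fin]
  exact_mod_cast Nat.descFactorial_le_pow k J

/-- Pairs of tuples sharing a coordinate. -/
lemma sum_pairs_le [Nonempty G] (S : Fin J → Finset G) (m κ : ℝ) (hm0 : 0 < m) (hκ0 : 0 ≤ κ)
    (hm : ∀ l, ((S l).card : ℝ) ≤ m)
    (hκ : ∀ l l' x x', x ≠ x' → (rho S l l' x x' : ℝ) ≤ κ) (l0 l0' : Fin J) :
    ∑ t : G × (Fin J ↪ Fin k), ∑ t' : G × (Fin J ↪ Fin k), (if t.2 l0 = t'.2 l0' then
      pr (fun a : Fin k → G => (∀ i, a i ∈ tC S t i) ∧ ∀ i, a i ∈ tC S t' i) else 0) ≤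
      m ^ 2 * k ^ J * (m / Fintype.card G) ^ (J - 1) *
        (k * (m / Fintype.card G) + J * (κ / m)) ^ (J - 1) +
      Fintype.card G * k ^ J * (m / Fintype.card G) ^ J *
        (k * (m / Fintype.card G) + J) ^ (J - 1) := by
  have hn : (0 : ℝ) < (Fintype.card G : ℝ) := by exact_mod_cast Fintype.card_pos
  set n : ℝ := (Fintype.card G : ℝ) with hn_def
  set p : ℝ := m / n with hp_def
  have hp : 0 ≤ p := by positivity
  have hkm : 0 ≤ κ / m := by positivity
  set A : ℝ := k * p + J * (κ / m) with hA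
  set B : ℝ := k * p + J with hB
  have hA0 : 0 ≤ A := by positivity
  have hB0 : 0 ≤ B := by positivity
  -- bound for a fixed first tuple and a fixed second point
  have key : ∀ x x' : G, ∀ φ : Fin J ↪ Fin k,
      ∑ φ' : Fin J ↪ Fin k, (if φ l0 = φ' l0' then
        pr (fun a : Fin k → G => (∀ i, a i ∈ tC S (x, φ) i) ∧ ∀ i, a i ∈ tC S (x', φ') i)
        else 0) ≤ (rho S l0 l0' x x' : ℝ) / n * p ^ (J - 1) * A ^ (J - 1) +
          (if x = x' then p ^ J * B ^ (J - 1) else 0) := by
    intro x x' φ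
    by_cases hx : x = x'
    · subst hx
      have h1 : ∀ φ' : Fin J ↪ Fin k, (if φ l0 = φ' l0' then
        pr (fun a : Fin k → G => (∀ i, a i ∈ tC S (x, φ) i) ∧ ∀ i, a i ∈ tC S (x, φ') i)
        else 0) ≤ p ^ J * (if φ' l0' = φ l0 then
          ∏ l' ∈ univ.erase l0', (if φ' l' ∈ univ.map φ then 1 else p) else 0) := by
        intro φ'
        by_cases h : φ l0 = φ' l0'
        · rw [if_pos h, if_pos h.symm]
          refine (pair_eq S m hm0 hm x φ φ').trans (le_of_eq ?_)
          congr 1
          rw [← Finset.mul_prod_erase univ _ (Finset.mem_univ l0')]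
          have : φ' l0' ∈ univ.map φ := by
            rw [← h]; simp
          rw [if_pos this, one_mul]
        · rw [if_neg h, if_neg (fun h' => h h'.symm), mul_zero]
      calc _ ≤ ∑ φ' : Fin J ↪ Fin k, p ^ J * (if φ' l0' = φ l0 then
          ∏ l' ∈ univ.erase l0', (if φ' l' ∈ univ.map φ then 1 else p) else 0) :=
            Finset.sum_le_sum fun φ' _ => h1 φ'
        _ = p ^ J * ∑ φ' : Fin J ↪ Fin k, (if φ' l0' = φ l0 then
          ∏ l' ∈ univ.erase l0', (if φ' l' ∈ univ.map φ then 1 else p) else 0) := by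
            rw [Finset.mul_sum]
        _ ≤ p ^ J * (∑ j : Fin k, (if j ∈ univ.map φ then (1 : ℝ) else p)) ^ (J - 1) := by
            gcongr
            exact sum_emb_fixed_le (fun j => if j ∈ univ.map φ then (1 : ℝ) else p)
              (fun j => by split_ifs <;> first | exact hp | norm_num) l0' (φ l0)
        _ ≤ p ^ J * B ^ (J - 1) := by
            have hsum := sum_w_le φ 1 p hp
            have : 0 ≤ ∑ j : Fin k, (if j ∈ univ.map φ then (1 : ℝ) else p) :=
              Finset.sum_nonneg fun j _ => by split_ifs <;> first | exact hp | norm_num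
            gcongr
            rw [hB]
            simpa using hsum
        _ ≤ _ := by
            rw [if_pos rfl]
            have : 0 ≤ (rho S l0 l0' x x : ℝ) / n * p ^ (J - 1) * A ^ (J - 1) := by positivity
            linarith
    · rw [if_neg hx, add_zero]
      set w : Fin k → ℝ := fun j => if j ∈ univ.map φ then κ / m else p with hw
      have hw0 : ∀ j, 0 ≤ w j := fun j => by
        simp only [hw]
        split_ifs
        · exact hkm
        · exact hp
      have h1 : ∀ φ' : Fin J ↪ Fin k, (if φ l0 = φ' l0' then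
        pr (fun a : Fin k → G => (∀ i, a i ∈ tC S (x, φ) i) ∧ ∀ i, a i ∈ tC S (x', φ') i)
        else 0) ≤ ((rho S l0 l0' x x' : ℝ) / n * p ^ (J - 1)) * (if φ' l0' = φ l0 then
          ∏ l' ∈ univ.erase l0', w (φ' l') else 0) := by
        intro φ'
        by_cases h : φ l0 = φ' l0'
        · rw [if_pos h, if_pos h.symm]
          exact pair_ne S m κ hm0 hm hκ x x' hx φ φ' l0 l0' h
        · rw [if_neg h, if_neg (fun h' => h h'.symm), mul_zero]
      calc _ ≤ ∑ φ' : Fin J ↪ Fin k, ((rho S l0 l0' x x' : ℝ) / n * p ^ (J - 1)) *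
            (if φ' l0' = φ l0 then ∏ l' ∈ univ.erase l0', w (φ' l') else 0) :=
            Finset.sum_le_sum fun φ' _ => h1 φ'
        _ = ((rho S l0 l0' x x' : ℝ) / n * p ^ (J - 1)) * ∑ φ' : Fin J ↪ Fin k,
            (if φ' l0' = φ l0 then ∏ l' ∈ univ.erase l0', w (φ' l') else 0) := by
            rw [Finset.mul_sum]
        _ ≤ ((rho S l0 l0' x x' : ℝ) / n * p ^ (J - 1)) * (∑ j, w j) ^ (J - 1) := by
            gcongr
            exact sum_emb_fixed_le w hw0 l0' (φ l0)
        _ ≤ ((rho S l0 l0' x x' : ℝ) / n * p ^ (J - 1)) * A ^ (J - 1) := by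
            have hsum := sum_w_le φ (κ / m) p hp
            have : 0 ≤ ∑ j : Fin k, w j := Finset.sum_nonneg fun j _ => hw0 j
            gcongr
  rw [Fintype.sum_prod_type]
  calc ∑ x : G, ∑ φ : Fin J ↪ Fin k, ∑ t' : G × (Fin J ↪ Fin k), (if φ l0 = t'.2 l0' then
      pr (fun a : Fin k → G => (∀ i, a i ∈ tC S (x, φ) i) ∧ ∀ i, a i ∈ tC S t' i) else 0)
      = ∑ x : G, ∑ φ : Fin J ↪ Fin k, ∑ x' : G, ∑ φ' : Fin J ↪ Fin k,
        (if φ l0 = φ' l0' then
        pr (fun a : Fin k → G => (∀ i, a i ∈ tC S (x, φ) i) ∧ ∀ i, a i ∈ tC S (x', φ') i)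
        else 0) := by
        refine Finset.sum_congr rfl fun x _ => Finset.sum_congr rfl fun φ _ => ?_
        rw [Fintype.sum_prod_type]
    _ ≤ ∑ x : G, ∑ _φ : Fin J ↪ Fin k, ∑ x' : G,
          ((rho S l0 l0' x x' : ℝ) / n * p ^ (J - 1) * A ^ (J - 1) +
          (if x = x' then p ^ J * B ^ (J - 1) else 0)) :=
        Finset.sum_le_sum fun x _ => Finset.sum_le_sum fun φ _ =>
          Finset.sum_le_sum fun x' _ => key x x' φ
    _ = (Fintype.card (Fin J ↪ Fin k) : ℝ) * ∑ x : G, ∑ x' : G,
          ((rho S l0 l0' x x' : ℝ) / n * p ^ (J - 1) * A ^ (J - 1) +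
          (if x = x' then p ^ J * B ^ (J - 1) else 0)) := by
        simp only [Finset.sum_const, Finset.card_univ, nsmul_eq_mul]
        rw [Finset.mul_sum]
    _ = (Fintype.card (Fin J ↪ Fin k) : ℝ) * ((((S l0).card : ℝ) * ((S l0').card : ℝ)) *
          p ^ (J - 1) * A ^ (J - 1) + n * (p ^ J * B ^ (J - 1))) := by
        congr 1
        simp_rw [Finset.sum_add_distrib]
        congr 1
        · have h2 : ∑ x : G, ∑ x' : G, (rho S l0 l0' x x' : ℝ) =
              n * (((S l0).card : ℝ) * ((S l0').card : ℝ)) := by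
            have := sum_rho S l0 l0'
            rw [hn_def]
            exact_mod_cast this
          simp_rw [← Finset.sum_mul, ← Finset.sum_div]
          rw [h2]
          field_simp
        · simp [hn_def]
    _ ≤ (k : ℝ) ^ J * ((m * m) * p ^ (J - 1) * A ^ (J - 1) + n * (p ^ J * B ^ (J - 1))) := by
        have hm1 := hm l0
        have hm2 := hm l0'
        gcongr
        exact card_emb_le
    _ = _ := by ring

/-- Sum of the second moments of the coordinate degrees. -/
lemma sum_degI_sq_le [Nonempty G] (S : Fin J → Finset G) (m κ : ℝ) (hm0 : 0 < m) (hκ0 : 0 ≤ κ)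
    (hm : ∀ l, ((S l).card : ℝ) ≤ m)
    (hκ : ∀ l l' x x', x ≠ x' → (rho S l l' x x' : ℝ) ≤ κ) :
    ∑ i : Fin k, av (fun a : Fin k → G => (degI tsupp (tC S) a i : ℝ) ^ 2) ≤
      J ^ 2 * (m ^ 2 * k ^ J * (m / Fintype.card G) ^ (J - 1) *
        (k * (m / Fintype.card G) + J * (κ / m)) ^ (J - 1) +
      Fintype.card G * k ^ J * (m / Fintype.card G) ^ J *
        (k * (m / Fintype.card G) + J) ^ (J - 1)) := by
  have hdeg : ∀ (a : Fin k → G) (i : Fin k), (degI tsupp (tC S) a i : ℝ) =
      ∑ t : G × (Fin J ↪ Fin k), ∑ l : Fin J,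
        (if ∀ j, a j ∈ tC S t j then (1 : ℝ) else 0) * (if t.2 l = i then 1 else 0) := by
    intro a i
    unfold degI Occ
    rw [Finset.filter_filter, Finset.card_filter]
    push_cast
    refine Finset.sum_congr rfl fun t _ => ?_
    by_cases h1 : ∀ j, a j ∈ tC S t j
    · by_cases h2 : i ∈ tsupp t
      · obtain ⟨l, hl⟩ := mem_tsupp.mp h2
        rw [Finset.sum_eq_single l]
        · simp [h1, h2, hl]
        · intro l' _ hl'
          have : t.2 l' ≠ i := by
            intro h
            apply hl'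
            apply t.2.injective
            rw [h, hl]
          simp [this]
        · simp
      · have : ∀ l, t.2 l ≠ i := fun l hl => h2 (mem_tsupp.mpr ⟨l, hl⟩)
        simp [h2, this]
    · simp [h1]
  have hsq : ∀ a : Fin k → G, ∑ i, (degI tsupp (tC S) a i : ℝ) ^ 2 =
      ∑ l0 : Fin J, ∑ l0' : Fin J, ∑ t : G × (Fin J ↪ Fin k), ∑ t' : G × (Fin J ↪ Fin k),
        (if t.2 l0 = t'.2 l0' then
          (if (∀ j, a j ∈ tC S t j) ∧ (∀ j, a j ∈ tC S t' j) then (1 : ℝ) else 0) else 0) := by
    intro a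
    have h1 : ∀ i, (degI tsupp (tC S) a i : ℝ) ^ 2 =
        ∑ t : G × (Fin J ↪ Fin k), ∑ l0 : Fin J, ∑ t' : G × (Fin J ↪ Fin k), ∑ l0' : Fin J,
        ((if ∀ j, a j ∈ tC S t j then (1 : ℝ) else 0) * (if t.2 l0 = i then 1 else 0)) *
        ((if ∀ j, a j ∈ tC S t' j then (1 : ℝ) else 0) * (if t'.2 l0' = i then 1 else 0)) := by
      intro i
      rw [sq, hdeg a i, Finset.sum_mul]
      refine Finset.sum_congr rfl fun t _ => ?_
      rw [Finset.sum_mul]
      refine Finset.sum_congr rfl fun l0 _ => ?_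
      rw [Finset.mul_sum]
      refine Finset.sum_congr rfl fun t' _ => ?_
      rw [Finset.mul_sum]
    simp_rw [h1]
    -- move the sum over i inside
    rw [Finset.sum_comm]
    have h2 : ∀ t : G × (Fin J ↪ Fin k), ∑ i : Fin k, ∑ l0 : Fin J,
        ∑ t' : G × (Fin J ↪ Fin k), ∑ l0' : Fin J,
        ((if ∀ j, a j ∈ tC S t j then (1 : ℝ) else 0) * (if t.2 l0 = i then 1 else 0)) *
        ((if ∀ j, a j ∈ tC S t' j then (1 : ℝ) else 0) * (if t'.2 l0' = i then 1 else 0)) =
        ∑ l0 : Fin J, ∑ l0' : Fin J, ∑ t' : G × (Fin J ↪ Fin k),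
        (if t.2 l0 = t'.2 l0' then
          (if (∀ j, a j ∈ tC S t j) ∧ (∀ j, a j ∈ tC S t' j) then (1 : ℝ) else 0) else 0) := by
      intro t
      rw [Finset.sum_comm]
      refine Finset.sum_congr rfl fun l0 _ => ?_
      rw [Finset.sum_comm]
      rw [Finset.sum_comm (s := (univ : Finset (Fin J)))]
      refine Finset.sum_congr rfl fun t' _ => ?_
      rw [Finset.sum_comm]
      refine Finset.sum_congr rfl fun l0' _ => ?_
      by_cases hA : ∀ j, a j ∈ tC S t j
      · by_cases hB : ∀ j, a j ∈ tC S t' j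
        · by_cases hC : t.2 l0 = t'.2 l0'
          · simp [hA, hB, hC]
          · simp only [hA, hB, implies_true, if_true, one_mul, and_self, hC, if_false]
            refine Finset.sum_eq_zero fun i _ => ?_
            by_cases h3 : t.2 l0 = i
            · rw [if_pos h3, if_neg (fun h4 => hC (h3.trans h4.symm))]
              simp
            · rw [if_neg h3]; simp
        · simp [hB]
      · simp [hA]
    simp_rw [h2]
    rw [Finset.sum_comm]
    refine Finset.sum_congr rfl fun l0 _ => ?_
    rw [Finset.sum_comm]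
  calc ∑ i : Fin k, av (fun a : Fin k → G => (degI tsupp (tC S) a i : ℝ) ^ 2)
      = av (fun a : Fin k → G => ∑ i, (degI tsupp (tC S) a i : ℝ) ^ 2) := by rw [av_sum]
    _ = ∑ l0 : Fin J, ∑ l0' : Fin J, ∑ t : G × (Fin J ↪ Fin k), ∑ t' : G × (Fin J ↪ Fin k),
        (if t.2 l0 = t'.2 l0' then
          pr (fun a : Fin k → G => (∀ j, a j ∈ tC S t j) ∧ (∀ j, a j ∈ tC S t' j)) else 0) := by
        simp_rw [hsq]
        rw [av_sum]
        refine Finset.sum_congr rfl fun l0 _ => ?_
        rw [av_sum]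
        refine Finset.sum_congr rfl fun l0' _ => ?_
        rw [av_sum]
        refine Finset.sum_congr rfl fun t _ => ?_
        rw [av_sum]
        refine Finset.sum_congr rfl fun t' _ => ?_
        by_cases hC : t.2 l0 = t'.2 l0'
        · simp only [hC, if_true]
          rw [pr_eq_ite]
        · simp only [hC, if_false]
          exact av_const 0
    _ ≤ ∑ _l0 : Fin J, ∑ _l0' : Fin J, (m ^ 2 * k ^ J * (m / Fintype.card G) ^ (J - 1) *
        (k * (m / Fintype.card G) + J * (κ / m)) ^ (J - 1) +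
      Fintype.card G * k ^ J * (m / Fintype.card G) ^ J *
        (k * (m / Fintype.card G) + J) ^ (J - 1)) :=
        Finset.sum_le_sum fun l0 _ => Finset.sum_le_sum fun l0' _ =>
          sum_pairs_le S m κ hm0 hκ0 hm hκ l0 l0'
    _ = _ := by
        simp only [Finset.sum_const, Finset.card_univ, Fintype.card_fin, nsmul_eq_mul]
        ring

/-- Sum of the second moments of the point degrees. -/
lemma sum_degV_sq_le [Nonempty G] (S : Fin J → Finset G) (m : ℝ) (hm0 : 0 < m)
    (hm : ∀ l, ((S l).card : ℝ) ≤ m) :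
    ∑ x : G, av (fun a : Fin k → G =>
      (degV (fun t : G × (Fin J ↪ Fin k) => t.1) (tC S) a x : ℝ) ^ 2) ≤
      Fintype.card G * k ^ J * (m / Fintype.card G) ^ J *
        (k * (m / Fintype.card G) + J) ^ J := by
  have hn : (0 : ℝ) < (Fintype.card G : ℝ) := by exact_mod_cast Fintype.card_pos
  set n : ℝ := (Fintype.card G : ℝ) with hn_def
  set p : ℝ := m / n with hp_def
  have hp : 0 ≤ p := by positivity
  have hdeg : ∀ (a : Fin k → G) (x : G),
      (degV (fun t : G × (Fin J ↪ Fin k) => t.1) (tC S) a x : ℝ) =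
      ∑ φ : Fin J ↪ Fin k, (if ∀ j, a j ∈ tC S (x, φ) j then (1 : ℝ) else 0) := by
    intro a x
    unfold degV Occ
    rw [Finset.filter_filter, Finset.card_filter, Fintype.sum_prod_type]
    push_cast
    rw [Finset.sum_eq_single x]
    · simp
    · intro y _ hy
      simp [hy]
    · simp
  have key : ∀ x : G, av (fun a : Fin k → G =>
      (degV (fun t : G × (Fin J ↪ Fin k) => t.1) (tC S) a x : ℝ) ^ 2) ≤
      k ^ J * p ^ J * (k * p + J) ^ J := by
    intro x
    have h1 : ∀ a : Fin k → G, (degV (fun t : G × (Fin J ↪ Fin k) => t.1) (tC S) a x : ℝ) ^ 2 =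
        ∑ φ : Fin J ↪ Fin k, ∑ φ' : Fin J ↪ Fin k,
          (if (∀ j, a j ∈ tC S (x, φ) j) ∧ (∀ j, a j ∈ tC S (x, φ') j) then (1 : ℝ) else 0) := by
      intro a
      rw [sq, hdeg, Finset.sum_mul]
      refine Finset.sum_congr rfl fun φ _ => ?_
      rw [Finset.mul_sum]
      refine Finset.sum_congr rfl fun φ' _ => ?_
      by_cases h1 : ∀ j, a j ∈ tC S (x, φ) j <;> by_cases h2 : ∀ j, a j ∈ tC S (x, φ') j <;>
        simp [h1, h2]
    simp_rw [h1]
    rw [av_sum]
    calc ∑ φ : Fin J ↪ Fin k, av (fun a : Fin k → G => ∑ φ' : Fin J ↪ Fin k,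
          (if (∀ j, a j ∈ tC S (x, φ) j) ∧ (∀ j, a j ∈ tC S (x, φ') j) then (1 : ℝ) else 0))
        ≤ ∑ _φ : Fin J ↪ Fin k, p ^ J * (k * p + J) ^ J := by
          refine Finset.sum_le_sum fun φ _ => ?_
          rw [av_sum]
          calc _ ≤ ∑ φ' : Fin J ↪ Fin k, p ^ J *
                ∏ l', (if φ' l' ∈ univ.map φ then 1 else p) := by
                refine Finset.sum_le_sum fun φ' _ => ?_
                refine le_trans (le_of_eq ?_) (pair_eq S m hm0 hm x φ φ')
                rw [pr_eq_ite]
            _ = p ^ J * ∑ φ' : Fin J ↪ Fin k,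
                ∏ l', (if φ' l' ∈ univ.map φ then 1 else p) := by rw [Finset.mul_sum]
            _ ≤ p ^ J * (∑ j : Fin k, (if j ∈ univ.map φ then (1 : ℝ) else p)) ^ J := by
                gcongr
                exact sum_emb_pow_le (fun j => if j ∈ univ.map φ then (1 : ℝ) else p)
                  (fun j => by split_ifs <;> first | exact hp | norm_num)
            _ ≤ p ^ J * (k * p + J) ^ J := by
                have hsum := sum_w_le φ 1 p hp
                have : 0 ≤ ∑ j : Fin k, (if j ∈ univ.map φ then (1 : ℝ) else p) :=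
                  Finset.sum_nonneg fun j _ => by split_ifs <;> first | exact hp | norm_num
                gcongr
                simpa using hsum
      _ = (Fintype.card (Fin J ↪ Fin k) : ℝ) * (p ^ J * (k * p + J) ^ J) := by
          simp
      _ ≤ (k : ℝ) ^ J * (p ^ J * (k * p + J) ^ J) := by
          gcongr
          exact card_emb_le
      _ = _ := by ring
  calc _ ≤ ∑ _x : G, (k : ℝ) ^ J * p ^ J * (k * p + J) ^ J := Finset.sum_le_sum fun x _ => key x
    _ = _ := by
        rw [Finset.sum_const, Finset.card_univ, nsmul_eq_mul]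
        ring

end Cover
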