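import Pool.Agent.Cover.ProbU

/-!
Numerical conditions for the lower bound.
-/

namespace Cover

open Filter

/-- Bound for the number of points of high degree. -/
noncomputable def HiB (j C' : ℕ) (n k q : ℝ) : ℝ :=
  (k ^ 2 * (C' * k) ^ 2 / n + 16 * k * q * (C' * k)) / (q ^ (j + 1)) ^ 2

/-- The constant in the bound. -/
noncomputable def DA (j : ℕ) (c : ℝ) : ℝ := 9 * c ^ 2 * ((3 * c) ^ j * (3 * c + j) ^ j)

lemma HiB_le (j C' : ℕ) (hj : 1 ≤ j) (n k q : ℝ) (hC : 1 ≤ (C' : ℝ)) (hq : 1 ≤ q) (hk : 0 < k)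
    (hkn : k ^ 2 ≤ n) : q ^ 2 * (HiB j C' n k q * (2 * q) ^ j) ≤ 17 * C' ^ 2 * 2 ^ j * k ^ 2 := by
  have hn : 0 < n := lt_of_lt_of_le (by positivity) hkn
  have hq0 : 0 < q := by linarith
  unfold HiB
  have e1 : k ^ 2 * (C' * k) ^ 2 / n + 16 * k * q * (C' * k) ≤ 17 * C' ^ 2 * k ^ 2 * q := by
    have e2 : k ^ 2 * (C' * k) ^ 2 / n ≤ C' ^ 2 * k ^ 2 * q := by
      rw [div_le_iff₀ hn]
      calc k ^ 2 * (C' * k) ^ 2 = (C' : ℝ) ^ 2 * k ^ 2 * 1 * k ^ 2 := by ring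
        _ ≤ (C' : ℝ) ^ 2 * k ^ 2 * q * n := by gcongr
    have e3 : 16 * k * q * (C' * k) ≤ 16 * C' ^ 2 * k ^ 2 * q := by
      have : (C' : ℝ) ≤ C' ^ 2 := by nlinarith
      calc 16 * k * q * (C' * k) = 16 * C' * k ^ 2 * q := by ring
        _ ≤ _ := by gcongr
    linarith
  calc q ^ 2 * ((k ^ 2 * (C' * k) ^ 2 / n + 16 * k * q * (C' * k)) / (q ^ (j + 1)) ^ 2 *
        (2 * q) ^ j) ≤ q ^ 2 * ((17 * C' ^ 2 * k ^ 2 * q) / (q ^ (j + 1)) ^ 2 * (2 * q) ^ j) := by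
        gcongr
    _ = 17 * C' ^ 2 * 2 ^ j * k ^ 2 * (q ^ (j + 3) / (q ^ (j + 1)) ^ 2) := by
        rw [mul_pow]
        ring
    _ ≤ 17 * C' ^ 2 * 2 ^ j * k ^ 2 * 1 := by
        have : q ^ (j + 3) / (q ^ (j + 1)) ^ 2 ≤ 1 := by
          rw [div_le_one (by positivity), ← pow_mul]
          exact pow_le_pow_right₀ hq (by omega)
        gcongr
    _ = _ := mul_one _

lemma numL_real (j J C' : ℕ) (x k n θ ε H : ℝ) (hJ1 : 1 ≤ J) (hJj : J ≤ j)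
    (hC : 1 ≤ (C' : ℝ)) (hx : 1 ≤ x) (hk : 0 < k) (hkn : k ^ 2 ≤ n)
    (hε : 0 < ε) (hθ0 : 0 < θ) (hθx : θ * x ≤ 1) (hθ : 1 / θ ≤ 2 * x) (hH : 0 ≤ H)
    (h1 : 17 * (C' : ℝ) ^ 2 * 2 ^ j ≤ ε * x) (h2 : H * j * (C' + 1) ≤ ε * x)
    (h3 : 8 * x ^ 3 ≤ k) (h4 : 128 * j * x ^ 5 ≤ k)
    (h5 : (C' : ℝ) ^ j * (j + j ^ 2 * n ^ 2) * (2 * x) ^ j * Real.exp (-x) ≤ ε) :
    (4 * ε * θ ^ J * n) / θ ^ J + x * HiB j C' n k x / θ ^ J +
    (H * θ ^ J * k) * (J * (θ * ((C' + 1) * k))) / θ ^ J +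
    (n * (C' : ℝ) ^ J) * (J * Real.exp (-((θ * (C' * k)) ^ 2) / (2 * (C' * k))) +
        J ^ 2 * n ^ 2 * Real.exp (-((θ ^ 2 * (C' * k)) ^ 2) / (2 * (4 * J * (C' * k))))) / θ ^ J ≤
    (7 * ε) * n := by
  have hn : 0 < n := lt_of_lt_of_le (by positivity) hkn
  have hx0 : 0 < x := by linarith
  have hj1 : 1 ≤ j := hJ1.trans hJj
  have hJj' : (J : ℝ) ≤ j := by exact_mod_cast hJj
  have hJ0 : (0 : ℝ) < J := by exact_mod_cast hJ1
  have hC0 : (0 : ℝ) < C' := by linarith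
  have hθJ : 0 < θ ^ J := pow_pos hθ0 J
  have hΘ : 1 / θ ^ J ≤ (2 * x) ^ j := by
    have e1 : 1 / θ ^ J = (1 / θ) ^ J := by rw [div_pow, one_pow]
    rw [e1]
    have e2 : 0 ≤ 1 / θ := by positivity
    calc (1 / θ) ^ J ≤ (2 * x) ^ J := by gcongr
      _ ≤ (2 * x) ^ j := pow_le_pow_right₀ (by linarith) hJj
  have hHi0 : 0 ≤ HiB j C' n k x := by unfold HiB; positivity
  have t1 : (4 * ε * θ ^ J * n) / θ ^ J = 4 * (ε * n) := by
    field_simp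
  have t2 : x * HiB j C' n k x / θ ^ J ≤ ε * n := by
    have e1 : x * HiB j C' n k x / θ ^ J = x * HiB j C' n k x * (1 / θ ^ J) := by ring
    have e2 : x * HiB j C' n k x / θ ^ J ≤ x * HiB j C' n k x * (2 * x) ^ j := by
      rw [e1]; gcongr
    have e3 : x * HiB j C' n k x * (2 * x) ^ j * x ≤ ε * n * x := by
      calc x * HiB j C' n k x * (2 * x) ^ j * x
          = x ^ 2 * (HiB j C' n k x * (2 * x) ^ j) := by ring
        _ ≤ 17 * C' ^ 2 * 2 ^ j * k ^ 2 := HiB_le j C' hj1 n k x hC hx hk hkn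
        _ ≤ (ε * x) * n := by gcongr
        _ = _ := by ring
    exact e2.trans (le_of_mul_le_mul_right e3 hx0)
  have t3 : (H * θ ^ J * k) * (J * (θ * ((C' + 1) * k))) / θ ^ J ≤ ε * n := by
    have e1 : (H * θ ^ J * k) * (J * (θ * ((C' + 1) * k))) / θ ^ J =
        H * J * (C' + 1) * k ^ 2 * θ := by field_simp
    rw [e1]
    have e2 : H * J * (C' + 1) * k ^ 2 * θ * x ≤ ε * n * x := by
      calc H * J * (C' + 1) * k ^ 2 * θ * x = H * J * (C' + 1) * k ^ 2 * (θ * x) := by ring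
        _ ≤ H * j * (C' + 1) * n * 1 := by gcongr
        _ ≤ (ε * x) * n * 1 := by gcongr
        _ = _ := by ring
    exact le_of_mul_le_mul_right e2 hx0
  have hθ1 : 1 ≤ θ * (2 * x) := by
    rw [div_le_iff₀ hθ0] at hθ
    linarith
  have exp1 : Real.exp (-((θ * (C' * k)) ^ 2) / (2 * (C' * k))) ≤ Real.exp (-x) := by
    apply Real.exp_le_exp.mpr
    rw [neg_div]
    apply neg_le_neg
    have e3 : (θ * (C' * k)) ^ 2 / (2 * (C' * k)) = θ ^ 2 * (C' * k) / 2 := by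
      field_simp
    rw [e3]
    have e5 : 1 ≤ θ ^ 2 * (4 * x ^ 2) := by
      calc (1 : ℝ) = 1 ^ 2 := by norm_num
        _ ≤ (θ * (2 * x)) ^ 2 := by gcongr
        _ = _ := by ring
    have e6 : x * (4 * x ^ 2) ≤ (θ ^ 2 * (C' * k) / 2) * (4 * x ^ 2) := by
      have e7 : x * (4 * x ^ 2) ≤ k / 2 := by linarith
      have e9 : (θ ^ 2 * (C' * k) / 2) * (4 * x ^ 2) =
        (θ ^ 2 * (4 * x ^ 2)) * (C' * (k / 2)) := by ring
      have e10 : k / 2 ≤ C' * (k / 2) := by nlinarith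
      have e11 : 0 ≤ C' * (k / 2) := by positivity
      have e12 : 1 * (C' * (k / 2)) ≤ (θ ^ 2 * (4 * x ^ 2)) * (C' * (k / 2)) := by gcongr
      rw [e9]
      linarith
    exact le_of_mul_le_mul_right e6 (by positivity)
  have exp2 : Real.exp (-((θ ^ 2 * (C' * k)) ^ 2) / (2 * (4 * J * (C' * k)))) ≤
      Real.exp (-x) := by
    apply Real.exp_le_exp.mpr
    rw [neg_div]
    apply neg_le_neg
    have e3 : (θ ^ 2 * (C' * k)) ^ 2 / (2 * (4 * J * (C' * k))) = θ ^ 4 * (C' * k) / (8 * J) := by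
      field_simp
      ring
    rw [e3]
    have e5 : 1 ≤ θ ^ 4 * (16 * x ^ 4) := by
      calc (1 : ℝ) = 1 ^ 4 := by norm_num
        _ ≤ (θ * (2 * x)) ^ 4 := by gcongr
        _ = _ := by ring
    rw [le_div_iff₀ (by positivity)]
    have e6 : x * (8 * J) * (16 * x ^ 4) ≤ (θ ^ 4 * (C' * k)) * (16 * x ^ 4) := by
      have e7 : x * (8 * J) * (16 * x ^ 4) ≤ k := by
        calc x * (8 * J) * (16 * x ^ 4) = 128 * J * x ^ 5 := by ring
          _ ≤ 128 * j * x ^ 5 := by gcongr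
          _ ≤ k := h4
      have e9 : (θ ^ 4 * (C' * k)) * (16 * x ^ 4) =
        (θ ^ 4 * (16 * x ^ 4)) * (C' * k) := by ring
      have e10 : k ≤ C' * k := by nlinarith
      have e12 : 1 * (C' * k) ≤ (θ ^ 4 * (16 * x ^ 4)) * (C' * k) := by gcongr
      rw [e9]
      linarith
    exact le_of_mul_le_mul_right e6 (by positivity)
  have t4 : (n * (C' : ℝ) ^ J) * (J * Real.exp (-((θ * (C' * k)) ^ 2) / (2 * (C' * k))) +
        J ^ 2 * n ^ 2 * Real.exp (-((θ ^ 2 * (C' * k)) ^ 2) / (2 * (4 * J * (C' * k))))) /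
        θ ^ J ≤ ε * n := by
    calc (n * (C' : ℝ) ^ J) * (J * Real.exp (-((θ * (C' * k)) ^ 2) / (2 * (C' * k))) +
        J ^ 2 * n ^ 2 * Real.exp (-((θ ^ 2 * (C' * k)) ^ 2) / (2 * (4 * J * (C' * k))))) / θ ^ J
        = (n * (C' : ℝ) ^ J) * (J * Real.exp (-((θ * (C' * k)) ^ 2) / (2 * (C' * k))) +
        J ^ 2 * n ^ 2 * Real.exp (-((θ ^ 2 * (C' * k)) ^ 2) / (2 * (4 * J * (C' * k))))) *
        (1 / θ ^ J) := by ring
      _ ≤ (n * (C' : ℝ) ^ j) * (j * Real.exp (-x) + j ^ 2 * n ^ 2 * Real.exp (-x)) *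
          (2 * x) ^ j := by
          have : (C' : ℝ) ^ J ≤ (C' : ℝ) ^ j := pow_le_pow_right₀ hC hJj
          gcongr
      _ = ((C' : ℝ) ^ j * (j + j ^ 2 * n ^ 2) * (2 * x) ^ j * Real.exp (-x)) * n := by ring
      _ ≤ ε * n := by gcongr
  rw [t1]
  linarith

variable {ι : Type*} {F : Filter ι} {n k q : ι → ℕ} {E : ℕ}

lemma numL_ev {j : ℕ} (h : Env F n k q (EE0 j)) (C' : ℕ) (hC : 1 ≤ C') (ε H : ℝ) (hε : 0 < ε)
    (hH : 0 ≤ H) :
    ∀ᶠ i in F, ∀ J, 1 ≤ J → J ≤ j → NumL J C' (n i) (k i) (H * th (q i) ^ J * k i) (q i)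
      (4 * ε * th (q i) ^ J * n i) (th (q i)) (HiB j C' (n i) (k i) (q i)) (7 * ε) := by
  have hE : 0 < EE0 j := by unfold EE0; omega
  filter_upwards [h.q_ge 1, h.k_ge hE 1, h.sq_le, h.q_ge (17 * (C' : ℝ) ^ 2 * 2 ^ j / ε),
    h.q_ge (H * j * (C' + 1) / ε), h.mul_pow_le 8 3 (by unfold EE0; omega),
    h.mul_pow_le (128 * j) 5 (by unfold EE0; omega),
    h.mul_pow_le (2 ^ j) j (by unfold EE0; omega),
    h.exp_small hE ((C' : ℝ) ^ j * (j + j ^ 2)) 1 ε 3 one_pos hε]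
    with i g1 g2 g3 g4 g5 g6 g7 g8 g9
  intro J hJ1 hJj
  constructor
  have hq0 : (0 : ℝ) < q i := by linarith
  have hk0 : (0 : ℝ) < k i := by linarith
  have hkn : (k i : ℝ) ^ 2 ≤ n i := by exact_mod_cast g3
  have hC1 : (1 : ℝ) ≤ C' := by exact_mod_cast hC
  refine numL_real j J C' (q i) (k i) (n i) (th (q i)) ε H hJ1 hJj hC1 g1 hk0 hkn hε
    (th_pos _) (th_mul_le_one _) (th_inv_le _ _ le_rfl g1) hH ?_ ?_ g6 g7 ?_
  · rw [div_le_iff₀ hε] at g4; linarith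
  · rw [div_le_iff₀ hε] at g5; linarith
  · refine le_trans ?_ g9
    rw [one_mul]
    have hn1 : (1 : ℝ) ≤ n i := by nlinarith
    have e1 : (2 * (q i : ℝ)) ^ j ≤ n i + 1 := by
      rw [mul_pow]
      nlinarith
    have e2 : ((j : ℝ) + j ^ 2 * (n i : ℝ) ^ 2) ≤ (j + j ^ 2) * ((n i : ℝ) + 1) ^ 2 := by
      have a1 : (0 : ℝ) ≤ j := by positivity
      have a2 : (0 : ℝ) ≤ (j : ℝ) ^ 2 := by positivity
      have a3 : (1 : ℝ) ≤ ((n i : ℝ) + 1) ^ 2 := by nlinarith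
      have a4 : (n i : ℝ) ^ 2 ≤ ((n i : ℝ) + 1) ^ 2 := by nlinarith
      have a5 := mul_le_mul_of_nonneg_left a3 a1
      have a6 := mul_le_mul_of_nonneg_left a4 a2
      linarith
    calc (C' : ℝ) ^ j * (j + j ^ 2 * (n i : ℝ) ^ 2) * (2 * q i) ^ j * Real.exp (-(q i : ℝ))
        ≤ (C' : ℝ) ^ j * ((j + j ^ 2) * ((n i : ℝ) + 1) ^ 2) * (n i + 1) *
          Real.exp (-(q i : ℝ)) := by gcongr
      _ = _ := by ring

end Cover
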