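import Pool.Agent.Cover.Env
import Pool.Agent.Cover.Count

/-!
Numerical conditions for the upper bound.
-/

namespace Cover

open Filter

/-- Degree truncation. -/
def LL (j q : ℕ) : ℕ := q ^ (j + 1)
/-- `k / rhoP` is the threshold for rich differences. -/
def rhoP (j q : ℕ) : ℕ := q ^ (j ^ 3 + j ^ 2 + 2 * j + 1)
/-- Sampling parameter for the upper bound. -/
def NU (j q : ℕ) : ℕ := q ^ (j ^ 2 + 1)
/-- Number of deleted groups. -/
def rU (j q k : ℕ) : ℕ := k / q ^ (j ^ 2) + 1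
/-- Size of samples. -/
noncomputable def mm (C' k N : ℕ) : ℕ := ⌈2 * (th N * (C' * k))⌉₊

lemma numU_real (j J : ℕ) (c x k n r b θ ε : ℝ) (hJ1 : 1 ≤ J) (hJj : J ≤ j) (hc : 1 ≤ c)
    (hx : 1 ≤ x) (hk : 0 < k) (hkn : k ^ 2 ≤ n) (hε : 0 < ε)
    (hr0 : 0 ≤ r) (hr : r * x ^ (j ^ 2) ≤ 2 * k)
    (hb0 : 0 ≤ b) (hb : b * x ^ (j ^ 3 + j ^ 2 + 2 * j + 1) = k)
    (hθ0 : 0 < θ) (hθ : 1 / θ ≤ 2 * x ^ (j ^ 2 + 1))
    (h1 : 4 * j ^ 2 * c ≤ ε * x)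
    (h3 : j * 2 ^ j * x ^ (j ^ 3 + j ^ 2 + 2 * j) ≤ ε * k)
    (h4 : j ^ 2 * 2 ^ j ≤ ε * x)
    (h5 : 8 * x ^ (2 * j ^ 2 + 3) ≤ k)
    (h6 : (j * 2 ^ j * x ^ (j ^ 3 + j ^ 2 + 2 * j)) * Real.exp (-x) ≤ ε) :
    (ε * θ ^ J * n) / θ ^ J + r * J * (2 * (J * ((c * k) * (x ^ (j + 1)) ^ (J - 1)))) +
    k * (J * ((x ^ (j + 1)) ^ (J - 1) + J * (b * (x ^ (j + 1)) ^ (J - 2)))) / θ ^ J +
    (n * (x ^ (j + 1)) ^ J) * (J * Real.exp (-((θ * (c * k)) ^ 2) / (2 * (c * k)))) / θ ^ J ≤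
      (5 * ε) * n := by
  have hn : 0 < n := lt_of_lt_of_le (by positivity) hkn
  have hx0 : 0 < x := by linarith
  have hj1 : 1 ≤ j := hJ1.trans hJj
  have hJj' : (J : ℝ) ≤ j := by exact_mod_cast hJj
  have hL1 : 1 ≤ x ^ (j + 1) := one_le_pow₀ hx
  have hθJ : 0 < θ ^ J := pow_pos hθ0 J
  have hΘ : 1 / θ ^ J ≤ 2 ^ j * x ^ (j ^ 3 + j) := by
    have e1 : 1 / θ ^ J = (1 / θ) ^ J := by rw [div_pow, one_pow]
    rw [e1]
    have e2 : 0 ≤ 1 / θ := by positivity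
    calc (1 / θ) ^ J ≤ (2 * x ^ (j ^ 2 + 1)) ^ J := by gcongr
      _ ≤ (2 * x ^ (j ^ 2 + 1)) ^ j := by
          apply pow_le_pow_right₀ _ hJj
          have : 1 ≤ x ^ (j ^ 2 + 1) := one_le_pow₀ hx
          linarith
      _ = _ := by
          rw [mul_pow, ← pow_mul]
          congr 2
          ring
  have t1 : (ε * θ ^ J * n) / θ ^ J = ε * n := by
    field_simp
  have t2 : r * J * (2 * (J * ((c * k) * (x ^ (j + 1)) ^ (J - 1)))) ≤ ε * n := by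
    have e1 : (x ^ (j + 1)) ^ (J - 1) ≤ (x ^ (j + 1)) ^ (j - 1) :=
      pow_le_pow_right₀ hL1 (by omega)
    have e2 : (x ^ (j + 1)) ^ (j - 1) * x = x ^ (j ^ 2) := by
      obtain ⟨j', rfl⟩ : ∃ j', j = j' + 1 := ⟨j - 1, by omega⟩
      rw [Nat.add_sub_cancel, ← pow_mul, ← pow_succ]
      congr 1
      ring
    have e3 : r * (x ^ (j + 1)) ^ (j - 1) * x ≤ 2 * k := by
      calc r * (x ^ (j + 1)) ^ (j - 1) * x = r * x ^ (j ^ 2) := by rw [mul_assoc, e2]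
        _ ≤ _ := hr
    have e4 : r * J * (2 * (J * ((c * k) * (x ^ (j + 1)) ^ (J - 1)))) ≤
        2 * (j : ℝ) ^ 2 * c * k * (r * (x ^ (j + 1)) ^ (j - 1)) := by
      calc r * J * (2 * (J * ((c * k) * (x ^ (j + 1)) ^ (J - 1))))
          ≤ r * j * (2 * (j * ((c * k) * (x ^ (j + 1)) ^ (j - 1)))) := by gcongr
        _ = _ := by ring
    refine e4.trans ?_
    have e5 : 2 * (j : ℝ) ^ 2 * c * k * (r * (x ^ (j + 1)) ^ (j - 1)) * x ≤ ε * n * x := by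
      calc 2 * (j : ℝ) ^ 2 * c * k * (r * (x ^ (j + 1)) ^ (j - 1)) * x
          = 2 * (j : ℝ) ^ 2 * c * k * (r * (x ^ (j + 1)) ^ (j - 1) * x) := by ring
        _ ≤ 2 * (j : ℝ) ^ 2 * c * k * (2 * k) := by gcongr
        _ = (4 * j ^ 2 * c) * k ^ 2 := by ring
        _ ≤ (ε * x) * n := by gcongr
        _ = _ := by ring
    exact le_of_mul_le_mul_right e5 hx0
  have t3 : k * (J * ((x ^ (j + 1)) ^ (J - 1) + J * (b * (x ^ (j + 1)) ^ (J - 2)))) / θ ^ J ≤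
      2 * (ε * n) := by
    have e1 : (x ^ (j + 1)) ^ (J - 1) ≤ x ^ (j ^ 2 + j) := by
      calc (x ^ (j + 1)) ^ (J - 1) ≤ (x ^ (j + 1)) ^ j := pow_le_pow_right₀ hL1 (by omega)
        _ = _ := by rw [← pow_mul]; congr 1; ring
    have e2 : (x ^ (j + 1)) ^ (J - 2) ≤ x ^ (j ^ 2 + j) := by
      calc (x ^ (j + 1)) ^ (J - 2) ≤ (x ^ (j + 1)) ^ j := pow_le_pow_right₀ hL1 (by omega)
        _ = _ := by rw [← pow_mul]; congr 1; ring
    have e3 : b * x ^ (j ^ 3 + j ^ 2 + 2 * j) * x = k := by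
      rw [← hb, pow_succ]; ring
    have e4 : j ^ 2 * 2 ^ j * k * (b * x ^ (j ^ 3 + j ^ 2 + 2 * j)) ≤ ε * n := by
      have e5 : j ^ 2 * 2 ^ j * k * (b * x ^ (j ^ 3 + j ^ 2 + 2 * j)) * x ≤ ε * n * x := by
        calc j ^ 2 * 2 ^ j * k * (b * x ^ (j ^ 3 + j ^ 2 + 2 * j)) * x
            = j ^ 2 * 2 ^ j * k * (b * x ^ (j ^ 3 + j ^ 2 + 2 * j) * x) := by ring
          _ = (j ^ 2 * 2 ^ j) * k ^ 2 := by rw [e3]; ring
          _ ≤ (ε * x) * n := by gcongr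
          _ = _ := by ring
      exact le_of_mul_le_mul_right e5 hx0
    calc k * (J * ((x ^ (j + 1)) ^ (J - 1) + J * (b * (x ^ (j + 1)) ^ (J - 2)))) / θ ^ J
        = k * (J * ((x ^ (j + 1)) ^ (J - 1) + J * (b * (x ^ (j + 1)) ^ (J - 2)))) *
          (1 / θ ^ J) := by ring
      _ ≤ k * (j * (x ^ (j ^ 2 + j) + j * (b * x ^ (j ^ 2 + j)))) *
          (2 ^ j * x ^ (j ^ 3 + j)) := by gcongr
      _ = k * (j * 2 ^ j * x ^ (j ^ 3 + j ^ 2 + 2 * j)) +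
          j ^ 2 * 2 ^ j * k * (b * x ^ (j ^ 3 + j ^ 2 + 2 * j)) := by
          have : x ^ (j ^ 3 + j ^ 2 + 2 * j) = x ^ (j ^ 2 + j) * x ^ (j ^ 3 + j) := by
            rw [← pow_add]; congr 1; ring
          rw [this]
          ring
      _ ≤ k * (ε * k) + ε * n := by gcongr
      _ ≤ _ := by nlinarith
  have t4 : (n * (x ^ (j + 1)) ^ J) * (J * Real.exp (-((θ * (c * k)) ^ 2) / (2 * (c * k)))) /
      θ ^ J ≤ ε * n := by
    have e1 : (x ^ (j + 1)) ^ J ≤ x ^ (j ^ 2 + j) := by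
      calc (x ^ (j + 1)) ^ J ≤ (x ^ (j + 1)) ^ j := pow_le_pow_right₀ hL1 hJj
        _ = _ := by rw [← pow_mul]; congr 1; ring
    have e2 : Real.exp (-((θ * (c * k)) ^ 2) / (2 * (c * k))) ≤ Real.exp (-x) := by
      apply Real.exp_le_exp.mpr
      rw [neg_div]
      apply neg_le_neg
      have e3 : (θ * (c * k)) ^ 2 / (2 * (c * k)) = θ ^ 2 * (c * k) / 2 := by
        field_simp
      rw [e3]
      have e4 : 1 ≤ θ * (2 * x ^ (j ^ 2 + 1)) := by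
        rw [div_le_iff₀ hθ0] at hθ
        linarith
      have e5 : 1 ≤ θ ^ 2 * (4 * x ^ (2 * j ^ 2 + 2)) := by
        calc (1 : ℝ) = 1 ^ 2 := by norm_num
          _ ≤ (θ * (2 * x ^ (j ^ 2 + 1))) ^ 2 := by gcongr
          _ = _ := by
              rw [mul_pow, mul_pow, ← pow_mul]
              norm_num
              left
              congr 1
              ring
      have e6 : x * (4 * x ^ (2 * j ^ 2 + 2)) ≤ (θ ^ 2 * (c * k) / 2) *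
          (4 * x ^ (2 * j ^ 2 + 2)) := by
        have e7 : x * (4 * x ^ (2 * j ^ 2 + 2)) ≤ k / 2 := by
          have : 8 * x ^ (2 * j ^ 2 + 3) = 2 * (x * (4 * x ^ (2 * j ^ 2 + 2))) := by ring
          linarith
        have e8 : k / 2 ≤ (θ ^ 2 * (c * k) / 2) * (4 * x ^ (2 * j ^ 2 + 2)) := by
          have e9 : (θ ^ 2 * (c * k) / 2) * (4 * x ^ (2 * j ^ 2 + 2)) =
            (θ ^ 2 * (4 * x ^ (2 * j ^ 2 + 2))) * (c * (k / 2)) := by ring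
          rw [e9]
          have e10 : k / 2 ≤ c * (k / 2) := by nlinarith
          have e11 : 0 ≤ c * (k / 2) := by positivity
          nlinarith
        linarith
      exact le_of_mul_le_mul_right e6 (by positivity)
    calc (n * (x ^ (j + 1)) ^ J) * (J * Real.exp (-((θ * (c * k)) ^ 2) / (2 * (c * k)))) / θ ^ J
        = (n * (x ^ (j + 1)) ^ J) * (J * Real.exp (-((θ * (c * k)) ^ 2) / (2 * (c * k)))) *
          (1 / θ ^ J) := by ring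
      _ ≤ (n * x ^ (j ^ 2 + j)) * (j * Real.exp (-x)) * (2 ^ j * x ^ (j ^ 3 + j)) := by gcongr
      _ = ((j * 2 ^ j * x ^ (j ^ 3 + j ^ 2 + 2 * j)) * Real.exp (-x)) * n := by
          have : x ^ (j ^ 3 + j ^ 2 + 2 * j) = x ^ (j ^ 2 + j) * x ^ (j ^ 3 + j) := by
            rw [← pow_add]; congr 1; ring
          rw [this]
          ring
      _ ≤ ε * n := by gcongr
  rw [t1]
  linarith

variable {ι : Type*} {F : Filter ι} {n k q : ι → ℕ} {E : ℕ}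

lemma th_inv_le (N : ℕ) (y : ℝ) (hy : (N : ℝ) ≤ y) (h1 : 1 ≤ y) : 1 / th N ≤ 2 * y := by
  unfold th
  rw [one_div_one_div]
  linarith

/-- Exponent needed for all numerical conditions. -/
def EE0 (j : ℕ) : ℕ := 4 * (j ^ 3 + j ^ 2 + 2 * j + 1) + 4 * j ^ 2 + 4 * j + 20

lemma numU_ev {j : ℕ} (h : Env F n k q (EE0 j)) (C' : ℕ) (hC : 1 ≤ C') (ε : ℝ) (hε : 0 < ε) :
    ∀ᶠ i in F, ∀ J, 1 ≤ J → J ≤ j → NumU J (LL j (q i)) (rU j (q i) (k i)) C' (n i) (k i)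
      ((k i : ℝ) / rhoP j (q i)) (ε * th (NU j (q i)) ^ J * n i) (th (NU j (q i))) (5 * ε) := by
  have hE : 0 < EE0 j := by unfold EE0; omega
  filter_upwards [h.q_ge 1, h.k_ge hE 1, h.sq_le, h.q_ge (4 * j ^ 2 * C' / ε),
    h.mul_pow_le (j * 2 ^ j / ε) (j ^ 3 + j ^ 2 + 2 * j) (by unfold EE0; omega),
    h.q_ge (j ^ 2 * 2 ^ j / ε), h.mul_pow_le 8 (2 * j ^ 2 + 3) (by unfold EE0; omega),
    h.mul_pow_le 1 (j ^ 2) (by unfold EE0; omega),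
    h.exp_small hE 1 1 1 1 one_pos one_pos] with i g1 g2 g3 g4 g5 g6 g7 g8 g9
  intro J hJ1 hJj
  constructor
  have hq0 : (0 : ℝ) < q i := by linarith
  have hk0 : (0 : ℝ) < k i := by linarith
  have hkn : (k i : ℝ) ^ 2 ≤ n i := by exact_mod_cast g3
  have hL : ((LL j (q i) : ℕ) : ℝ) = (q i : ℝ) ^ (j + 1) := by unfold LL; push_cast; rfl
  have hC1 : (1 : ℝ) ≤ C' := by exact_mod_cast hC
  have hρ : ((rhoP j (q i) : ℕ) : ℝ) = (q i : ℝ) ^ (j ^ 3 + j ^ 2 + 2 * j + 1) := by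
    unfold rhoP; push_cast; rfl
  rw [hL, hρ]
  refine numU_real j J C' (q i) (k i) (n i) (rU j (q i) (k i)) _ (th (NU j (q i))) ε hJ1 hJj hC1
    g1 hk0 hkn hε (by positivity) ?_ (by positivity) ?_ (th_pos _) ?_ ?_ ?_ ?_ ?_ ?_
  · -- bound for `r`
    unfold rU
    push_cast
    have e1 : (((k i) / (q i) ^ (j ^ 2) : ℕ) : ℝ) ≤ (k i : ℝ) / ((q i) ^ (j ^ 2) : ℕ) :=
      Nat.cast_div_le
    push_cast at e1
    have e2 : (((k i) / (q i) ^ (j ^ 2) : ℕ) : ℝ) * (q i : ℝ) ^ (j ^ 2) ≤ k i := by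
      rw [le_div_iff₀ (by positivity)] at e1
      exact e1
    linarith
  · field_simp
  · apply th_inv_le
    · unfold NU; push_cast; exact le_rfl
    · exact one_le_pow₀ g1
  · rw [div_le_iff₀ hε] at g4; linarith
  · rw [div_mul_eq_mul_div, div_le_iff₀ hε] at g5; linarith
  · rw [div_le_iff₀ hε] at g6; linarith
  · exact g7
  · rw [div_mul_eq_mul_div, div_le_iff₀ hε] at g5
    rw [one_mul, one_mul, pow_one] at g9
    have e1 : (k i : ℝ) ≤ n i + 1 := by nlinarith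
    have e2 : j * 2 ^ j * (q i : ℝ) ^ (j ^ 3 + j ^ 2 + 2 * j) ≤ ε * (n i + 1) := by nlinarith
    calc (j * 2 ^ j * (q i : ℝ) ^ (j ^ 3 + j ^ 2 + 2 * j)) * Real.exp (-(q i : ℝ))
        ≤ (ε * (n i + 1)) * Real.exp (-(q i : ℝ)) := by gcongr
      _ = ε * ((n i + 1) * Real.exp (-(q i : ℝ))) := by ring
      _ ≤ ε * 1 := by gcongr
      _ = ε := mul_one _

end Cover
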