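import Pool.Agent.Cover.Struct
import Pool.Agent.Cover.Combi

/-!
Local structure at a typical point.
-/

namespace Cover

open Finset
open scoped Classical

set_option linter.unusedSectionVars false

variable {G : Type*} [AddCommGroup G] [Fintype G] {k : ℕ}

/-- Indices `i`, `j` are linked at `x` if `x - a i - a j` is a rich difference. -/
def adjx (a : Fin k → G) (R : Finset G) (x : G) (i j : Fin k) : Prop := x - a i - a j ∈ R

lemma adjx_symm (a : Fin k → G) (R : Finset G) (x : G) (i j : Fin k) (h : adjx a R x i j) :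
    adjx a R x j i := by
  unfold adjx at h ⊢
  have e : x - a j - a i = x - a i - a j := by abel
  rw [e]; exact h

/-- Points where links form a matching. -/
def Reg (a : Fin k → G) (R : Finset G) (x : G) : Prop :=
  (∀ i, x - a i - a i ∉ R) ∧ ∀ i j j', adjx a R x i j → adjx a R x i j' → j = j'

lemma card_not_Reg {r₀ : ℕ} {a : Fin k → G} (hd : DiffBd r₀ a) (R : Finset G) :
    (univ.filter fun x => ¬ Reg a R x).card ≤ k * R.card + k * (R.card ^ 2 * r₀) := by
  set Q := ((R ×ˢ R) ×ˢ (univ : Finset (Fin k × Fin k))).filter fun q =>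
    q.1.1 ≠ q.1.2 ∧ a q.2.1 - a q.2.2 = q.1.2 - q.1.1 with hQ
  have hQc : Q.card ≤ R.card ^ 2 * r₀ := by
    have h1 := Finset.card_eq_sum_card_fiberwise
      (f := fun q : (G × G) × (Fin k × Fin k) => q.1) (s := Q) (t := R ×ˢ R) (by
        intro q hq
        exact (Finset.mem_product.mp (Finset.mem_filter.mp hq).1).1)
    rw [h1]
    calc ∑ b ∈ R ×ˢ R, (Q.filter fun q => q.1 = b).card ≤ ∑ _b ∈ R ×ˢ R, r₀ := by
          refine Finset.sum_le_sum fun b _ => ?_
          by_cases hb : b.1 = b.2
          · have : (Q.filter fun q => q.1 = b) = ∅ := by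
              rw [Finset.eq_empty_iff_forall_notMem]
              intro q hq
              obtain ⟨h2, h3⟩ := Finset.mem_filter.mp hq
              have h4 := (Finset.mem_filter.mp h2).2.1
              rw [h3] at h4
              exact h4 hb
            rw [this]; simp
          · refine le_trans ?_ (hd.2 (b.2 - b.1) (sub_ne_zero.mpr (Ne.symm hb)))
            refine Finset.card_le_card_of_injOn (fun q => q.2) ?_ ?_
            · intro q hq
              obtain ⟨h2, h3⟩ := Finset.mem_filter.mp hq
              have h4 := (Finset.mem_filter.mp h2).2.2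
              simp only [Finset.coe_filter, Finset.mem_univ, true_and, Set.mem_ofPred_eq]
              rw [h4, h3]
            · intro q hq q' hq' h
              have g1 := (Finset.mem_filter.mp hq).2
              have g2 := (Finset.mem_filter.mp hq').2
              exact Prod.ext (g1.trans g2.symm) h
      _ = _ := by rw [Finset.sum_const, Finset.card_product, smul_eq_mul, sq]
  have hsub : (univ.filter fun x => ¬ Reg a R x) ⊆
      (((univ : Finset (Fin k)) ×ˢ R).image fun q => q.2 + a q.1 + a q.1) ∪
      (((univ : Finset (Fin k)) ×ˢ Q).image fun q => q.2.1.1 + a q.2.2.1 + a q.1) := by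
    intro x hx
    have hx' := (Finset.mem_filter.mp hx).2
    unfold Reg at hx'
    rw [Finset.mem_union, Finset.mem_image, Finset.mem_image]
    by_cases h1 : ∀ i, x - a i - a i ∉ R
    · right
      have h2 : ¬ ∀ i j j', adjx a R x i j → adjx a R x i j' → j = j' := fun h => hx' ⟨h1, h⟩
      push Not at h2
      obtain ⟨i, j, j', h3, h4, h5⟩ := h2
      unfold adjx at h3 h4
      have hne : x - a i - a j ≠ x - a i - a j' := by
        intro h
        apply h5
        apply hd.1
        have := congrArg (fun y => x - a i - y) h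
        simpa using this
      refine ⟨(i, ((x - a i - a j, x - a i - a j'), (j, j'))), ?_, by simp⟩
      rw [Finset.mem_product]
      refine ⟨Finset.mem_univ _, ?_⟩
      rw [hQ, Finset.mem_filter, Finset.mem_product, Finset.mem_product]
      exact ⟨⟨⟨h3, h4⟩, Finset.mem_univ _⟩, hne, by simp⟩
    · left
      push Not at h1
      obtain ⟨i, hi⟩ := h1
      exact ⟨(i, x - a i - a i), by simp [hi], by simp⟩
  calc _ ≤ _ := Finset.card_le_card hsub
    _ ≤ ((univ : Finset (Fin k)) ×ˢ R).card + ((univ : Finset (Fin k)) ×ˢ Q).card :=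
        (Finset.card_union_le _ _).trans (add_le_add Finset.card_image_le Finset.card_image_le)
    _ ≤ _ := by
        rw [Finset.card_product, Finset.card_product, Finset.card_univ, Fintype.card_fin]
        gcongr

/-- The set `A + Y`. -/
noncomputable def plus (a : Fin k → G) (Y : Finset G) : Finset G :=
  ((univ : Finset (Fin k)) ×ˢ Y).image fun q => a q.1 + q.2

lemma mem_plus {a : Fin k → G} {Y : Finset G} {s : G} :
    s ∈ plus a Y ↔ ∃ i, ∃ y ∈ Y, a i + y = s := by
  unfold plus
  rw [Finset.mem_image]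
  constructor
  · rintro ⟨q, hq, h⟩
    exact ⟨q.1, q.2, (Finset.mem_product.mp hq).2, h⟩
  · rintro ⟨i, y, hy, h⟩
    exact ⟨(i, y), by simp [hy], h⟩

lemma card_plus_le (a : Fin k → G) (Y : Finset G) : (plus a Y).card ≤ k * Y.card := by
  unfold plus
  refine Finset.card_image_le.trans (le_of_eq ?_)
  rw [Finset.card_product, Finset.card_univ, Fintype.card_fin]

/-- Indices whose cell at `x` lies in `S`. -/
noncomputable def idx (a : Fin k → G) (S : Finset G) (x : G) : Finset (Fin k) :=
  univ.filter fun i => x - a i ∈ S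

lemma mem_idx {a : Fin k → G} {S : Finset G} {x : G} {i : Fin k} :
    i ∈ idx a S x ↔ x - a i ∈ S := by simp [idx]

lemma idx_plus_partner {a : Fin k → G} {Y R : Finset G} (hYR : Y ⊆ R) {x : G} {i : Fin k}
    (hi : i ∈ idx a (plus a Y) x) : ∃ j ∈ idx a (plus a Y) x, adjx a R x i j := by
  rw [mem_idx, mem_plus] at hi
  obtain ⟨j, y, hy, h⟩ := hi
  have e : x - a i - a j = y := by rw [← h]; abel
  refine ⟨j, ?_, ?_⟩
  · rw [mem_idx, mem_plus]
    refine ⟨i, y, hy, ?_⟩
    rw [← e]; abel
  · unfold adjx
    rw [e]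
    exact hYR hy

lemma Reg.perf {a : Fin k → G} {Y R : Finset G} (hYR : Y ⊆ R) {x : G} (hx : Reg a R x) :
    Perf (adjx a R x) (idx a (plus a Y) x) := by
  intro i hi
  obtain ⟨j, hj, hij⟩ := idx_plus_partner hYR hi
  rw [Finset.card_eq_one]
  refine ⟨j, ?_⟩
  ext j'
  rw [Finset.mem_filter, Finset.mem_singleton]
  constructor
  · rintro ⟨_, h⟩
    exact hx.2 i j' j h hij
  · rintro rfl
    exact ⟨hj, hij⟩

lemma Reg.mat {a : Fin k → G} {R : Finset G} {x : G} (hx : Reg a R x) (S : Finset (Fin k)) :
    Mat (adjx a R x) S := by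
  intro i _
  rw [Finset.card_le_one]
  intro j hj j' hj'
  exact hx.2 i j j' (Finset.mem_filter.mp hj).2 (Finset.mem_filter.mp hj').2

lemma Reg.irr {a : Fin k → G} {R : Finset G} {x : G} (hx : Reg a R x) (i : Fin k) :
    ¬ adjx a R x i i := hx.1 i

lemma Reg.noadj {a : Fin k → G} {Y R S : Finset G} (hYR : Y ⊆ R) {x : G} (hx : Reg a R x)
    (hS : Disjoint S (plus a Y)) : ∀ i ∈ idx a (plus a Y) x, ∀ j ∈ idx a S x,
      ¬ adjx a R x i j := by
  intro i hi j hj h
  obtain ⟨j', hj', hij'⟩ := idx_plus_partner hYR hi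
  have := hx.2 i j j' h hij'
  rw [this] at hj
  exact Finset.disjoint_left.mp hS (mem_idx.mp hj) (mem_idx.mp hj')

lemma Reg.card_tuples {a : Fin k → G} {Y R S Tp : Finset G} (hYR : Y ⊆ R) {x : G}
    (hx : Reg a R x) (hS : Disjoint S (plus a Y)) (L : ℕ) (hL : dd a Tp x ≤ L) (l r : ℕ) :
    ((FF a Tp R L (Fin.append (fun _ : Fin l => plus a Y) (fun _ : Fin r => S))).filter
      fun t => t.1 = x).card =
      (seqs (adjx a R x) (idx a (plus a Y) x) l).card * (seqs (adjx a R x) (idx a S x) r).card := by
  rw [← card_split (adjx a R x) (adjx_symm a R x) (idx a (plus a Y) x) (idx a S x) ?_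
    (hx.noadj hYR hS) l r]
  · have happ : ∀ i, ∀ e : Fin k, (e ∈ Fin.append (fun _ : Fin l => idx a (plus a Y) x)
        (fun _ : Fin r => idx a S x) i) ↔
        x - a e ∈ (Fin.append (fun _ : Fin l => plus a Y) (fun _ : Fin r => S)) i := by
      intro i e
      refine Fin.addCases (fun i => ?_) (fun i => ?_) i
      · rw [Fin.append_left, Fin.append_left, mem_idx]
      · rw [Fin.append_right, Fin.append_right, mem_idx]
    refine Finset.card_bij (fun t _ => t.2) ?_ ?_ ?_
    · intro t ht
      obtain ⟨h1, h2⟩ := Finset.mem_filter.mp ht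
      obtain ⟨h3, _, h5⟩ := mem_FF.mp h1
      rw [h2] at h5
      rw [mem_splitSet]
      refine ⟨fun i => ?_, h5⟩
      rw [happ]
      have := h3 i
      rwa [h2] at this
    · intro t ht t' ht' h
      have h1 := (Finset.mem_filter.mp ht).2
      have h2 := (Finset.mem_filter.mp ht').2
      exact Prod.ext (h1.trans h2.symm) h
    · intro φ hφ
      obtain ⟨h1, h2⟩ := mem_splitSet.mp hφ
      refine ⟨(x, φ), ?_, rfl⟩
      rw [Finset.mem_filter]
      refine ⟨?_, rfl⟩
      rw [mem_FF]
      refine ⟨fun i => ?_, hL, h2⟩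
      exact (happ i (φ i)).mp (h1 i)
  · rw [Finset.disjoint_left]
    intro i hi hi'
    exact Finset.disjoint_left.mp hS (mem_idx.mp hi') (mem_idx.mp hi)

/-- The typical points. -/
noncomputable def clean (a : Fin k → G) (Tp R : Finset G) (L : ℕ) : Finset G :=
  univ.filter fun x => dd a Tp x ≤ L ∧ Reg a R x

/-- Number of units (pairs of linked cells in `A + Y`) at a point. -/
noncomputable def units (a : Fin k → G) (Y : Finset G) (x : G) : ℕ :=
  (idx a (plus a Y) x).card / 2

lemma Reg.card_idx {a : Fin k → G} {Y R : Finset G} (hYR : Y ⊆ R) {x : G} (hx : Reg a R x) :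
    (idx a (plus a Y) x).card = 2 * units a Y x := by
  have := Nat.even_iff.mp (Perf.even (adjx_symm a R x) hx.irr _ (hx.perf hYR))
  unfold units
  omega

lemma units_eq_zero_iff {a : Fin k → G} {Y R : Finset G} (hYR : Y ⊆ R) {x : G}
    (hx : Reg a R x) : units a Y x = 0 ↔ x ∈ Wset a Y := by
  have h1 := hx.card_idx hYR
  have h2 : (idx a (plus a Y) x).card = 0 ↔ x ∈ Wset a Y := by
    rw [Finset.card_eq_zero, mem_Wset, Finset.eq_empty_iff_forall_notMem]
    constructor
    · intro h i j hy
      apply h i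
      rw [mem_idx, mem_plus]
      exact ⟨j, _, hy, by abel⟩
    · intro h i hi
      rw [mem_idx, mem_plus] at hi
      obtain ⟨j, y, hy, e⟩ := hi
      apply h i j
      rw [← e]
      simpa using hy
  rw [← h2]
  omega

/-- The number of tuples in terms of the numbers of sequences at the clean points. -/
lemma card_FF_clean {r₀ : ℕ} {a : Fin k → G} (hk : 0 < k) (hd : DiffBd r₀ a) {Y R S Tp : Finset G}
    (hYR : Y ⊆ R) (hS : Disjoint S (plus a Y)) (hYT : plus a Y ⊆ Tp) (hST : S ⊆ Tp)
    (L l r : ℕ) :
    (∑ x ∈ clean a Tp R L, 2 ^ l * (units a Y x).descFactorial l *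
      (seqs (adjx a R x) (idx a S x) r).card) ≤
      (FF a Tp R L (Fin.append (fun _ : Fin l => plus a Y) (fun _ : Fin r => S))).card ∧
    (FF a Tp R L (Fin.append (fun _ : Fin l => plus a Y) (fun _ : Fin r => S))).card ≤
      (∑ x ∈ clean a Tp R L, 2 ^ l * (units a Y x).descFactorial l *
      (seqs (adjx a R x) (idx a S x) r).card) +
      (k * R.card + k * (R.card ^ 2 * r₀)) * L ^ (l + r) := by
  set F := FF a Tp R L (Fin.append (fun _ : Fin l => plus a Y) (fun _ : Fin r => S)) with hF
  have hT : ∀ i, (Fin.append (fun _ : Fin l => plus a Y) (fun _ : Fin r => S)) i ⊆ Tp := by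
    intro i
    refine Fin.addCases (fun i => ?_) (fun i => ?_) i
    · rw [Fin.append_left]; exact hYT
    · rw [Fin.append_right]; exact hST
  have h1 : F.card = ∑ x : G, (F.filter fun t => t.1 = x).card :=
    Finset.card_eq_sum_card_fiberwise (f := fun t : G × (Fin (l + r) ↪ Fin k) => t.1)
      (s := F) (t := univ) (fun _ _ => Finset.mem_univ _)
  have h2 : ∀ x ∈ clean a Tp R L, (F.filter fun t => t.1 = x).card =
      2 ^ l * (units a Y x).descFactorial l * (seqs (adjx a R x) (idx a S x) r).card := by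
    intro x hx
    obtain ⟨h3, h4⟩ := (Finset.mem_filter.mp hx).2
    rw [hF, h4.card_tuples hYR hS L h3 l r,
      Perf.card_seqs (adjx_symm a R x) h4.irr l (units a Y x) _ (h4.perf hYR) (h4.card_idx hYR)]
  rw [← Finset.sum_congr rfl h2]
  rw [h1, ← Finset.sum_add_sum_compl (clean a Tp R L)]
  refine ⟨Nat.le_add_right _ _, ?_⟩
  apply Nat.add_le_add_left
  have h3 : ∀ x, (F.filter fun t => t.1 = x).card ≤ L ^ (l + r) := by
    intro x
    have := card_filter_fixed_le a Tp R L _ hT ∅ (fun _ => ⟨0, hk⟩) x
    simpa using this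
  have h4 : ∀ x ∈ (clean a Tp R L)ᶜ, Reg a R x → (F.filter fun t => t.1 = x).card = 0 := by
    intro x hx hreg
    rw [Finset.mem_compl] at hx
    have h5 : ¬ dd a Tp x ≤ L := by
      intro h
      apply hx
      unfold clean
      rw [Finset.mem_filter]
      exact ⟨Finset.mem_univ _, h, hreg⟩
    rw [Finset.card_eq_zero, Finset.eq_empty_iff_forall_notMem]
    intro t ht
    obtain ⟨h6, h7⟩ := Finset.mem_filter.mp ht
    have h8 := (mem_FF.mp h6).2.1
    rw [h7] at h8
    exact h5 h8
  calc ∑ x ∈ (clean a Tp R L)ᶜ, (F.filter fun t => t.1 = x).card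
      ≤ ∑ x ∈ (univ.filter fun x => ¬ Reg a R x), L ^ (l + r) := by
        calc ∑ x ∈ (clean a Tp R L)ᶜ, (F.filter fun t => t.1 = x).card
            = ∑ x ∈ (clean a Tp R L)ᶜ with ¬ Reg a R x, (F.filter fun t => t.1 = x).card := by
              rw [Finset.sum_filter]
              refine Finset.sum_congr rfl fun x hx => ?_
              by_cases hreg : Reg a R x
              · rw [h4 x hx hreg, if_neg (not_not.mpr hreg)]
              · rw [if_pos hreg]
          _ ≤ ∑ x ∈ (clean a Tp R L)ᶜ with ¬ Reg a R x, L ^ (l + r) :=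
              Finset.sum_le_sum fun x _ => h3 x
          _ ≤ _ := by
              apply Finset.sum_le_sum_of_subset
              intro x hx
              rw [Finset.mem_filter] at hx ⊢
              exact ⟨Finset.mem_univ _, hx.2⟩
    _ = (univ.filter fun x => ¬ Reg a R x).card * L ^ (l + r) := by
        rw [Finset.sum_const, smul_eq_mul]
    _ ≤ _ := by
        gcongr
        exact card_not_Reg hd R

end Cover
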