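import Pool.Agent.Cover.Env

/-!
The asymptotic environment for the primes.
-/

namespace Cover

open Filter

/-- The slowly growing parameter. -/
noncomputable def qq (p : ℕ) : ℕ := ⌊Real.log ((p : ℝ) + 1) ^ 2⌋₊

/-- Primes tending to infinity. -/
def primeFilter : Filter Nat.Primes := comap (fun p : Nat.Primes => (p : ℕ)) atTop

lemma tendsto_log_prime : Tendsto (fun p : Nat.Primes => Real.log (((p : ℕ) : ℝ) + 1))
    primeFilter atTop := by
  have h1 : Tendsto (fun p : Nat.Primes => ((p : ℕ))) primeFilter atTop := tendsto_comap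
  have h2 : Tendsto (fun m : ℕ => Real.log ((m : ℝ) + 1)) atTop atTop :=
    Real.tendsto_log_atTop.comp (tendsto_atTop_add_const_right _ _ tendsto_natCast_atTop_atTop)
  exact h2.comp h1

lemma env_primes (E : ℕ) : Env primeFilter (fun p : Nat.Primes => (p : ℕ))
    (fun p => Nat.sqrt p) (fun p => qq p) E := by
  have hlog := tendsto_log_prime
  refine ⟨fun B => ?_, ?_, ?_, ?_⟩
  · filter_upwards [hlog.eventually_ge_atTop (2 * |B| + 2)] with p hp
    set y := Real.log (((p : ℕ) : ℝ) + 1) with hy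
    have h1 : y ^ 2 - 1 ≤ (qq p : ℝ) := by
      unfold qq
      have := Nat.sub_one_lt_floor (y ^ 2)
      linarith
    have hB := abs_nonneg B
    have h2 : B * (y + 1) ≤ |B| * (y + 1) := by
      have : 0 ≤ y + 1 := by linarith
      exact mul_le_mul_of_nonneg_right (le_abs_self B) this
    have h3 : |B| * (y + 1) ≤ y ^ 2 - 1 := by
      have h4 : |B| ≤ (y - 2) / 2 := by linarith
      have h5 : |B| * (y + 1) ≤ (y - 2) / 2 * (y + 1) := by
        have : 0 ≤ y + 1 := by linarith
        exact mul_le_mul_of_nonneg_right h4 this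
      nlinarith
    linarith
  · -- `q ^ E ≤ k`
    have h1 : (fun x : ℝ => Real.log x ^ (4 * E)) =o[atTop] (id : ℝ → ℝ) :=
      Real.isLittleO_pow_log_id_atTop
    have h2 : ∀ᶠ x : ℝ in atTop, ‖Real.log x ^ (4 * E)‖ ≤ 1 / 16 * ‖(id x : ℝ)‖ :=
      h1.bound (by norm_num)
    have h3 : Tendsto (fun p : Nat.Primes => (((p : ℕ) : ℝ) + 1)) primeFilter atTop := by
      have h1 : Tendsto (fun p : Nat.Primes => ((p : ℕ))) primeFilter atTop := tendsto_comap
      exact (tendsto_atTop_add_const_right _ _ tendsto_natCast_atTop_atTop).comp h1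
    filter_upwards [h3.eventually h2, h3.eventually_ge_atTop 4, hlog.eventually_ge_atTop 0]
      with p g1 g2 g3
    set x : ℝ := ((p : ℕ) : ℝ) + 1 with hx
    set y := Real.log x with hy
    have hx0 : 0 ≤ x := by linarith
    rw [id, Real.norm_of_nonneg hx0, Real.norm_of_nonneg (by positivity)] at g1
    have h4 : (y ^ (2 * E)) ^ 2 ≤ (√x / 4) ^ 2 := by
      rw [div_pow, Real.sq_sqrt hx0, ← pow_mul]
      have : 2 * E * 2 = 4 * E := by ring
      rw [this]
      linarith
    have h5 : y ^ (2 * E) ≤ √x / 4 := by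
      have h6 : 0 ≤ √x / 4 := by positivity
      exact (pow_le_pow_iff_left₀ (by positivity) h6 (by norm_num)).mp h4
    have h7 : √x ≤ (Nat.sqrt p : ℝ) + 1 := by
      apply Real.sqrt_le_iff.mpr
      refine ⟨by positivity, ?_⟩
      have h8 : (p : ℕ) < (Nat.sqrt p + 1) ^ 2 := Nat.lt_succ_sqrt' (p : ℕ)
      have h9 : (p : ℕ) + 1 ≤ (Nat.sqrt p + 1) ^ 2 := h8
      rw [hx]
      exact_mod_cast h9
    have h8 : 2 ≤ √x := by
      apply Real.le_sqrt_of_sq_le
      linarith
    have h9 : ((qq p : ℕ) : ℝ) ≤ y ^ 2 := by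
      unfold qq
      exact Nat.floor_le (by positivity)
    have h10 : ((qq p : ℕ) : ℝ) ^ E ≤ (Nat.sqrt p : ℝ) := by
      calc ((qq p : ℕ) : ℝ) ^ E ≤ (y ^ 2) ^ E := by gcongr
        _ = y ^ (2 * E) := by rw [← pow_mul]
        _ ≤ √x / 4 := h5
        _ ≤ _ := by linarith
    exact_mod_cast h10
  · exact Filter.Eventually.of_forall fun p => Nat.sqrt_le' _
  · exact Filter.Eventually.of_forall fun p => (Nat.lt_succ_sqrt' _).le

end Cover
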