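import Mathlib

/-!
Finite counting probability: averages over finite types, a bounded-differences
inequality, product events and the deletion method.
-/

namespace Cover

open Finset
open scoped Classical

/-- Average of a real function over a finite type. -/
noncomputable def av {Ω : Type*} [Fintype Ω] (f : Ω → ℝ) : ℝ :=
  (∑ ω, f ω) / (Fintype.card Ω : ℝ)

/-- Counting probability of an event on a finite type. -/
noncomputable def pr {Ω : Type*} [Fintype Ω] (E : Ω → Prop) : ℝ :=
  av (fun ω => if E ω then (1 : ℝ) else 0)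

section basic

variable {Ω : Type*} [Fintype Ω]

lemma av_add (f g : Ω → ℝ) : av (fun ω => f ω + g ω) = av f + av g := by
  simp [av, Finset.sum_add_distrib, add_div]

lemma av_sub (f g : Ω → ℝ) : av (fun ω => f ω - g ω) = av f - av g := by
  simp [av, Finset.sum_sub_distrib, sub_div]

lemma av_const [Nonempty Ω] (c : ℝ) : av (fun _ : Ω => c) = c := by
  simp [av]

lemma av_mul_left (c : ℝ) (f : Ω → ℝ) : av (fun ω => c * f ω) = c * av f := by
  simp [av, ← Finset.mul_sum, mul_div_assoc]

lemma av_mul_right (c : ℝ) (f : Ω → ℝ) : av (fun ω => f ω * c) = av f * c := by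
  simp [av, ← Finset.sum_mul, div_mul_eq_mul_div]

lemma av_neg (f : Ω → ℝ) : av (fun ω => - f ω) = - av f := by
  simp [av, Finset.sum_neg_distrib, neg_div]

lemma av_mono {f g : Ω → ℝ} (h : ∀ ω, f ω ≤ g ω) : av f ≤ av g := by
  unfold av
  gcongr with ω
  exact h ω

lemma av_nonneg {f : Ω → ℝ} (h : ∀ ω, 0 ≤ f ω) : 0 ≤ av f := by
  unfold av
  exact div_nonneg (Finset.sum_nonneg fun ω _ => h ω) (by positivity)

lemma av_sum {κ : Type*} (s : Finset κ) (f : κ → Ω → ℝ) :
    av (fun ω => ∑ k ∈ s, f k ω) = ∑ k ∈ s, av (f k) := by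
  unfold av
  rw [Finset.sum_comm, Finset.sum_div]

lemma pr_nonneg (E : Ω → Prop) : 0 ≤ pr E :=
  av_nonneg fun ω => by split_ifs <;> norm_num

lemma pr_le_one [Nonempty Ω] (E : Ω → Prop) : pr E ≤ 1 := by
  calc pr E ≤ av (fun _ : Ω => (1 : ℝ)) := av_mono fun ω => by split_ifs <;> norm_num
    _ = 1 := av_const 1

lemma pr_mono {E F : Ω → Prop} (h : ∀ ω, E ω → F ω) : pr E ≤ pr F :=
  av_mono fun ω => by
    by_cases hE : E ω
    · simp [hE, h ω hE]
    · simp only [hE, if_false]; split_ifs <;> norm_num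

lemma pr_eq_card (E : Ω → Prop) :
    pr E = ((univ.filter E).card : ℝ) / (Fintype.card Ω : ℝ) := by
  simp [pr, av]

lemma pr_eq_ite (E : Ω → Prop) [DecidablePred E] :
    pr E = av (fun ω => if E ω then (1 : ℝ) else 0) := by
  unfold pr
  congr 1
  funext ω
  by_cases h : E ω <;> simp [h]

lemma pr_eq_card' (E : Ω → Prop) [DecidablePred E] :
    pr E = ((univ.filter E).card : ℝ) / (Fintype.card Ω : ℝ) := by
  rw [pr_eq_ite]
  simp [av]

lemma pr_or_le (E F : Ω → Prop) : pr (fun ω => E ω ∨ F ω) ≤ pr E + pr F := by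
  unfold pr
  rw [← av_add]
  refine av_mono fun ω => ?_
  by_cases hE : E ω <;> by_cases hF : F ω <;> simp [hE, hF]

lemma pr_not (E : Ω → Prop) [Nonempty Ω] : pr (fun ω => ¬ E ω) = 1 - pr E := by
  have h : av (fun _ : Ω => (1 : ℝ)) = pr (fun ω => ¬ E ω) + pr E := by
    unfold pr
    rw [← av_add]
    congr 1
    funext ω
    by_cases hE : E ω <;> simp [hE]
  rw [av_const] at h
  linarith

lemma pr_exists_le {κ : Type*} (s : Finset κ) (E : κ → Ω → Prop) :
    pr (fun ω => ∃ k ∈ s, E k ω) ≤ ∑ k ∈ s, pr (E k) := by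
  unfold pr
  rw [← av_sum]
  refine av_mono fun ω => ?_
  by_cases h : ∃ k ∈ s, E k ω
  · obtain ⟨k, hk, hE⟩ := h
    have h1 : (1 : ℝ) ≤ ∑ k ∈ s, (if E k ω then (1 : ℝ) else 0) := by
      have := Finset.single_le_sum (f := fun k => (if E k ω then (1 : ℝ) else 0))
        (fun i _ => by split_ifs <;> norm_num) hk
      simpa [hE] using this
    have h2 : ∃ k ∈ s, E k ω := ⟨k, hk, hE⟩
    simpa [h2] using h1
  · simp only [h, if_false]
    exact Finset.sum_nonneg fun k _ => by split_ifs <;> norm_num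

lemma pr_exists_le_card {κ : Type*} (s : Finset κ) (E : κ → Ω → Prop) (δ : ℝ)
    (h : ∀ k ∈ s, pr (E k) ≤ δ) :
    pr (fun ω => ∃ k ∈ s, E k ω) ≤ s.card * δ := by
  refine (pr_exists_le s E).trans ?_
  calc ∑ k ∈ s, pr (E k) ≤ ∑ _k ∈ s, δ := Finset.sum_le_sum h
    _ = s.card * δ := by simp

/-- Markov's inequality. -/
lemma pr_le_av_div {f : Ω → ℝ} (hf : ∀ ω, 0 ≤ f ω) {t : ℝ} (ht : 0 < t) :
    pr (fun ω => t ≤ f ω) ≤ av f / t := by
  rw [le_div_iff₀ ht]
  unfold pr
  rw [← av_mul_right]
  refine av_mono fun ω => ?_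
  by_cases h : t ≤ f ω
  · simp [h]
  · simpa [h] using hf ω

lemma exists_le_av [Nonempty Ω] (f : Ω → ℝ) : ∃ ω, f ω ≤ av f := by
  by_contra h
  push Not at h
  have h1 : av (fun _ : Ω => av f) < av f := by
    unfold av
    have hc : (0 : ℝ) < (Fintype.card Ω : ℝ) := by exact_mod_cast Fintype.card_pos
    gcongr
    · exact Finset.univ_nonempty
    · exact h _
  rw [av_const] at h1
  exact lt_irrefl _ h1

lemma exists_av_le [Nonempty Ω] (f : Ω → ℝ) : ∃ ω, av f ≤ f ω := by
  obtain ⟨ω, hω⟩ := exists_le_av (fun ω => - f ω)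
  rw [av_neg] at hω
  exact ⟨ω, by linarith⟩

lemma av_comp_equiv {Ω' : Type*} [Fintype Ω'] (e : Ω' ≃ Ω) (f : Ω → ℝ) :
    av (fun ω' => f (e ω')) = av f := by
  unfold av
  rw [Fintype.card_congr e, Equiv.sum_comp e f]

lemma av_prod {Ω' : Type*} [Fintype Ω'] (f : Ω × Ω' → ℝ) :
    av f = av (fun a => av (fun b => f (a, b))) := by
  unfold av
  rw [Fintype.sum_prod_type, Fintype.card_prod, ← Finset.sum_div, div_div]
  push_cast
  ring_nf

end basic

/-! ### Bounded differences -/

lemma exp_bound_lin {z c s : ℝ} (hc : 0 < c) (hz : |z| ≤ c) :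
    Real.exp (s * z) ≤ Real.cosh (s * c) + z / c * Real.sinh (s * c) := by
  obtain ⟨h1, h2⟩ := abs_le.mp hz
  have hconv := convexOn_exp
  have hw1 : 0 ≤ (c + z) / (2 * c) := by apply div_nonneg <;> linarith
  have hw2 : 0 ≤ (c - z) / (2 * c) := by apply div_nonneg <;> linarith
  have hsum : (c + z) / (2 * c) + (c - z) / (2 * c) = 1 := by
    field_simp; ring
  have := hconv.2 (Set.mem_univ (s * c)) (Set.mem_univ (-(s * c))) hw1 hw2 hsum
  simp only [smul_eq_mul] at this
  have e1 : (c + z) / (2 * c) * (s * c) + (c - z) / (2 * c) * -(s * c) = s * z := by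
    field_simp; ring
  rw [e1] at this
  refine this.trans (le_of_eq ?_)
  rw [Real.cosh_eq, Real.sinh_eq]
  field_simp; ring

lemma av_exp_le {Ω : Type*} [Fintype Ω] [Nonempty Ω] (Z : Ω → ℝ) (c : ℝ)
    (hc : 0 ≤ c) (hZ : ∀ ω, |Z ω| ≤ c) (h0 : av Z = 0) (s : ℝ) :
    av (fun ω => Real.exp (s * Z ω)) ≤ Real.exp (s ^ 2 * c ^ 2 / 2) := by
  rcases hc.eq_or_lt with hc0 | hc0
  · subst hc0
    have : ∀ ω, Z ω = 0 := fun ω => abs_eq_zero.mp (le_antisymm (hZ ω) (abs_nonneg _))
    simp [this, av_const]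
  · calc av (fun ω => Real.exp (s * Z ω))
        ≤ av (fun ω => Real.cosh (s * c) + Z ω * (Real.sinh (s * c) / c)) := by
          refine av_mono fun ω => ?_
          refine (exp_bound_lin hc0 (hZ ω)).trans (le_of_eq ?_)
          ring
      _ = Real.cosh (s * c) := by
          rw [av_add, av_const, av_mul_right, h0]; ring
      _ ≤ Real.exp ((s * c) ^ 2 / 2) := Real.cosh_le_exp_half_sq _
      _ = Real.exp (s ^ 2 * c ^ 2 / 2) := by ring_nf

lemma abs_sub_av_le {Ω : Type*} [Fintype Ω] [Nonempty Ω] (g : Ω → ℝ) (c : ℝ)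
    (h : ∀ x y, |g x - g y| ≤ c) (x : Ω) : |g x - av g| ≤ c := by
  have e : g x - av g = av (fun y => g x - g y) := by
    rw [av_sub, av_const]
  rw [e, abs_le]
  constructor
  · calc -c = av (fun _ : Ω => -c) := (av_const _).symm
      _ ≤ _ := av_mono fun y => (abs_le.mp (h x y)).1
  · calc av (fun y => g x - g y) ≤ av (fun _ : Ω => c) := av_mono fun y => (abs_le.mp (h x y)).2
      _ = c := av_const _

lemma mgf_le_fin {α : Type*} [Fintype α] [Nonempty α] (s : ℝ) :
    ∀ (k : ℕ) (f : (Fin k → α) → ℝ) (c : Fin k → ℝ),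
      (∀ i a x, |f (Function.update a i x) - f a| ≤ c i) →
      av (fun a => Real.exp (s * (f a - av f))) ≤ Real.exp (s ^ 2 * (∑ i, c i ^ 2) / 2) := by
  intro k
  induction k with
  | zero =>
    intro f c _
    have h1 : ∀ a, f a = av f := by
      intro a
      have : f = fun _ => f a := by
        funext b
        congr 1
        exact Subsingleton.elim _ _
      rw [this, av_const]
    have h2 : (fun a => Real.exp (s * (f a - av f))) = fun _ => (1 : ℝ) := by
      funext a
      rw [← h1 a]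
      simp
    rw [h2, av_const]
    simp
  | succ k ih =>
    intro f c hc
    let F : α → (Fin k → α) → ℝ := fun b r => f (Fin.cons b r)
    let g : α → ℝ := fun b => av (F b)
    have hc0 : 0 ≤ c 0 := by
      obtain ⟨a⟩ : Nonempty (Fin (k + 1) → α) := inferInstance
      exact (abs_nonneg _).trans (hc 0 a (a 0))
    have havf : ∀ φ : (Fin (k + 1) → α) → ℝ,
        av φ = av (fun b => av (fun r => φ (Fin.cons b r))) := by
      intro φ
      rw [← av_comp_equiv (Fin.consEquiv (fun _ : Fin (k + 1) => α)) φ, av_prod]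
      rfl
    have hgdiff : ∀ b b', |g b - g b'| ≤ c 0 := by
      intro b b'
      have e : g b - g b' = av (fun r => F b r - F b' r) := by
        rw [av_sub]
      rw [e]
      have hp : ∀ r, |F b r - F b' r| ≤ c 0 := by
        intro r
        have := hc 0 (Fin.cons b' r) b
        rwa [Fin.update_cons_zero] at this
      rw [abs_le]
      constructor
      · calc -(c 0) = av (fun _ : Fin k → α => -(c 0)) := (av_const _).symm
          _ ≤ _ := av_mono fun r => (abs_le.mp (hp r)).1
      · calc av (fun r => F b r - F b' r) ≤ av (fun _ : Fin k → α => c 0) :=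
              av_mono fun r => (abs_le.mp (hp r)).2
          _ = c 0 := av_const _
    have hg := abs_sub_av_le g (c 0) hgdiff
    have hgf : av g = av f := by rw [havf f]
    have step1 : ∀ b, av (fun r => Real.exp (s * (F b r - g b)))
        ≤ Real.exp (s ^ 2 * (∑ i : Fin k, c i.succ ^ 2) / 2) := by
      intro b
      refine ih (F b) (fun i => c i.succ) ?_
      intro i r x
      have := hc i.succ (Fin.cons b r) x
      rwa [← Fin.cons_update] at this
    have step2 : av (fun b => Real.exp (s * (g b - av g))) ≤ Real.exp (s ^ 2 * c 0 ^ 2 / 2) := by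
      refine av_exp_le (fun b => g b - av g) (c 0) hc0 hg ?_ s
      rw [av_sub, av_const, sub_self]
    calc av (fun a => Real.exp (s * (f a - av f)))
        = av (fun b => av (fun r => Real.exp (s * (F b r - av f)))) := havf _
      _ = av (fun b => Real.exp (s * (g b - av g)) *
            av (fun r => Real.exp (s * (F b r - g b)))) := by
          congr 1
          funext b
          rw [← av_mul_left]
          congr 1
          funext r
          rw [← Real.exp_add, hgf]
          ring_nf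
      _ ≤ av (fun b => Real.exp (s * (g b - av g)) *
            Real.exp (s ^ 2 * (∑ i : Fin k, c i.succ ^ 2) / 2)) := by
          refine av_mono fun b => ?_
          exact mul_le_mul_of_nonneg_left (step1 b) (Real.exp_pos _).le
      _ = av (fun b => Real.exp (s * (g b - av g))) *
            Real.exp (s ^ 2 * (∑ i : Fin k, c i.succ ^ 2) / 2) := av_mul_right _ _
      _ ≤ Real.exp (s ^ 2 * c 0 ^ 2 / 2) *
            Real.exp (s ^ 2 * (∑ i : Fin k, c i.succ ^ 2) / 2) :=
          mul_le_mul_of_nonneg_right step2 (Real.exp_pos _).le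
      _ = Real.exp (s ^ 2 * (∑ i, c i ^ 2) / 2) := by
          rw [← Real.exp_add, Fin.sum_univ_succ]
          ring_nf

lemma mgf_le {ι α : Type*} [Fintype ι] [DecidableEq ι] [Fintype α] [Nonempty α] (f : (ι → α) → ℝ) (c : ι → ℝ)
    (hc : ∀ i a x, |f (Function.update a i x) - f a| ≤ c i) (s : ℝ) :
    av (fun a => Real.exp (s * (f a - av f))) ≤ Real.exp (s ^ 2 * (∑ i, c i ^ 2) / 2) := by
  let e : ι ≃ Fin (Fintype.card ι) := Fintype.equivFin ι
  let E : (Fin (Fintype.card ι) → α) ≃ (ι → α) := Equiv.arrowCongr e.symm (Equiv.refl α)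
  have hE : ∀ a i, E a i = a (e i) := by
    intro a i
    simp [E, Equiv.arrowCongr]
  have key := mgf_le_fin (α := α) s (Fintype.card ι) (fun a => f (E a)) (fun i => c (e.symm i)) ?_
  · have h1 : av (fun a => f (E a)) = av f := av_comp_equiv E f
    have h2 : av (fun a => Real.exp (s * (f (E a) - av f)))
        = av (fun a => Real.exp (s * (f a - av f))) :=
      av_comp_equiv E (fun a => Real.exp (s * (f a - av f)))
    rw [h1, h2] at key
    have h3 : ∑ i, c (e.symm i) ^ 2 = ∑ i, c i ^ 2 :=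
      Equiv.sum_comp e.symm (fun i => c i ^ 2)
    rwa [h3] at key
  · intro i a x
    have : E (Function.update a i x) = Function.update (E a) (e.symm i) x := by
      funext j
      rw [hE]
      by_cases hj : j = e.symm i
      · subst hj
        simp
      · rw [Function.update_of_ne hj, hE, Function.update_of_ne]
        intro h
        exact hj (by rw [← h]; simp)
    simp only [this]
    exact hc _ _ _

/-- Bounded differences inequality, upper tail. -/
theorem mcdiarmid_upper {ι α : Type*} [Fintype ι] [DecidableEq ι] [Fintype α] [Nonempty α] (f : (ι → α) → ℝ)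
    (c : ι → ℝ) (hc : ∀ i a x, |f (Function.update a i x) - f a| ≤ c i)
    (V : ℝ) (hV : 0 < V) (hcV : ∑ i, c i ^ 2 ≤ V) (t : ℝ) (ht : 0 ≤ t) :
    pr (fun a => av f + t ≤ f a) ≤ Real.exp (-(t ^ 2) / (2 * V)) := by
  set s : ℝ := t / V with hs
  have hs0 : 0 ≤ s := div_nonneg ht hV.le
  have h1 : pr (fun a => av f + t ≤ f a) ≤
      pr (fun a => Real.exp (s * t) ≤ Real.exp (s * (f a - av f))) := by
    refine pr_mono fun a ha => ?_
    apply Real.exp_le_exp.mpr
    exact mul_le_mul_of_nonneg_left (by linarith) hs0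
  have h2 := pr_le_av_div (f := fun a => Real.exp (s * (f a - av f)))
    (fun a => (Real.exp_pos _).le) (Real.exp_pos (s * t))
  have h3 := mgf_le f c hc s
  calc pr (fun a => av f + t ≤ f a) ≤ _ := h1
    _ ≤ _ := h2
    _ ≤ Real.exp (s ^ 2 * (∑ i, c i ^ 2) / 2) / Real.exp (s * t) := by gcongr
    _ ≤ Real.exp (s ^ 2 * V / 2) / Real.exp (s * t) := by gcongr
    _ = Real.exp (-(t ^ 2) / (2 * V)) := by
        rw [← Real.exp_sub]
        congr 1
        rw [hs]
        field_simp
        ring

/-- Bounded differences inequality, lower tail. -/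
theorem mcdiarmid_lower {ι α : Type*} [Fintype ι] [DecidableEq ι] [Fintype α] [Nonempty α] (f : (ι → α) → ℝ)
    (c : ι → ℝ) (hc : ∀ i a x, |f (Function.update a i x) - f a| ≤ c i)
    (V : ℝ) (hV : 0 < V) (hcV : ∑ i, c i ^ 2 ≤ V) (t : ℝ) (ht : 0 ≤ t) :
    pr (fun a => f a ≤ av f - t) ≤ Real.exp (-(t ^ 2) / (2 * V)) := by
  have := mcdiarmid_upper (fun a => - f a) c ?_ V hV hcV t ht
  · refine le_trans (pr_mono fun a ha => ?_) this
    rw [av_neg]
    linarith
  · intro i a x
    have h := hc i a x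
    rw [abs_sub_comm] at h
    convert h using 2
    ring

/-! ### Product events -/

lemma pr_pi {ι α : Type*} [Fintype ι] [DecidableEq ι] [Fintype α] [Nonempty α] (C : ι → Finset α) :
    pr (fun a : ι → α => ∀ i, a i ∈ C i) = ∏ i, ((C i).card : ℝ) / (Fintype.card α : ℝ) := by
  rw [pr_eq_card]
  have h1 : (@Finset.filter _ (fun a : ι → α => ∀ i, a i ∈ C i)
      (fun _ => Classical.propDecidable _) univ) = Fintype.piFinset C := by
    ext a; simp
  rw [h1, Fintype.card_piFinset, Fintype.card_fun, Finset.prod_div_distrib]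
  simp

end Cover
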