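import Pool.Agent.Cover.NumL

/-!
The union bound for lower tails is small.
-/

namespace Cover

open Filter

lemma lt_real (j J m : ℕ) (c x k n θ ε H : ℝ) (hJ1 : 1 ≤ J) (hJj : J ≤ j) (hc : 1 ≤ c)
    (hx : 1 ≤ x) (hk : 0 < k) (hkn : k ^ 2 ≤ n) (hε : 0 < ε) (hθ0 : 0 < θ)
    (hθx : θ * x ≤ 1) (hθ : 1 / θ ≤ 2 * x) (hm1 : 2 * (θ * (c * k)) ≤ m)
    (hm : (m : ℝ) ≤ 3 * (θ * (c * k)))
    (hH : H = j ^ 2 * DA j c / ε)
    (h1 : 2 ^ j * x ^ j ≤ k) (h2 : DA j c ≤ ε * x) :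
    (J ^ 2 * ((m : ℝ) ^ 2 * k ^ J * ((m : ℝ) / n) ^ (J - 1) *
        (k * ((m : ℝ) / n) + J * ((2 * (θ ^ 2 * (c * k))) / m)) ^ (J - 1) +
      n * k ^ J * ((m : ℝ) / n) ^ J *
        (k * ((m : ℝ) / n) + J) ^ (J - 1))) / (H * θ ^ J * k) +
      (n * k ^ J * ((m : ℝ) / n) ^ J *
        (k * ((m : ℝ) / n) + J) ^ J) / x + ε * θ ^ J * n ≤ 4 * ε * θ ^ J * n := by
  have hn : 0 < n := lt_of_lt_of_le (by positivity) hkn
  have hx0 : 0 < x := by linarith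
  have hj1 : 1 ≤ j := hJ1.trans hJj
  have hJj' : (J : ℝ) ≤ j := by exact_mod_cast hJj
  have hj1' : (1 : ℝ) ≤ j := by exact_mod_cast hj1
  have hJ0 : (0 : ℝ) < J := by exact_mod_cast hJ1
  have hc0 : 0 < c := by linarith
  have hθJ : 0 < θ ^ J := pow_pos hθ0 J
  have hm0 : (0 : ℝ) < m := lt_of_lt_of_le (by positivity) hm1
  set D : ℝ := (3 * c) ^ j * (3 * c + j) ^ j with hD
  have hD0 : 0 < D := by positivity
  have hDA : DA j c = 9 * c ^ 2 * D := rfl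
  have hDle : D ≤ DA j c := by
    rw [hDA]
    have h9 : 1 ≤ 9 * c ^ 2 := by nlinarith
    calc D = 1 * D := (one_mul _).symm
      _ ≤ 9 * c ^ 2 * D := by gcongr
  have hH0 : 0 < H := by rw [hH, hDA]; positivity
  have hHε : H * ε = j ^ 2 * DA j c := by rw [hH]; field_simp
  set y : ℝ := k * ((m : ℝ) / n) with hy
  have hy0 : 0 ≤ y := by positivity
  have hyle : y ≤ 3 * c * θ := by
    rw [hy, ← mul_div_assoc, div_le_iff₀ hn]
    calc k * m ≤ k * (3 * (θ * (c * k))) := by gcongr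
      _ = 3 * c * θ * k ^ 2 := by ring
      _ ≤ 3 * c * θ * n := by gcongr
  have hκ : (2 * (θ ^ 2 * (c * k))) / m ≤ θ := by
    rw [div_le_iff₀ hm0]
    calc 2 * (θ ^ 2 * (c * k)) = θ * (2 * (θ * (c * k))) := by ring
      _ ≤ θ * m := by gcongr
  have hpw1 : ∀ a ≤ j, (3 * c) ^ a ≤ (3 * c) ^ j := fun a ha =>
    pow_le_pow_right₀ (by linarith) ha
  have hpw2 : ∀ a ≤ j, (3 * c + J) ^ a ≤ (3 * c + j) ^ j := fun a ha => by
    calc (3 * c + J) ^ a ≤ (3 * c + j) ^ a := by gcongr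
      _ ≤ _ := pow_le_pow_right₀ (by linarith) ha
  have hθle : θ ≤ 1 := by nlinarith
  -- first term
  have A1 : (m : ℝ) ^ 2 * k ^ J * ((m : ℝ) / n) ^ (J - 1) *
        (y + J * ((2 * (θ ^ 2 * (c * k))) / m)) ^ (J - 1) ≤ DA j c * θ ^ (2 * J) * k ^ 3 := by
    have e1 : k ^ J * ((m : ℝ) / n) ^ (J - 1) = k * y ^ (J - 1) := by
      rw [hy, mul_pow]
      obtain ⟨J', rfl⟩ : ∃ J', J = J' + 1 := ⟨J - 1, by omega⟩
      rw [Nat.add_sub_cancel, pow_succ]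
      ring
    have e2 : y + J * ((2 * (θ ^ 2 * (c * k))) / m) ≤ (3 * c + J) * θ := by
      have : J * ((2 * (θ ^ 2 * (c * k))) / m) ≤ J * θ := by gcongr
      linarith
    have e3 : 0 ≤ y + J * ((2 * (θ ^ 2 * (c * k))) / m) := by positivity
    calc (m : ℝ) ^ 2 * k ^ J * ((m : ℝ) / n) ^ (J - 1) *
        (y + J * ((2 * (θ ^ 2 * (c * k))) / m)) ^ (J - 1)
        = (m : ℝ) ^ 2 * (k * y ^ (J - 1)) *
          (y + J * ((2 * (θ ^ 2 * (c * k))) / m)) ^ (J - 1) := by rw [← e1]; ring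
      _ ≤ (3 * (θ * (c * k))) ^ 2 * (k * (3 * c * θ) ^ (J - 1)) *
          ((3 * c + J) * θ) ^ (J - 1) := by gcongr
      _ = 9 * c ^ 2 * ((3 * c) ^ (J - 1) * (3 * c + J) ^ (J - 1)) *
          (θ ^ 2 * θ ^ (J - 1) * θ ^ (J - 1)) * k ^ 3 := by
          rw [mul_pow (3 * c) θ, mul_pow (3 * c + J) θ]
          ring
      _ ≤ 9 * c ^ 2 * ((3 * c) ^ j * (3 * c + j) ^ j) *
          (θ ^ 2 * θ ^ (J - 1) * θ ^ (J - 1)) * k ^ 3 := by
          have g1 := hpw1 (J - 1) (by omega)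
          have g2 := hpw2 (J - 1) (by omega)
          gcongr
      _ = _ := by
          have : θ ^ (2 * J) = θ ^ 2 * θ ^ (J - 1) * θ ^ (J - 1) := by
            rw [← pow_add, ← pow_add]
            congr 1
            omega
          rw [this, hDA]
  have B1 : n * k ^ J * ((m : ℝ) / n) ^ J * (y + J) ^ (J - 1) ≤ DA j c * θ ^ J * n := by
    have e1 : k ^ J * ((m : ℝ) / n) ^ J = y ^ J := by rw [hy, mul_pow]
    calc n * k ^ J * ((m : ℝ) / n) ^ J * (y + J) ^ (J - 1)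
        = n * y ^ J * (y + J) ^ (J - 1) := by rw [← e1]; ring
      _ ≤ n * (3 * c * θ) ^ J * (3 * c + J) ^ (J - 1) := by
          have : y ≤ 3 * c := by nlinarith
          gcongr
      _ = ((3 * c) ^ J * (3 * c + J) ^ (J - 1)) * θ ^ J * n := by rw [mul_pow]; ring
      _ ≤ D * θ ^ J * n := by
          have g1 := hpw1 J hJj
          have g2 := hpw2 (J - 1) (by omega)
          rw [hD]
          gcongr
      _ ≤ _ := by gcongr
  have C1 : n * k ^ J * ((m : ℝ) / n) ^ J * (y + J) ^ J ≤ DA j c * θ ^ J * n := by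
    have e1 : k ^ J * ((m : ℝ) / n) ^ J = y ^ J := by rw [hy, mul_pow]
    calc n * k ^ J * ((m : ℝ) / n) ^ J * (y + J) ^ J
        = n * y ^ J * (y + J) ^ J := by rw [← e1]; ring
      _ ≤ n * (3 * c * θ) ^ J * (3 * c + J) ^ J := by
          have : y ≤ 3 * c := by nlinarith
          gcongr
      _ = ((3 * c) ^ J * (3 * c + J) ^ J) * θ ^ J * n := by rw [mul_pow]; ring
      _ ≤ D * θ ^ J * n := by
          have g1 := hpw1 J hJj
          have g2 := hpw2 J hJj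
          rw [hD]
          gcongr
      _ ≤ _ := by gcongr
  have T1 : (J ^ 2 * ((m : ℝ) ^ 2 * k ^ J * ((m : ℝ) / n) ^ (J - 1) *
        (y + J * ((2 * (θ ^ 2 * (c * k))) / m)) ^ (J - 1) +
      n * k ^ J * ((m : ℝ) / n) ^ J * (y + J) ^ (J - 1))) / (H * θ ^ J * k) ≤
      2 * (ε * θ ^ J * n) := by
    rw [div_le_iff₀ (by positivity)]
    have hΘ : 1 ≤ θ ^ J * k := by
      have e1 : 1 / θ ^ J ≤ (2 * x) ^ j := by
        have e1 : 1 / θ ^ J = (1 / θ) ^ J := by rw [div_pow, one_pow]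
        rw [e1]
        have e2 : 0 ≤ 1 / θ := by positivity
        calc (1 / θ) ^ J ≤ (2 * x) ^ J := by gcongr
          _ ≤ (2 * x) ^ j := pow_le_pow_right₀ (by linarith) hJj
      rw [mul_pow] at e1
      have e2 : 1 / θ ^ J ≤ k := e1.trans h1
      rw [div_le_iff₀ hθJ] at e2
      linarith
    calc J ^ 2 * ((m : ℝ) ^ 2 * k ^ J * ((m : ℝ) / n) ^ (J - 1) *
        (y + J * ((2 * (θ ^ 2 * (c * k))) / m)) ^ (J - 1) +
      n * k ^ J * ((m : ℝ) / n) ^ J * (y + J) ^ (J - 1))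
        ≤ j ^ 2 * (DA j c * θ ^ (2 * J) * k ^ 3 + DA j c * θ ^ J * n) := by gcongr
      _ = (H * ε) * (θ ^ (2 * J) * k ^ 3 + θ ^ J * n) := by rw [hHε]; ring
      _ ≤ (H * ε) * (θ ^ (2 * J) * (k * n) + θ ^ J * n * (θ ^ J * k)) := by
          have e1 : k ^ 3 ≤ k * n := by
            calc k ^ 3 = k * k ^ 2 := by ring
              _ ≤ k * n := by gcongr
          have e2 : θ ^ J * n ≤ θ ^ J * n * (θ ^ J * k) := by
            have : 0 ≤ θ ^ J * n := by positivity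
            nlinarith
          gcongr
      _ = 2 * (ε * θ ^ J * n) * (H * θ ^ J * k) := by
          rw [pow_mul' θ 2 J]
          ring
  have T2 : (n * k ^ J * ((m : ℝ) / n) ^ J * (y + J) ^ J) / x ≤ ε * θ ^ J * n := by
    rw [div_le_iff₀ hx0]
    calc _ ≤ DA j c * θ ^ J * n := C1
      _ ≤ (ε * x) * θ ^ J * n := by gcongr
      _ = _ := by ring
  linarith

lemma lt_prob_real (j J m : ℕ) (c x k n θ ε H : ℝ) (hJj : J ≤ j) (hc : 1 ≤ c)
    (hx : 1 ≤ x) (hk : 0 < k) (hkn : k ^ 2 ≤ n) (hε : 0 < ε) (hθ0 : 0 < θ)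
    (hθx : θ * x ≤ 1) (hm : (m : ℝ) ≤ 3 * (θ * (c * k))) (hH : 0 < H)
    (h1 : 12 * c * j * (H ^ 2 / ε ^ 2) * Real.log (n + 1) ≤ x)
    (h2 : 4 * (H ^ 2 / ε ^ 2) * x ≤ k) :
    ((n + 1) ^ m) ^ J * Real.exp (-((ε * θ ^ J * n) ^ 2) / (2 * (k * (H * θ ^ J * k) ^ 2))) ≤
      Real.exp (-x) := by
  have hn : 0 < n := lt_of_lt_of_le (by positivity) hkn
  have hx0 : 0 < x := by linarith
  have hJj' : (J : ℝ) ≤ j := by exact_mod_cast hJj
  have hθJ : 0 < θ ^ J := pow_pos hθ0 J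
  have hlog0 : 0 ≤ Real.log (n + 1) := Real.log_nonneg (by linarith)
  have h3 : ((n + 1) ^ m) ^ J = Real.exp (m * J * Real.log (n + 1)) := by
    rw [← pow_mul]
    have h3 := Real.exp_nat_mul (Real.log (n + 1)) (m * J)
    rw [Real.exp_log (by linarith)] at h3
    rw [← h3]
    push_cast
    rfl
  set c₂ : ℝ := ε ^ 2 / (4 * H ^ 2) with hc₂
  have hc₂0 : 0 < c₂ := by positivity
  have hinv : H ^ 2 / ε ^ 2 = 1 / (4 * c₂) := by rw [hc₂]; field_simp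
  have h4 : 2 * c₂ * k ≤ (ε * θ ^ J * n) ^ 2 / (2 * (k * (H * θ ^ J * k) ^ 2)) := by
    rw [le_div_iff₀ (by positivity)]
    have e1 : k ^ 4 ≤ n ^ 2 := by
      calc k ^ 4 = (k ^ 2) ^ 2 := by ring
        _ ≤ n ^ 2 := by gcongr
    calc 2 * c₂ * k * (2 * (k * (H * θ ^ J * k) ^ 2))
        = ε ^ 2 * (θ ^ J) ^ 2 * k ^ 4 := by
          rw [hc₂]
          field_simp
          ring
      _ ≤ ε ^ 2 * (θ ^ J) ^ 2 * n ^ 2 := by gcongr
      _ = _ := by ring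
  rw [hinv] at h1 h2
  rw [h3, ← Real.exp_add]
  apply Real.exp_le_exp.mpr
  have h5 : m * J * Real.log (n + 1) ≤ c₂ * k := by
    have e1 : m * J * Real.log (n + 1) * x ≤ c₂ * k * x := by
      calc m * J * Real.log (n + 1) * x ≤ (3 * (θ * (c * k))) * j * Real.log (n + 1) * x := by
            gcongr
        _ = (3 * c * j * Real.log (n + 1)) * k * (θ * x) := by ring
        _ ≤ (3 * c * j * Real.log (n + 1)) * k * 1 := by gcongr
        _ = (12 * c * j * (1 / (4 * c₂)) * Real.log (n + 1)) * (c₂ * k) := by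
            field_simp
            ring
        _ ≤ x * (c₂ * k) := by gcongr
        _ = _ := by ring
    exact le_of_mul_le_mul_right e1 hx0
  have h6 : x ≤ c₂ * k := by
    have : 4 * (1 / (4 * c₂)) * x * c₂ ≤ k * c₂ := by gcongr
    have e5 : 4 * (1 / (4 * c₂)) * x * c₂ = x := by field_simp
    linarith
  rw [neg_div]
  linarith

variable {ι : Type*} {F : Filter ι} {n k q : ι → ℕ} {E : ℕ}

lemma lt_ev {j : ℕ} (h : Env F n k q (EE0 j)) (hj : 1 ≤ j) (C' : ℕ) (hC : 1 ≤ C') (ε : ℝ)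
    (hε : 0 < ε) :
    ∀ᶠ i in F, 0 < mm C' (k i) (q i) ∧
      ∀ J, 1 ≤ J → J ≤ j →
      ((J ^ 2 * ((mm C' (k i) (q i) : ℝ) ^ 2 * (k i : ℝ) ^ J *
          ((mm C' (k i) (q i) : ℝ) / n i) ^ (J - 1) *
          (k i * ((mm C' (k i) (q i) : ℝ) / n i) + J * ((2 * (th (q i) ^ 2 * (C' * k i))) /
            mm C' (k i) (q i))) ^ (J - 1) +
        n i * (k i : ℝ) ^ J * ((mm C' (k i) (q i) : ℝ) / n i) ^ J *
          (k i * ((mm C' (k i) (q i) : ℝ) / n i) + J) ^ (J - 1))) /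
            ((j ^ 2 * DA j C' / ε) * th (q i) ^ J * k i) +
        (n i * (k i : ℝ) ^ J * ((mm C' (k i) (q i) : ℝ) / n i) ^ J *
          (k i * ((mm C' (k i) (q i) : ℝ) / n i) + J) ^ J) / q i + ε * th (q i) ^ J * n i ≤
        4 * ε * th (q i) ^ J * n i) ∧
      (((n i : ℝ) + 1) ^ (mm C' (k i) (q i))) ^ J *
        Real.exp (-((ε * th (q i) ^ J * n i) ^ 2) /
          (2 * (k i * ((j ^ 2 * DA j C' / ε) * th (q i) ^ J * k i) ^ 2))) ≤
        Real.exp (-(q i : ℝ)) := by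
  have hE : 0 < EE0 j := by unfold EE0; omega
  have hC1 : (1 : ℝ) ≤ C' := by exact_mod_cast hC
  have hj1 : (1 : ℝ) ≤ j := by exact_mod_cast hj
  have hDA : 0 < DA j C' := by unfold DA; positivity
  set H : ℝ := j ^ 2 * DA j C' / ε with hH
  have hH0 : 0 < H := by positivity
  filter_upwards [h.q_ge 1, h.k_ge hE 1, h.sq_le,
    h.mul_pow_le 2 1 (by unfold EE0; omega),
    h.mul_pow_le (2 ^ j) j (by unfold EE0; omega),
    h.mul_pow_le (4 * (H ^ 2 / ε ^ 2)) 1 (by unfold EE0; omega),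
    h.log_le (12 * C' * j * (H ^ 2 / ε ^ 2)), h.q_ge (DA j C' / ε)]
    with i g1 g2 g3 g4 g5 g6 g7 g8
  have hq0 : (0 : ℝ) < q i := by linarith
  have hk0 : (0 : ℝ) < k i := by linarith
  have hkn : (k i : ℝ) ^ 2 ≤ n i := by exact_mod_cast g3
  rw [pow_one] at g4 g6
  have hth : 1 ≤ th (q i) * (C' * k i) := by
    apply th_mul_ge _ _ _ le_rfl g1
    nlinarith
  have hm3 := mm_le C' (k i) (q i) hth
  have hm2 := le_mm C' (k i) (q i)
  refine ⟨?_, fun J hJ1 hJj => ⟨?_, ?_⟩⟩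
  · have : (0 : ℝ) < mm C' (k i) (q i) := by linarith
    exact_mod_cast this
  · exact lt_real j J _ C' (q i) (k i) (n i) (th (q i)) ε H hJ1 hJj hC1 g1 hk0 hkn hε (th_pos _)
      (th_mul_le_one _) (th_inv_le _ _ le_rfl g1) hm2 hm3 hH g5
      (by rw [div_le_iff₀ hε] at g8; linarith)
  · refine lt_prob_real j J _ C' (q i) (k i) (n i) (th (q i)) ε H hJj hC1 g1 hk0 hkn hε
      (th_pos _) (th_mul_le_one _) hm3 hH0 ?_ g6
    refine le_trans ?_ g7
    have : 0 ≤ 12 * (C' : ℝ) * j * (H ^ 2 / ε ^ 2) := by positivity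
    gcongr
    linarith

end Cover
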