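import Pool.Agent.Cover.NumU

/-!
The union bound for upper tails is small.
-/

namespace Cover

open Filter

lemma ut_real (j J m r : ℕ) (c x k n θ ε : ℝ) (hJj : J ≤ j) (hc : 1 ≤ c)
    (hx : 1 ≤ x) (hk : 0 < k) (hkn : k ^ 2 ≤ n) (hε : 0 < ε) (hθ0 : 0 < θ)
    (hθ : θ * x ^ (j ^ 2 + 1) ≤ 1) (hm : (m : ℝ) ≤ 3 * (θ * (c * k)))
    (hr : k ≤ r * x ^ (j ^ 2))
    (hlog : 6 * c * j * (((3 * c) ^ j + ε) / ε) * Real.log (n + 1) ≤ x)
    (hk2 : 2 * (((3 * c) ^ j + ε) / ε) * x ^ (j ^ 2 + 1) ≤ k) :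
    ((n + 1) ^ m) ^ J * (n * (k * m / n) ^ J / (n * (k * m / n) ^ J + ε * θ ^ J * n)) ^ r ≤
      Real.exp (-x) := by
  have hn : 0 < n := lt_of_lt_of_le (by positivity) hkn
  have hx0 : 0 < x := by linarith
  have hJj' : (J : ℝ) ≤ j := by exact_mod_cast hJj
  set D : ℝ := (3 * c) ^ j with hD
  have hD0 : 0 < D := by positivity
  set c₁ : ℝ := ε / (D + ε) with hc₁
  have hc₁0 : 0 < c₁ := by positivity
  have hinv : (D + ε) / ε = 1 / c₁ := by rw [hc₁, one_div_div]
  rw [hinv] at hlog hk2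
  have hlog0 : 0 ≤ Real.log (n + 1) := Real.log_nonneg (by linarith)
  set M : ℝ := n * (k * m / n) ^ J with hM
  have hM0 : 0 ≤ M := by positivity
  have hMle : M ≤ n * θ ^ J * D := by
    have e1 : k * m / n ≤ 3 * c * θ := by
      rw [div_le_iff₀ hn]
      calc k * m ≤ k * (3 * (θ * (c * k))) := by gcongr
        _ = 3 * c * θ * k ^ 2 := by ring
        _ ≤ 3 * c * θ * n := by gcongr
    calc M ≤ n * (3 * c * θ) ^ J := by
          rw [hM]
          have : 0 ≤ k * m / n := by positivity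
          gcongr
      _ = n * θ ^ J * (3 * c) ^ J := by rw [mul_pow]; ring
      _ ≤ n * θ ^ J * (3 * c) ^ j := by
          have : (3 * c) ^ J ≤ (3 * c) ^ j := pow_le_pow_right₀ (by linarith) hJj
          gcongr
  have hδ0 : 0 < ε * θ ^ J * n := by positivity
  have hratio : M / (M + ε * θ ^ J * n) ≤ Real.exp (-c₁) := by
    have e1 : M / (M + ε * θ ^ J * n) ≤ 1 - c₁ := by
      rw [div_le_iff₀ (by positivity)]
      have e2 : c₁ * (D + ε) = ε := by rw [hc₁]; field_simp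
      have e3 : c₁ * (M + ε * θ ^ J * n) ≤ ε * θ ^ J * n := by
        calc c₁ * (M + ε * θ ^ J * n) ≤ c₁ * (n * θ ^ J * D + ε * θ ^ J * n) := by gcongr
          _ = (c₁ * (D + ε)) * (θ ^ J * n) := by ring
          _ = ε * θ ^ J * n := by rw [e2]; ring
      linarith
    refine e1.trans ?_
    have := Real.add_one_le_exp (-c₁)
    linarith
  have h1 : (M / (M + ε * θ ^ J * n)) ^ r ≤ Real.exp (-(c₁ * r)) := by
    calc (M / (M + ε * θ ^ J * n)) ^ r ≤ (Real.exp (-c₁)) ^ r := by gcongr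
      _ = _ := by
          rw [← Real.exp_nat_mul]
          congr 1
          ring
  have h2 : ((n + 1) ^ m) ^ J = Real.exp (m * J * Real.log (n + 1)) := by
    rw [← pow_mul]
    have h3 := Real.exp_nat_mul (Real.log (n + 1)) (m * J)
    rw [Real.exp_log (by linarith)] at h3
    rw [← h3]
    push_cast
    rfl
  rw [h2]
  calc Real.exp (m * J * Real.log (n + 1)) * (M / (M + ε * θ ^ J * n)) ^ r
      ≤ Real.exp (m * J * Real.log (n + 1)) * Real.exp (-(c₁ * r)) := by gcongr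
    _ = Real.exp (m * J * Real.log (n + 1) + -(c₁ * r)) := by rw [Real.exp_add]
    _ ≤ Real.exp (-x) := by
        apply Real.exp_le_exp.mpr
        -- `m J log ≤ (c₁ / 2) k / x ^ (j²)`
        have hxj : 0 < x ^ (j ^ 2) := by positivity
        have e1 : m * J * Real.log (n + 1) * x ^ (j ^ 2 + 1) ≤ c₁ / 2 * k * x := by
          calc m * J * Real.log (n + 1) * x ^ (j ^ 2 + 1)
              ≤ (3 * (θ * (c * k))) * j * Real.log (n + 1) * x ^ (j ^ 2 + 1) := by gcongr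
            _ = (3 * c * j * Real.log (n + 1)) * k * (θ * x ^ (j ^ 2 + 1)) := by ring
            _ ≤ (3 * c * j * Real.log (n + 1)) * k * 1 := by gcongr
            _ = (6 * c * j * (1 / c₁) * Real.log (n + 1)) * (c₁ / 2 * k) := by
                field_simp
                ring
            _ ≤ x * (c₁ / 2 * k) := by gcongr
            _ = _ := by ring
        have e2 : m * J * Real.log (n + 1) * x ^ (j ^ 2) ≤ c₁ / 2 * k := by
          have : m * J * Real.log (n + 1) * x ^ (j ^ 2) * x ≤ c₁ / 2 * k * x := by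
            calc _ = m * J * Real.log (n + 1) * x ^ (j ^ 2 + 1) := by ring
              _ ≤ _ := e1
          exact le_of_mul_le_mul_right this hx0
        have e3 : c₁ * k ≤ c₁ * r * x ^ (j ^ 2) := by
          rw [mul_assoc]
          gcongr
        have e4 : x * x ^ (j ^ 2) ≤ c₁ / 2 * k := by
          have : 2 * (1 / c₁) * x ^ (j ^ 2 + 1) * (c₁ / 2) ≤ k * (c₁ / 2) := by gcongr
          have e5 : 2 * (1 / c₁) * x ^ (j ^ 2 + 1) * (c₁ / 2) = x * x ^ (j ^ 2) := by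
            field_simp
            ring
          linarith
        have e5 : (m * J * Real.log (n + 1) + -(c₁ * r)) * x ^ (j ^ 2) ≤ (-x) * x ^ (j ^ 2) := by
          linarith
        exact le_of_mul_le_mul_right e5 hxj

variable {ι : Type*} {F : Filter ι} {n k q : ι → ℕ} {E : ℕ}

lemma mm_le (C' k N : ℕ) (h : 1 ≤ th N * (C' * k)) :
    (mm C' k N : ℝ) ≤ 3 * (th N * (C' * k)) := by
  unfold mm
  have h0 : 0 ≤ 2 * (th N * (C' * k)) := by linarith
  have := Nat.ceil_lt_add_one h0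
  linarith

lemma le_mm (C' k N : ℕ) : 2 * (th N * (C' * k)) ≤ (mm C' k N : ℝ) := Nat.le_ceil _

lemma th_mul_ge (N : ℕ) (y z : ℝ) (hy : (N : ℝ) ≤ y) (h1 : 1 ≤ y) (hz : 2 * y ≤ z) :
    1 ≤ th N * z := by
  have h2 := th_inv_le N y hy h1
  have h3 := th_pos N
  rw [div_le_iff₀ h3] at h2
  nlinarith

lemma th_mul_le_one (N : ℕ) : th N * N ≤ 1 := by
  unfold th
  rw [div_mul_eq_mul_div, div_le_one (by positivity)]
  linarith

lemma ut_ev {j : ℕ} (h : Env F n k q (EE0 j)) (C' : ℕ) (hC : 1 ≤ C') (ε : ℝ) (hε : 0 < ε) :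
    ∀ᶠ i in F, ∀ J ≤ j,
      (((n i : ℝ) + 1) ^ (mm C' (k i) (NU j (q i)))) ^ J *
        ((n i : ℝ) * (k i * (mm C' (k i) (NU j (q i)) : ℝ) / n i) ^ J /
          ((n i : ℝ) * (k i * (mm C' (k i) (NU j (q i)) : ℝ) / n i) ^ J +
            ε * th (NU j (q i)) ^ J * n i)) ^ (rU j (q i) (k i)) ≤ Real.exp (-(q i : ℝ)) := by
  have hE : 0 < EE0 j := by unfold EE0; omega
  filter_upwards [h.q_ge 1, h.k_ge hE 1, h.sq_le,
    h.mul_pow_le (2 * (((3 * C') ^ j + ε) / ε)) (j ^ 2 + 1) (by unfold EE0; omega),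
    h.mul_pow_le 2 (j ^ 2 + 1) (by unfold EE0; omega),
    h.log_le (6 * C' * j * (((3 * C') ^ j + ε) / ε))] with i g1 g2 g3 g4 g5 g6
  intro J hJj
  have hq0 : (0 : ℝ) < q i := by linarith
  have hk0 : (0 : ℝ) < k i := by linarith
  have hkn : (k i : ℝ) ^ 2 ≤ n i := by exact_mod_cast g3
  have hC1 : (1 : ℝ) ≤ C' := by exact_mod_cast hC
  have hNU : ((NU j (q i) : ℕ) : ℝ) = (q i : ℝ) ^ (j ^ 2 + 1) := by unfold NU; push_cast; rfl
  have h1q : (1 : ℝ) ≤ (q i : ℝ) ^ (j ^ 2 + 1) := one_le_pow₀ g1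
  refine ut_real j J _ _ C' (q i) (k i) (n i) (th (NU j (q i))) ε hJj hC1 g1 hk0 hkn hε
    (th_pos _) ?_ (mm_le _ _ _ ?_) ?_ ?_ g4
  · rw [← hNU]; exact th_mul_le_one _
  · apply th_mul_ge _ _ _ (le_of_eq hNU) h1q
    nlinarith
  · unfold rU
    push_cast
    have e1 : k i < (k i / q i ^ (j ^ 2) + 1) * q i ^ (j ^ 2) := by
      have e2 : 0 < q i ^ (j ^ 2) := by
        have : 0 < q i := by exact_mod_cast hq0
        positivity
      have := Nat.div_add_mod (k i) (q i ^ (j ^ 2))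
      have h2 := Nat.mod_lt (k i) e2
      calc k i = q i ^ (j ^ 2) * (k i / q i ^ (j ^ 2)) + k i % q i ^ (j ^ 2) := this.symm
        _ < q i ^ (j ^ 2) * (k i / q i ^ (j ^ 2)) + q i ^ (j ^ 2) := by omega
        _ = _ := by ring
    exact_mod_cast e1.le
  · refine le_trans ?_ g6
    have : 0 ≤ 6 * (C' : ℝ) * j * (((3 * C') ^ j + ε) / ε) := by positivity
    gcongr
    linarith

end Cover
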