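import Pool.Agent.Cover.Deletion

/-!
A robust lower tail: with overwhelming probability there is a large subfamily of the occurring
events with bounded degrees.
-/

namespace Cover

open Finset
open scoped Classical

set_option linter.unusedSectionVars false

variable {ι α τ V : Type*} [Fintype ι] [DecidableEq ι] [Fintype α] [Nonempty α] [Fintype τ] [Fintype V]

/-- The occurring events. -/
noncomputable def Occ (C : τ → ι → Finset α) (a : ι → α) : Finset τ :=
  univ.filter fun t => ∀ i, a i ∈ C t i

lemma mem_Occ {C : τ → ι → Finset α} {a : ι → α} {t : τ} :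
    t ∈ Occ C a ↔ ∀ i, a i ∈ C t i := by
  simp [Occ]

/-- A family of events whose degrees are bounded by `h` at every coordinate and by `h'` at every
point of `V`. -/
def Bdd (supp : τ → Finset ι) (vx : τ → V) (h h' : ℝ) (F : Finset τ) : Prop :=
  (∀ i, ((F.filter fun t => i ∈ supp t).card : ℝ) ≤ h) ∧
    ∀ v, ((F.filter fun t => vx t = v).card : ℝ) ≤ h'

lemma Bdd.mono {supp : τ → Finset ι} {vx : τ → V} {h h' : ℝ} {F F' : Finset τ}
    (hF : Bdd supp vx h h' F) (hs : F' ⊆ F) : Bdd supp vx h h' F' := by
  refine ⟨fun i => le_trans ?_ (hF.1 i), fun v => le_trans ?_ (hF.2 v)⟩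
  · exact_mod_cast Finset.card_le_card (Finset.filter_subset_filter _ hs)
  · exact_mod_cast Finset.card_le_card (Finset.filter_subset_filter _ hs)

/-- The largest size of a bounded-degree subfamily of the occurring events. -/
noncomputable def Mx (supp : τ → Finset ι) (vx : τ → V) (C : τ → ι → Finset α) (h h' : ℝ)
    (a : ι → α) : ℕ :=
  ((Occ C a).powerset.filter fun F => Bdd supp vx h h' F).sup Finset.card

lemma le_Mx {supp : τ → Finset ι} {vx : τ → V} {C : τ → ι → Finset α} {h h' : ℝ}
    {a : ι → α} {F : Finset τ} (hF : F ⊆ Occ C a) (hb : Bdd supp vx h h' F) :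
    F.card ≤ Mx supp vx C h h' a := by
  unfold Mx
  exact Finset.le_sup (f := Finset.card) (by simp [hF, hb])

lemma exists_Mx (supp : τ → Finset ι) (vx : τ → V) (C : τ → ι → Finset α) {h h' : ℝ}
    (hh : 0 ≤ h) (hh' : 0 ≤ h') (a : ι → α) :
    ∃ F : Finset τ, F ⊆ Occ C a ∧ Bdd supp vx h h' F ∧ F.card = Mx supp vx C h h' a := by
  have hne : ((Occ C a).powerset.filter fun F => Bdd supp vx h h' F).Nonempty := by
    refine ⟨∅, ?_⟩
    simp only [Finset.mem_filter, Finset.mem_powerset, Finset.empty_subset, true_and]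
    exact ⟨fun i => by simpa using hh, fun v => by simpa using hh'⟩
  obtain ⟨F, hF, hFe⟩ := Finset.exists_mem_eq_sup _ hne Finset.card
  rw [Finset.mem_filter, Finset.mem_powerset] at hF
  exact ⟨F, hF.1, hF.2, hFe.symm⟩

lemma Mx_lipschitz_aux (supp : τ → Finset ι) (vx : τ → V) (C : τ → ι → Finset α)
    (hC : ∀ t, ∀ i ∉ supp t, C t i = univ) {h h' : ℝ}
    (hh : 0 ≤ h) (hh' : 0 ≤ h') (a b : ι → α) (i : ι) (hab : ∀ j, j ≠ i → a j = b j) :
    (Mx supp vx C h h' a : ℝ) - h ≤ Mx supp vx C h h' b := by
  obtain ⟨F, hF, hb, hc⟩ := exists_Mx supp vx C hh hh' a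
  have h1 : (F.filter fun t => i ∉ supp t) ⊆ Occ C b := by
    intro t ht
    rw [Finset.mem_filter] at ht
    rw [mem_Occ]
    intro j
    by_cases hj : j = i
    · subst hj
      rw [hC t j ht.2]
      exact Finset.mem_univ _
    · rw [← hab j hj]
      exact mem_Occ.mp (hF ht.1) j
  have h2 := le_Mx h1 (hb.mono (Finset.filter_subset _ _))
  have h3 : (F.filter fun t => i ∈ supp t).card + (F.filter fun t => i ∉ supp t).card = F.card :=
    Finset.card_filter_add_card_filter_not _
  have h4 := hb.1 i
  have h5 : ((F.filter fun t => i ∈ supp t).card : ℝ) +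
      ((F.filter fun t => i ∉ supp t).card : ℝ) = (F.card : ℝ) := by exact_mod_cast h3
  have h6 : ((F.filter fun t => i ∉ supp t).card : ℝ) ≤ (Mx supp vx C h h' b : ℝ) := by
    exact_mod_cast h2
  rw [← hc]
  linarith

lemma Mx_lipschitz (supp : τ → Finset ι) (vx : τ → V) (C : τ → ι → Finset α)
    (hC : ∀ t, ∀ i ∉ supp t, C t i = univ) {h h' : ℝ}
    (hh : 0 ≤ h) (hh' : 0 ≤ h') (i : ι) (a : ι → α) (x : α) :
    |(Mx supp vx C h h' (Function.update a i x) : ℝ) - Mx supp vx C h h' a| ≤ h := by
  have h1 := Mx_lipschitz_aux supp vx C hC hh hh' (Function.update a i x) a i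
    (fun j hj => Function.update_of_ne hj _ _)
  have h2 := Mx_lipschitz_aux supp vx C hC hh hh' a (Function.update a i x) i
    (fun j hj => (Function.update_of_ne hj _ _).symm)
  rw [abs_le]
  constructor <;> linarith

/-- Degrees. -/
noncomputable def degI (supp : τ → Finset ι) (C : τ → ι → Finset α) (a : ι → α) (i : ι) : ℕ :=
  ((Occ C a).filter fun t => i ∈ supp t).card

noncomputable def degV (vx : τ → V) (C : τ → ι → Finset α) (a : ι → α) (v : V) : ℕ :=
  ((Occ C a).filter fun t => vx t = v).card

lemma Mx_ge (supp : τ → Finset ι) (vx : τ → V) (C : τ → ι → Finset α) {h h' : ℝ}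
    (hh : 0 < h) (hh' : 0 < h') (a : ι → α) :
    ((Occ C a).card : ℝ) - (∑ i, (degI supp C a i : ℝ) ^ 2) / h -
      (∑ v, (degV vx C a v : ℝ) ^ 2) / h' ≤ Mx supp vx C h h' a := by
  set X := Occ C a with hX
  let F : Finset τ := X.filter fun t =>
    (∀ i ∈ supp t, (degI supp C a i : ℝ) ≤ h) ∧ (degV vx C a (vx t) : ℝ) ≤ h'
  have hFX : F ⊆ X := Finset.filter_subset _ _
  have hb : Bdd supp vx h h' F := by
    constructor
    · intro i
      by_cases hi : (degI supp C a i : ℝ) ≤ h
      · refine le_trans ?_ hi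
        exact_mod_cast Finset.card_le_card (Finset.filter_subset_filter _ hFX)
      · have : (F.filter fun t => i ∈ supp t) = ∅ := by
          refine Finset.filter_eq_empty_iff.mpr fun t ht hti => hi ?_
          exact ((Finset.mem_filter.mp ht).2.1) i hti
        rw [this]
        simpa using hh.le
    · intro v
      by_cases hv : (degV vx C a v : ℝ) ≤ h'
      · refine le_trans ?_ hv
        exact_mod_cast Finset.card_le_card (Finset.filter_subset_filter _ hFX)
      · have : (F.filter fun t => vx t = v) = ∅ := by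
          refine Finset.filter_eq_empty_iff.mpr fun t ht htv => hv ?_
          have := (Finset.mem_filter.mp ht).2.2
          rwa [htv] at this
        rw [this]
        simpa using hh'.le
  have h1 : (F.card : ℝ) ≤ Mx supp vx C h h' a := by exact_mod_cast le_Mx hFX hb
  refine le_trans ?_ h1
  -- removed elements
  have h2 : X ⊆ F ∪ ((univ.filter fun i => h < (degI supp C a i : ℝ)).biUnion
      (fun i => X.filter fun t => i ∈ supp t)) ∪
      ((univ.filter fun v => h' < (degV vx C a v : ℝ)).biUnion
      (fun v => X.filter fun t => vx t = v)) := by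
    intro t ht
    by_cases hc1 : ∃ i ∈ supp t, h < (degI supp C a i : ℝ)
    · obtain ⟨i, hi, hi'⟩ := hc1
      apply Finset.mem_union_left
      apply Finset.mem_union_right
      rw [Finset.mem_biUnion]
      exact ⟨i, by simp [hi'], by simp [ht, hi]⟩
    · push Not at hc1
      by_cases hc2 : h' < (degV vx C a (vx t) : ℝ)
      · apply Finset.mem_union_right
        rw [Finset.mem_biUnion]
        exact ⟨vx t, by simp [hc2], by simp [ht]⟩
      · push Not at hc2
        apply Finset.mem_union_left
        apply Finset.mem_union_left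
        exact Finset.mem_filter.mpr ⟨ht, hc1, hc2⟩
  have h3 := (Finset.card_le_card h2).trans (Finset.card_union_le _ _)
  have h4 := Finset.card_union_le F ((univ.filter fun i => h < (degI supp C a i : ℝ)).biUnion
      (fun i => X.filter fun t => i ∈ supp t))
  have h5 : (((univ.filter fun i => h < (degI supp C a i : ℝ)).biUnion
      (fun i => X.filter fun t => i ∈ supp t)).card : ℝ) ≤
      (∑ i, (degI supp C a i : ℝ) ^ 2) / h := by
    calc (((univ.filter fun i => h < (degI supp C a i : ℝ)).biUnion
      (fun i => X.filter fun t => i ∈ supp t)).card : ℝ)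
        ≤ ∑ i ∈ (univ.filter fun i => h < (degI supp C a i : ℝ)), (degI supp C a i : ℝ) := by
          exact_mod_cast Finset.card_biUnion_le
      _ ≤ ∑ i ∈ (univ.filter fun i => h < (degI supp C a i : ℝ)),
            (degI supp C a i : ℝ) ^ 2 / h := by
          refine Finset.sum_le_sum fun i hi => ?_
          have hi' : h < (degI supp C a i : ℝ) := (Finset.mem_filter.mp hi).2
          rw [le_div_iff₀ hh, sq]
          exact mul_le_mul_of_nonneg_left hi'.le (by positivity)
      _ ≤ ∑ i, (degI supp C a i : ℝ) ^ 2 / h := by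
          refine Finset.sum_le_sum_of_subset_of_nonneg (Finset.filter_subset _ _) ?_
          intro i _ _
          positivity
      _ = _ := by rw [Finset.sum_div]
  have h6 : (((univ.filter fun v => h' < (degV vx C a v : ℝ)).biUnion
      (fun v => X.filter fun t => vx t = v)).card : ℝ) ≤
      (∑ v, (degV vx C a v : ℝ) ^ 2) / h' := by
    calc (((univ.filter fun v => h' < (degV vx C a v : ℝ)).biUnion
      (fun v => X.filter fun t => vx t = v)).card : ℝ)
        ≤ ∑ v ∈ (univ.filter fun v => h' < (degV vx C a v : ℝ)), (degV vx C a v : ℝ) := by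
          exact_mod_cast Finset.card_biUnion_le
      _ ≤ ∑ v ∈ (univ.filter fun v => h' < (degV vx C a v : ℝ)),
            (degV vx C a v : ℝ) ^ 2 / h' := by
          refine Finset.sum_le_sum fun v hv => ?_
          have hv' : h' < (degV vx C a v : ℝ) := (Finset.mem_filter.mp hv).2
          rw [le_div_iff₀ hh', sq]
          exact mul_le_mul_of_nonneg_left hv'.le (by positivity)
      _ ≤ ∑ v, (degV vx C a v : ℝ) ^ 2 / h' := by
          refine Finset.sum_le_sum_of_subset_of_nonneg (Finset.filter_subset _ _) ?_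
          intro i _ _
          positivity
      _ = _ := by rw [Finset.sum_div]
  have h7 : (X.card : ℝ) ≤ (F.card : ℝ) + (((univ.filter fun i => h <
      (degI supp C a i : ℝ)).biUnion (fun i => X.filter fun t => i ∈ supp t)).card : ℝ) +
      (((univ.filter fun v => h' < (degV vx C a v : ℝ)).biUnion
      (fun v => X.filter fun t => vx t = v)).card : ℝ) := by
    exact_mod_cast h3.trans (Nat.add_le_add_right h4 _)
  linarith

/-- Robust lower tail. -/
theorem robust_lower (supp : τ → Finset ι) (vx : τ → V) (C : τ → ι → Finset α)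
    (hC : ∀ t, ∀ i ∉ supp t, C t i = univ) {h h' : ℝ} (hh : 0 < h) (hh' : 0 < h')
    [Nonempty ι] (B t : ℝ) (ht : 0 ≤ t)
    (hB : (∑ i, av (fun a => (degI supp C a i : ℝ) ^ 2)) / h +
      (∑ v, av (fun a => (degV vx C a v : ℝ) ^ 2)) / h' ≤ B) :
    pr (fun a : ι → α => ¬ ∃ F : Finset τ, F ⊆ Occ C a ∧ Bdd supp vx h h' F ∧
      (∑ t, pr (fun a : ι → α => ∀ i, a i ∈ C t i)) - B - t < (F.card : ℝ)) ≤
      Real.exp (-(t ^ 2) / (2 * ((Fintype.card ι : ℝ) * h ^ 2))) := by
  have hcard : (0 : ℝ) < (Fintype.card ι : ℝ) := by exact_mod_cast Fintype.card_pos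
  have hmc := mcdiarmid_lower (fun a => (Mx supp vx C h h' a : ℝ)) (fun _ => h)
    (fun i a x => Mx_lipschitz supp vx C hC hh.le hh'.le i a x)
    ((Fintype.card ι : ℝ) * h ^ 2) (by positivity) (by simp) t ht
  refine le_trans (pr_mono fun a ha => ?_) hmc
  have hav : (∑ t, pr (fun a : ι → α => ∀ i, a i ∈ C t i)) - B ≤
      av (fun a => (Mx supp vx C h h' a : ℝ)) := by
    have h1 : av (fun a => ((Occ C a).card : ℝ) - (∑ i, (degI supp C a i : ℝ) ^ 2) / h -
      (∑ v, (degV vx C a v : ℝ) ^ 2) / h') ≤ av (fun a => (Mx supp vx C h h' a : ℝ)) :=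
      av_mono fun a => Mx_ge supp vx C hh hh' a
    refine le_trans ?_ h1
    rw [av_sub, av_sub]
    have h2 : av (fun a => ((Occ C a).card : ℝ)) =
        ∑ t, pr (fun a : ι → α => ∀ i, a i ∈ C t i) := by
      have e : ∀ t, pr (fun a : ι → α => ∀ i, a i ∈ C t i) =
          av (fun a => if t ∈ Occ C a then (1 : ℝ) else 0) := by
        intro t
        unfold pr
        congr 1
        funext a
        by_cases h0 : ∀ i, a i ∈ C t i
        · simp [mem_Occ, h0]
        · simp [mem_Occ, h0]
      simp_rw [e]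
      rw [← av_sum]
      congr 1
      funext a
      simp
    have h3 : av (fun a => (∑ i, (degI supp C a i : ℝ) ^ 2) / h) =
        (∑ i, av (fun a => (degI supp C a i : ℝ) ^ 2)) / h := by
      rw [← av_sum]
      simp only [div_eq_mul_inv]
      rw [av_mul_right]
    have h4 : av (fun a => (∑ v, (degV vx C a v : ℝ) ^ 2) / h') =
        (∑ v, av (fun a => (degV vx C a v : ℝ) ^ 2)) / h' := by
      rw [← av_sum]
      simp only [div_eq_mul_inv]
      rw [av_mul_right]
    rw [h2, h3, h4]
    linarith
  obtain ⟨F, hF, hb, hc⟩ := exists_Mx supp vx C hh.le hh'.le a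
  by_contra hcon
  apply ha
  refine ⟨F, hF, hb, ?_⟩
  rw [hc]
  push Not at hcon
  linarith

end Cover
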