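import Pool.Agent.Cover.Union

/-!
Random sampling of families of sets.
-/

namespace Cover

open Finset
open scoped Classical

set_option linter.unusedSectionVars false

variable {G : Type*} [AddCommGroup G] [Fintype G] {J k N : ℕ}

/-- The sample of `T` determined by `ω`. -/
noncomputable def smp (T : Fin J → Finset G) (ω : Fin J × G → Fin (N + 1)) (l : Fin J) :
    Finset G := (T l).filter fun t => ω (l, t) = 0

lemma smp_subset (T : Fin J → Finset G) (ω : Fin J × G → Fin (N + 1)) (l : Fin J) :
    smp T ω l ⊆ T l := Finset.filter_subset _ _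

lemma mem_smp {T : Fin J → Finset G} {ω : Fin J × G → Fin (N + 1)} {l : Fin J} {g : G} :
    g ∈ smp T ω l ↔ g ∈ T l ∧ ω (l, g) = 0 := by
  simp [smp]

/-- The sampling rate. -/
noncomputable def th (N : ℕ) : ℝ := 1 / ((N : ℝ) + 1)

lemma th_pos (N : ℕ) : 0 < th N := by unfold th; positivity

lemma th_le_one (N : ℕ) : th N ≤ 1 := by
  unfold th
  rw [div_le_one (by positivity)]
  have : (0 : ℝ) ≤ N := by positivity
  linarith

lemma pr_zero (V : Finset (Fin J × G)) :
    pr (fun ω : Fin J × G → Fin (N + 1) => ∀ v ∈ V, ω v = 0) = th N ^ V.card := by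
  have h1 : (fun ω : Fin J × G → Fin (N + 1) => ∀ v ∈ V, ω v = 0) =
      fun ω => ∀ v, ω v ∈ (if v ∈ V then ({0} : Finset (Fin (N + 1))) else univ) := by
    funext ω
    apply propext
    refine forall_congr' fun v => ?_
    by_cases hv : v ∈ V <;> simp [hv]
  rw [h1, pr_pi]
  have h2 : ∀ v : Fin J × G, (((if v ∈ V then ({0} : Finset (Fin (N + 1))) else univ).card : ℕ) : ℝ)
      / (Fintype.card (Fin (N + 1)) : ℝ) = if v ∈ V then th N else 1 := by
    intro v
    by_cases hv : v ∈ V
    · simp [hv, th]
    · simp only [hv, if_false, Finset.card_univ, Fintype.card_fin]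
      push_cast
      rw [div_self]
      positivity
  simp_rw [h2]
  rw [Finset.prod_ite_mem, Finset.univ_inter, Finset.prod_const]

/-- The cells used by a tuple. -/
noncomputable def cells (a : Fin k → G) (t : G × (Fin J ↪ Fin k)) : Finset (Fin J × G) :=
  univ.image fun l => (l, t.1 - a (t.2 l))

lemma card_cells (a : Fin k → G) (t : G × (Fin J ↪ Fin k)) : (cells a t).card = J := by
  unfold cells
  rw [Finset.card_image_of_injective]
  · simp
  · intro l l' h
    exact (Prod.mk.inj h).1

lemma mem_cells {a : Fin k → G} {t : G × (Fin J ↪ Fin k)} {v : Fin J × G} :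
    v ∈ cells a t ↔ v.2 = t.1 - a (t.2 v.1) := by
  unfold cells
  rw [Finset.mem_image]
  constructor
  · rintro ⟨l, _, rfl⟩
    rfl
  · intro h
    exact ⟨v.1, Finset.mem_univ _, by rw [← h]⟩

lemma occ_smp_iff (T : Fin J → Finset G) (ω : Fin J × G → Fin (N + 1)) (a : Fin k → G)
    (t : G × (Fin J ↪ Fin k)) :
    occ (smp T ω) a t ↔ occ T a t ∧ ∀ v ∈ cells a t, ω v = 0 := by
  unfold occ
  constructor
  · intro h
    refine ⟨fun l => (mem_smp.mp (h l)).1, ?_⟩
    intro v hv
    rw [mem_cells] at hv
    have := (mem_smp.mp (h v.1)).2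
    rw [← hv] at this
    exact this
  · rintro ⟨h1, h2⟩ l
    refine mem_smp.mpr ⟨h1 l, h2 (l, _) (mem_cells.mpr rfl)⟩

/-- Restriction of a family of tuples to a sample. -/
noncomputable def rs (a : Fin k → G) (F : Finset (G × (Fin J ↪ Fin k)))
    (ω : Fin J × G → Fin (N + 1)) : Finset (G × (Fin J ↪ Fin k)) :=
  F.filter fun t => ∀ v ∈ cells a t, ω v = 0

lemma av_card_rs (a : Fin k → G) (F : Finset (G × (Fin J ↪ Fin k))) :
    av (fun ω : Fin J × G → Fin (N + 1) => ((rs a F ω).card : ℝ)) = th N ^ J * F.card := by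
  have h1 : ∀ ω : Fin J × G → Fin (N + 1), ((rs a F ω).card : ℝ) =
      ∑ t ∈ F, (if ∀ v ∈ cells a t, ω v = 0 then (1 : ℝ) else 0) := by
    intro ω
    unfold rs
    rw [Finset.card_filter]
    push_cast
    rfl
  simp_rw [h1]
  rw [av_sum]
  calc ∑ t ∈ F, av (fun ω : Fin J × G → Fin (N + 1) =>
        (if ∀ v ∈ cells a t, ω v = 0 then (1 : ℝ) else 0)) = ∑ _t ∈ F, th N ^ J := by
        refine Finset.sum_congr rfl fun t _ => ?_
        have h := pr_zero (N := N) (cells a t)
        rw [card_cells] at h
        rw [← h, pr_eq_ite]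
    _ = _ := by
        rw [Finset.sum_const, nsmul_eq_mul]
        ring

/-- Second moment of the size of the sampled family, in terms of pairs sharing a cell. -/
lemma var_card_rs (a : Fin k → G) (F : Finset (G × (Fin J ↪ Fin k)))
    (B : ℝ) (hB : ∀ t ∈ F, ∀ l, ((F.filter fun t' => t'.1 - a (t'.2 l) = t.1 - a (t.2 l)).card : ℝ)
      ≤ B) :
    av (fun ω : Fin J × G → Fin (N + 1) =>
      (((rs a F ω).card : ℝ) - th N ^ J * F.card) ^ 2) ≤ th N ^ J * (F.card * (J * B)) := by
  have h1 : ∀ ω : Fin J × G → Fin (N + 1), ((rs a F ω).card : ℝ) =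
      ∑ t ∈ F, (if ∀ v ∈ cells a t, ω v = 0 then (1 : ℝ) else 0) := by
    intro ω
    unfold rs
    rw [Finset.card_filter]
    push_cast
    rfl
  have hth := th_pos N
  have hth1 := th_le_one N
  have h2 : ∀ ω : Fin J × G → Fin (N + 1),
      (((rs a F ω).card : ℝ) - th N ^ J * F.card) ^ 2 =
      (∑ t ∈ F, ∑ t' ∈ F, (if ∀ v ∈ cells a t ∪ cells a t', ω v = 0 then (1 : ℝ) else 0)) -
        2 * (th N ^ J * F.card) * ((rs a F ω).card : ℝ) + (th N ^ J * F.card) ^ 2 := by
    intro ω
    have h3 : ((rs a F ω).card : ℝ) ^ 2 =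
        ∑ t ∈ F, ∑ t' ∈ F, (if ∀ v ∈ cells a t ∪ cells a t', ω v = 0 then (1 : ℝ) else 0) := by
      rw [sq, h1, Finset.sum_mul]
      refine Finset.sum_congr rfl fun t _ => ?_
      rw [Finset.mul_sum]
      refine Finset.sum_congr rfl fun t' _ => ?_
      have e : (∀ v ∈ cells a t ∪ cells a t', ω v = 0) ↔
          (∀ v ∈ cells a t, ω v = 0) ∧ ∀ v ∈ cells a t', ω v = 0 := by
        simp only [Finset.mem_union]
        constructor
        · intro h
          exact ⟨fun v hv => h v (Or.inl hv), fun v hv => h v (Or.inr hv)⟩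
        · rintro ⟨ha, hb⟩ v (hv | hv)
          · exact ha v hv
          · exact hb v hv
      by_cases h4 : ∀ v ∈ cells a t, ω v = 0
      · by_cases h5 : ∀ v ∈ cells a t', ω v = 0
        · rw [if_pos h4, if_pos h5, if_pos (e.mpr ⟨h4, h5⟩), mul_one]
        · rw [if_neg h5, if_neg (fun h => h5 (e.mp h).2), mul_zero]
      · rw [if_neg h4, if_neg (fun h => h4 (e.mp h).1), zero_mul]
    rw [← h3]
    ring
  simp_rw [h2]
  rw [av_add, av_sub, av_mul_left, av_card_rs, av_const]
  have h6 : av (fun ω : Fin J × G → Fin (N + 1) => ∑ t ∈ F, ∑ t' ∈ F,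
      (if ∀ v ∈ cells a t ∪ cells a t', ω v = 0 then (1 : ℝ) else 0)) ≤
      ∑ t ∈ F, ∑ t' ∈ F, (th N ^ (2 * J) + ∑ l : Fin J,
        (if t'.1 - a (t'.2 l) = t.1 - a (t.2 l) then th N ^ J else 0)) := by
    rw [av_sum]
    refine Finset.sum_le_sum fun t _ => ?_
    rw [av_sum]
    refine Finset.sum_le_sum fun t' _ => ?_
    have h7 : av (fun ω : Fin J × G → Fin (N + 1) =>
        (if ∀ v ∈ cells a t ∪ cells a t', ω v = 0 then (1 : ℝ) else 0)) =
        th N ^ (cells a t ∪ cells a t').card := by
      rw [← pr_zero, pr_eq_ite]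
    rw [h7]
    by_cases hd : ∃ l : Fin J, t'.1 - a (t'.2 l) = t.1 - a (t.2 l)
    · obtain ⟨l, hl⟩ := hd
      have h8 : th N ^ (cells a t ∪ cells a t').card ≤ th N ^ J := by
        apply pow_le_pow_of_le_one hth.le hth1
        calc J = (cells a t).card := (card_cells a t).symm
          _ ≤ _ := Finset.card_le_card Finset.subset_union_left
      have h9 : th N ^ J ≤ ∑ l : Fin J,
          (if t'.1 - a (t'.2 l) = t.1 - a (t.2 l) then th N ^ J else 0) := by
        have := Finset.single_le_sum (f := fun l : Fin J =>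
          (if t'.1 - a (t'.2 l) = t.1 - a (t.2 l) then th N ^ J else 0))
          (fun l _ => by split_ifs <;> positivity) (Finset.mem_univ l)
        simpa [hl] using this
      have : 0 ≤ th N ^ (2 * J) := by positivity
      linarith
    · push Not at hd
      have hdis : Disjoint (cells a t) (cells a t') := by
        rw [Finset.disjoint_left]
        intro v hv hv'
        rw [mem_cells] at hv hv'
        exact hd v.1 (by rw [← hv, ← hv'])
      rw [Finset.card_union_of_disjoint hdis, card_cells, card_cells]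
      have : 0 ≤ ∑ l : Fin J,
          (if t'.1 - a (t'.2 l) = t.1 - a (t.2 l) then th N ^ J else 0) :=
        Finset.sum_nonneg fun l _ => by split_ifs <;> positivity
      have e : J + J = 2 * J := by ring
      rw [e]
      linarith
  have h10 : ∑ t ∈ F, ∑ t' ∈ F, (th N ^ (2 * J) + ∑ l : Fin J,
        (if t'.1 - a (t'.2 l) = t.1 - a (t.2 l) then th N ^ J else 0)) ≤
      F.card * F.card * th N ^ (2 * J) + th N ^ J * (F.card * (J * B)) := by
    calc ∑ t ∈ F, ∑ t' ∈ F, (th N ^ (2 * J) + ∑ l : Fin J,
        (if t'.1 - a (t'.2 l) = t.1 - a (t.2 l) then th N ^ J else 0))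
        ≤ ∑ _t ∈ F, (F.card * th N ^ (2 * J) + th N ^ J * (J * B)) := by
          refine Finset.sum_le_sum fun t ht => ?_
          rw [Finset.sum_add_distrib, Finset.sum_const, nsmul_eq_mul]
          gcongr
          rw [Finset.sum_comm]
          calc ∑ l : Fin J, ∑ t' ∈ F,
                (if t'.1 - a (t'.2 l) = t.1 - a (t.2 l) then th N ^ J else 0)
              ≤ ∑ _l : Fin J, B * th N ^ J := by
                refine Finset.sum_le_sum fun l _ => ?_
                rw [← Finset.sum_filter, Finset.sum_const, nsmul_eq_mul]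
                gcongr
                exact hB t ht l
            _ = th N ^ J * (J * B) := by
                rw [Finset.sum_const, Finset.card_univ, Fintype.card_fin, nsmul_eq_mul]
                ring
      _ = _ := by
          rw [Finset.sum_const, nsmul_eq_mul]
          ring
  have h11 : (th N ^ J * (F.card : ℝ)) ^ 2 = F.card * F.card * th N ^ (2 * J) := by
    rw [two_mul, pow_add]
    ring
  nlinarith [h6, h10, h11]

/-- Expectation of the mean over the samples. -/
lemma av_mu_smp [Nonempty G] (T : Fin J → Finset G) :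
    av (fun ω : Fin J × G → Fin (N + 1) => mu k (smp T ω)) = th N ^ J * mu k T := by
  have h1 : av (fun ω : Fin J × G → Fin (N + 1) => ∏ l, ((smp T ω l).card : ℝ)) =
      th N ^ J * ∏ l, ((T l).card : ℝ) := by
    have h2 : ∀ ω : Fin J × G → Fin (N + 1), ∏ l, ((smp T ω l).card : ℝ) =
        ∑ s ∈ Fintype.piFinset T, (if ∀ v ∈ (univ.image fun l => (l, s l)), ω v = 0
          then (1 : ℝ) else 0) := by
      intro ω
      have h3 : ∀ l, ((smp T ω l).card : ℝ) = ∑ t ∈ T l, (if ω (l, t) = 0 then (1 : ℝ) else 0) := by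
        intro l
        unfold smp
        rw [Finset.card_filter]
        push_cast
        rfl
      simp_rw [h3]
      rw [Finset.prod_univ_sum]
      refine Finset.sum_congr rfl fun s _ => ?_
      by_cases h4 : ∀ l, ω (l, s l) = 0
      · simp [h4]
      · have h5 : ¬ ∀ v ∈ (univ.image fun l => (l, s l)), ω v = 0 := by
          intro h6
          exact h4 fun l => h6 (l, s l) (Finset.mem_image_of_mem _ (Finset.mem_univ l))
        rw [if_neg h5]
        push Not at h4
        obtain ⟨l, hl⟩ := h4
        exact Finset.prod_eq_zero (Finset.mem_univ l) (by simp [hl])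
    simp_rw [h2]
    rw [av_sum]
    calc _ = ∑ _s ∈ Fintype.piFinset T, th N ^ J := by
          refine Finset.sum_congr rfl fun s _ => ?_
          have : (univ.image fun l : Fin J => (l, s l)).card = J := by
            rw [Finset.card_image_of_injective]
            · simp
            · intro l l' h
              exact (Prod.mk.inj h).1
          rw [← pr_eq_ite (fun ω : Fin J × G → Fin (N + 1) =>
            ∀ v ∈ (univ.image fun l : Fin J => (l, s l)), ω v = 0), pr_zero, this]
      _ = _ := by
          rw [Finset.sum_const, nsmul_eq_mul, Fintype.card_piFinset]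
          push_cast
          ring
  unfold mu
  simp_rw [Finset.prod_div_distrib]
  have h2 : ∀ ω : Fin J × G → Fin (N + 1),
      (Fintype.card G : ℝ) * (k.descFactorial J : ℝ) *
        ((∏ l, ((smp T ω l).card : ℝ)) / ∏ _l : Fin J, (Fintype.card G : ℝ)) =
      ((Fintype.card G : ℝ) * (k.descFactorial J : ℝ) / ∏ _l : Fin J, (Fintype.card G : ℝ)) *
        ∏ l, ((smp T ω l).card : ℝ) := by
    intro ω
    ring
  simp_rw [h2]
  rw [av_mul_left, h1]
  ring

/-- The size of a sample rarely exceeds its mean by much. -/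
lemma pr_card_smp (T : Fin J → Finset G) (l : Fin J) (V s : ℝ) (hV : 0 < V)
    (hT : ((T l).card : ℝ) ≤ V) (hs : 0 ≤ s) :
    pr (fun ω : Fin J × G → Fin (N + 1) => th N * V + s ≤ ((smp T ω l).card : ℝ)) ≤
      Real.exp (-(s ^ 2) / (2 * V)) := by
  have hav : av (fun ω : Fin J × G → Fin (N + 1) => ((smp T ω l).card : ℝ)) =
      th N * (T l).card := by
    have h3 : ∀ ω : Fin J × G → Fin (N + 1), ((smp T ω l).card : ℝ) =
        ∑ t ∈ T l, (if ∀ v ∈ ({(l, t)} : Finset (Fin J × G)), ω v = 0 then (1 : ℝ) else 0) := by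
      intro ω
      unfold smp
      rw [Finset.card_filter]
      push_cast
      refine Finset.sum_congr rfl fun t _ => ?_
      simp
    simp_rw [h3]
    rw [av_sum]
    calc _ = ∑ _t ∈ T l, th N := by
          refine Finset.sum_congr rfl fun t _ => ?_
          rw [← pr_eq_ite (fun ω : Fin J × G → Fin (N + 1) =>
            ∀ v ∈ ({(l, t)} : Finset (Fin J × G)), ω v = 0), pr_zero]
          simp
      _ = _ := by
          rw [Finset.sum_const, nsmul_eq_mul]
          ring
  have hmc := mcdiarmid_upper (fun ω : Fin J × G → Fin (N + 1) => ((smp T ω l).card : ℝ))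
    (fun v => if v.1 = l ∧ v.2 ∈ T l then 1 else 0) ?_ V hV ?_ s hs
  · refine le_trans (pr_mono fun ω hω => ?_) hmc
    rw [hav]
    have : th N * (T l).card ≤ th N * V := by
      have := th_pos N
      gcongr
    linarith
  · intro v ω x
    by_cases hv : v.1 = l ∧ v.2 ∈ T l
    · rw [if_pos hv]
      -- the two samples differ by at most one element
      have h1 : ∀ ω' ω'' : Fin J × G → Fin (N + 1), (∀ v', v' ≠ v → ω' v' = ω'' v') →
          ((smp T ω' l).card : ℝ) ≤ ((smp T ω'' l).card : ℝ) + 1 := by
        intro ω' ω'' h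
        have : smp T ω' l ⊆ insert v.2 (smp T ω'' l) := by
          intro g hg
          rw [mem_smp] at hg
          rw [Finset.mem_insert, mem_smp]
          by_cases hgv : g = v.2
          · left; exact hgv
          · right
            refine ⟨hg.1, ?_⟩
            rw [← h (l, g)]
            · exact hg.2
            · intro h'
              apply hgv
              rw [← h']
        have := (Finset.card_le_card this).trans (Finset.card_insert_le _ _)
        exact_mod_cast this
      have h2 := h1 (Function.update ω v x) ω fun v' hv' => Function.update_of_ne hv' _ _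
      have h3 := h1 ω (Function.update ω v x) fun v' hv' => (Function.update_of_ne hv' _ _).symm
      rw [abs_le]
      constructor <;> linarith
    · rw [if_neg hv]
      have : smp T (Function.update ω v x) l = smp T ω l := by
        ext g
        rw [mem_smp, mem_smp]
        by_cases hg : g ∈ T l
        · have : (l, g) ≠ v := by
            intro h
            apply hv
            rw [← h]
            exact ⟨rfl, hg⟩
          rw [Function.update_of_ne this]
        · simp [hg]
      rw [this]
      simp
  · have h1 : ∑ v : Fin J × G, (if v.1 = l ∧ v.2 ∈ T l then (1 : ℝ) else 0) ^ 2 =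
        ((T l).card : ℝ) := by
      have h2 : ∀ v : Fin J × G, (if v.1 = l ∧ v.2 ∈ T l then (1 : ℝ) else 0) ^ 2 =
          if v.1 = l ∧ v.2 ∈ T l then (1 : ℝ) else 0 := by
        intro v
        split_ifs <;> simp
      simp_rw [h2]
      rw [Fintype.sum_prod_type, Finset.sum_eq_single l]
      · simp
      · intro l' _ hl'
        simp [hl']
      · simp
    rw [h1]
    exact hT

end Cover
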