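import Pool.Agent.Cover.SampleUB

/-!
Transference of lower bounds from samples to the whole set.
-/

namespace Cover

open Finset
open scoped Classical

set_option linter.unusedSectionVars false

variable {G : Type*} [AddCommGroup G] [Fintype G] {J k N : ℕ}

/-- In a random sample all differences are represented few times. -/
lemma pr_rho_smp [Nonempty G] (T : Fin J → Finset G) (l l' : Fin J) (x x' : G) (hx : x ≠ x')
    (V s : ℝ) (hV : 0 < V) (hT : ∀ l, ((T l).card : ℝ) ≤ V) (hs : 0 ≤ s) :
    pr (fun ω : Fin J × G → Fin (N + 1) =>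
      th N ^ 2 * V + s ≤ (rho (smp T ω) l l' x x' : ℝ)) ≤
      Real.exp (-(s ^ 2) / (2 * (4 * J * V))) := by
  have hJ : (0 : ℝ) < J := by
    have : 0 < J := Fin.pos l
    exact_mod_cast this
  set W : Finset G := univ.filter fun g => x - g ∈ T l ∧ x' - g ∈ T l' with hW
  have hrho : ∀ ω : Fin J × G → Fin (N + 1), (rho (smp T ω) l l' x x' : ℝ) =
      ∑ g ∈ W, (if ∀ v ∈ ({(l, x - g), (l', x' - g)} : Finset (Fin J × G)), ω v = 0
        then (1 : ℝ) else 0) := by
    intro ω
    have h1 : (univ.filter fun g => x - g ∈ smp T ω l ∧ x' - g ∈ smp T ω l') =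
        W.filter fun g => ∀ v ∈ ({(l, x - g), (l', x' - g)} : Finset (Fin J × G)), ω v = 0 := by
      ext g
      simp only [Finset.mem_filter, Finset.mem_univ, true_and, mem_smp, hW, Finset.mem_insert,
        Finset.mem_singleton, forall_eq_or_imp, forall_eq]
      tauto
    unfold rho
    rw [h1, Finset.card_filter]
    push_cast
    rfl
  have hWc : (W.card : ℝ) ≤ V := by
    refine le_trans ?_ (hT l)
    have h1 := card_reflect (T l) x
    rw [← h1]
    exact_mod_cast Finset.card_le_card (by
      intro g hg
      simp only [hW, Finset.mem_filter, Finset.mem_univ, true_and] at hg ⊢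
      exact hg.1)
  have hav : av (fun ω : Fin J × G → Fin (N + 1) => (rho (smp T ω) l l' x x' : ℝ)) ≤
      th N ^ 2 * V := by
    simp_rw [hrho]
    rw [av_sum]
    calc _ = ∑ _g ∈ W, th N ^ 2 := by
          refine Finset.sum_congr rfl fun g _ => ?_
          rw [← pr_eq_ite (fun ω : Fin J × G → Fin (N + 1) =>
            ∀ v ∈ ({(l, x - g), (l', x' - g)} : Finset (Fin J × G)), ω v = 0), pr_zero,
            Finset.card_pair]
          intro h
          have := (Prod.mk.inj h).2
          exact hx (by simpa using this)
      _ = th N ^ 2 * W.card := by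
          rw [Finset.sum_const, nsmul_eq_mul]
          ring
      _ ≤ _ := by gcongr
  have hmc := mcdiarmid_upper (fun ω : Fin J × G → Fin (N + 1) =>
    (rho (smp T ω) l l' x x' : ℝ))
    (fun v => if v.2 ∈ T v.1 then 2 else 0) ?_ (4 * J * V) (by positivity) ?_ s hs
  · refine le_trans (pr_mono fun ω hω => ?_) hmc
    linarith
  · intro v ω y
    by_cases hv : v.2 ∈ T v.1
    · rw [if_pos hv]
      have h1 : ∀ ω' ω'' : Fin J × G → Fin (N + 1), (∀ v', v' ≠ v → ω' v' = ω'' v') →
          (rho (smp T ω') l l' x x' : ℝ) ≤ (rho (smp T ω'') l l' x x' : ℝ) + 2 := by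
        intro ω' ω'' h
        have h2 : (univ.filter fun g => x - g ∈ smp T ω' l ∧ x' - g ∈ smp T ω' l') ⊆
            (univ.filter fun g => x - g ∈ smp T ω'' l ∧ x' - g ∈ smp T ω'' l') ∪
              {x - v.2, x' - v.2} := by
          intro g hg
          simp only [Finset.mem_filter, Finset.mem_univ, true_and, mem_smp] at hg
          simp only [Finset.mem_union, Finset.mem_filter, Finset.mem_univ, true_and, mem_smp,
            Finset.mem_insert, Finset.mem_singleton]
          by_cases h3 : (l, x - g) = v
          · right; left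
            rw [← h3]
            simp
          · by_cases h4 : (l', x' - g) = v
            · right; right
              rw [← h4]
              simp
            · left
              rw [← h _ h3, ← h _ h4]
              exact hg
        have h5 := (Finset.card_le_card h2).trans ((Finset.card_union_le _ _).trans
          (Nat.add_le_add_left (Finset.card_le_two) _))
        unfold rho
        exact_mod_cast h5
      have h2 := h1 (Function.update ω v y) ω fun v' hv' => Function.update_of_ne hv' _ _
      have h3 := h1 ω (Function.update ω v y) fun v' hv' => (Function.update_of_ne hv' _ _).symm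
      rw [abs_le]
      constructor <;> linarith
    · rw [if_neg hv]
      have h1 : ∀ l1, smp T (Function.update ω v y) l1 = smp T ω l1 := by
        intro l1
        ext g
        rw [mem_smp, mem_smp]
        by_cases hg : g ∈ T l1
        · have : (l1, g) ≠ v := by
            intro h
            apply hv
            rw [← h]
            exact hg
          rw [Function.update_of_ne this]
        · simp [hg]
      unfold rho
      simp only [h1]
      simp
  · have h2 : ∀ v : Fin J × G, (if v.2 ∈ T v.1 then (2 : ℝ) else 0) ^ 2 =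
        if v.2 ∈ T v.1 then (4 : ℝ) else 0 := by
      intro v
      split_ifs <;> norm_num
    simp_rw [h2]
    rw [Fintype.sum_prod_type]
    calc ∑ l1 : Fin J, ∑ g : G, (if (l1, g).2 ∈ T (l1, g).1 then (4 : ℝ) else 0)
        = ∑ l1 : Fin J, 4 * ((T l1).card : ℝ) := by
          refine Finset.sum_congr rfl fun l1 _ => ?_
          simp [mul_comm]
      _ ≤ ∑ _l1 : Fin J, 4 * V := by
          gcongr with l1 _
          exact hT l1
      _ = _ := by
          simp
          ring

/-- Lower bound for the number of unforced tuples at low points. -/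
theorem transfer_lower [Nonempty G] (a : Fin k → G) (Tp R : Finset G) (L : ℕ)
    (T : Fin J → Finset G) (hT : ∀ l, T l ⊆ Tp)
    (m : ℕ) (κ h h' B s s' V : ℝ) (hh : 0 ≤ h) (hh' : 0 ≤ h')
    (hLT : LTgood J m κ h h' B a) (hB : 0 ≤ B) (hV : 0 < V)
    (hTV : (Tp.card : ℝ) ≤ V) (hs : 0 ≤ s) (hs' : 0 ≤ s') (hm : th N * V + s ≤ m)
    (hκ : th N ^ 2 * V + s' ≤ κ) :
    th N ^ J * mu k T ≤ th N ^ J * ((FF a Tp R L T).card : ℝ) + B +
      h' * ((univ.filter fun x => L < dd a Tp x).card : ℝ) +
      h * (J * (th N * ∑ y ∈ R, (tau a Tp y : ℝ))) +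
      mu k T * (J * Real.exp (-(s ^ 2) / (2 * V)) +
        J ^ 2 * (Fintype.card G : ℝ) ^ 2 * Real.exp (-(s' ^ 2) / (2 * (4 * J * V)))) := by
  set F := FF a Tp R L T with hF
  have hTl : ∀ l, ((T l).card : ℝ) ≤ V := fun l =>
    le_trans (by exact_mod_cast Finset.card_le_card (hT l)) hTV
  have hmuT : 0 ≤ mu k T := mu_nonneg T
  -- indices of forced cells in the sample
  set I' : (Fin J × G → Fin (N + 1)) → Finset (Fin k) := fun ω =>
    univ.filter fun i => ∃ y ∈ R, ∃ l, a i + y ∈ smp T ω l with hI'
  set bad1 : (Fin J × G → Fin (N + 1)) → Prop := fun ω =>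
    ∃ l ∈ (univ : Finset (Fin J)), th N * V + s ≤ ((smp T ω l).card : ℝ) with hbad1
  set bad2 : (Fin J × G → Fin (N + 1)) → Prop := fun ω =>
    ∃ q ∈ ((univ : Finset ((Fin J × Fin J) × (G × G))).filter fun q => q.2.1 ≠ q.2.2),
      th N ^ 2 * V + s' ≤ (rho (smp T ω) q.1.1 q.1.2 q.2.1 q.2.2 : ℝ) with hbad2
  -- pointwise bound
  have hpt : ∀ ω : Fin J × G → Fin (N + 1), mu k (smp T ω) ≤ ((rs a F ω).card : ℝ) + B +
      h' * ((univ.filter fun x => L < dd a Tp x).card : ℝ) + h * ((I' ω).card : ℝ) +
      mu k T * ((if bad1 ω then 1 else 0) + (if bad2 ω then 1 else 0)) := by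
    intro ω
    have hsub : mu k (smp T ω) ≤ mu k T := by
      unfold mu
      gcongr with l _
      exact smp_subset T ω l
    have hn1 : (0 : ℝ) ≤ ((rs a F ω).card : ℝ) := by positivity
    have hn2 : (0 : ℝ) ≤ h' * ((univ.filter fun x => L < dd a Tp x).card : ℝ) := by positivity
    have hn3 : (0 : ℝ) ≤ h * ((I' ω).card : ℝ) := by positivity
    by_cases hb1 : bad1 ω
    · rw [if_pos hb1]
      have : 0 ≤ mu k T * (if bad2 ω then (1 : ℝ) else 0) := by split_ifs <;> simp [hmuT]
      nlinarith
    · by_cases hb2 : bad2 ω
      · rw [if_pos hb2, if_neg hb1]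
        nlinarith
      · rw [if_neg hb1, if_neg hb2]
        have hsm : ∀ l, (smp T ω l).card ≤ m := by
          intro l
          by_contra hcon
          push Not at hcon
          apply hb1
          refine ⟨l, Finset.mem_univ _, hm.trans ?_⟩
          exact_mod_cast hcon.le
        have hreg : ∀ l l' x x', x ≠ x' → (rho (smp T ω) l l' x x' : ℝ) ≤ κ := by
          intro l l' x x' hx
          by_contra hcon
          push Not at hcon
          apply hb2
          refine ⟨((l, l'), (x, x')), by simp [hx], hκ.trans hcon.le⟩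
        obtain ⟨F', hF', hbdd, hcard⟩ := hLT (smp T ω) hsm hreg
        have hcov : F' ⊆ (rs a F ω ∪ ((univ.filter fun x => L < dd a Tp x).biUnion fun x =>
            F'.filter fun t => t.1 = x)) ∪ (I' ω).biUnion fun i =>
            F'.filter fun t => i ∈ tsupp t := by
          intro t ht
          have hocc := (occ_smp_iff T ω a t).mp (hF' t ht)
          by_cases hlow : dd a Tp t.1 ≤ L
          · by_cases hR : ∀ l l', l ≠ l' → t.1 - a (t.2 l) - a (t.2 l') ∉ R
            · apply Finset.mem_union_left
              apply Finset.mem_union_left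
              unfold rs
              rw [Finset.mem_filter]
              exact ⟨mem_FF.mpr ⟨hocc.1, hlow, hR⟩, hocc.2⟩
            · push Not at hR
              obtain ⟨l, l', _, hy⟩ := hR
              apply Finset.mem_union_right
              rw [Finset.mem_biUnion]
              refine ⟨t.2 l', ?_, Finset.mem_filter.mpr ⟨ht, mem_tsupp.mpr ⟨l', rfl⟩⟩⟩
              simp only [hI', Finset.mem_filter, Finset.mem_univ, true_and]
              refine ⟨_, hy, l, ?_⟩
              have : a (t.2 l') + (t.1 - a (t.2 l) - a (t.2 l')) = t.1 - a (t.2 l) := by abel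
              rw [this]
              exact (hF' t ht) l
          · apply Finset.mem_union_left
            apply Finset.mem_union_right
            rw [Finset.mem_biUnion]
            push Not at hlow
            exact ⟨t.1, by simp [hlow], by simp [ht]⟩
        have h1 := (Finset.card_le_card hcov).trans (Finset.card_union_le _ _)
        have h2 := h1.trans (Nat.add_le_add_right (Finset.card_union_le _ _) _)
        have h3 : (((univ.filter fun x => L < dd a Tp x).biUnion fun x =>
            F'.filter fun t => t.1 = x).card : ℝ) ≤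
            h' * ((univ.filter fun x => L < dd a Tp x).card : ℝ) := by
          calc (((univ.filter fun x => L < dd a Tp x).biUnion fun x =>
              F'.filter fun t => t.1 = x).card : ℝ)
              ≤ ∑ x ∈ (univ.filter fun x => L < dd a Tp x),
                ((F'.filter fun t => t.1 = x).card : ℝ) := by
                exact_mod_cast Finset.card_biUnion_le
            _ ≤ ∑ _x ∈ (univ.filter fun x => L < dd a Tp x), h' :=
                Finset.sum_le_sum fun x _ => hbdd.2 x
            _ = _ := by rw [Finset.sum_const, nsmul_eq_mul]; ring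
        have h4 : (((I' ω).biUnion fun i => F'.filter fun t => i ∈ tsupp t).card : ℝ) ≤
            h * ((I' ω).card : ℝ) := by
          calc (((I' ω).biUnion fun i => F'.filter fun t => i ∈ tsupp t).card : ℝ)
              ≤ ∑ i ∈ I' ω, ((F'.filter fun t => i ∈ tsupp t).card : ℝ) := by
                exact_mod_cast Finset.card_biUnion_le
            _ ≤ ∑ _i ∈ I' ω, h := Finset.sum_le_sum fun i _ => hbdd.1 i
            _ = _ := by rw [Finset.sum_const, nsmul_eq_mul]; ring
        have h5 : (F'.card : ℝ) ≤ ((rs a F ω).card : ℝ) +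
            (((univ.filter fun x => L < dd a Tp x).biUnion fun x =>
            F'.filter fun t => t.1 = x).card : ℝ) +
            (((I' ω).biUnion fun i => F'.filter fun t => i ∈ tsupp t).card : ℝ) := by
          exact_mod_cast h2
        linarith
  have hav := av_mono hpt
  rw [av_mu_smp, av_add, av_add, av_add, av_add, av_card_rs, av_const, av_const, av_mul_left,
    av_mul_left, av_add] at hav
  have hI : av (fun ω : Fin J × G → Fin (N + 1) => ((I' ω).card : ℝ)) ≤
      J * (th N * ∑ y ∈ R, (tau a Tp y : ℝ)) := by
    have h1 : ∀ ω : Fin J × G → Fin (N + 1), ((I' ω).card : ℝ) ≤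
        ∑ y ∈ R, ∑ l : Fin J, ∑ i ∈ (univ.filter fun i => a i + y ∈ T l),
          (if ∀ v ∈ ({(l, a i + y)} : Finset (Fin J × G)), ω v = 0 then (1 : ℝ) else 0) := by
      intro ω
      have h2 : I' ω ⊆ R.biUnion fun y => (univ : Finset (Fin J)).biUnion fun l =>
          (univ.filter fun i => a i + y ∈ T l).filter fun i =>
            ∀ v ∈ ({(l, a i + y)} : Finset (Fin J × G)), ω v = 0 := by
        intro i hi
        simp only [hI', Finset.mem_filter, Finset.mem_univ, true_and] at hi
        obtain ⟨y, hy, l, hl⟩ := hi
        rw [mem_smp] at hl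
        rw [Finset.mem_biUnion]
        refine ⟨y, hy, ?_⟩
        rw [Finset.mem_biUnion]
        refine ⟨l, Finset.mem_univ _, ?_⟩
        simp only [Finset.mem_filter, Finset.mem_univ, true_and, Finset.mem_singleton, forall_eq]
        exact hl
      have h3 := (Finset.card_le_card h2).trans Finset.card_biUnion_le
      have h4 := h3.trans (Finset.sum_le_sum fun y _ => Finset.card_biUnion_le)
      calc ((I' ω).card : ℝ) ≤ ((∑ y ∈ R, ∑ l : Fin J,
            ((univ.filter fun i => a i + y ∈ T l).filter fun i =>
            ∀ v ∈ ({(l, a i + y)} : Finset (Fin J × G)), ω v = 0).card : ℕ) : ℝ) := by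
            exact_mod_cast h4
        _ = _ := by
            push_cast
            refine Finset.sum_congr rfl fun y _ => Finset.sum_congr rfl fun l _ => ?_
            rw [Finset.card_filter]
            push_cast
            rfl
    refine (av_mono h1).trans ?_
    rw [av_sum]
    calc _ = ∑ y ∈ R, ∑ l : Fin J, ∑ _i ∈ (univ.filter fun i => a i + y ∈ T l), th N := by
          refine Finset.sum_congr rfl fun y _ => ?_
          rw [av_sum]
          refine Finset.sum_congr rfl fun l _ => ?_
          rw [av_sum]
          refine Finset.sum_congr rfl fun i _ => ?_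
          rw [← pr_eq_ite (fun ω : Fin J × G → Fin (N + 1) =>
            ∀ v ∈ ({(l, a i + y)} : Finset (Fin J × G)), ω v = 0), pr_zero]
          simp
      _ ≤ ∑ y ∈ R, ∑ _l : Fin J, th N * (tau a Tp y : ℝ) := by
          refine Finset.sum_le_sum fun y _ => Finset.sum_le_sum fun l _ => ?_
          rw [Finset.sum_const, nsmul_eq_mul, mul_comm]
          have := th_pos N
          unfold tau
          gcongr
          exact hT l
      _ = _ := by
          simp only [Finset.sum_const, Finset.card_univ, Fintype.card_fin, nsmul_eq_mul]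
          rw [← Finset.mul_sum, ← Finset.mul_sum]
  have hb1 : av (fun ω : Fin J × G → Fin (N + 1) => (if bad1 ω then (1 : ℝ) else 0)) ≤
      J * Real.exp (-(s ^ 2) / (2 * V)) := by
    have h1 := pr_exists_le_card (univ : Finset (Fin J))
      (fun l (ω : Fin J × G → Fin (N + 1)) => th N * V + s ≤ ((smp T ω l).card : ℝ))
      (Real.exp (-(s ^ 2) / (2 * V))) (fun l _ => pr_card_smp T l V s hV (hTl l) hs)
    rw [pr_eq_ite] at h1
    simpa [hbad1] using h1
  have hb2 : av (fun ω : Fin J × G → Fin (N + 1) => (if bad2 ω then (1 : ℝ) else 0)) ≤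
      J ^ 2 * (Fintype.card G : ℝ) ^ 2 * Real.exp (-(s' ^ 2) / (2 * (4 * J * V))) := by
    have h1 := pr_exists_le_card
      ((univ : Finset ((Fin J × Fin J) × (G × G))).filter fun q => q.2.1 ≠ q.2.2)
      (fun q (ω : Fin J × G → Fin (N + 1)) =>
        th N ^ 2 * V + s' ≤ (rho (smp T ω) q.1.1 q.1.2 q.2.1 q.2.2 : ℝ))
      (Real.exp (-(s' ^ 2) / (2 * (4 * J * V))))
      (fun q hq => pr_rho_smp T q.1.1 q.1.2 q.2.1 q.2.2 (Finset.mem_filter.mp hq).2 V s' hV
        hTl hs')
    rw [pr_eq_ite] at h1
    refine h1.trans ?_
    gcongr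
    calc ((((univ : Finset ((Fin J × Fin J) × (G × G))).filter fun q => q.2.1 ≠ q.2.2).card : ℕ)
          : ℝ) ≤ ((univ : Finset ((Fin J × Fin J) × (G × G))).card : ℝ) := by
          exact_mod_cast Finset.card_le_card (Finset.filter_subset _ _)
      _ = _ := by
          simp only [Finset.card_univ, Fintype.card_prod, Fintype.card_fin]
          push_cast
          ring
  have h5 := mul_le_mul_of_nonneg_left hI hh
  have h6 := mul_le_mul_of_nonneg_left (add_le_add hb1 hb2) hmuT
  linarith

end Cover
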