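import Pool.Agent.Cover.Sample

/-!
Transference of upper bounds from samples to the whole set.
-/

namespace Cover

open Finset
open scoped Classical

set_option linter.unusedSectionVars false

variable {G : Type*} [AddCommGroup G] [Fintype G] {J k N : ℕ}

/-- Number of cells of `Tp` at `x`. -/
noncomputable def dd (a : Fin k → G) (Tp : Finset G) (x : G) : ℕ :=
  (univ.filter fun i => x - a i ∈ Tp).card

/-- Number of indices `i` with `a i + y ∈ Tp`. -/
noncomputable def tau (a : Fin k → G) (Tp : Finset G) (y : G) : ℕ :=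
  (univ.filter fun i => a i + y ∈ Tp).card

/-- Occurring tuples at low points which contain no forced pair. -/
noncomputable def FF (a : Fin k → G) (Tp R : Finset G) (L : ℕ) (T : Fin J → Finset G) :
    Finset (G × (Fin J ↪ Fin k)) :=
  univ.filter fun t => occ T a t ∧ dd a Tp t.1 ≤ L ∧
    ∀ l l', l ≠ l' → t.1 - a (t.2 l) - a (t.2 l') ∉ R

lemma mem_FF {a : Fin k → G} {Tp R : Finset G} {L : ℕ} {T : Fin J → Finset G}
    {t : G × (Fin J ↪ Fin k)} : t ∈ FF a Tp R L T ↔ occ T a t ∧ dd a Tp t.1 ≤ L ∧
    ∀ l l', l ≠ l' → t.1 - a (t.2 l) - a (t.2 l') ∉ R := by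
  simp [FF]

lemma card_emb_fixed (A : Finset (Fin J)) (c : Fin J → Fin k) (I : Finset (Fin k)) :
    ((univ : Finset (Fin J ↪ Fin k)).filter fun φ => (∀ l ∈ A, φ l = c l) ∧
      ∀ l ∉ A, φ l ∈ I).card ≤ I.card ^ (J - A.card) := by
  have h1 := sum_emb_prod_le (J := J) (k := k)
    (fun l j => if l ∈ A then (if j = c l then (1 : ℝ) else 0) else (if j ∈ I then 1 else 0))
    (fun l j => by split_ifs <;> norm_num)
  have h2 : ∑ φ : Fin J ↪ Fin k, ∏ l, (if l ∈ A then (if φ l = c l then (1 : ℝ) else 0) else
      (if φ l ∈ I then 1 else 0)) = (((univ : Finset (Fin J ↪ Fin k)).filter fun φ =>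
        (∀ l ∈ A, φ l = c l) ∧ ∀ l ∉ A, φ l ∈ I).card : ℝ) := by
    rw [Finset.card_filter]
    push_cast
    refine Finset.sum_congr rfl fun φ _ => ?_
    by_cases h3 : (∀ l ∈ A, φ l = c l) ∧ ∀ l ∉ A, φ l ∈ I
    · rw [if_pos h3]
      refine Finset.prod_eq_one fun l _ => ?_
      by_cases hl : l ∈ A
      · simp [hl, h3.1 l hl]
      · simp [hl, h3.2 l hl]
    · rw [if_neg h3]
      have h4 : ∃ l, (if l ∈ A then (if φ l = c l then (1 : ℝ) else 0) else
          (if φ l ∈ I then 1 else 0)) = 0 := by
        by_contra hcon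
        push Not at hcon
        apply h3
        constructor
        · intro l hl
          by_contra hne
          exact hcon l (by simp [hl, hne])
        · intro l hl
          by_contra hne
          exact hcon l (by simp [hl, hne])
      obtain ⟨l, hl⟩ := h4
      exact Finset.prod_eq_zero (Finset.mem_univ l) hl
  have h3 : ∏ l : Fin J, ∑ j : Fin k, (if l ∈ A then (if j = c l then (1 : ℝ) else 0) else
      (if j ∈ I then 1 else 0)) = (I.card : ℝ) ^ (J - A.card) := by
    have h4 : ∀ l : Fin J, ∑ j : Fin k, (if l ∈ A then (if j = c l then (1 : ℝ) else 0) else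
        (if j ∈ I then 1 else 0)) = if l ∈ Aᶜ then (I.card : ℝ) else 1 := by
      intro l
      by_cases hl : l ∈ A
      · simp [hl]
      · simp [hl]
    simp_rw [h4]
    rw [Finset.prod_ite_mem, Finset.univ_inter, Finset.prod_const, Finset.card_compl,
      Fintype.card_fin]
  rw [h2, h3] at h1
  exact_mod_cast h1

section degrees

variable (a : Fin k → G) (Tp R : Finset G) (L : ℕ) (T : Fin J → Finset G)

lemma card_filter_fixed_le (hT : ∀ l, T l ⊆ Tp) (A : Finset (Fin J)) (c : Fin J → Fin k) (x : G) :
    ((FF a Tp R L T).filter fun t => t.1 = x ∧ ∀ l ∈ A, t.2 l = c l).card ≤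
      L ^ (J - A.card) := by
  by_cases hx : dd a Tp x ≤ L
  · calc ((FF a Tp R L T).filter fun t => t.1 = x ∧ ∀ l ∈ A, t.2 l = c l).card
        ≤ (((univ : Finset (Fin J ↪ Fin k)).filter fun φ => (∀ l ∈ A, φ l = c l) ∧
            ∀ l ∉ A, φ l ∈ (univ.filter fun i => x - a i ∈ Tp)).image fun φ => (x, φ)).card := by
          apply Finset.card_le_card
          intro t ht
          rw [Finset.mem_filter, mem_FF] at ht
          obtain ⟨⟨hocc, _, _⟩, hx', hc⟩ := ht
          rw [Finset.mem_image]
          refine ⟨t.2, ?_, ?_⟩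
          · rw [Finset.mem_filter]
            refine ⟨Finset.mem_univ _, hc, fun l _ => ?_⟩
            simp only [Finset.mem_filter, Finset.mem_univ, true_and]
            rw [← hx']
            exact hT l (hocc l)
          · rw [← hx']
      _ ≤ _ := Finset.card_image_le
      _ ≤ _ := card_emb_fixed A c _
      _ ≤ _ := Nat.pow_le_pow_left hx _
  · have : ((FF a Tp R L T).filter fun t => t.1 = x ∧ ∀ l ∈ A, t.2 l = c l) = ∅ := by
      refine Finset.filter_eq_empty_iff.mpr fun t ht h => hx ?_
      rw [mem_FF] at ht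
      rw [← h.1]
      exact ht.2.1
    rw [this]
    simp

lemma card_FF_le (hT : ∀ l, T l ⊆ Tp) (hk : 0 < k) :
    (FF a Tp R L T).card ≤ Fintype.card G * L ^ J := by
  calc (FF a Tp R L T).card ≤ ∑ x : G, ((FF a Tp R L T).filter fun t => t.1 = x).card := by
        refine (Finset.card_eq_sum_card_fiberwise (f := fun t : G × (Fin J ↪ Fin k) => t.1)
          (s := FF a Tp R L T) (t := univ) ?_).le
        intro t _
        exact Finset.mem_univ _
    _ ≤ ∑ _x : G, L ^ J := by
        refine Finset.sum_le_sum fun x _ => ?_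
        have := card_filter_fixed_le a Tp R L T hT ∅ (fun _ => ⟨0, hk⟩) x
        simpa using this
    _ = _ := by simp

lemma card_FF_index_pos (hT : ∀ l, T l ⊆ Tp) (i : Fin k) (l0 : Fin J) :
    ((FF a Tp R L T).filter fun t => t.2 l0 = i).card ≤ Tp.card * L ^ (J - 1) := by
  calc ((FF a Tp R L T).filter fun t => t.2 l0 = i).card
      ≤ ∑ x ∈ Tp.image (fun s => s + a i),
          (((FF a Tp R L T).filter fun t => t.2 l0 = i).filter fun t => t.1 = x).card := by
        refine (Finset.card_eq_sum_card_fiberwise (f := fun t : G × (Fin J ↪ Fin k) => t.1)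
          (s := (FF a Tp R L T).filter fun t => t.2 l0 = i)
          (t := Tp.image (fun s => s + a i)) ?_).le
        intro t ht
        rw [Finset.mem_coe, Finset.mem_filter] at ht
        simp only [Finset.coe_image, Set.mem_image]
        refine ⟨t.1 - a i, ?_, by simp⟩
        have := (mem_FF.mp ht.1).1 l0
        rw [ht.2] at this
        exact hT l0 this
    _ ≤ ∑ _x ∈ Tp.image (fun s => s + a i), L ^ (J - 1) := by
        refine Finset.sum_le_sum fun x _ => ?_
        have := card_filter_fixed_le a Tp R L T hT {l0} (fun _ => i) x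
        rw [Finset.card_singleton] at this
        refine le_trans (Finset.card_le_card ?_) this
        intro t ht
        rw [Finset.mem_filter, Finset.mem_filter] at ht
        rw [Finset.mem_filter]
        refine ⟨ht.1.1, ht.2, fun l hl => ?_⟩
        rw [Finset.mem_singleton] at hl
        rw [hl]
        exact ht.1.2
    _ ≤ Tp.card * L ^ (J - 1) := by
        rw [Finset.sum_const, smul_eq_mul]
        exact Nat.mul_le_mul_right _ Finset.card_image_le

lemma card_FF_index (hT : ∀ l, T l ⊆ Tp) (i : Fin k) :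
    ((FF a Tp R L T).filter fun t => i ∈ tsupp t).card ≤ J * (Tp.card * L ^ (J - 1)) := by
  calc ((FF a Tp R L T).filter fun t => i ∈ tsupp t).card
      ≤ ((univ : Finset (Fin J)).biUnion fun l0 =>
          (FF a Tp R L T).filter fun t => t.2 l0 = i).card := by
        apply Finset.card_le_card
        intro t ht
        rw [Finset.mem_filter, mem_tsupp] at ht
        obtain ⟨h1, l, hl⟩ := ht
        rw [Finset.mem_biUnion]
        exact ⟨l, Finset.mem_univ _, Finset.mem_filter.mpr ⟨h1, hl⟩⟩
    _ ≤ ∑ _l0 : Fin J, Tp.card * L ^ (J - 1) := by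
        refine Finset.card_biUnion_le.trans (Finset.sum_le_sum fun l0 _ => ?_)
        exact card_FF_index_pos a Tp R L T hT i l0
    _ = _ := by simp

lemma card_FF_cell (hT : ∀ l, T l ⊆ Tp) (b : ℝ) (hb0 : 0 ≤ b)
    (hb : ∀ y ∉ R, (tau a Tp y : ℝ) ≤ b) (i : Fin k) (l : Fin J) (s : G) :
    ((((FF a Tp R L T).filter fun t => i ∈ tsupp t).filter fun t =>
      t.1 - a (t.2 l) = s).card : ℝ) ≤
      (L : ℝ) ^ (J - 1) + J * (b * (L : ℝ) ^ (J - 2)) := by
  have key : ∀ l0 : Fin J, l0 ≠ l →
      ((((FF a Tp R L T).filter fun t => t.2 l0 = i).filter fun t =>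
        t.1 - a (t.2 l) = s).card : ℝ) ≤ b * (L : ℝ) ^ (J - 2) := by
    intro l0 hl0
    by_cases hR : s - a i ∈ R
    · have : (((FF a Tp R L T).filter fun t => t.2 l0 = i).filter fun t =>
          t.1 - a (t.2 l) = s) = ∅ := by
        refine Finset.filter_eq_empty_iff.mpr fun t ht hs => ?_
        rw [Finset.mem_filter] at ht
        have h1 := (mem_FF.mp ht.1).2.2 l l0 hl0.symm
        rw [hs, ht.2] at h1
        exact h1 hR
      rw [this]
      simp only [Finset.card_empty, Nat.cast_zero]
      positivity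
    · have h2 : (((FF a Tp R L T).filter fun t => t.2 l0 = i).filter fun t =>
          t.1 - a (t.2 l) = s).card ≤
          (univ.filter fun j => a j + (s - a i) ∈ Tp).card * L ^ (J - 2) := by
        calc (((FF a Tp R L T).filter fun t => t.2 l0 = i).filter fun t =>
            t.1 - a (t.2 l) = s).card
            ≤ ∑ j ∈ (univ.filter fun j => a j + (s - a i) ∈ Tp),
              ((((FF a Tp R L T).filter fun t => t.2 l0 = i).filter fun t =>
                t.1 - a (t.2 l) = s).filter fun t => t.2 l = j).card := by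
              rw [← Finset.card_eq_sum_card_fiberwise]
              intro t ht
              simp only [Finset.mem_coe, Finset.mem_filter] at ht
              simp only [Finset.mem_coe, Finset.mem_filter, Finset.mem_univ, true_and]
              have h3 := (mem_FF.mp ht.1.1).1 l0
              rw [ht.1.2] at h3
              have h4 : a (t.2 l) + (s - a i) = t.1 - a i := by
                rw [← ht.2]; abel
              rw [h4]
              exact hT l0 h3
          _ ≤ ∑ _j ∈ (univ.filter fun j => a j + (s - a i) ∈ Tp), L ^ (J - 2) := by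
              refine Finset.sum_le_sum fun j _ => ?_
              have h5 := card_filter_fixed_le a Tp R L T hT {l0, l}
                (fun l' => if l' = l0 then i else j) (s + a j)
              rw [Finset.card_pair hl0] at h5
              refine le_trans (Finset.card_le_card ?_) h5
              intro t ht
              simp only [Finset.mem_filter] at ht
              rw [Finset.mem_filter]
              refine ⟨ht.1.1.1, ?_, ?_⟩
              · rw [← ht.1.2, ht.2]; abel
              · intro l' hl'
                rw [Finset.mem_insert, Finset.mem_singleton] at hl'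
                rcases hl' with rfl | rfl
                · simp [ht.1.1.2]
                · simp [hl0.symm, ht.2]
          _ = _ := by rw [Finset.sum_const, smul_eq_mul]
      have h6 := hb _ hR
      unfold tau at h6
      calc _ ≤ (((univ.filter fun j => a j + (s - a i) ∈ Tp).card * L ^ (J - 2) : ℕ) : ℝ) := by
            exact_mod_cast h2
        _ ≤ _ := by
            push_cast
            gcongr
  have key2 : ((((FF a Tp R L T).filter fun t => t.2 l = i).filter fun t =>
        t.1 - a (t.2 l) = s).card : ℝ) ≤ (L : ℝ) ^ (J - 1) := by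
    have h5 := card_filter_fixed_le a Tp R L T hT {l} (fun _ => i) (s + a i)
    rw [Finset.card_singleton] at h5
    have h6 : (((FF a Tp R L T).filter fun t => t.2 l = i).filter fun t =>
        t.1 - a (t.2 l) = s).card ≤ L ^ (J - 1) := by
      refine le_trans (Finset.card_le_card ?_) h5
      intro t ht
      simp only [Finset.mem_filter] at ht
      rw [Finset.mem_filter]
      refine ⟨ht.1.1, ?_, ?_⟩
      · rw [← ht.2, ht.1.2]; abel
      · intro l' hl'
        rw [Finset.mem_singleton] at hl'
        rw [hl']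
        exact ht.1.2
    exact_mod_cast h6
  have hsub : (((FF a Tp R L T).filter fun t => i ∈ tsupp t).filter fun t =>
      t.1 - a (t.2 l) = s) ⊆ (((FF a Tp R L T).filter fun t => t.2 l = i).filter fun t =>
        t.1 - a (t.2 l) = s) ∪ ((univ.erase l).biUnion fun l0 =>
          (((FF a Tp R L T).filter fun t => t.2 l0 = i).filter fun t =>
            t.1 - a (t.2 l) = s)) := by
    intro t ht
    simp only [Finset.mem_filter, mem_tsupp] at ht
    obtain ⟨⟨h1, l0, hl0⟩, h2⟩ := ht
    rw [Finset.mem_union]
    by_cases h : l0 = l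
    · left
      subst h
      simp only [Finset.mem_filter]
      exact ⟨⟨h1, hl0⟩, h2⟩
    · right
      rw [Finset.mem_biUnion]
      refine ⟨l0, Finset.mem_erase.mpr ⟨h, Finset.mem_univ _⟩, ?_⟩
      simp only [Finset.mem_filter]
      exact ⟨⟨h1, hl0⟩, h2⟩
  have h7 : ((((FF a Tp R L T).filter fun t => i ∈ tsupp t).filter fun t =>
      t.1 - a (t.2 l) = s).card : ℝ) ≤ ((((FF a Tp R L T).filter fun t => t.2 l = i).filter fun t =>
        t.1 - a (t.2 l) = s).card : ℝ) + ∑ l0 ∈ univ.erase l,
          ((((FF a Tp R L T).filter fun t => t.2 l0 = i).filter fun t =>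
            t.1 - a (t.2 l) = s).card : ℝ) := by
    have h8 := (Finset.card_le_card hsub).trans (Finset.card_union_le _ _)
    have h9 := h8.trans (Nat.add_le_add_left Finset.card_biUnion_le _)
    exact_mod_cast h9
  refine h7.trans ?_
  refine add_le_add key2 ?_
  calc ∑ l0 ∈ univ.erase l, ((((FF a Tp R L T).filter fun t => t.2 l0 = i).filter fun t =>
            t.1 - a (t.2 l) = s).card : ℝ) ≤ ∑ _l0 ∈ univ.erase l, b * (L : ℝ) ^ (J - 2) :=
        Finset.sum_le_sum fun l0 hl0 => key l0 (Finset.ne_of_mem_erase hl0)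
    _ = ((univ.erase l : Finset (Fin J)).card : ℝ) * (b * (L : ℝ) ^ (J - 2)) := by
        rw [Finset.sum_const, nsmul_eq_mul]
    _ ≤ J * (b * (L : ℝ) ^ (J - 2)) := by
        gcongr
        calc (univ.erase l : Finset (Fin J)).card ≤ (univ : Finset (Fin J)).card :=
              Finset.card_le_card (Finset.erase_subset _ _)
          _ = J := by simp

end degrees

/-- Upper bound for the number of unforced tuples at low points. -/
theorem transfer_upper [Nonempty G] (a : Fin k → G) (Tp R : Finset G) (L : ℕ)
    (T : Fin J → Finset G) (hT : ∀ l, T l ⊆ Tp) (hk : 0 < k) (hJ : 0 < J) (hL : 0 < L)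
    (b : ℝ) (hb0 : 0 ≤ b) (hb : ∀ y ∉ R, (tau a Tp y : ℝ) ≤ b)
    (m r : ℕ) (δ s V : ℝ) (hδ : 0 ≤ δ) (hUT : UTgood J m r δ a) (hV : 0 < V)
    (hTV : (Tp.card : ℝ) ≤ V) (hs : 0 ≤ s) (hm : th N * V + s ≤ m) :
    th N ^ J * ((FF a Tp R L T).card : ℝ) ≤ th N ^ J * mu k T + δ +
      r * J * (2 * th N ^ J * (J * (V * (L : ℝ) ^ (J - 1)))) +
      k * (J * ((L : ℝ) ^ (J - 1) + J * (b * (L : ℝ) ^ (J - 2)))) +
      (Fintype.card G * (L : ℝ) ^ J) * (J * Real.exp (-(s ^ 2) / (2 * V))) := by
  set F := FF a Tp R L T with hF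
  set θ := th N ^ J with hθ
  have hθ0 : 0 < θ := pow_pos (th_pos N) J
  set h : ℝ := 2 * θ * (J * (V * (L : ℝ) ^ (J - 1))) with hh
  have hL0 : (0 : ℝ) < L := by exact_mod_cast hL
  have hJ0 : (0 : ℝ) < J := by exact_mod_cast hJ
  have hh0 : 0 < h := by positivity
  set B : ℝ := (L : ℝ) ^ (J - 1) + J * (b * (L : ℝ) ^ (J - 2)) with hB
  have hB0 : 0 ≤ B := by positivity
  set Fi : Fin k → Finset (G × (Fin J ↪ Fin k)) := fun i => F.filter fun t => i ∈ tsupp t with hFi
  have hFic : ∀ i, θ * ((Fi i).card : ℝ) ≤ h / 2 := by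
    intro i
    have h1 := card_FF_index a Tp R L T hT i
    have h2 : ((Fi i).card : ℝ) ≤ J * (Tp.card * (L : ℝ) ^ (J - 1)) := by exact_mod_cast h1
    have h3 : ((Fi i).card : ℝ) ≤ J * (V * (L : ℝ) ^ (J - 1)) := by
      refine h2.trans ?_
      gcongr
    rw [hh]
    calc θ * ((Fi i).card : ℝ) ≤ θ * (J * (V * (L : ℝ) ^ (J - 1))) := by gcongr
      _ = _ := by ring
  -- pointwise bound
  have hpt : ∀ ω : Fin J × G → Fin (N + 1), ((rs a F ω).card : ℝ) ≤
      mu k (smp T ω) + δ + r * J * h +
        (∑ i, 2 / h * (((rs a (Fi i) ω).card : ℝ) - θ * (Fi i).card) ^ 2) +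
        (Fintype.card G * (L : ℝ) ^ J) *
          (if ∃ l ∈ (univ : Finset (Fin J)), th N * V + s ≤ ((smp T ω l).card : ℝ) then 1 else 0)
        := by
    intro ω
    have hsum0 : 0 ≤ ∑ i, 2 / h * (((rs a (Fi i) ω).card : ℝ) - θ * (Fi i).card) ^ 2 :=
      Finset.sum_nonneg fun i _ => by positivity
    have hmu0 : 0 ≤ mu k (smp T ω) := mu_nonneg _
    have hrJh : 0 ≤ (r : ℝ) * J * h := by positivity
    by_cases hbad : ∃ l ∈ (univ : Finset (Fin J)), th N * V + s ≤ ((smp T ω l).card : ℝ)
    · rw [if_pos hbad, mul_one]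
      have h1 : ((rs a F ω).card : ℝ) ≤ Fintype.card G * (L : ℝ) ^ J := by
        have h2 : (rs a F ω).card ≤ Fintype.card G * L ^ J :=
          (Finset.card_le_card (Finset.filter_subset _ _)).trans (card_FF_le a Tp R L T hT hk)
        exact_mod_cast h2
      linarith
    · rw [if_neg hbad, mul_zero, add_zero]
      push Not at hbad
      have hsm : ∀ l, (smp T ω l).card ≤ m := by
        intro l
        have := (hbad l (Finset.mem_univ _)).trans_le hm
        exact_mod_cast this.le
      obtain ⟨D, hD, hcard⟩ := hUT (smp T ω) hsm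
      have hsub : rs a F ω ⊆ (univ.filter fun t : G × (Fin J ↪ Fin k) =>
          Disjoint (tsupp t) D ∧ occ (smp T ω) a t) ∪ D.biUnion fun i => rs a (Fi i) ω := by
        intro t ht
        unfold rs at ht
        rw [Finset.mem_filter] at ht
        rw [Finset.mem_union]
        by_cases hdis : Disjoint (tsupp t) D
        · left
          rw [Finset.mem_filter]
          refine ⟨Finset.mem_univ _, hdis, ?_⟩
          rw [occ_smp_iff]
          exact ⟨(mem_FF.mp ht.1).1, ht.2⟩
        · right
          rw [Finset.not_disjoint_iff] at hdis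
          obtain ⟨i, hi1, hi2⟩ := hdis
          rw [Finset.mem_biUnion]
          refine ⟨i, hi2, ?_⟩
          unfold rs
          rw [Finset.mem_filter]
          exact ⟨Finset.mem_filter.mpr ⟨ht.1, hi1⟩, ht.2⟩
      have h1 : ((rs a F ω).card : ℝ) ≤ ((univ.filter fun t : G × (Fin J ↪ Fin k) =>
          Disjoint (tsupp t) D ∧ occ (smp T ω) a t).card : ℝ) +
          ∑ i ∈ D, ((rs a (Fi i) ω).card : ℝ) := by
        have h2 := (Finset.card_le_card hsub).trans (Finset.card_union_le _ _)
        have h3 := h2.trans (Nat.add_le_add_left Finset.card_biUnion_le _)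
        exact_mod_cast h3
      have h4 : ∀ i, ((rs a (Fi i) ω).card : ℝ) ≤
          h + 2 / h * (((rs a (Fi i) ω).card : ℝ) - θ * (Fi i).card) ^ 2 := by
        intro i
        set z : ℝ := ((rs a (Fi i) ω).card : ℝ) with hz
        have h5 := hFic i
        by_cases hzh : z ≤ h
        · have : 0 ≤ 2 / h * (z - θ * (Fi i).card) ^ 2 := by positivity
          linarith
        · push Not at hzh
          have h6 : h / 2 ≤ z - θ * (Fi i).card := by linarith
          have h7 : z - θ * (Fi i).card ≤ 2 / h * (z - θ * (Fi i).card) ^ 2 := by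
            rw [div_mul_eq_mul_div, le_div_iff₀ hh0, sq]
            nlinarith
          linarith
      calc ((rs a F ω).card : ℝ) ≤ (mu k (smp T ω) + δ) + ∑ i ∈ D, ((rs a (Fi i) ω).card : ℝ) := by
            linarith
        _ ≤ (mu k (smp T ω) + δ) + ∑ i ∈ D,
            (h + 2 / h * (((rs a (Fi i) ω).card : ℝ) - θ * (Fi i).card) ^ 2) := by
            gcongr with i _
            exact h4 i
        _ = (mu k (smp T ω) + δ) + (D.card * h + ∑ i ∈ D,
            2 / h * (((rs a (Fi i) ω).card : ℝ) - θ * (Fi i).card) ^ 2) := by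
            rw [Finset.sum_add_distrib, Finset.sum_const, nsmul_eq_mul]
        _ ≤ (mu k (smp T ω) + δ) + (r * J * h + ∑ i,
            2 / h * (((rs a (Fi i) ω).card : ℝ) - θ * (Fi i).card) ^ 2) := by
            have h8 : (D.card : ℝ) ≤ r * J := by exact_mod_cast hD
            have h9 : ∑ i ∈ D, 2 / h * (((rs a (Fi i) ω).card : ℝ) - θ * (Fi i).card) ^ 2 ≤
                ∑ i, 2 / h * (((rs a (Fi i) ω).card : ℝ) - θ * (Fi i).card) ^ 2 :=
              Finset.sum_le_sum_of_subset_of_nonneg (Finset.subset_univ _)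
                (fun i _ _ => by positivity)
            gcongr
        _ = _ := by ring
  have hav := av_mono hpt
  rw [av_card_rs, av_add, av_add, av_add, av_add, av_mu_smp, av_const, av_const, av_sum,
    av_mul_left] at hav
  have hvar : ∑ i : Fin k, av (fun ω : Fin J × G → Fin (N + 1) =>
      2 / h * (((rs a (Fi i) ω).card : ℝ) - θ * (Fi i).card) ^ 2) ≤ k * (J * B) := by
    calc ∑ i : Fin k, av (fun ω : Fin J × G → Fin (N + 1) =>
        2 / h * (((rs a (Fi i) ω).card : ℝ) - θ * (Fi i).card) ^ 2)
        ≤ ∑ _i : Fin k, J * B := by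
          refine Finset.sum_le_sum fun i _ => ?_
          rw [av_mul_left]
          have h1 := var_card_rs (N := N) a (Fi i) B ?_
          · calc 2 / h * av (fun ω : Fin J × G → Fin (N + 1) =>
                  (((rs a (Fi i) ω).card : ℝ) - θ * (Fi i).card) ^ 2)
                ≤ 2 / h * (θ * ((Fi i).card * (J * B))) := by gcongr
              _ = (2 / h * (θ * ((Fi i).card : ℝ))) * (J * B) := by ring
              _ ≤ 1 * (J * B) := by
                  gcongr
                  rw [div_mul_eq_mul_div, div_le_one hh0]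
                  have := hFic i
                  linarith
              _ = J * B := one_mul _
          · intro t _ l
            exact card_FF_cell a Tp R L T hT b hb0 hb i l _
      _ = k * (J * B) := by simp
  have hbadpr : av (fun ω : Fin J × G → Fin (N + 1) =>
      (if ∃ l ∈ (univ : Finset (Fin J)), th N * V + s ≤ ((smp T ω l).card : ℝ) then (1 : ℝ)
        else 0)) ≤ J * Real.exp (-(s ^ 2) / (2 * V)) := by
    have h1 := pr_exists_le_card (univ : Finset (Fin J))
      (fun l (ω : Fin J × G → Fin (N + 1)) => th N * V + s ≤ ((smp T ω l).card : ℝ))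
      (Real.exp (-(s ^ 2) / (2 * V))) (fun l _ => pr_card_smp T l V s hV
        (le_trans (by exact_mod_cast Finset.card_le_card (hT l)) hTV) hs)
    rw [pr_eq_ite] at h1
    simpa using h1
  have hnL : 0 ≤ (Fintype.card G : ℝ) * (L : ℝ) ^ J := by positivity
  have h10 := mul_le_mul_of_nonneg_left hbadpr hnL
  linarith

end Cover
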