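import Pool.Agent.Cover.Prob

/-!
From random sequences to random subsets.
-/

namespace Cover

open Finset
open scoped Classical

variable {G : Type*} [Fintype G] {k : ℕ}

/-- Injective sequences. -/
noncomputable def injs (G : Type*) [Fintype G] (k : ℕ) : Finset (Fin k → G) :=
  univ.filter fun a => Function.Injective a

/-- The set of values of a sequence. -/
noncomputable def img (a : Fin k → G) : Finset G := univ.image a

lemma mem_img {a : Fin k → G} {x : G} : x ∈ img a ↔ ∃ i, a i = x := by
  simp [img]

/-- Injective sequences with a given image. -/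
noncomputable def fib (A : Finset G) (k : ℕ) : Finset (Fin k → G) :=
  (injs G k).filter fun a => img a = A

lemma card_fib_le (A A' : Finset G) (hA : A.card = A'.card) :
    (fib A k).card ≤ (fib A' k).card := by
  have e : A ≃ A' := Finset.equivOfCardEq hA
  have hmem : ∀ a ∈ fib A k, ∀ i, a i ∈ A := by
    intro a ha i
    have := (Finset.mem_filter.mp ha).2
    rw [← this, mem_img]
    exact ⟨i, rfl⟩
  refine Finset.card_le_card_of_injOn
    (fun a i => if h : a i ∈ A then (e ⟨a i, h⟩ : G) else a i) ?_ ?_
  · intro a ha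
    have h1 := hmem a ha
    obtain ⟨h2, h3⟩ := Finset.mem_filter.mp ha
    have h4 : Function.Injective a := (Finset.mem_filter.mp h2).2
    have hval : ∀ i, (if h : a i ∈ A then (e ⟨a i, h⟩ : G) else a i) = (e ⟨a i, h1 i⟩ : G) :=
      fun i => dif_pos (h1 i)
    simp only [hval]
    have h5 : Function.Injective fun i => (e ⟨a i, h1 i⟩ : G) := by
      intro i j hij
      have h6 := e.injective (Subtype.ext hij)
      exact h4 (congrArg Subtype.val h6)
    refine Finset.mem_filter.mpr ⟨Finset.mem_filter.mpr ⟨Finset.mem_univ _, h5⟩, ?_⟩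
    ext x
    rw [mem_img]
    constructor
    · rintro ⟨i, rfl⟩
      exact (e ⟨a i, h1 i⟩).2
    · intro hx
      have h6 : (e.symm ⟨x, hx⟩ : G) ∈ img a := h3.ge (e.symm ⟨x, hx⟩).2
      rw [mem_img] at h6
      obtain ⟨i, hi⟩ := h6
      refine ⟨i, ?_⟩
      have h7 : (⟨a i, h1 i⟩ : A) = e.symm ⟨x, hx⟩ := Subtype.ext hi
      simp only [h7, Equiv.apply_symm_apply]
  · intro a ha a' ha' h
    funext i
    have h1 := hmem a ha i
    have h1' := hmem a' ha' i
    have h2 := congrFun h i
    simp only [dif_pos h1, dif_pos h1'] at h2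
    have h3 := e.injective (Subtype.ext h2)
    exact congrArg Subtype.val h3

lemma card_inj_filter (Q : Finset G → Prop) (A₀ : Finset G) (hA₀ : A₀.card = k) :
    ((injs G k).filter fun a => Q (img a)).card =
      (fib A₀ k).card * (((univ : Finset (Finset G)).filter fun A => A.card = k ∧ Q A).card) := by
  have h1 := Finset.card_eq_sum_card_fiberwise (f := fun a : Fin k → G => img a)
    (s := (injs G k).filter fun a => Q (img a))
    (t := (univ : Finset (Finset G)).filter fun A => A.card = k ∧ Q A) (by
      intro a ha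
      obtain ⟨h2, h3⟩ := Finset.mem_filter.mp ha
      have h4 : Function.Injective a := (Finset.mem_filter.mp h2).2
      refine Finset.mem_coe.mpr (Finset.mem_filter.mpr ⟨Finset.mem_univ _, ?_, h3⟩)
      unfold img
      rw [Finset.card_image_of_injective _ h4, Finset.card_univ, Fintype.card_fin])
  rw [h1]
  calc ∑ A ∈ (univ : Finset (Finset G)).filter (fun A => A.card = k ∧ Q A),
      (((injs G k).filter fun a => Q (img a)).filter fun a => img a = A).card
      = ∑ _A ∈ (univ : Finset (Finset G)).filter (fun A => A.card = k ∧ Q A),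
        (fib A₀ k).card := by
        refine Finset.sum_congr rfl fun A hA => ?_
        obtain ⟨_, hAc, hQ⟩ := Finset.mem_filter.mp hA
        have h2 : (((injs G k).filter fun a => Q (img a)).filter
            fun a => img a = A) = fib A k := by
          ext a
          unfold fib
          simp only [Finset.mem_filter]
          constructor
          · rintro ⟨⟨h3, _⟩, h4⟩; exact ⟨h3, h4⟩
          · rintro ⟨h3, h4⟩; exact ⟨⟨h3, by rw [h4]; exact hQ⟩, h4⟩
        rw [h2]
        exact le_antisymm (card_fib_le A A₀ (hAc.trans hA₀.symm))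
          (card_fib_le A₀ A (hA₀.trans hAc.symm))
    _ = _ := by rw [Finset.sum_const, smul_eq_mul, mul_comm]

lemma pr_eq_eq [Nonempty G] (i j : Fin k) (hij : i ≠ j) :
    pr (fun a : Fin k → G => a i = a j) ≤ 1 / Fintype.card G := by
  have hn : (0 : ℝ) < (Fintype.card G : ℝ) := by exact_mod_cast Fintype.card_pos
  have h1 : pr (fun a : Fin k → G => a i = a j) ≤
      pr (fun a : Fin k → G => ∃ g ∈ (univ : Finset G),
        ∀ l, a l ∈ (if l = i ∨ l = j then ({g} : Finset G) else univ)) := by
    refine pr_mono fun a ha => ?_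
    refine ⟨a i, Finset.mem_univ _, fun l => ?_⟩
    by_cases hl : l = i ∨ l = j
    · rw [if_pos hl, Finset.mem_singleton]
      rcases hl with rfl | rfl
      · rfl
      · exact ha.symm
    · rw [if_neg hl]; exact Finset.mem_univ _
  refine h1.trans ((pr_exists_le_card _ _ (1 / (Fintype.card G : ℝ) * (1 / Fintype.card G))
    ?_).trans (le_of_eq ?_))
  · intro g _
    rw [pr_pi, Finset.prod_eq_mul i j hij]
    · simp [hij]
    · intro l _ hl
      have : ¬ (l = i ∨ l = j) := by tauto
      rw [if_neg this, Finset.card_univ, div_self hn.ne']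
    · simp
    · simp
  · rw [Finset.card_univ]
    field_simp

lemma pr_inj_ge [Nonempty G] (hk : (k : ℝ) ^ 2 ≤ Fintype.card G) :
    1 / 2 ≤ pr (fun a : Fin k → G => Function.Injective a) := by
  have hn : (0 : ℝ) < (Fintype.card G : ℝ) := by exact_mod_cast Fintype.card_pos
  have h1 : pr (fun a : Fin k → G => ¬ Function.Injective a) ≤ 1 / 2 := by
    have h2 : pr (fun a : Fin k → G => ¬ Function.Injective a) ≤
        pr (fun a : Fin k → G => ∃ j ∈ (univ : Finset (Fin k)),
          ∃ i ∈ (univ : Finset (Fin k)).filter (fun i => i < j), a i = a j) := by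
      refine pr_mono fun a ha => ?_
      unfold Function.Injective at ha
      push Not at ha
      obtain ⟨i, j, h3, h4⟩ := ha
      rcases lt_or_gt_of_ne h4 with h5 | h5
      · exact ⟨j, Finset.mem_univ _, i, by simp [h5], h3⟩
      · exact ⟨i, Finset.mem_univ _, j, by simp [h5], h3.symm⟩
    refine h2.trans ((pr_exists_le _ _).trans ?_)
    have h3 : ∀ j : Fin k, pr (fun a : Fin k → G =>
        ∃ i ∈ (univ : Finset (Fin k)).filter (fun i => i < j), a i = a j) ≤
        (j : ℝ) * (1 / Fintype.card G) := by
      intro j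
      refine (pr_exists_le_card _ _ (1 / (Fintype.card G : ℝ)) fun i hi => ?_).trans
        (le_of_eq ?_)
      · exact pr_eq_eq i j (ne_of_lt (Finset.mem_filter.mp hi).2)
      · congr 2
        have : (univ : Finset (Fin k)).filter (fun i => i < j) = Finset.Iio j := by
          ext i; simp
        rw [this, Fin.card_Iio]
    calc ∑ j : Fin k, pr (fun a : Fin k → G =>
        ∃ i ∈ (univ : Finset (Fin k)).filter (fun i => i < j), a i = a j)
        ≤ ∑ j : Fin k, (j : ℝ) * (1 / Fintype.card G) := Finset.sum_le_sum fun j _ => h3 j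
      _ = (∑ j ∈ range k, (j : ℝ)) * (1 / Fintype.card G) := by
          rw [← Finset.sum_mul, Fin.sum_univ_eq_sum_range (fun j : ℕ => (j : ℝ)) k]
      _ ≤ ((k : ℝ) ^ 2 / 2) * (1 / Fintype.card G) := by
          gcongr
          have h5 := Finset.sum_range_id_mul_two k
          have h6 : (((∑ i ∈ range k, i) * 2 : ℕ) : ℝ) = ((k * (k - 1) : ℕ) : ℝ) := by rw [h5]
          rw [Nat.cast_mul, Nat.cast_sum, Nat.cast_mul, Nat.cast_ofNat] at h6
          have h7 : ((k - 1 : ℕ) : ℝ) ≤ k := by exact_mod_cast Nat.sub_le k 1
          have h8 : (0 : ℝ) ≤ k := by positivity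
          nlinarith
      _ ≤ 1 / 2 := by
          rw [mul_one_div, div_le_iff₀ hn]
          linarith
  have h2 := pr_not (fun a : Fin k → G => Function.Injective a)
  linarith

/-- The proportion of `k`-subsets with a property, from random sequences. -/
lemma subset_ratio_le [Nonempty G] (hk : (k : ℝ) ^ 2 ≤ Fintype.card G) (Q : Finset G → Prop)
    (δ : ℝ) (h : pr (fun a : Fin k → G => Function.Injective a ∧ Q (img a)) ≤ δ) :
    (((univ : Finset (Finset G)).filter fun A => A.card = k ∧ Q A).card : ℝ) ≤
      2 * δ * ((univ : Finset (Finset G)).filter fun A => A.card = k).card := by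
  by_cases hex : ∃ A₀ : Finset G, A₀.card = k
  · obtain ⟨A₀, hA₀⟩ := hex
    have h1 := card_inj_filter Q A₀ hA₀
    have h2 := card_inj_filter (fun _ => True) A₀ hA₀
    set N : ℝ := (Fintype.card (Fin k → G) : ℝ) with hN
    have hN0 : 0 < N := by rw [hN]; exact_mod_cast Fintype.card_pos
    have h3 : (((injs G k).filter fun a => Q (img a)).card : ℝ) ≤ δ * N := by
      rw [pr_eq_card, div_le_iff₀ hN0] at h
      refine le_trans (le_of_eq ?_) h
      congr 2
      ext a
      simp [injs]
    have h4 : 1 / 2 * N ≤ (((fib A₀ k).card *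
        ((univ : Finset (Finset G)).filter fun A => A.card = k).card : ℕ) : ℝ) := by
      have h5 := pr_inj_ge (G := G) hk
      rw [pr_eq_card, le_div_iff₀ hN0] at h5
      have h6 : (injs G k).card = (fib A₀ k).card *
          ((univ : Finset (Finset G)).filter fun A => A.card = k).card := by
        refine Eq.trans ?_ (h2.trans ?_)
        · congr 1
          ext a; simp
        · congr 2
          ext A; simp
      rw [← h6]
      refine le_trans h5 (le_of_eq ?_)
      congr 2
      ext a; simp [injs]
    rw [h1] at h3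
    push_cast at h3 h4
    set f : ℝ := ((fib A₀ k).card : ℝ) with hf
    have hf0 : 0 ≤ f := by positivity
    set x : ℝ := (((univ : Finset (Finset G)).filter fun A => A.card = k ∧ Q A).card : ℝ)
    set y : ℝ := (((univ : Finset (Finset G)).filter fun A => A.card = k).card : ℝ)
    have hfpos : 0 < f := by
      rcases hf0.lt_or_eq with h5 | h5
      · exact h5
      · rw [← h5] at h4
        linarith
    have hδ : 0 ≤ δ := le_trans (pr_nonneg _) h
    have h5 : f * x ≤ f * (2 * δ * y) := by
      calc f * x ≤ δ * N := h3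
        _ = 2 * δ * (1 / 2 * N) := by ring
        _ ≤ 2 * δ * (f * y) := by gcongr
        _ = _ := by ring
    exact le_of_mul_le_mul_left h5 hfpos
  · push Not at hex
    have h1 : ((univ : Finset (Finset G)).filter fun A => A.card = k ∧ Q A) = ∅ := by
      rw [Finset.filter_eq_empty_iff]
      intro A _ hA
      exact hex A hA.1
    have hδ : 0 ≤ δ := le_trans (pr_nonneg _) h
    rw [h1]
    simp only [Finset.card_empty, Nat.cast_zero]
    positivity

end Cover
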