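import Pool.Agent.Cover.Moment

/-!
Union bounds over all small families of sets.
-/

namespace Cover

open Finset
open scoped Classical

set_option linter.unusedSectionVars false

variable {G : Type*} [AddCommGroup G] [Fintype G] {J k : ℕ}

lemma card_small_sets (m : ℕ) :
    ((univ : Finset (Finset G)).filter fun T => T.card ≤ m).card ≤ (Fintype.card G + 1) ^ m := by
  have h1 : ((univ : Finset (Finset G)).filter fun T => T.card ≤ m) ⊆
      Finset.image (fun f : Fin m → Option G => univ.filter fun g => ∃ i, f i = some g) univ := by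
    intro T hT
    have hT' : T.card ≤ m := (Finset.mem_filter.mp hT).2
    rw [Finset.mem_image]
    refine ⟨fun i => if h : (i : ℕ) < T.card then some (T.equivFin.symm ⟨i, h⟩ : G) else none,
      Finset.mem_univ _, ?_⟩
    ext g
    simp only [Finset.mem_filter, Finset.mem_univ, true_and]
    constructor
    · rintro ⟨i, hi⟩
      split_ifs at hi with h
      have : (T.equivFin.symm ⟨i, h⟩ : G) = g := by simpa using hi
      rw [← this]
      exact (T.equivFin.symm ⟨i, h⟩).2
    · intro hg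
      refine ⟨⟨(T.equivFin ⟨g, hg⟩ : ℕ), lt_of_lt_of_le (T.equivFin ⟨g, hg⟩).2 hT'⟩, ?_⟩
      have h : ((T.equivFin ⟨g, hg⟩ : Fin T.card) : ℕ) < T.card := (T.equivFin ⟨g, hg⟩).2
      simp
  calc _ ≤ _ := Finset.card_le_card h1
    _ ≤ (univ : Finset (Fin m → Option G)).card := Finset.card_image_le
    _ = _ := by simp

/-- Families `S : Fin J → Finset G` of sets of size at most `m`. -/
noncomputable def smallFam (G : Type*) [Fintype G] (J m : ℕ) : Finset (Fin J → Finset G) :=
  Fintype.piFinset fun _ => (univ : Finset (Finset G)).filter fun T => T.card ≤ m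

lemma mem_smallFam {m : ℕ} {S : Fin J → Finset G} :
    S ∈ smallFam G J m ↔ ∀ l, (S l).card ≤ m := by
  simp [smallFam]

lemma card_smallFam (m : ℕ) : (smallFam G J m).card ≤ ((Fintype.card G + 1) ^ m) ^ J := by
  unfold smallFam
  rw [Fintype.card_piFinset]
  simp only [Finset.prod_const, Finset.card_univ, Fintype.card_fin]
  exact Nat.pow_le_pow_left (card_small_sets m) J

lemma mu_nonneg (S : Fin J → Finset G) : 0 ≤ mu k S := by
  unfold mu
  positivity

lemma mu_le [Nonempty G] (S : Fin J → Finset G) (m : ℝ) (hm : ∀ l, ((S l).card : ℝ) ≤ m) :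
    mu k S ≤ (Fintype.card G : ℝ) * (k * m / Fintype.card G) ^ J := by
  have hn : (0 : ℝ) < (Fintype.card G : ℝ) := by exact_mod_cast Fintype.card_pos
  unfold mu
  have h1 : ∏ l, ((S l).card : ℝ) / (Fintype.card G : ℝ) ≤ (m / Fintype.card G) ^ J := by
    calc ∏ l, ((S l).card : ℝ) / (Fintype.card G : ℝ)
        ≤ ∏ _l : Fin J, m / (Fintype.card G : ℝ) := by
          refine Finset.prod_le_prod (fun l _ => by positivity) (fun l _ => ?_)
          gcongr
          exact hm l
      _ = _ := by simp [div_pow]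
  have h2 : ((k.descFactorial J : ℕ) : ℝ) ≤ (k : ℝ) ^ J := by
    exact_mod_cast Nat.descFactorial_le_pow k J
  have hpos : 0 ≤ ∏ l, ((S l).card : ℝ) / (Fintype.card G : ℝ) :=
    Finset.prod_nonneg fun l _ => by positivity
  calc _ ≤ (Fintype.card G : ℝ) * (k : ℝ) ^ J * (m / Fintype.card G) ^ J := by gcongr
    _ = _ := by
      rw [mul_assoc, ← mul_pow, mul_div_assoc]

/-- Upper tails, uniformly in all small families. -/
def UTgood (J m : ℕ) (r : ℕ) (δ : ℝ) (a : Fin k → G) : Prop :=
  ∀ S : Fin J → Finset G, (∀ l, (S l).card ≤ m) → ∃ D : Finset (Fin k), D.card ≤ r * J ∧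
    ((univ.filter fun t : G × (Fin J ↪ Fin k) => Disjoint (tsupp t) D ∧ occ S a t).card : ℝ) <
      mu k S + δ

theorem pr_not_UTgood [Nonempty G] (m r : ℕ) (δ : ℝ) (hδ : 0 < δ) :
    pr (fun a : Fin k → G => ¬ UTgood J m r δ a) ≤
      ((Fintype.card G + 1 : ℝ) ^ m) ^ J *
        ((Fintype.card G : ℝ) * (k * m / Fintype.card G) ^ J /
          ((Fintype.card G : ℝ) * (k * m / Fintype.card G) ^ J + δ)) ^ r := by
  set M : ℝ := (Fintype.card G : ℝ) * (k * m / Fintype.card G) ^ J with hM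
  have hM0 : 0 ≤ M := by positivity
  have h1 : pr (fun a : Fin k → G => ¬ UTgood J m r δ a) ≤
      pr (fun a : Fin k → G => ∃ S ∈ smallFam G J m, ∀ D : Finset (Fin k), D.card ≤ r * J →
        mu k S + δ ≤ ((univ.filter fun t : G × (Fin J ↪ Fin k) =>
          Disjoint (tsupp t) D ∧ ∀ i, a i ∈ tC S t i).card : ℝ)) := by
    refine pr_mono fun a ha => ?_
    unfold UTgood at ha
    push Not at ha
    obtain ⟨S, hS, hD⟩ := ha
    refine ⟨S, mem_smallFam.mpr hS, fun D hDc => ?_⟩
    refine (hD D hDc).trans (le_of_eq ?_)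
    congr 2
    ext t
    simp [occ_iff]
  refine h1.trans ?_
  have h2 := pr_exists_le_card (smallFam G J m) (fun S (a : Fin k → G) =>
    ∀ D : Finset (Fin k), D.card ≤ r * J →
        mu k S + δ ≤ ((univ.filter fun t : G × (Fin J ↪ Fin k) =>
          Disjoint (tsupp t) D ∧ ∀ i, a i ∈ tC S t i).card : ℝ)) ((M / (M + δ)) ^ r) ?_
  · refine h2.trans ?_
    gcongr
    have := card_smallFam (G := G) (J := J) m
    exact_mod_cast this
  · intro S hS
    have hS' := mem_smallFam.mp hS
    have hmu : mu k S ≤ M := by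
      refine mu_le S m fun l => ?_
      exact_mod_cast hS' l
    have h3 := deletion (fun t : G × (Fin J ↪ Fin k) => tsupp t) (fun t => tC S t) J r
      (fun t => (card_tsupp t).le) (fun t i hi => tC_of_notMem S t i hi) (mu k S) (mu k S + δ)
      (by have := mu_nonneg (k := k) S; linarith) (sum_pr_occ S).le
    refine le_trans (pr_mono fun a ha D hD => (ha D hD).trans (le_of_eq ?_)) (h3.trans ?_)
    · congr 2
      ext t
      simp
    have hmu0 := mu_nonneg (k := k) S
    have : mu k S / (mu k S + δ) ≤ M / (M + δ) := by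
      rw [div_le_div_iff₀ (by linarith) (by linarith)]
      nlinarith
    gcongr

/-- Robust lower tails, uniformly in all small regular families. -/
def LTgood (J m : ℕ) (κ h h' B : ℝ) (a : Fin k → G) : Prop :=
  ∀ S : Fin J → Finset G, (∀ l, (S l).card ≤ m) →
    (∀ l l' x x', x ≠ x' → (rho S l l' x x' : ℝ) ≤ κ) →
    ∃ F : Finset (G × (Fin J ↪ Fin k)), (∀ t ∈ F, occ S a t) ∧
      Bdd tsupp (fun t : G × (Fin J ↪ Fin k) => t.1) h h' F ∧ mu k S - B < (F.card : ℝ)

theorem pr_not_LTgood [Nonempty G] (hk : 0 < k) (m : ℕ) (κ h h' B s : ℝ) (hm : 0 < m)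
    (hκ : 0 ≤ κ) (hh : 0 < h) (hh' : 0 < h') (hs : 0 ≤ s)
    (hB : (J ^ 2 * ((m : ℝ) ^ 2 * k ^ J * ((m : ℝ) / Fintype.card G) ^ (J - 1) *
        (k * ((m : ℝ) / Fintype.card G) + J * (κ / m)) ^ (J - 1) +
      Fintype.card G * k ^ J * ((m : ℝ) / Fintype.card G) ^ J *
        (k * ((m : ℝ) / Fintype.card G) + J) ^ (J - 1))) / h +
      (Fintype.card G * k ^ J * ((m : ℝ) / Fintype.card G) ^ J *
        (k * ((m : ℝ) / Fintype.card G) + J) ^ J) / h' + s ≤ B) :
    pr (fun a : Fin k → G => ¬ LTgood J m κ h h' B a) ≤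
      ((Fintype.card G + 1 : ℝ) ^ m) ^ J * Real.exp (-(s ^ 2) / (2 * (k * h ^ 2))) := by
  have : Nonempty (Fin k) := ⟨⟨0, hk⟩⟩
  have hm0 : (0 : ℝ) < m := by exact_mod_cast hm
  have h1 : pr (fun a : Fin k → G => ¬ LTgood J m κ h h' B a) ≤
      pr (fun a : Fin k → G => ∃ S ∈ smallFam G J m,
        (∀ l l' x x', x ≠ x' → (rho S l l' x x' : ℝ) ≤ κ) ∧
        ¬ ∃ F : Finset (G × (Fin J ↪ Fin k)), F ⊆ Occ (fun t => tC S t) a ∧
          Bdd tsupp (fun t : G × (Fin J ↪ Fin k) => t.1) h h' F ∧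
          mu k S - (B - s) - s < (F.card : ℝ)) := by
    refine pr_mono fun a ha => ?_
    unfold LTgood at ha
    push Not at ha
    obtain ⟨S, hS, hreg, hF⟩ := ha
    refine ⟨S, mem_smallFam.mpr hS, hreg, ?_⟩
    rintro ⟨F, hFO, hb, hc⟩
    have := hF F (fun t ht => (occ_iff S a t).mp (mem_Occ.mp (hFO ht))) hb
    linarith
  refine h1.trans ?_
  have h2 := pr_exists_le_card (smallFam G J m) (fun S (a : Fin k → G) =>
    (∀ l l' x x', x ≠ x' → (rho S l l' x x' : ℝ) ≤ κ) ∧
        ¬ ∃ F : Finset (G × (Fin J ↪ Fin k)), F ⊆ Occ (fun t => tC S t) a ∧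
          Bdd tsupp (fun t : G × (Fin J ↪ Fin k) => t.1) h h' F ∧
          mu k S - (B - s) - s < (F.card : ℝ))
    (Real.exp (-(s ^ 2) / (2 * (k * h ^ 2)))) ?_
  · refine h2.trans ?_
    gcongr
    have := card_smallFam (G := G) (J := J) m
    exact_mod_cast this
  · intro S hS
    have hS' := mem_smallFam.mp hS
    have hSm : ∀ l, ((S l).card : ℝ) ≤ (m : ℝ) := fun l => by exact_mod_cast hS' l
    by_cases hreg : ∀ l l' x x', x ≠ x' → (rho S l l' x x' : ℝ) ≤ κ
    · have hI := sum_degI_sq_le (k := k) S (m : ℝ) κ hm0 hκ hSm hreg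
      have hV := sum_degV_sq_le (k := k) S (m : ℝ) hm0 hSm
      have h3 := robust_lower (ι := Fin k) (α := G) tsupp
        (fun t : G × (Fin J ↪ Fin k) => t.1) (fun t => tC S t)
        (fun t i hi => tC_of_notMem S t i hi) hh hh' (B - s) s hs ?_
      · rw [sum_pr_occ S, Fintype.card_fin] at h3
        refine le_trans (pr_mono fun a ha => ?_) h3
        exact ha.2
      · have hI' := div_le_div_of_nonneg_right hI hh.le
        have hV' := div_le_div_of_nonneg_right hV hh'.le
        linarith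
    · have : pr (fun a : Fin k → G => (∀ l l' x x', x ≠ x' → (rho S l l' x x' : ℝ) ≤ κ) ∧
        ¬ ∃ F : Finset (G × (Fin J ↪ Fin k)), F ⊆ Occ (fun t => tC S t) a ∧
          Bdd tsupp (fun t : G × (Fin J ↪ Fin k) => t.1) h h' F ∧
          mu k S - (B - s) - s < (F.card : ℝ)) = 0 := by
        unfold pr
        simp only [hreg, false_and, if_false]
        exact av_const 0
      rw [this]
      exact (Real.exp_pos _).le

end Cover
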