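import Pool.Agent.Cover.ProbL
import Pool.Agent.Cover.Assembly

/-!
All hypotheses hold with high probability.
-/

namespace Cover

open Filter Finset
open scoped Classical

section single

variable {G : Type*} [AddCommGroup G] [Fintype G] {k : ℕ}

/-- The random events used by the deterministic part. -/
def Good (j C' K r' q : ℕ) (ε η : ℝ) (a : Fin k → G) : Prop :=
  (∀ J, 1 ≤ J → J ≤ j → UTgood J (mm C' k (NU j q)) (rU j q k)
    (ε * th (NU j q) ^ J * Fintype.card G) a) ∧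
  (∀ J, 1 ≤ J → J ≤ j → LTgood J (mm C' k q) (2 * (th q ^ 2 * (C' * k)))
    ((j ^ 2 * DA j C' / ε) * th q ^ J * k) q (4 * ε * th q ^ J * Fintype.card G) a) ∧
  UTgood 2 1 q 1 a ∧ CharBd (2 * √(8 * k * q) ^ 2) a ∧
  DBgood K r' η √(2 * k * q) √(8 * K ^ 2 * k ^ 3 * q) a

lemma pr_and_not_le {P Q : (Fin k → G) → Prop} :
    pr (fun a => ¬ (P a ∧ Q a)) ≤ pr (fun a => ¬ P a) + pr (fun a => ¬ Q a) := by
  refine le_trans (pr_mono fun a ha => ?_) (pr_or_le _ _)
  by_contra hcon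
  push Not at hcon
  exact ha hcon

lemma pr_forall_le (j : ℕ) (P : ℕ → (Fin k → G) → Prop) (δ : ℝ)
    (h : ∀ J, 1 ≤ J → J ≤ j → pr (fun a => ¬ P J a) ≤ δ) :
    pr (fun a => ¬ ∀ J, 1 ≤ J → J ≤ j → P J a) ≤ j * δ := by
  have h1 : pr (fun a => ¬ ∀ J, 1 ≤ J → J ≤ j → P J a) ≤
      pr (fun a => ∃ J ∈ Finset.Icc 1 j, ¬ P J a) := by
    refine pr_mono fun a ha => ?_
    push Not at ha
    obtain ⟨J, h1, h2, h3⟩ := ha
    exact ⟨J, by rw [Finset.mem_Icc]; exact ⟨h1, h2⟩, h3⟩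
  refine h1.trans ((pr_exists_le_card _ _ δ fun J hJ => ?_).trans (le_of_eq ?_))
  · rw [Finset.mem_Icc] at hJ
    exact h J hJ.1 hJ.2
  · rw [Nat.card_Icc]
    simp

end single

variable {ι : Type*} {F : Filter ι} {n k q : ι → ℕ}

theorem pr_not_Good {G : ι → Type*} [∀ i, AddCommGroup (G i)] [∀ i, Fintype (G i)]
    [∀ i, Nonempty (G i)] {j : ℕ} (h : Env F n k q (EE0 j)) (hj : 1 ≤ j)
    (hG : ∀ᶠ i in F, Fintype.card (G i) = n i)
    (h2 : ∀ᶠ i in F, Function.Bijective fun g : G i => g + g)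
    (C' K r' : ℕ) (hC : 1 ≤ C') (hK : 1 ≤ K) (hr' : 8 * K ≤ r') (ε η : ℝ) (hε : 0 < ε)
    (hη : 0 < η) (δ : ℝ) (hδ : 0 < δ) :
    ∀ᶠ i in F, pr (fun a : Fin (k i) → G i => ¬ Good j C' K r' (q i) ε η a) ≤ δ := by
  have hE : 0 < EE0 j := by unfold EE0; omega
  have hδ' : 0 < δ / 6 := by positivity
  filter_upwards [hG, h2, h.q_ge 1, h.k_ge hE (8 * K), h.k_ge hE 1, h.sq_le, ut_ev h C' hC ε hε,
    lt_ev h hj C' hC ε hε, h.exp_small hE j 1 (δ / 6) 0 one_pos hδ',
    h.exp_small hE 4 1 (δ / 6) 1 one_pos hδ', h.exp_small hE 1 (1 / 2) (δ / 6) 2 (by norm_num) hδ',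
    h.exp_small hE (2 + 7 * (r' : ℝ) ^ 2) 1 (δ / 6) (K + 3) one_pos hδ']
    with i hGi h2i g1 g2 g3 g4 g5 g6 g7 g8 g9 g10
  have hq0 : (0 : ℝ) < q i := by linarith
  have hk0 : (0 : ℝ) < k i := by linarith
  have hkpos : 0 < k i := by exact_mod_cast hk0
  have hkn : (k i : ℝ) ^ 2 ≤ n i := by exact_mod_cast g4
  have hn0 : (0 : ℝ) < n i := lt_of_lt_of_le (by positivity) hkn
  have hK1 : (1 : ℝ) ≤ K := by exact_mod_cast hK
  have hGi' : (Fintype.card (G i) : ℝ) = n i := by exact_mod_cast hGi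
  have hC1 : (1 : ℝ) ≤ C' := by exact_mod_cast hC
  rw [pow_zero, mul_one, one_mul] at g7
  rw [one_mul] at g8 g10
  rw [one_mul] at g9
  -- the five events
  have e1 : pr (fun a : Fin (k i) → G i => ¬ ∀ J, 1 ≤ J → J ≤ j →
      UTgood J (mm C' (k i) (NU j (q i))) (rU j (q i) (k i))
        (ε * th (NU j (q i)) ^ J * Fintype.card (G i)) a) ≤ δ / 6 := by
    refine (pr_forall_le j _ (Real.exp (-(q i : ℝ))) ?_).trans g7
    intro J _ hJj
    have hth := th_pos (NU j (q i))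
    have := pr_not_UTgood (G := G i) (J := J) (k := k i) (mm C' (k i) (NU j (q i)))
      (rU j (q i) (k i)) (ε * th (NU j (q i)) ^ J * Fintype.card (G i)) (by
        rw [hGi']; positivity)
    rw [hGi'] at this ⊢
    exact this.trans (g5 J hJj)
  have e2 : pr (fun a : Fin (k i) → G i => ¬ ∀ J, 1 ≤ J → J ≤ j →
      LTgood J (mm C' (k i) (q i)) (2 * (th (q i) ^ 2 * (C' * k i)))
        ((j ^ 2 * DA j C' / ε) * th (q i) ^ J * k i) (q i)
        (4 * ε * th (q i) ^ J * Fintype.card (G i)) a) ≤ δ / 6 := by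
    refine (pr_forall_le j _ (Real.exp (-(q i : ℝ))) ?_).trans g7
    intro J hJ1 hJj
    have hth := th_pos (q i)
    have hDA : 0 < DA j C' := by unfold DA; positivity
    have hj0 : (0 : ℝ) < j := by exact_mod_cast hj
    obtain ⟨hm, hall⟩ := g6
    obtain ⟨ha, hb⟩ := hall J hJ1 hJj
    have := pr_not_LTgood (G := G i) (J := J) hkpos (mm C' (k i) (q i))
      (2 * (th (q i) ^ 2 * (C' * k i))) ((j ^ 2 * DA j C' / ε) * th (q i) ^ J * k i) (q i)
      (4 * ε * th (q i) ^ J * Fintype.card (G i)) (ε * th (q i) ^ J * n i) hm (by positivity)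
      (by positivity) hq0 (by positivity) (by rw [hGi']; exact ha)
    rw [hGi'] at this ⊢
    exact this.trans hb
  have e3 : pr (fun a : Fin (k i) → G i => ¬ UTgood 2 1 (q i) 1 a) ≤ δ / 6 := by
    have := pr_not_UTgood (G := G i) (J := 2) (k := k i) 1 (q i) 1 one_pos
    rw [hGi'] at this
    refine this.trans (le_trans ?_ g9)
    rw [pow_one]
    have hM : (n i : ℝ) * (k i * ((1 : ℕ) : ℝ) / n i) ^ 2 ≤ 1 := by
      rw [Nat.cast_one, mul_one, div_pow]
      have : (n i : ℝ) * ((k i : ℝ) ^ 2 / (n i : ℝ) ^ 2) = (k i : ℝ) ^ 2 / n i := by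
        field_simp
      rw [this, div_le_one hn0]
      exact hkn
    have hM0 : 0 ≤ (n i : ℝ) * (k i * ((1 : ℕ) : ℝ) / n i) ^ 2 := by positivity
    set M := (n i : ℝ) * (k i * ((1 : ℕ) : ℝ) / n i) ^ 2
    have hM1 : M / (M + 1) ≤ Real.exp (-(1 / 2)) := by
      have : M / (M + 1) ≤ 1 / 2 := by
        rw [div_le_div_iff₀ (by positivity) (by norm_num)]
        linarith
      refine this.trans ?_
      have := Real.add_one_le_exp (-(1 / 2 : ℝ))
      linarith
    have hM2 : (M / (M + 1)) ^ (q i) ≤ Real.exp (-(1 / 2 * q i)) := by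
      calc (M / (M + 1)) ^ (q i) ≤ (Real.exp (-(1 / 2))) ^ (q i) := by gcongr
        _ = _ := by
            rw [← Real.exp_nat_mul]
            congr 1
            ring
    gcongr
  have e4 : pr (fun a : Fin (k i) → G i => ¬ CharBd (2 * √(8 * k i * q i) ^ 2) a) ≤ δ / 6 := by
    have := pr_not_CharBd (G := G i) hkpos √(8 * k i * q i) (Real.sqrt_nonneg _)
    rw [hGi'] at this
    refine this.trans (le_trans ?_ g8)
    rw [Real.sq_sqrt (by positivity)]
    have e : -(8 * (k i : ℝ) * q i) / (2 * (4 * k i)) = -(q i : ℝ) := by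
      field_simp
      norm_num
    rw [e, pow_one]
    have h9 : 0 < Real.exp (-(q i : ℝ)) := Real.exp_pos _
    have h10 : (n i : ℝ) * (4 * Real.exp (-(q i : ℝ))) = 4 * n i * Real.exp (-(q i : ℝ)) := by ring
    have h11 : 4 * ((n i : ℝ) + 1) * Real.exp (-(q i : ℝ)) =
        4 * n i * Real.exp (-(q i : ℝ)) + 4 * Real.exp (-(q i : ℝ)) := by ring
    rw [h10, h11]
    linarith only [h9]
  have e5 : pr (fun a : Fin (k i) → G i =>
      ¬ DBgood K r' η √(2 * k i * q i) √(8 * K ^ 2 * k i ^ 3 * q i) a) ≤ δ / 6 := by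
    have hr0 : (0 : ℝ) < r' := by
      have : 0 < r' := by omega
      exact_mod_cast this
    have hr8 : 8 * (K : ℝ) ≤ r' := by exact_mod_cast hr'
    have := pr_not_DBgood (G := G i) (k := k i) h2i.2 h2i.1 hkpos K r' hK (by omega) η
      √(2 * k i * q i) √(8 * K ^ 2 * k i ^ 3 * q i) hη (Real.sqrt_nonneg _) (Real.sqrt_nonneg _)
      (by
        rw [hGi']
        have h3 : (K : ℝ) ≤ k i := by linarith only [g2, hK1]
        calc (k i : ℝ) * K ≤ k i * k i := by gcongr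
          _ = (k i : ℝ) ^ 2 := by ring
          _ ≤ n i := hkn) (by
        rw [hGi']
        have h3 : (k i : ℝ) / r' * K ≤ k i / 8 := by
          rw [div_mul_eq_mul_div, div_le_div_iff₀ hr0 (by norm_num)]
          calc (k i : ℝ) * K * 8 = k i * (8 * K) := by ring
            _ ≤ k i * r' := by gcongr
        calc 2 * ((k i : ℝ) / r' + 1) * (k i * K) = 2 * k i * (k i / r' * K) + 2 * k i * K := by ring
          _ ≤ 2 * k i * (k i / 8) + 2 * k i * (k i / 8) := by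
              have : (K : ℝ) ≤ k i / 8 := by linarith
              gcongr
          _ = (k i : ℝ) ^ 2 / 2 := by ring
          _ ≤ _ := by gcongr)
    rw [hGi'] at this
    refine this.trans (le_trans ?_ g10)
    rw [Real.sq_sqrt (by positivity), Real.sq_sqrt (by positivity)]
    have ea : -(8 * (K : ℝ) ^ 2 * (k i : ℝ) ^ 3 * q i) / (2 * (4 * K ^ 2 * (k i : ℝ) ^ 3)) =
        -(q i : ℝ) := by
      field_simp
      norm_num
    have eb : -(2 * (k i : ℝ) * q i) / (2 * k i) = -(q i : ℝ) := by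
      field_simp
    rw [ea, eb]
    set X := Real.exp (-(q i : ℝ)) with hX
    have hX0 : 0 < X := Real.exp_pos _
    set z : ℝ := (n i : ℝ) + 1 with hz
    have hz1 : 1 ≤ z := by rw [hz]; linarith
    have hnz : (n i : ℝ) ≤ z := by rw [hz]; linarith
    have e7 : 2 * X + (n i : ℝ) * (r' : ℝ) ^ 2 * ((4 * n i + 1) * X + ((n i : ℝ) ^ 2 + n i) * X) ≤
        (2 + 7 * (r' : ℝ) ^ 2) * z ^ 3 * X := by
      have e8 : (n i : ℝ) * (r' : ℝ) ^ 2 * ((4 * n i + 1) * X + ((n i : ℝ) ^ 2 + n i) * X) ≤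
          z * (r' : ℝ) ^ 2 * ((4 * z + 1) * X + (z ^ 2 + z) * X) := by gcongr
      have e9 : z * (r' : ℝ) ^ 2 * ((4 * z + 1) * X + (z ^ 2 + z) * X) ≤
          7 * (r' : ℝ) ^ 2 * z ^ 3 * X := by
        have e10 : (4 * z + 1) * X + (z ^ 2 + z) * X ≤ 7 * z ^ 2 * X := by
          have z1 : z ≤ z ^ 2 := le_self_pow₀ hz1 (by norm_num)
          have z2 : (4 * z + 1) + (z ^ 2 + z) ≤ 7 * z ^ 2 := by linarith only [z1, hz1]
          have z3 := mul_le_mul_of_nonneg_right z2 hX0.le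
          linarith only [z3]
        calc z * (r' : ℝ) ^ 2 * ((4 * z + 1) * X + (z ^ 2 + z) * X)
            ≤ z * (r' : ℝ) ^ 2 * (7 * z ^ 2 * X) := by gcongr
          _ = _ := by ring
      have e11 : 2 * X ≤ 2 * z ^ 3 * X := by
        have z4 : 1 ≤ z ^ 3 := one_le_pow₀ hz1
        have z5 := mul_le_mul_of_nonneg_right z4 hX0.le
        linarith only [z5]
      linarith only [e8, e9, e11]
    calc z ^ K * (2 * X + (n i : ℝ) * (r' : ℝ) ^ 2 *
        ((4 * n i + 1) * X + ((n i : ℝ) ^ 2 + n i) * X))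
        ≤ z ^ K * ((2 + 7 * (r' : ℝ) ^ 2) * z ^ 3 * X) := by gcongr
      _ = _ := by rw [pow_add]; ring
  unfold Good
  refine pr_and_not_le.trans ?_
  refine (add_le_add e1 (pr_and_not_le.trans (add_le_add e2 (pr_and_not_le.trans
    (add_le_add e3 (pr_and_not_le.trans (add_le_add e4 e5))))))).trans ?_
  linarith

end Cover
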